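import Pool.Agent.P.MP_878f14_gt.HT.Inv

/-! Conjugation by homotheties; realising a homothety on a ball by an element of `Gc n`. -/

namespace Pool.Agent.P.MP_878f14_gt.HT

open scoped ContDiff
open Metric

variable {n : ℕ} {e : Pm n} {l ρ : ℝ} {m c : V n}

theorem aff_one (c : V n) : aff 1 c = tr c := by
  ext1 x; rw [aff_apply one_ne_zero]; simp

theorem aff_mul {l' : ℝ} (hl : l ≠ 0) (hl' : l' ≠ 0) (m m' : V n) :
    aff l m * aff l' m' = aff (l * l') (l • m' + m) := by
  ext1 x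
  rw [Equiv.Perm.mul_apply, aff_apply hl, aff_apply hl', aff_apply (mul_ne_zero hl hl')]
  module

theorem aff_inv (hl : l ≠ 0) (m : V n) : (aff l m)⁻¹ = aff l⁻¹ (-(l⁻¹ • m)) := by
  ext1 x
  rw [aff_inv_apply hl, aff_apply (inv_ne_zero hl), smul_sub, sub_eq_add_neg]

theorem aff_conj_tr (hl : l ≠ 0) (m c : V n) :
    aff l m * tr c * (aff l m)⁻¹ = tr (l • c) := by
  ext1 x
  rw [Equiv.Perm.mul_apply, Equiv.Perm.mul_apply, aff_inv_apply hl, aff_apply hl, tr_apply,
    tr_apply, smul_add, smul_inv_smul₀ hl]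
  abel

theorem dp_conj_aff (hl : l ≠ 0) (m : V n) (e : Pm n) :
    dp (aff l m * e * (aff l m)⁻¹) = fun x => l • dp e (l⁻¹ • x + -(l⁻¹ • m)) := by
  ext1 x
  have h : l⁻¹ • x + -(l⁻¹ • m) = l⁻¹ • (x - m) := by rw [smul_sub, sub_eq_add_neg]
  simp only [dp]
  rw [Equiv.Perm.mul_apply, Equiv.Perm.mul_apply, aff_inv_apply hl, aff_apply hl, h,
    smul_sub l (e _), smul_inv_smul₀ hl]
  abel

theorem aff_zero (m : V n) : aff 0 m = 1 := by simp [aff]

theorem sm_conj_aff (he : Sm (dp e)) (l : ℝ) (m : V n) :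
    Sm (dp (aff l m * e * (aff l m)⁻¹)) := by
  by_cases hl : l = 0
  · subst hl
    simpa [aff_zero] using he
  · rw [dp_conj_aff hl]
    exact (he.comp_aff _ _).const_smul l

theorem sn_conj_aff (he : Sm (dp e)) (hl : 0 < l) (m : V n) (r : ℕ) :
    sn r (dp (aff l m * e * (aff l m)⁻¹)) = l / l ^ r * sn r (dp e) := by
  rw [dp_conj_aff hl.ne', sn_const_smul (he.comp_aff _ _), sn_comp_aff he (inv_ne_zero hl.ne'),
    abs_of_pos hl, abs_of_pos (inv_pos.2 hl), inv_pow, div_eq_mul_inv, mul_assoc]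

theorem sn_one_conj_aff (he : Sm (dp e)) (hl : 0 < l) (m : V n) :
    sn 1 (dp (aff l m * e * (aff l m)⁻¹)) = sn 1 (dp e) := by
  rw [sn_conj_aff he hl, pow_one, div_self hl.ne', one_mul]

theorem aff_dist (hl : 0 < l) (m c x : V n) : dist (aff l m x) (l • c + m) = l * dist x c := by
  rw [aff_apply hl.ne', dist_add_right, dist_smul₀, Real.norm_of_nonneg hl.le]

theorem aff_image_ball (hl : 0 < l) (m c : V n) (ρ : ℝ) :
    aff l m '' ball c ρ = ball (l • c + m) (l * ρ) := by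
  ext y
  obtain ⟨x, rfl⟩ := (aff l m).surjective y
  rw [(aff l m).injective.mem_set_image, mem_ball, mem_ball, aff_dist hl,
    mul_lt_mul_iff_right₀ hl]

theorem aff_image_closedBall (hl : 0 < l) (m c : V n) (ρ : ℝ) :
    aff l m '' closedBall c ρ = closedBall (l • c + m) (l * ρ) := by
  ext y
  obtain ⟨x, rfl⟩ := (aff l m).surjective y
  rw [(aff l m).injective.mem_set_image, mem_closedBall, mem_closedBall, aff_dist hl,
    mul_le_mul_iff_right₀ hl]

theorem Fix.conj_aff_ball (h : Fix (ball c ρ) e) (hl : 0 < l) (m : V n) :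
    Fix (ball (l • c + m) (l * ρ)) (aff l m * e * (aff l m)⁻¹) := by
  rw [← aff_image_ball hl]
  exact h.conj _

theorem Fix.conj_aff (h : Fix (closedBall c ρ) e) (hl : 0 < l) (m : V n) :
    Fix (closedBall (l • c + m) (l * ρ)) (aff l m * e * (aff l m)⁻¹) := by
  rw [← aff_image_closedBall hl]
  exact h.conj _

theorem dp_conj_tr (c : V n) (e : Pm n) :
    dp (tr c * e * (tr c)⁻¹) = fun x => dp e (x + -c) := by
  ext1 x
  simp only [dp]
  rw [Equiv.Perm.mul_apply, Equiv.Perm.mul_apply, tr_inv_apply, tr_apply, sub_eq_add_neg x c]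
  abel

theorem sm_conj_tr (he : Sm (dp e)) (c : V n) : Sm (dp (tr c * e * (tr c)⁻¹)) := by
  rw [dp_conj_tr]; exact he.comp_add _

theorem sn_conj_tr (c : V n) (e : Pm n) (r : ℕ) :
    sn r (dp (tr c * e * (tr c)⁻¹)) = sn r (dp e) := by
  rw [dp_conj_tr, sn_comp_add]

theorem conj_aff_mem (l : ℝ) (m : V n) (he : e ∈ Gc n) : aff l m * e * (aff l m)⁻¹ ∈ Gc n := by
  obtain ⟨M, -, hM⟩ := Gc.fix (⟨e, he⟩ : Gc n)
  have h1 : Sm (dp e) := Gc.sm (⟨e, he⟩ : Gc n)
  have h2 : Sm (dp e⁻¹) := Gc.sm (⟨e⁻¹, (Gc n).inv_mem he⟩ : Gc n)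
  by_cases hl : l = 0
  · subst hl
    simpa [aff_zero] using he
  have h3 : (aff l m * e * (aff l m)⁻¹)⁻¹ = aff l m * e⁻¹ * (aff l m)⁻¹ := by group
  refine mem_Gc_of (sm_conj_aff h1 l m) (h3 ▸ sm_conj_aff h2 l m) (Fix.conj hM (aff l m)) ?_
  have h4 : Continuous fun x : V n => aff l m x := by
    have : (fun x : V n => aff l m x) = fun x => l • x + m := funext fun x => aff_apply hl m x
    rw [this]
    fun_prop
  exact ((isCompact_closedBall (0 : V n) M).image h4).isBounded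

/-- conjugation by a homothety -/
noncomputable def cG (l : ℝ) (m : V n) : Gc n →* Gc n where
  toFun g := ⟨aff l m * g * (aff l m)⁻¹, conj_aff_mem l m g.2⟩
  map_one' := by ext1; simp
  map_mul' g h := by ext1; simp [mul_assoc]

theorem coe_cG (l : ℝ) (m : V n) (g : Gc n) :
    (cG l m g : Pm n) = aff l m * g * (aff l m)⁻¹ := rfl

theorem cG_cG {l' : ℝ} (hl : l ≠ 0) (hl' : l' ≠ 0) (m m' : V n) (g : Gc n) :
    cG l m (cG l' m' g) = cG (l * l') (l • m' + m) g := by
  ext1
  rw [coe_cG, coe_cG, coe_cG, ← aff_mul hl hl']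
  group

theorem cG_one (g : Gc n) : cG 1 0 g = g := by
  ext1
  rw [coe_cG, aff_one, tr_zero]
  simp

/-- One small step: `id + χ • ((l - 1) • (x - c) + m)` with a bump `χ` equal to one on
`closedBall c a` and vanishing off `ball c b` (`exists_bump_ball`, `sm_smul_of_van`, `mkG`); the
displacement is `(l - 1) • u + ∑ d, m d • v d` with fixed `Sm` functions `u`, `v d`. -/
theorem aff_step (c : V n) {a b κ : ℝ} (hab : a < b) (hκ : 0 < κ) : ∃ η : ℝ, 0 < η ∧
    ∀ (l : ℝ) (m : V n), |l - 1| ≤ η → ‖m‖ ≤ η → ∃ g : Gc n, sn 1 (dp (g : Pm n)) ≤ κ ∧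
      Fix (ball c b) (g : Pm n) ∧ ∀ x ∈ closedBall c a, (g : Pm n) x = c + l • (x - c) + m := by
  obtain ⟨χ, hχ, -, hv, h1⟩ := exists_bump_ball c hab
  have hu : Sm fun x : V n => χ x • (x - c) :=
    sm_smul_of_van hχ.contDiff hv isBounded_ball (contDiff_id.sub contDiff_const)
  have hw : ∀ d : Fin n, Sm fun x : V n => χ x • sg d (1 : ℝ) := fun d =>
    hχ.smul (sm_const _)
  obtain ⟨A, hA⟩ : ∃ A : ℝ, A = sn 1 (fun x : V n => χ x • (x - c)) +
    ∑ d : Fin n, sn 1 (fun x : V n => χ x • sg d (1 : ℝ)) := ⟨_, rfl⟩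
  have hA0 : 0 ≤ A := by
    rw [hA]
    exact add_nonneg (sn_nonneg _ _) (Finset.sum_nonneg fun d _ => sn_nonneg _ _)
  have hk : 0 < min κ (1 / 2) := lt_min hκ (by norm_num)
  refine ⟨min κ (1 / 2) / (A + 1), by positivity, fun l m hl hm => ?_⟩
  set η : ℝ := min κ (1 / 2) / (A + 1) with hη
  have hη0 : 0 ≤ η := by positivity
  have hs1 : Sm fun x : V n => (l - 1) • (χ x • (x - c)) := hu.const_smul _
  have hs2 : ∀ d ∈ (Finset.univ : Finset (Fin n)),
      Sm fun x : V n => m d • (χ x • sg d (1 : ℝ)) := fun d _ => (hw d).const_smul _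
  have hs := hs1.add (Sm.sum hs2)
  have hb : sn 1 (fun x : V n => (l - 1) • (χ x • (x - c)) +
      ∑ d, m d • (χ x • sg d (1 : ℝ))) ≤ min κ (1 / 2) := by
    have b1 := sn_add_le hs1 (Sm.sum hs2) 1
    have b2 := sn_sum_le hs2 1
    have b3 : sn 1 (fun x : V n => (l - 1) • (χ x • (x - c))) ≤
        η * sn 1 (fun x : V n => χ x • (x - c)) := by
      rw [sn_const_smul hu]
      exact mul_le_mul_of_nonneg_right hl (sn_nonneg _ _)
    have b4 : ∑ d, sn 1 (fun x : V n => m d • (χ x • sg d (1 : ℝ))) ≤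
        ∑ d : Fin n, η * sn 1 (fun x : V n => χ x • sg d (1 : ℝ)) := by
      refine Finset.sum_le_sum fun d _ => ?_
      rw [sn_const_smul (hw d)]
      exact mul_le_mul_of_nonneg_right ((abs_apply_le m d).trans hm) (sn_nonneg _ _)
    rw [← Finset.mul_sum] at b4
    have b5 : η * A ≤ min κ (1 / 2) := by
      rw [hη, div_mul_eq_mul_div, div_le_iff₀ (by positivity)]
      nlinarith
    rw [hA, mul_add] at b5
    linarith
  have hvan : Van (ball c b) fun x : V n => (l - 1) • (χ x • (x - c)) +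
      ∑ d, m d • (χ x • sg d (1 : ℝ)) := by
    intro x hx
    simp [hv x hx]
  obtain ⟨g, hg⟩ := mkG hs (hb.trans (min_le_right _ _)) hvan isBounded_ball
  refine ⟨g, ?_, fix_iff_van.2 ?_, fun x hx => ?_⟩
  · rw [hg]; exact hb.trans (min_le_left _ _)
  · rw [hg]; exact hvan
  · rw [apply_eq_add_dp, hg]
    simp only [h1 x hx, one_smul, smul_sg, mul_one, sum_sg]
    module

/-- Take `a` with `ρ ≤ a`, `l ρ ≤ a`, `a < R`. The ratios `λ` between `1` and `l` that are realised
on `closedBall c ρ` are stable under multiplication by factors close to one (`aff_step` with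
`m = 0`); write `l = (l ^ (1 / N)) ^ N`. -/
theorem exists_aff (c : V n) {R : ℝ} (hl : 0 < l) (hρ : 0 ≤ ρ) (h1 : ρ < R) (h2 : l * ρ < R) :
    ∃ g : Gc n, Fix (ball c R) (g : Pm n) ∧
      ∀ x ∈ closedBall c ρ, (g : Pm n) x = c + l • (x - c) := by
  obtain ⟨η, hη, hstep⟩ := aff_step c (max_lt h1 h2) one_pos
  have hlim : Filter.Tendsto (fun N : ℕ => Real.exp (Real.log l / N)) Filter.atTop (nhds 1) := by
    have := (Real.continuous_exp.tendsto 0).comp
      (tendsto_const_div_atTop_nhds_zero_nat (Real.log l))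
    rwa [Real.exp_zero] at this
  obtain ⟨N, hN, hN1⟩ :=
    ((hlim.eventually (closedBall_mem_nhds 1 hη)).and (Filter.eventually_ge_atTop 1)).exists
  set t : ℝ := Real.exp (Real.log l / N) with ht
  have ht0 : 0 < t := Real.exp_pos _
  have hN0 : (N : ℝ) ≠ 0 := by positivity
  have htN : t ^ N = l := by
    rw [ht, ← Real.exp_nat_mul, mul_div_cancel₀ _ hN0, Real.exp_log hl]
  have hb : ∀ k, k ≤ N → t ^ k * ρ ≤ max ρ (l * ρ) := by
    intro k hk
    rcases le_total t 1 with h | h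
    · refine le_trans ?_ (le_max_left _ _)
      have := pow_le_one₀ (n := k) ht0.le h
      nlinarith
    · refine le_trans ?_ (le_max_right _ _)
      rw [← htN]
      exact mul_le_mul_of_nonneg_right (pow_le_pow_right₀ h hk) hρ
  obtain ⟨s, -, hs1, hs2⟩ := hstep t 0 (by simpa [Real.dist_eq] using hN) (by simpa using hη.le)
  have key : ∀ k, k ≤ N → ∃ g : Gc n, Fix (ball c R) (g : Pm n) ∧
      ∀ x ∈ closedBall c ρ, (g : Pm n) x = c + t ^ k • (x - c) := by
    intro k
    induction k with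
    | zero => exact fun _ => ⟨1, fix_one _, fun x _ => by simp⟩
    | succ k ih =>
      intro hk
      obtain ⟨g, hg1, hg2⟩ := ih (by omega)
      refine ⟨s * g, hs1.mul hg1, fun x hx => ?_⟩
      have hm : c + t ^ k • (x - c) ∈ closedBall c (max ρ (l * ρ)) := by
        rw [mem_closedBall, dist_self_add_left, norm_smul, Real.norm_of_nonneg (by positivity)]
        refine le_trans ?_ (hb k (by omega))
        rw [mem_closedBall, dist_eq_norm] at hx
        exact mul_le_mul_of_nonneg_left hx (by positivity)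
      rw [Subgroup.coe_mul, Equiv.Perm.mul_apply, hg2 x hx, hs2 _ hm, add_sub_cancel_left,
        smul_smul, add_zero, pow_succ']
  rw [← htN]
  exact key N le_rfl

end Pool.Agent.P.MP_878f14_gt.HT
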