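import Mathlib

/-! Products of commutators and central extensions given by a cocycle. -/

namespace Pool.Agent.P.MP_878f14_gt.HT

open scoped commutatorElement

section Phi

variable {Γ E : Type*} [Group Γ] [Group E]

/-- product of the commutators of a list of pairs -/
def Phi (x : List (Γ × Γ)) : Γ := (x.map fun p => ⁅p.1, p.2⁆).prod

/-- product of the commutators of the lifts -/
def PhiL (s : Γ → E) (x : List (Γ × Γ)) : E := Phi (x.map (Prod.map s s))

@[simp] theorem Phi_nil : Phi ([] : List (Γ × Γ)) = 1 := rfl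

@[simp] theorem Phi_cons (p : Γ × Γ) (x : List (Γ × Γ)) : Phi (p :: x) = ⁅p.1, p.2⁆ * Phi x := by
  simp [Phi]

theorem Phi_append (x y : List (Γ × Γ)) : Phi (x ++ y) = Phi x * Phi y := by
  simp [Phi]

theorem Phi_rev (x : List (Γ × Γ)) : Phi (x.reverse.map Prod.swap) = (Phi x)⁻¹ := by
  induction x with
  | nil => simp
  | cons p x ih =>
    rw [List.reverse_cons, List.map_append, Phi_append, ih]
    simp

theorem map_Phi (f : Γ →* E) (x : List (Γ × Γ)) : f (Phi x) = Phi (x.map (Prod.map f f)) := by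
  induction x with
  | nil => simp
  | cons p x ih => simp [ih, map_commutatorElement]

theorem Phi_mem {H : Subgroup Γ} {x : List (Γ × Γ)} (h : ∀ p ∈ x, p.1 ∈ H ∧ p.2 ∈ H) :
    Phi x ∈ ⁅H, H⁆ := by
  induction x with
  | nil => simp
  | cons p x ih =>
    rw [Phi_cons]
    exact mul_mem (Subgroup.commutator_mem_commutator (h p (by simp)).1 (h p (by simp)).2)
      (ih fun p' hp' => h p' (by simp [hp']))

theorem exists_Phi_of_mem {H : Subgroup Γ} {g : Γ} (hg : g ∈ ⁅H, H⁆) :
    ∃ x : List (Γ × Γ), (∀ p ∈ x, p.1 ∈ H ∧ p.2 ∈ H) ∧ Phi x = g := by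
  rw [Subgroup.commutator_def] at hg
  induction hg using Subgroup.closure_induction with
  | mem g hg =>
    obtain ⟨a, ha, b, hb, rfl⟩ := hg
    exact ⟨[(a, b)], by simp [ha, hb], by simp⟩
  | one => exact ⟨[], by simp, rfl⟩
  | mul g g' _ _ ih ih' =>
    obtain ⟨x, hx, rfl⟩ := ih
    obtain ⟨y, hy, rfl⟩ := ih'
    refine ⟨x ++ y, fun p hp => ?_, Phi_append x y⟩
    rcases List.mem_append.1 hp with h | h
    exacts [hx p h, hy p h]
  | inv g _ ih =>
    obtain ⟨x, hx, rfl⟩ := ih
    refine ⟨_, fun p hp => ?_, Phi_rev x⟩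
    obtain ⟨p', hp', rfl⟩ := List.mem_map.1 hp
    exact (hx p' (List.mem_reverse.1 hp')).symm

/-- commutators do not see central factors -/
theorem comm_congr_of_ker (π : E →* Γ) (hc : ∀ e, π e = 1 → e ∈ Subgroup.center E)
    {a a' b b' : E} (ha : π a = π a') (hb : π b = π b') : ⁅a, b⁆ = ⁅a', b'⁆ := by
  have h1 := Subgroup.mem_center_iff.1 (hc (a'⁻¹ * a) (by simp [ha]))
  have h2 := Subgroup.mem_center_iff.1 (hc (b'⁻¹ * b) (by simp [hb]))
  obtain ⟨z, rfl⟩ : ∃ z, a = a' * z := ⟨a'⁻¹ * a, by group⟩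
  obtain ⟨w, rfl⟩ : ∃ w, b = b' * w := ⟨b'⁻¹ * b, by group⟩
  simp only [inv_mul_cancel_left] at h1 h2
  simp only [commutatorElement_def, mul_inv_rev]
  calc a' * z * (b' * w) * (z⁻¹ * a'⁻¹) * (w⁻¹ * b'⁻¹)
      = a' * (z * (b' * w)) * z⁻¹ * a'⁻¹ * w⁻¹ * b'⁻¹ := by group
    _ = a' * ((b' * w) * z) * z⁻¹ * a'⁻¹ * w⁻¹ * b'⁻¹ := by rw [h1]
    _ = a' * b' * (w * a'⁻¹) * w⁻¹ * b'⁻¹ := by group
    _ = a' * b' * (a'⁻¹ * w) * w⁻¹ * b'⁻¹ := by rw [h2]
    _ = a' * b' * a'⁻¹ * b'⁻¹ := by group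

/-- the product of commutators depends only on the images in the quotient -/
theorem Phi_congr_of_ker (π : E →* Γ) (hc : ∀ e, π e = 1 → e ∈ Subgroup.center E)
    {x y : List (E × E)} (h : x.map (Prod.map π π) = y.map (Prod.map π π)) : Phi x = Phi y := by
  induction x generalizing y with
  | nil =>
    have : y = [] := by simpa using h.symm
    rw [this]
  | cons p x ih =>
    cases y with
    | nil => simp at h
    | cons p' y =>
      simp only [List.map_cons, List.cons.injEq, Prod.ext_iff, Prod.map_fst, Prod.map_snd] at h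
      rw [Phi_cons, Phi_cons, ih h.2, comm_congr_of_ker π hc h.1.1 h.1.2]

/-- padding a short list to a tuple of fixed length -/
theorem exists_tuple_of_length_le {α : Type*} (P : α → Prop) (o : α) (ho : P o) {n : ℕ}
    (x : List α) (hl : x.length ≤ n) (hx : ∀ p ∈ x, P p) :
    ∃ y : Fin n → α, (∀ j, P (y j)) ∧ List.ofFn y = x ++ List.replicate (n - x.length) o := by
  have hlen : (x ++ List.replicate (n - x.length) o).length = n := by simp; omega
  refine ⟨fun j => (x ++ List.replicate (n - x.length) o).get (j.cast hlen.symm), fun j => ?_, ?_⟩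
  · have := List.get_mem (x ++ List.replicate (n - x.length) o) (j.cast hlen.symm)
    rcases List.mem_append.1 this with h | h
    · exact hx _ h
    · have h' := List.eq_of_mem_replicate h
      beta_reduce
      rw [h']; exact ho
  · apply List.ext_get (by simp; omega)
    intro k h1 h2
    simp

theorem Phi_replicate_one (n : ℕ) : Phi (List.replicate n ((1 : Γ), (1 : Γ))) = 1 := by
  induction n with
  | zero => simp
  | succ n ih => simp [List.replicate_succ, ih]

end Phi

/-- a normalised 2-cocycle -/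
structure Coc (Γ A : Type*) [Group Γ] [AddCommGroup A] where
  c : Γ → Γ → A
  coc : ∀ g h k, c g h + c (g * h) k = c g (h * k) + c h k
  one_one : c 1 1 = 0

section CE

variable {Γ A : Type*} [Group Γ] [AddCommGroup A]

theorem Coc.one_left (c : Coc Γ A) (g : Γ) : c.c 1 g = 0 := by
  have := c.coc 1 1 g
  simpa [c.one_one] using this

theorem Coc.one_right (c : Coc Γ A) (g : Γ) : c.c g 1 = 0 := by
  have := c.coc g 1 1
  simpa [c.one_one] using this

theorem Coc.inv_self (c : Coc Γ A) (g : Γ) : c.c g⁻¹ g = c.c g g⁻¹ := by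
  have := c.coc g g⁻¹ g
  simpa [c.one_left, c.one_right] using this.symm

/-- the central extension defined by a cocycle -/
@[ext] structure CE (c : Coc Γ A) where
  g : Γ
  a : A

variable {c : Coc Γ A}

instance : Mul (CE c) := ⟨fun u v => ⟨u.g * v.g, u.a + v.a + c.c u.g v.g⟩⟩
instance : One (CE c) := ⟨⟨1, 0⟩⟩
instance : Inv (CE c) := ⟨fun u => ⟨u.g⁻¹, -u.a - c.c u.g u.g⁻¹⟩⟩

@[simp] theorem CE.mul_g (u v : CE c) : (u * v).g = u.g * v.g := rfl
@[simp] theorem CE.mul_a (u v : CE c) : (u * v).a = u.a + v.a + c.c u.g v.g := rfl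
@[simp] theorem CE.one_g : (1 : CE c).g = 1 := rfl
@[simp] theorem CE.one_a : (1 : CE c).a = 0 := rfl
@[simp] theorem CE.inv_g (u : CE c) : u⁻¹.g = u.g⁻¹ := rfl
@[simp] theorem CE.inv_a (u : CE c) : u⁻¹.a = -u.a - c.c u.g u.g⁻¹ := rfl

instance : Group (CE c) := Group.ofLeftAxioms
  (fun u v w => by
    ext
    · simp [mul_assoc]
    · have := c.coc u.g v.g w.g
      simp only [CE.mul_a, CE.mul_g]
      linear_combination (norm := abel) this)
  (fun u => by ext <;> simp [c.one_left])
  (fun u => by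
    ext
    · simp
    · simp only [CE.mul_a, CE.inv_a, CE.inv_g, CE.one_a, c.inv_self]
      abel)

/-- the projection -/
def CE.pr (c : Coc Γ A) : CE c →* Γ where
  toFun u := u.g
  map_one' := rfl
  map_mul' _ _ := rfl

@[simp] theorem CE.pr_apply (u : CE c) : CE.pr c u = u.g := rfl

/-- the standard set-theoretic section -/
def CE.sec (c : Coc Γ A) (g : Γ) : CE c := ⟨g, 0⟩

theorem CE.central (u : CE c) (h : CE.pr c u = 1) : u ∈ Subgroup.center (CE c) := by
  rw [Subgroup.mem_center_iff]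
  intro v
  have h' : u.g = 1 := h
  ext <;> simp [h', c.one_left, c.one_right, add_comm]

end CE

section

variable {Γ A : Type*} [Group Γ] [AddCommGroup A] {c : Coc Γ A}

theorem Phi_eq_PhiL (x : List (CE c × CE c)) :
    Phi x = PhiL (CE.sec c) (x.map (Prod.map CE.g CE.g)) := by
  refine Phi_congr_of_ker (CE.pr c) CE.central ?_
  simp only [List.map_map]
  rfl

theorem PhiL_g (x : List (Γ × Γ)) : (PhiL (CE.sec c) x).g = Phi x := by
  have h := map_Phi (CE.pr c) (x.map (Prod.map (CE.sec c) (CE.sec c)))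
  rw [List.map_map] at h
  refine h.trans (congrArg Phi ?_)
  exact List.map_id'' (fun _ => rfl) x

end

section

variable {Γ E : Type*} [Group E]

theorem PhiL_append (s : Γ → E) (x y : List (Γ × Γ)) :
    PhiL s (x ++ y) = PhiL s x * PhiL s y := by
  induction x with
  | nil => simp [PhiL]
  | cons p x ih =>
    simp only [PhiL, List.cons_append, List.map_cons, Phi_cons] at ih ⊢
    rw [ih, mul_assoc]

theorem PhiL_rev (s : Γ → E) (x : List (Γ × Γ)) :
    PhiL s (x.reverse.map Prod.swap) = (PhiL s x)⁻¹ := by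
  rw [PhiL, PhiL, ← Phi_rev, ← List.map_reverse, List.map_map, List.map_map]
  rfl

theorem PhiL_replicate (s : Γ → E) (o : Γ) (n : ℕ) : PhiL s (List.replicate n (o, o)) = 1 := by
  induction n with
  | zero => simp [PhiL]
  | succ n ih =>
    simp only [PhiL, List.replicate_succ, List.map_cons, Phi_cons] at ih ⊢
    rw [ih]
    simp

theorem map_PhiL [Group Γ] (π : E →* Γ) {s : Γ → E} (hs : ∀ g, π (s g) = g) (x : List (Γ × Γ)) :
    π (PhiL s x) = Phi x := by
  rw [PhiL, map_Phi, List.map_map]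
  refine congrArg Phi (List.map_id'' (fun p => ?_) x)
  ext <;> simp [hs]

theorem PhiL_conj [Group Γ] (π : E →* Γ) (hc : ∀ e, π e = 1 → e ∈ Subgroup.center E) {s : Γ → E}
    (hs : ∀ g, π (s g) = g) (k : Γ) (x : List (Γ × Γ)) :
    PhiL s (x.map (Prod.map (fun g => k * g * k⁻¹) fun g => k * g * k⁻¹)) =
      s k * PhiL s x * (s k)⁻¹ := by
  have h := map_Phi (MulAut.conj (s k)).toMonoidHom (x.map (Prod.map s s))
  refine Eq.trans ?_ h.symm
  refine Phi_congr_of_ker π hc ?_
  simp only [List.map_map]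
  refine List.map_congr_left fun p _ => ?_
  ext <;> simp [hs]

end

section PhiA

variable {Γ A : Type*} [Group Γ] [AddCommGroup A]

/-- central component of the commutator of the standard lifts, for any function `c` -/
def comA (c : Γ → Γ → A) (g h : Γ) : A :=
  c g h + -c g g⁻¹ + c (g * h) g⁻¹ + -c h h⁻¹ + c (g * h * g⁻¹) h⁻¹

/-- central component of the product of commutators of the standard lifts -/
def PhiA (c : Γ → Γ → A) : List (Γ × Γ) → A
  | [] => 0
  | p :: x => comA c p.1 p.2 + PhiA c x + c ⁅p.1, p.2⁆ (Phi x)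

theorem PhiL_a (c : Coc Γ A) (x : List (Γ × Γ)) : (PhiL (CE.sec c) x).a = PhiA c.c x := by
  induction x with
  | nil => rfl
  | cons p x ih =>
    have h1 := PhiL_g (c := c) x
    simp only [PhiL] at ih h1
    simp only [PhiL, List.map_cons, Phi_cons, PhiA, CE.mul_a, ih, h1, commutatorElement_def,
      Prod.map_fst, Prod.map_snd, CE.mul_g, CE.inv_g, CE.inv_a, CE.sec, comA]
    abel

/-- evaluation of a tuple of pairs of families -/
def evT {ι Γ : Type*} {m : ℕ} (y : Fin m → (ι → Γ) × (ι → Γ)) (i : ι) : Fin m → Γ × Γ :=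
  fun k => ((y k).1 i, (y k).2 i)

theorem Phi_evT {ι : Type*} {m : ℕ} (y : Fin m → (ι → Γ) × (ι → Γ)) (i : ι) :
    Phi (List.ofFn y) i = Phi (List.ofFn (evT y i)) := by
  have h := map_Phi (Pi.evalMonoidHom (fun _ : ι => Γ) i) (List.ofFn y)
  rw [List.map_ofFn] at h
  exact h

end PhiA

end Pool.Agent.P.MP_878f14_gt.HT
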