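import Pool.Agent.P.MP_878f14_gt.HT.Ext

/-! Sections over small balls, gluing over finite covers, and the base of the descent. -/

namespace Pool.Agent.P.MP_878f14_gt.HT

open Filter Metric
open scoped commutatorElement

namespace Scale

variable {n : ℕ} {S : Scale}

variable (S n) in
/-- families of order `N` in balls of radius `l` are products of `n₀` commutators of order seven -/
def Solv (N n₀ : ℕ) (l : ℝ) : Prop := ∀ (c : V n) (g : S.ι → Pm n), g ∈ S.GF N (ball c l) →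
  ∃ x : Fin n₀ → (S.ι → Pm n) × (S.ι → Pm n),
    (∀ k, (x k).1 ∈ S.GF 7 (ball c (1 / 4)) ∧ (x k).2 ∈ S.GF 7 (ball c (1 / 4))) ∧
      ∀ᶠ i in S.F, Phi (List.ofFn x) i = g i

namespace Ext

variable {E : Type*} [Group E] (X : S.Ext n E)

/-- an equivariant homomorphic section over `U`, as a subgroup -/
def BSec (N : ℕ) (U : Set (V n)) (T : Subgroup E) : Prop :=
  T ≤ X.EE N U ∧ (∀ e ∈ X.EE N U, ∃ s ∈ T, X.q s = X.q e) ∧
    (∀ s ∈ T, X.q s = 1 → s = 1) ∧ ∀ w ∈ X.EB, ∀ s ∈ T, w * s * w⁻¹ ∈ T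

/-- a product of at most `n₀` commutators of elements of order seven near `c` -/
def BRep (n₀ : ℕ) (c : V n) (s : E) : Prop := ∃ x : List (E × E), x.length ≤ n₀ ∧
  (∀ p ∈ x, p.1 ∈ X.EE 7 (ball c (1 / 4)) ∧ p.2 ∈ X.EE 7 (ball c (1 / 4))) ∧ Phi x = s

variable {X} {N n₀ : ℕ} {l : ℝ} {c c' : V n} {s : E} {U U' : Set (V n)} {T T' : Subgroup E}

theorem brep_one : X.BRep n₀ c 1 := ⟨[], Nat.zero_le _, by simp, rfl⟩

theorem brep_inv (h : X.BRep n₀ c s) : X.BRep n₀ c s⁻¹ := by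
  obtain ⟨x, h1, h2, rfl⟩ := h
  refine ⟨x.reverse.map Prod.swap, by simpa using h1, fun p hp => ?_, Phi_rev x⟩
  obtain ⟨p', hp', rfl⟩ := List.mem_map.1 hp
  exact (h2 p' (List.mem_reverse.1 hp')).symm

theorem brep_conj {w : E} (hw : w ∈ X.EB) (h : X.BRep n₀ c s) : X.BRep n₀ c (w * s * w⁻¹) := by
  obtain ⟨x, h1, h2, rfl⟩ := h
  refine ⟨x.map (Prod.map (MulAut.conj w).toMonoidHom (MulAut.conj w).toMonoidHom),
    by simpa using h1, fun p hp => ?_, (map_Phi (MulAut.conj w).toMonoidHom x).symm⟩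
  obtain ⟨p', hp', rfl⟩ := List.mem_map.1 hp
  exact ⟨conj_EE hw (h2 p' hp').1, conj_EE hw (h2 p' hp').2⟩

theorem brep_ex (h : S.Solv n N n₀ l) {e : E} (he : e ∈ X.EE N (ball c l)) :
    ∃ s, X.BRep n₀ c s ∧ X.q s = X.q e := by
  obtain ⟨v, hv, hq⟩ := mem_EE.1 he
  obtain ⟨x, hx, hx'⟩ := h c v hv
  obtain ⟨y, hy, hq'⟩ := exists_lift_tuple (X := X) isBounded_ball x hx
  refine ⟨_, ⟨List.ofFn y, by simp, fun p hp => ?_, rfl⟩, by rw [hq', hq, gP_eq.2 hx']⟩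
  obtain ⟨k, rfl⟩ := List.mem_ofFn.1 hp
  exact hy k

theorem brep_uniq (H : X.HH (3 * n₀)) (hc : dist c' c ≤ 1 / 4) {s₁ s₂ s₃ : E}
    (h₁ : X.BRep n₀ c s₁) (h₂ : X.BRep n₀ c s₂) (h₃ : X.BRep n₀ c' s₃)
    (hq : X.q (s₁ * s₂) = X.q s₃) : s₁ * s₂ = s₃ := by
  obtain ⟨x, hx1, hx2, rfl⟩ := h₁
  obtain ⟨y, hy1, hy2, rfl⟩ := h₂
  obtain ⟨z, hz1, hz2, hz⟩ := brep_inv h₃
  have m1 : X.EE 7 (ball c (1 / 4)) ≤ X.EE 7 (ball c (1 / 2)) :=
    EE_mono le_rfl (ball_subset_ball (by norm_num))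
  have m2 : X.EE 7 (ball c' (1 / 4)) ≤ X.EE 7 (ball c (1 / 2)) :=
    EE_mono le_rfl (ball_subset_ball' (by linarith))
  have := H c (x ++ y ++ z) (by simp only [List.length_append]; omega) (fun p hp => by
    rcases List.mem_append.1 hp with hp | hp
    · rcases List.mem_append.1 hp with hp | hp
      · exact ⟨m1 (hx2 p hp).1, m1 (hx2 p hp).2⟩
      · exact ⟨m1 (hy2 p hp).1, m1 (hy2 p hp).2⟩
    · exact ⟨m2 (hz2 p hp).1, m2 (hz2 p hp).2⟩)
    (by rw [Phi_append, Phi_append, hz, map_mul, hq, map_inv, mul_inv_cancel])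
  rw [Phi_append, Phi_append, hz] at this
  exact mul_inv_eq_one.1 this

/-- the local section near `c` -/
def bT (h : S.Solv n N n₀ l) (H : X.HH (3 * n₀)) (c : V n) : Subgroup E where
  carrier := {s | s ∈ X.EE N (ball c l) ∧ X.BRep n₀ c s}
  one_mem' := ⟨one_mem _, brep_one⟩
  mul_mem' := fun {s s'} hs hs' => by
    obtain ⟨u, hu, hq⟩ := brep_ex h (mul_mem hs.1 hs'.1)
    refine ⟨mul_mem hs.1 hs'.1, ?_⟩
    rw [brep_uniq H (by simp) hs.2 hs'.2 hu hq.symm]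
    exact hu
  inv_mem' := fun hs => ⟨inv_mem hs.1, brep_inv hs.2⟩

theorem bT_sec (h : S.Solv n N n₀ l) (H : X.HH (3 * n₀)) (c : V n) :
    X.BSec N (ball c l) (bT h H c) := by
  refine ⟨fun s hs => hs.1, fun e he => ?_, fun s hs hq => ?_,
    fun w hw s hs => ⟨conj_EE hw hs.1, brep_conj hw hs.2⟩⟩
  · obtain ⟨s, hs, hq⟩ := brep_ex h he
    exact ⟨s, ⟨EE_congr he hq.symm, hs⟩, hq⟩
  · have := brep_uniq H (c' := c) (by simp) hs.2 brep_one brep_one (by simpa using hq)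
    simpa using this

theorem bT_com (h : S.Solv n N n₀ l) (H : X.HH (3 * n₀)) (hl : l ≤ 1 / 8) (c c' : V n) {u : E}
    (hu : u ∈ X.EE N (ball c l ∩ ball c' l)) : ∃ t ∈ bT h H c ⊓ bT h H c', X.q t = X.q u := by
  rcases (ball c l ∩ ball c' l).eq_empty_or_nonempty with h0 | ⟨y, hy, hy'⟩
  · rw [h0] at hu
    exact ⟨1, one_mem _, by rw [map_one, EE_empty hu]⟩
  · obtain ⟨t, ht, hq⟩ := (bT_sec h H c).2.1 u (EE_mono le_rfl Set.inter_subset_left hu)
    obtain ⟨t', ht', hq'⟩ := (bT_sec h H c').2.1 u (EE_mono le_rfl Set.inter_subset_right hu)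
    have hd : dist c' c ≤ 1 / 4 := by
      have := dist_triangle_left c' c y
      rw [mem_ball] at hy hy'
      linarith
    have e : t = t' := by
      simpa using brep_uniq H hd ht.2 brep_one ht'.2 (by rw [mul_one, hq, hq'])
    exact ⟨t, ⟨ht, e ▸ ht'⟩, hq⟩

theorem base_prod (hn : ∀ w ∈ T', ∀ s ∈ T, w * s * w⁻¹ ∈ T) {e : E}
    (he : e ∈ T ⊔ T') : ∃ s ∈ T, ∃ s' ∈ T', e = s * s' := by
  let P : Subgroup E :=
    { carrier := {e | ∃ s ∈ T, ∃ s' ∈ T', e = s * s'}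
      one_mem' := ⟨1, one_mem _, 1, one_mem _, (one_mul 1).symm⟩
      mul_mem' := by
        rintro _ _ ⟨s, hs, s', hs', rfl⟩ ⟨t, ht, t', ht', rfl⟩
        exact ⟨s * (s' * t * s'⁻¹), mul_mem hs (hn s' hs' t ht), s' * t', mul_mem hs' ht',
          by group⟩
      inv_mem' := by
        rintro _ ⟨s, hs, s', hs', rfl⟩
        exact ⟨s'⁻¹ * s⁻¹ * s'⁻¹⁻¹, hn _ (inv_mem hs') _ (inv_mem hs), s'⁻¹, inv_mem hs',
          by group⟩ }
  have key : T ⊔ T' ≤ P :=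
    sup_le (fun s hs => ⟨s, hs, 1, one_mem _, (mul_one s).symm⟩)
      (fun s hs => ⟨1, one_mem _, s, hs, (one_mul s).symm⟩)
  exact key he

theorem BSec.uniq (h : X.BSec N U T) {t : E} (hs : s ∈ T) (ht : t ∈ T) (hq : X.q s = X.q t) :
    s = t :=
  inv_mul_eq_one.1 (h.2.2.1 _ (mul_mem (inv_mem hs) ht)
    (by rw [map_mul, map_inv, hq, inv_mul_cancel]))

theorem BSec.glue (h : X.BSec N U T) (h' : X.BSec N U' T') (hU : IsOpen U) (hU' : IsOpen U')
    (hb : Bornology.IsBounded (U ∪ U'))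
    (com : ∀ u ∈ X.EE N (U ∩ U'), ∃ t ∈ T ⊓ T', X.q t = X.q u) : X.BSec N (U ∪ U') (T ⊔ T') := by
  have hn : ∀ w ∈ T', ∀ s ∈ T, w * s * w⁻¹ ∈ T := fun w hw s hs =>
    h.2.2.2 w (EE_le_EB (h'.1 hw)) s hs
  refine ⟨sup_le (h.1.trans (EE_mono le_rfl Set.subset_union_left))
    (h'.1.trans (EE_mono le_rfl Set.subset_union_right)),
    fun e he => ?_, fun e he hq => ?_, fun w hw e he => ?_⟩
  · obtain ⟨u, hu, u', hu', hq⟩ := frag_EE hU hU' hb he
    obtain ⟨s, hs, hq1⟩ := h.2.1 u hu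
    obtain ⟨s', hs', hq2⟩ := h'.2.1 u' hu'
    exact ⟨s * s', Subgroup.mul_mem_sup hs hs', by rw [hq, map_mul, map_mul, hq1, hq2]⟩
  · obtain ⟨s, hs, s', hs', rfl⟩ := base_prod hn he
    have h4 : X.q s'⁻¹ = X.q s := by
      rw [map_inv]; exact (eq_inv_of_mul_eq_one_left (by rw [← map_mul, hq])).symm
    obtain ⟨t, ht, hqt⟩ := com s (EE_inter (h.1 hs) (EE_congr (h'.1 (inv_mem hs')) h4))
    rw [← h.uniq ht.1 hs hqt, h'.uniq ht.2 (inv_mem hs') (hqt.trans h4.symm), inv_mul_cancel]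
  · obtain ⟨s, hs, s', hs', rfl⟩ := base_prod hn he
    have h5 : w * (s * s') * w⁻¹ = (w * s * w⁻¹) * (w * s' * w⁻¹) := by group
    rw [h5]
    exact Subgroup.mul_mem_sup (h.2.2.2 w hw s hs) (h'.2.2.2 w hw s' hs')

theorem bsec_cover (h : S.Solv n N n₀ l) (H : X.HH (3 * n₀)) (hl : l ≤ 1 / 8)
    (L : Finset (V n)) : ∃ T, X.BSec N (⋃ c ∈ L, ball c l) T ∧
      ∀ c', ∀ u ∈ X.EE N ((⋃ c ∈ L, ball c l) ∩ ball c' l), ∃ t ∈ T ⊓ bT h H c', X.q t = X.q u := by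
  classical
  induction L using Finset.induction_on with
  | empty =>
    refine ⟨⊥, ⟨bot_le, fun e he => ⟨1, one_mem _, ?_⟩, fun s hs _ => hs, fun w _ s hs => ?_⟩,
      fun c' u hu => ⟨1, one_mem _, ?_⟩⟩
    · rw [map_one, EE_empty (by simpa using he)]
    · rw [Subgroup.mem_bot.1 hs]; simp
    · rw [map_one, EE_empty (by simpa using hu)]
  | insert c L _ ih =>
    obtain ⟨T, hT, com⟩ := ih
    have hO : IsOpen (⋃ c ∈ L, ball c l) := isOpen_biUnion fun _ _ => isOpen_ball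
    have hB : Bornology.IsBounded (⋃ c ∈ L, ball c l) :=
      (Bornology.isBounded_biUnion_finset L).2 fun _ _ => isBounded_ball
    rw [Finset.set_biUnion_insert, Set.union_comm]
    refine ⟨T ⊔ bT h H c, hT.glue (bT_sec h H c) hO isOpen_ball (hB.union isBounded_ball) (com c),
      fun c' u hu => ?_⟩
    rw [Set.union_inter_distrib_right] at hu
    obtain ⟨u₁, h₁, u₂, h₂, hq⟩ := frag_EE (hO.inter isOpen_ball) (isOpen_ball.inter isOpen_ball)
      ((isBounded_ball.subset Set.inter_subset_right).union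
        (isBounded_ball.subset Set.inter_subset_right)) hu
    obtain ⟨t₁, ht₁, q₁⟩ := com c' u₁ h₁
    obtain ⟨t₂, ht₂, q₂⟩ := bT_com h H hl c c' h₂
    exact ⟨t₁ * t₂, ⟨Subgroup.mul_mem_sup ht₁.1 ht₂.1, mul_mem ht₁.2 ht₂.2⟩,
      by rw [hq, map_mul, map_mul, q₁, q₂]⟩

theorem BSec.comm (hT : X.BSec N U T) {e e' : E} (he : e ∈ X.EB) (he' : e' ∈ X.EE N U) :
    ⁅e, e'⁆ ∈ T := by
  obtain ⟨s, hs, hqs⟩ := hT.2.1 e' he'
  have hc := Subgroup.mem_center_iff.1 (central_of_q hqs) e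
  have e1 : ⁅e, e'⁆ = e * s * e⁻¹ * (e * (s⁻¹ * e')) * e⁻¹ * e'⁻¹ := by
    rw [commutatorElement_def]; group
  have e2 : e * s * e⁻¹ * (s⁻¹ * e' * e) * e⁻¹ * e'⁻¹ = e * s * e⁻¹ * s⁻¹ := by group
  rw [e1, hc, e2]
  exact mul_mem (hT.2.2.2 e he s hs) (inv_mem hs)

/-- the base of the descent: cycles of total order `2 N` die -/
theorem base_gen (h : S.Solv n N n₀ l) (H : X.HH (3 * n₀)) (l0 : 0 < l) (hl : l ≤ 1 / 8)
    (hU : Bornology.IsBounded U) {q : ℕ} (hq : 2 * N ≤ q + 1) {e : E} (he : e ∈ X.NN q U)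
    (h1 : X.q e = 1) : e = 1 := by
  obtain ⟨L, hL⟩ := hU.isCompact_closure.elim_finite_subcover (fun c => ball c l)
    (fun _ => isOpen_ball) fun y _ => Set.mem_iUnion.2 ⟨y, mem_ball_self l0⟩
  obtain ⟨T, hT, -⟩ := bsec_cover h H hl L
  have hUL := subset_closure.trans hL
  have key : X.NN q U ≤ T := by
    refine NN_le fun m p _ _ hmp e he e' he' => ?_
    by_cases hp : N ≤ p
    · exact hT.comm (EE_le_EB he) (EE_mono hp hUL he')
    · rw [← commutatorElement_inv]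
      exact inv_mem (hT.comm (EE_le_EB he') (EE_mono (by omega) hUL he))
  exact hT.2.2.1 e (key he) h1

/-- the descent from the base to order six -/
theorem main_gen (h : S.Solv n N n₀ l) (H : X.HH (3 * n₀)) (l0 : 0 < l) (hl : l ≤ 1 / 8)
    (step : ∀ q, 6 ≤ q → X.PP (q + 1) → X.PP q) (x : List (E × E))
    (hx : ∀ p ∈ x, p.1 ∈ X.EE 3 (ball 0 6) ∧ p.2 ∈ X.EE 3 (ball 0 6)) (hq : X.q (Phi x) = 1) :
    Phi x = 1 := by
  have key : ∀ j : ℕ, X.PP (6 + j) → X.PP 6 := by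
    intro j
    induction j with
    | zero => exact id
    | succ j ih => exact fun h => ih (step _ (by omega) h)
  have h6 : X.PP 6 := key (2 * N) fun e he h1 =>
    base_gen h H l0 hl isBounded_ball (by omega) he h1
  have hm : ∀ y : List (E × E), (∀ p ∈ y, p.1 ∈ X.EE 3 (ball 0 6) ∧ p.2 ∈ X.EE 3 (ball 0 6)) →
      Phi y ∈ X.NN 6 (ball 0 6) := by
    intro y
    induction y with
    | nil => exact fun _ => one_mem _
    | cons p y ih =>
      intro hy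
      rw [Phi_cons]
      exact mul_mem (comm_mem_NN (by norm_num) (by norm_num) (by norm_num) (hy p (by simp)).1
        (hy p (by simp)).2) (ih fun p' hp' => hy p' (by simp [hp']))
  refine h6 _ ?_ hq
  rw [Nat.cast_ofNat]
  exact hm x hx

end Ext

end Scale

end Pool.Agent.P.MP_878f14_gt.HT
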