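import Pool.Agent.P.MP_878f14_gt.HT.Step1

/-! The descent step. -/

namespace Pool.Agent.P.MP_878f14_gt.HT

open Filter Metric
open scoped commutatorElement

namespace Scale

variable {n : ℕ} {S : Scale}

/-- the leading term of a family of order `m` -/
theorem step3_lead {m : ℕ} {κ κ' : ℝ} (hκ : κ ≤ κ') {g : S.ι → Pm n}
    (hg : g ∈ S.GF m (ball 0 κ)) : ∃ u : Fin n → S.WA n κ', (∀ a, u a ∈ S.WK n κ' κ) ∧
      ∀ᶠ i in S.F, dp (g i) = fun x => S.ε i ^ m • vec u i x := by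
  have ht : S.Tame fun i x => (S.ε i ^ m)⁻¹ • dpF g i x := (GB_tame hg.1).div_pow m
  have ho : S.Od 0 fun i x => (S.ε i ^ m)⁻¹ • dpF g i x :=
    Od.div_pow ((GB_od hg.1).mono (Nat.zero_add m).le)
  have key : ∀ a, ∃ f', S.InW κ' f' ∧ (∀ i, Van (closedBall 0 κ) (f' i)) ∧
      ∀ᶠ i in S.F, f' i = fun x => ((S.ε i ^ m)⁻¹ • dpF g i x) a := by
    intro a
    refine exists_inW hκ (ht.clm (ContinuousLinearMap.proj a : V n →L[ℝ] ℝ)) (ho.coord a) ?_
    filter_upwards [GF_fix hg] with i hi x hx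
    have h0 : dpF g i x = 0 := fix_iff_van.1 hi x fun hb => hx (ball_subset_closedBall hb)
    simp [h0]
  choose f hf hv he using key
  refine ⟨fun a => ⟨f a, hf a⟩, hv, ?_⟩
  filter_upwards [eventually_all.2 he] with i hi
  funext x a
  have := (S.pos i).ne'
  simp only [vec, hi, dpF, Pi.smul_apply, smul_eq_mul]
  field_simp

/-- the elements whose class is computed by the leading term -/
def Lead {E : Type*} [Group E] (X : S.Ext n E) (q : ℕ) {A : Type*} [AddCommGroup A]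
    (Val : E → A → Prop) {κ : ℝ} (s : (Fin n → S.WA n κ) →+ A) (e : E) : Prop :=
  ∃ F : Fin n → S.WA n κ, ∃ g ∈ S.GB n q, X.q e = S.gP g ∧
    (S.Od (q + 1) fun i x => dp (g i) x + S.ε i ^ q • vec F i x) ∧ Val e (s F)

section

variable {E : Type*} [Group E] {X : S.Ext n E} {q : ℕ} {A : Type*} [AddCommGroup A]
  {Val : E → A → Prop} {κ : ℝ} {s : (Fin n → S.WA n κ) →+ A} {e e' : E}

theorem Lead.mul (hq : 1 ≤ q) (hm : ∀ e a e' a', Val e a → Val e' a' → Val (e * e') (a + a'))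
    (h : Lead X q Val s e) (h' : Lead X q Val s e') : Lead X q Val s (e * e') := by
  obtain ⟨F, v, hv, hq1, ho, hV⟩ := h
  obtain ⟨G, w, hw, hq2, ho', hV'⟩ := h'
  refine ⟨F + G, v * w, mul_mem hv hw, by rw [map_mul, map_mul, hq1, hq2], ?_, ?_⟩
  · have h1 := (L1 hv hw).mono (show q + 1 ≤ q + q by omega)
    refine ((h1.add ho).add ho').congr (Eventually.of_forall fun i => ?_)
    funext x
    simp only [vec_add, Pi.mul_apply, Pi.add_apply, smul_add]
    abel
  · rw [map_add]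
    exact hm _ _ _ _ hV hV'

theorem Lead.inv (hq : 1 ≤ q) (hi : ∀ e a, Val e a → Val e⁻¹ (-a))
    (h : Lead X q Val s e) : Lead X q Val s e⁻¹ := by
  obtain ⟨F, v, hv, hq1, ho, hV⟩ := h
  refine ⟨-F, v⁻¹, inv_mem hv, by rw [map_inv, map_inv, hq1], ?_, ?_⟩
  · have h1 := (L1_inv hv).mono (show q + 1 ≤ q + q by omega)
    refine (h1.sub ho).congr (Eventually.of_forall fun i => ?_)
    funext x
    have : vec (-F) i x = -vec F i x := rfl
    simp only [Pi.inv_apply, this, smul_neg]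
    abel
  · rw [map_neg]
    exact hi _ _ hV

theorem lead_of_high {v : S.ι → Pm n} (hv : v ∈ S.GB n (q + 1)) (hq : X.q e = S.gP v)
    (hV : Val e 0) : Lead X q Val s e := by
  refine ⟨0, v, GB_anti (Nat.le_succ q) hv, hq, ?_, by rwa [map_zero]⟩
  refine (GB_od hv).congr (Eventually.of_forall fun i => ?_)
  funext x
  have : vec (0 : Fin n → S.WA n κ) i x = 0 := rfl
  rw [this, smul_zero, add_zero]
  rfl

end

theorem step {n : ℕ} (hn : 2 ≤ n) {E : Type*} [Group E] (X : S.Ext n E) {q : ℕ} (hq : 6 ≤ q)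
    (h : X.PP (q + 1)) : X.PP q := by
  have : Nontrivial (Fin n) := Fin.nontrivial_iff_two_le.2 hn
  obtain ⟨A, iA, Val, Ω, vmul, vinv, v0, vcomm, kill, jac⟩ := step1 X q
  have hle : (q : ℝ) ≤ q + 3 / 4 := by linarith
  have hle' : ball (0 : V n) q ⊆ ball 0 (q + 1 : ℕ) := ball_subset_ball (by push_cast; linarith)
  obtain ⟨C, T, hC⟩ := exists_cut (S := S) (n := n) q
  obtain ⟨s, hs, hΩ⟩ := lieN isW hC (show 5 ≤ q by omega) Ω jac (S.W1 n _) WX_W1
    fun u v hv => kill 1 u v le_rfl (by omega) (od_pi hv)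
  let H : Subgroup E :=
    { carrier := {e | Lead X q Val s e}
      one_mem' := lead_of_high (one_mem _) (by rw [map_one, map_one]) ((v0 1).2 (one_mem _))
      mul_mem' := fun h h' => Lead.mul (by omega) vmul h h'
      inv_mem' := fun h => Lead.inv (by omega) vinv h }
  have hH : X.NN q (ball 0 q) ≤ H := by
    refine Ext.NN_le fun m p hm hp hmp e he e' he' => ?_
    obtain ⟨v, hv, hq1⟩ := Ext.mem_EE.1 he
    obtain ⟨w, hw, hq2⟩ := Ext.mem_EE.1 he'
    have hq3 : X.q ⁅e, e'⁆ = S.gP ⁅v, w⁆ := by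
      rw [map_commutatorElement, map_commutatorElement, hq1, hq2]
    have hvw := comm_mem_GB hm hp hv.1 hw.1
    rcases Nat.eq_or_lt_of_le hmp with hmp' | hmp'
    swap
    · exact lead_of_high (GB_anti hmp' hvw) hq3 ((v0 _).2 (Ext.comm_mem_NN hm hp hmp'
        (Ext.EE_mono le_rfl hle' he) (Ext.EE_mono le_rfl hle' he')))
    obtain ⟨f, kf, hf⟩ := step3_lead hle hv
    obtain ⟨g, kg, hg⟩ := step3_lead hle hw
    have r1 : X.Rp (q + 1 : ℕ) m (vec f) e :=
      ⟨v, GF_mono le_rfl hle' hv, hq1, od_zero.congr (by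
        filter_upwards [hf] with i hi
        funext x
        rw [hi, sub_self])⟩
    have r2 : X.Rp (q + 1 : ℕ) p (vec g) e' :=
      ⟨w, GF_mono le_rfl hle' hw, hq2, od_zero.congr (by
        filter_upwards [hg] with i hi
        funext x
        rw [hi, sub_self])⟩
    have hV := vcomm m p _ _ e e' hm hp hmp'.symm r1 r2
    rw [hΩ m hm (by omega) f g kf kg] at hV
    refine ⟨_, ⁅v, w⁆, GB_anti hmp hvw, hq3, ?_, hV⟩
    have h1 := L2 hm hp hv.1 hw.1
    rw [← hmp'] at h1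
    refine h1.congr ?_
    filter_upwards [hf, hg] with i hi hi'
    funext x
    have e0 : ⁅v, w⁆ i = ⁅v i, w i⁆ := rfl
    have e1 : S.ε i ^ q = S.ε i ^ m * S.ε i ^ p := by rw [← pow_add, ← hmp']
    rw [vec_brN, e0, hi, hi', e1]
    simp only [br]
    rw [fderiv_fun_const_smul ((vec_sm f i).differentiable x),
      fderiv_fun_const_smul ((vec_sm g i).differentiable x)]
    simp only [map_smul, smul_apply]
    module
  intro e he h1
  obtain ⟨F, v, -, hq1, ho, hV⟩ := hH he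
  have hv1 : ∀ᶠ i in S.F, v i = 1 := gP_eq_one.1 (by rw [← hq1, h1])
  have hF : S.Od 1 (vec F) := by
    rw [Nat.add_comm] at ho
    refine Od.of_pow_smul (k := q) (ho.congr ?_)
    filter_upwards [hv1] with i hi
    funext x
    simp [hi]
  rw [hs F fun a => hF.coord a] at hV
  exact h e ((v0 e).1 hV) h1

end Scale

end Pool.Agent.P.MP_878f14_gt.HT
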