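import Pool.Agent.P.MP_878f14_gt.HT.VS
import Pool.Agent.P.MP_878f14_gt.HT.Step3
import Pool.Agent.P.MP_878f14_gt.HT.BaseAux

/-! The base of the descent and the main theorem on families. -/

namespace Pool.Agent.P.MP_878f14_gt.HT

open Filter Metric
open scoped commutatorElement

namespace Scale

namespace Ext

variable {n : ℕ} {S : Scale} {E : Type*} [Group E] {X : S.Ext n E}

theorem base_solv {n₀ : ℕ} (h : VSpt n n₀) : S.Solv n (bb n) n₀ (1 / 16) := by
  intro c g hg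
  obtain ⟨x, hx, hq⟩ := vs_unif' h (by norm_num) c hg
  rw [show (4 * (1 / 16) : ℝ) = 1 / 4 by norm_num] at hx
  exact ⟨x, hx, gP_eq.1 hq⟩

theorem base {n₀ : ℕ} (h : VSpt n n₀) (H : X.HH (3 * n₀)) : X.PP (2 * bb n) :=
  fun _ he h1 => base_gen (base_solv h) H (by norm_num) (by norm_num) isBounded_ball
    (Nat.le_succ _) he h1

theorem main (hn : 2 ≤ n) {n₀ : ℕ} (h : VSpt n n₀) (H : X.HH (3 * n₀)) (x : List (E × E))
    (hx : ∀ z ∈ x, z.1 ∈ X.EE 3 (ball 0 6) ∧ z.2 ∈ X.EE 3 (ball 0 6)) (hq : X.q (Phi x) = 1) :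
    Phi x = 1 :=
  main_gen (base_solv h) H (by norm_num) (by norm_num) (fun _ hq h => step hn X hq h) x hx hq

end Ext

end Scale

end Pool.Agent.P.MP_878f14_gt.HT
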