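import Pool.Agent.P.MP_878f14_gt.HT.Stmt
import Pool.Agent.P.MP_878f14_gt.HT.Alg

/-! Basic definitions: displacements, sup norms of derivatives, homotheties, supports. -/

namespace Pool.Agent.P.MP_878f14_gt.HT

open scoped ContDiff commutatorElement

abbrev Pm (n : ℕ) : Type := Equiv.Perm (V n)

variable {n : ℕ} {F : Type} [NormedAddCommGroup F] [NormedSpace ℝ F]

/-- displacement -/
def dp (e : Pm n) : V n → V n := fun x => e x - x

/-- smooth with all derivatives bounded -/
def Sm (f : V n → F) : Prop :=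
  ContDiff ℝ ∞ f ∧ ∀ r : ℕ, ∃ C : ℝ, ∀ x, ‖iteratedFDeriv ℝ r f x‖ ≤ C

/-- sup norm of the `r`-th derivative -/
noncomputable def sn (r : ℕ) (f : V n → F) : ℝ := ⨆ x, ‖iteratedFDeriv ℝ r f x‖

noncomputable def nm (r : ℕ) (f : V n → F) : ℝ := ∑ j ∈ Finset.range (r + 1), sn j f

noncomputable def md (r : ℕ) (f : V n → F) : ℝ := ∑ j ∈ Finset.Ico 2 r, sn j f

/-- the vector `t e_d` -/
def sg (d : Fin n) (t : ℝ) : V n := Pi.single d t

/-- derivative in the direction `e_d` -/
noncomputable def pd (d : Fin n) (f : V n → F) : V n → F := fun x => fderiv ℝ f x (sg d 1)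

/-- translation -/
def tr (c : V n) : Pm n := Equiv.addRight c

/-- the homothety `x ↦ l • x + m` -/
noncomputable def aff (l : ℝ) (m : V n) : Pm n :=
  if h : l = 0 then 1 else
    { toFun := fun x => l • x + m
      invFun := fun y => l⁻¹ • (y - m)
      left_inv := fun x => by simp [smul_smul, h]
      right_inv := fun y => by simp [smul_smul, h] }

/-- support in `K` -/
def Fix (K : Set (V n)) (e : Pm n) : Prop := ∀ x, x ∉ K → e x = x

def Van {G : Type} [Zero G] (K : Set (V n)) (f : V n → G) : Prop := ∀ x, x ∉ K → f x = 0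

/-- bracket of vector fields (this is `VectorField.lieBracket ℝ f h`) -/
noncomputable def br (f h : V n → V n) : V n → V n :=
  fun x => fderiv ℝ h x (f x) - fderiv ℝ f x (h x)

theorem br_eq_lieBracket (f h : V n → V n) : br f h = VectorField.lieBracket ℝ f h := rfl

@[simp] theorem sg_same (d : Fin n) (t : ℝ) : sg d t d = t := by simp [sg]

theorem sg_ne {d i : Fin n} (h : i ≠ d) (t : ℝ) : sg d t i = 0 := by simp [sg, h]

theorem sg_apply (d i : Fin n) (t : ℝ) : sg d t i = if i = d then t else 0 := by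
  simp [sg, Pi.single_apply]

@[simp] theorem sg_zero (d : Fin n) : sg d 0 = 0 := by simp [sg]

theorem sg_add (d : Fin n) (s t : ℝ) : sg d (s + t) = sg d s + sg d t := by
  simp [sg, Pi.single_add]

theorem sg_neg (d : Fin n) (t : ℝ) : sg d (-t) = -sg d t := by simp [sg, Pi.single_neg]

theorem smul_sg (d : Fin n) (s t : ℝ) : s • sg d t = sg d (s * t) := by
  ext i; by_cases h : i = d <;> simp [sg_apply, h]

theorem norm_sg (d : Fin n) (t : ℝ) : ‖sg d t‖ = |t| := by simp [sg, Pi.norm_single]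

theorem sum_sg (x : V n) : ∑ d, sg d (x d) = x := Finset.univ_sum_single x

theorem abs_apply_le (x : V n) (d : Fin n) : |x d| ≤ ‖x‖ := norm_le_pi_norm x d

@[simp] theorem tr_apply (c x : V n) : tr c x = x + c := rfl

@[simp] theorem tr_inv_apply (c x : V n) : (tr c)⁻¹ x = x - c := by
  rw [Equiv.Perm.inv_eq_iff_eq]; simp

theorem tr_add (c d : V n) : tr (c + d) = tr c * tr d := by
  ext1 x; simp; abel

@[simp] theorem tr_zero : tr (0 : V n) = 1 := by ext1 x; simp

theorem tr_neg (c : V n) : tr (-c) = (tr c)⁻¹ := by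
  ext1 x; simp; abel

theorem tr_pow (c : V n) (k : ℕ) : tr c ^ k = tr ((k : ℝ) • c) := by
  induction k with
  | zero => simp
  | succ k ih => rw [pow_succ, ih, ← tr_add]; congr 1; push_cast; module

theorem tr_comm (c d : V n) : tr c * tr d = tr d * tr c := by
  rw [← tr_add, ← tr_add, add_comm]

theorem aff_apply {l : ℝ} (hl : l ≠ 0) (m x : V n) : aff l m x = l • x + m := by
  simp [aff, hl]

theorem aff_inv_apply {l : ℝ} (hl : l ≠ 0) (m x : V n) : (aff l m)⁻¹ x = l⁻¹ • (x - m) := by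
  rw [Equiv.Perm.inv_eq_iff_eq, aff_apply hl]; simp [smul_smul, hl]

theorem apply_eq_add_dp (e : Pm n) (x : V n) : e x = x + dp e x := by simp [dp]

@[simp] theorem dp_one : dp (1 : Pm n) = fun _ => 0 := by ext1 x; simp [dp]

theorem dp_tr (c : V n) : dp (tr c) = fun _ => c := by ext1 x; simp [dp]

theorem dp_mul (e e' : Pm n) : dp (e * e') = fun x => dp e (x + dp e' x) + dp e' x := by
  ext1 x; simp [dp]

theorem dp_inv (e : Pm n) : dp e⁻¹ = fun x => -dp e (x + dp e⁻¹ x) := by
  ext1 x; simp [dp]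

theorem ext_dp {e e' : Pm n} (h : dp e = dp e') : e = e' := by
  ext1 x; rw [apply_eq_add_dp, apply_eq_add_dp e', h]

theorem fix_iff_van {K : Set (V n)} {e : Pm n} : Fix K e ↔ Van K (dp e) := by
  simp [Fix, Van, dp, sub_eq_zero]

theorem Fix.mono {K K' : Set (V n)} {e : Pm n} (h : Fix K e) (hK : K ⊆ K') : Fix K' e :=
  fun x hx => h x fun hx' => hx (hK hx')

theorem Van.mono {G : Type} [Zero G] {K K' : Set (V n)} {f : V n → G} (h : Van K f)
    (hK : K ⊆ K') : Van K' f := fun x hx => h x fun hx' => hx (hK hx')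

/-- permutations with support in `K` -/
def FixS (K : Set (V n)) : Subgroup (Pm n) where
  carrier := {e | Fix K e}
  one_mem' := fun _ _ => rfl
  mul_mem' := fun {e e'} h h' x hx => by rw [Equiv.Perm.mul_apply, h' x hx, h x hx]
  inv_mem' := fun {e} h x hx => by rw [Equiv.Perm.inv_eq_iff_eq, h x hx]

theorem mem_FixS {K : Set (V n)} {e : Pm n} : e ∈ FixS K ↔ Fix K e := Iff.rfl

theorem fix_one (K : Set (V n)) : Fix K (1 : Pm n) := fun _ _ => rfl

theorem Fix.mul {K : Set (V n)} {e e' : Pm n} (h : Fix K e) (h' : Fix K e') : Fix K (e * e') :=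
  (FixS K).mul_mem h h'

theorem Fix.inv {K : Set (V n)} {e : Pm n} (h : Fix K e) : Fix K e⁻¹ := (FixS K).inv_mem h

theorem Fix.mapsTo {K : Set (V n)} {e : Pm n} (h : Fix K e) : Set.MapsTo e K K := by
  intro x hx
  by_contra hy
  exact hy ((e.injective (h _ hy)).symm ▸ hx)

theorem Fix.conj {K : Set (V n)} {e : Pm n} (h : Fix K e) (φ : Pm n) :
    Fix (φ '' K) (φ * e * φ⁻¹) := by
  intro x hx
  have : φ⁻¹ x ∉ K := fun hk => hx ⟨_, hk, by simp⟩
  simp only [Equiv.Perm.mul_apply]
  rw [h _ this]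
  simp

/-- a permutation fixing pointwise a set off which `e` is the identity commutes with `e` -/
theorem commute_of_fix {φ e : Pm n} {s : Set (V n)} (h1 : ∀ x ∈ s, φ x = x) (h2 : Fix s e) :
    φ * e = e * φ := by
  ext1 x
  simp only [Equiv.Perm.mul_apply]
  by_cases hx : x ∈ s
  · rw [h1 x hx, h1 _ (h2.mapsTo hx)]
  · rw [h2 x hx]
    by_cases hy : φ x ∈ s
    · have := φ.injective (h1 _ hy)
      exact absurd (this ▸ hy) hx
    · exact (h2 _ hy).symm

/-- two permutations that agree on the support conjugate in the same way -/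
theorem conj_eq_of_agree {φ ψ e : Pm n} {K : Set (V n)} (h : Fix K e) (hφ : ∀ x ∈ K, φ x = ψ x) :
    φ * e * φ⁻¹ = ψ * e * ψ⁻¹ := by
  have h1 : ψ⁻¹ * φ * e = e * (ψ⁻¹ * φ) :=
    commute_of_fix (fun x hx => by simp [Equiv.Perm.mul_apply, hφ x hx]) h
  calc φ * e * φ⁻¹ = ψ * (ψ⁻¹ * φ * e) * φ⁻¹ := by group
    _ = ψ * (e * (ψ⁻¹ * φ)) * φ⁻¹ := by rw [h1]
    _ = ψ * e * ψ⁻¹ := by group

theorem commute_tr_iff (e : Pm n) (v : V n) :
    e * tr v = tr v * e ↔ ∀ x, dp e (x + v) = dp e x := by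
  rw [Equiv.ext_iff]
  refine forall_congr' fun x => ?_
  simp only [Equiv.Perm.mul_apply, tr_apply, dp]
  constructor
  · intro h; rw [h]; abel
  · intro h; rw [sub_eq_iff_eq_add] at h; rw [h]; abel

end Pool.Agent.P.MP_878f14_gt.HT
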