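import Pool.Agent.P.MP_878f14_gt.HT.Aff

/-! Chains of transitions, one for each direction. -/

namespace Pool.Agent.P.MP_878f14_gt.HT

open scoped commutatorElement
open Metric

variable {n : ℕ}

/-- one link: `a = ⁅k, τ⁆` with `k` a transition in the direction `j` from the identity to `Ω` -/
def Lnk (σ ρ : ℝ) (j : Fin n) (k a Ω : Pm n) : Prop :=
  a = ⁅k, tr (sg j σ)⁆ ∧ (∀ x, x j ≤ -ρ → k x = x) ∧ (∀ x, ρ ≤ x j → k x = Ω x) ∧
  (∀ i, i < j → k * tr (sg i σ) = tr (sg i σ) * k) ∧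
  (∀ i, i ≤ j → Ω * tr (sg i σ) = tr (sg i σ) * Ω) ∧
  ∀ i, j < i → ∀ x, ρ ≤ |x i| → k x = x ∧ Ω x = x

def Chn (σ ρ : ℝ) (O : ℕ → Pm n) (k : Fin n → Pm n) : Prop :=
  ∀ j : Fin n, Lnk σ ρ j (k j) (O j) (O (j + 1))

variable {σ ρ ρ' l : ℝ} {j : Fin n} {k a Ω : Pm n}

theorem Lnk.mono (h : Lnk σ ρ j k a Ω) (hρ : ρ ≤ ρ') : Lnk σ ρ' j k a Ω :=
  ⟨h.1, fun x hx => h.2.1 x (by linarith), fun x hx => h.2.2.1 x (by linarith), h.2.2.2.1,
    h.2.2.2.2.1, fun i hi x hx => h.2.2.2.2.2 i hi x (by linarith)⟩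

theorem chain_conj_apply (hl : 0 < l) (e : Pm n) (x : V n) :
    (aff l 0 * e * (aff l 0)⁻¹ : Pm n) x = l • e (l⁻¹ • x) := by
  rw [Equiv.Perm.mul_apply, Equiv.Perm.mul_apply, aff_inv_apply hl.ne', aff_apply hl.ne', sub_zero,
    add_zero]

theorem chain_conj_comm (hl : 0 < l) {e : Pm n} {i : Fin n}
    (h : e * tr (sg i σ) = tr (sg i σ) * e) :
    aff l 0 * e * (aff l 0)⁻¹ * tr (sg i (l * σ)) =
      tr (sg i (l * σ)) * (aff l 0 * e * (aff l 0)⁻¹) := by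
  rw [← smul_sg, ← aff_conj_tr hl.ne' 0]
  calc aff l 0 * e * (aff l 0)⁻¹ * (aff l 0 * tr (sg i σ) * (aff l 0)⁻¹)
      = aff l 0 * (e * tr (sg i σ)) * (aff l 0)⁻¹ := by group
    _ = aff l 0 * (tr (sg i σ) * e) * (aff l 0)⁻¹ := by rw [h]
    _ = aff l 0 * tr (sg i σ) * (aff l 0)⁻¹ * (aff l 0 * e * (aff l 0)⁻¹) := by group

/-- `aff_conj_tr`, `smul_sg` -/
theorem Lnk.conj (h : Lnk σ ρ j k a Ω) (hl : 0 < l) :
    Lnk (l * σ) (l * ρ) j (aff l 0 * k * (aff l 0)⁻¹) (aff l 0 * a * (aff l 0)⁻¹)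
      (aff l 0 * Ω * (aff l 0)⁻¹) := by
  obtain ⟨h1, h2, h3, h4, h5, h6⟩ := h
  have hc : ∀ (x : V n) (i : Fin n), (l⁻¹ • x) i = x i / l := fun x i => by
    rw [Pi.smul_apply, smul_eq_mul, div_eq_inv_mul]
  refine ⟨?_, fun x hx => ?_, fun x hx => ?_, fun i hi => chain_conj_comm hl (h4 i hi),
    fun i hi => chain_conj_comm hl (h5 i hi), fun i hi x hx => ?_⟩
  · rw [h1, ← smul_sg, ← aff_conj_tr hl.ne' 0, commutatorElement_def, commutatorElement_def]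
    group
  · rw [chain_conj_apply hl, h2 _ (by rw [hc, div_le_iff₀ hl]; linarith), smul_inv_smul₀ hl.ne']
  · rw [chain_conj_apply hl, chain_conj_apply hl, h3 _ (by rw [hc, le_div_iff₀ hl]; linarith)]
  · have h7 := h6 i hi (l⁻¹ • x) (by rw [hc, abs_div, abs_of_pos hl, le_div_iff₀ hl]; linarith)
    rw [chain_conj_apply hl, chain_conj_apply hl, h7.1, h7.2, smul_inv_smul₀ hl.ne']
    exact ⟨rfl, rfl⟩

theorem chain_comm_comm {τ s : Pm n} (h1 : k * s = s * k) (h2 : τ * s = s * τ) :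
    ⁅k, τ⁆ * s = s * ⁅k, τ⁆ := by
  have a1 : Commute k s := h1
  have a2 : Commute τ s := h2
  rw [commutatorElement_def]
  exact (((a1.mul_left a2).mul_left a1.inv_left).mul_left a2.inv_left).eq

theorem chain_comm_fix {v x : V n} (h1 : k x = x) (h2 : k (x - v) = x - v) :
    (⁅k, tr v⁆ : Pm n) x = x := by
  have h3 : k⁻¹ (x - v) = x - v := by rw [Equiv.Perm.inv_eq_iff_eq, h2]
  rw [commutatorElement_def, Equiv.Perm.mul_apply, Equiv.Perm.mul_apply, Equiv.Perm.mul_apply,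
    tr_inv_apply, h3, tr_apply, sub_add_cancel, h1]

theorem Lnk.comm (h : Lnk σ ρ j k a Ω) {i : Fin n} (hi : i < j) :
    a * tr (sg i σ) = tr (sg i σ) * a := by
  rw [h.1]
  exact chain_comm_comm (h.2.2.2.1 i hi) (tr_comm _ _)

theorem Lnk.fix_gt (h : Lnk σ ρ j k a Ω) {i : Fin n} (hi : j < i) (x : V n) (hx : ρ ≤ |x i|) :
    a x = x := by
  rw [h.1]
  refine chain_comm_fix (h.2.2.2.2.2 i hi x hx).1 (h.2.2.2.2.2 i hi _ ?_).1
  rwa [Pi.sub_apply, sg_ne hi.ne', sub_zero]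

/-- For `x j ≤ lo` all four factors are explicit. For `x j ≥ hi + σ + δ` put `y = x - σ e`,
`z = k⁻¹ y`; then `z j ≥ hi`, so `Ω z = y` and `k (z + σ e) = Ω (z + σ e) = y + σ e`. -/
theorem comm_fix {lo hi δ : ℝ} (hσ : 0 ≤ σ) (h1 : ∀ x, x j ≤ lo → k x = x)
    (h2 : ∀ x, hi ≤ x j → k x = Ω x) (hc : Ω * tr (sg j σ) = tr (sg j σ) * Ω)
    (hδ : ∀ x, ‖dp k x‖ ≤ δ) (x : V n) (hx : x j ≤ lo ∨ hi + σ + δ ≤ x j) :
    (⁅k, tr (sg j σ)⁆ : Pm n) x = x := by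
  rcases hx with hx | hx
  · refine chain_comm_fix (h1 x hx) (h1 _ ?_)
    rw [Pi.sub_apply, sg_same]
    linarith
  · obtain ⟨z, hz⟩ : ∃ z, k z = x - sg j σ := k.surjective _
    have h3 : k⁻¹ (x - sg j σ) = z := by rw [Equiv.Perm.inv_eq_iff_eq, hz]
    have h4 : hi ≤ z j := by
      have h5 := (abs_le.1 ((abs_apply_le (dp k z) j).trans (hδ z))).2
      rw [dp, hz, Pi.sub_apply, Pi.sub_apply, sg_same] at h5
      linarith
    have h6 : Ω (z + sg j σ) = Ω z + sg j σ := congrArg (fun e : Pm n => e z) hc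
    rw [commutatorElement_def, Equiv.Perm.mul_apply, Equiv.Perm.mul_apply, Equiv.Perm.mul_apply,
      tr_inv_apply, h3, tr_apply, h2 _ (by rw [Pi.add_apply, sg_same]; linarith), h6, ← h2 z h4, hz,
      sub_add_cancel]

theorem Lnk.fix_self (h : Lnk σ ρ j k a Ω) (hσ : 0 ≤ σ) {δ : ℝ} (hδ : ∀ x, ‖dp k x‖ ≤ δ) (x : V n)
    (hx : x j ≤ -ρ ∨ ρ + σ + δ ≤ x j) : a x = x := by
  rw [h.1]
  exact comm_fix hσ h.2.1 h.2.2.1 (h.2.2.2.2.1 j le_rfl) hδ x hx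

theorem Chn.mono {O : ℕ → Pm n} {k : Fin n → Pm n} (h : Chn σ ρ O k) (hρ : ρ ≤ ρ') :
    Chn σ ρ' O k := fun j => (h j).mono hρ

theorem Chn.conj {O : ℕ → Pm n} {k : Fin n → Pm n} (h : Chn σ ρ O k) (hl : 0 < l) :
    Chn (l * σ) (l * ρ) (fun j => aff l 0 * O j * (aff l 0)⁻¹)
      (fun j => aff l 0 * k j * (aff l 0)⁻¹) := fun j => (h j).conj hl

end Pool.Agent.P.MP_878f14_gt.HT
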