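import Pool.Agent.P.MP_878f14_gt.HT.Norm

/-! The formula of Faa di Bruno with the two extreme terms kept apart. -/

namespace Pool.Agent.P.MP_878f14_gt.HT

open scoped ContDiff

theorem faa_cases {r : ℕ} (c : OrderedFinpartition (r + 1)) :
    ∃ d : OrderedFinpartition r, c = d.extendLeft ∨ ∃ i, c = d.extendMiddle i := by
  obtain ⟨⟨d, o⟩, rfl⟩ := (OrderedFinpartition.extendEquiv r).surjective c
  refine ⟨d, ?_⟩
  cases o with
  | none => exact Or.inl rfl
  | some i => exact Or.inr ⟨i, rfl⟩

/-- induction through `OrderedFinpartition.extendEquiv`: a partition of `r + 1` of length `r + 1`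
is `extendLeft` of a partition of length `r` -/
theorem ofp_length_top (r : ℕ) {c c' : OrderedFinpartition r} (h : c.length = r)
    (h' : c'.length = r) : c = c' := by
  induction r with
  | zero => exact Subsingleton.elim _ _
  | succ r ih =>
    have key : ∀ e : OrderedFinpartition (r + 1), e.length = r + 1 →
        ∃ d : OrderedFinpartition r, d.length = r ∧ e = d.extendLeft := by
      intro e he
      obtain ⟨d, rfl | ⟨i, rfl⟩⟩ := faa_cases e
      · exact ⟨d, by simpa using he, rfl⟩
      · have h1 := d.length_le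
        rw [OrderedFinpartition.extendMiddle_length] at he
        omega
    obtain ⟨d, hd, rfl⟩ := key c h
    obtain ⟨d', hd', rfl⟩ := key c' h'
    rw [ih hd hd']

/-- a partition of `r + 2` of length one is `extendMiddle` of a partition of length one -/
theorem ofp_length_one (r : ℕ) {c c' : OrderedFinpartition r} (h : c.length = 1)
    (h' : c'.length = 1) : c = c' := by
  induction r with
  | zero => exact Subsingleton.elim _ _
  | succ r ih =>
    rcases Nat.eq_zero_or_pos r with rfl | hr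
    · exact Subsingleton.elim (α := OrderedFinpartition 1) _ _
    have key : ∀ e : OrderedFinpartition (r + 1), e.length = 1 →
        ∃ d : OrderedFinpartition r, d.length = 1 ∧ ∃ i, e = d.extendMiddle i := by
      intro e he
      obtain ⟨d, rfl | ⟨i, rfl⟩⟩ := faa_cases e
      · have h1 := d.length_pos hr
        rw [OrderedFinpartition.extendLeft_length] at he
        omega
      · exact ⟨d, by simpa using he, i, rfl⟩
    obtain ⟨d, hd, i, rfl⟩ := key c h
    obtain ⟨d', hd', i', rfl⟩ := key c' h'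
    obtain rfl := ih hd hd'
    have : i = i' := Fin.ext (by have := i.2; have := i'.2; omega)
    rw [this]

/-- `OrderedFinpartition.equivSigma` -/
theorem ofp_sum (r : ℕ) (c : OrderedFinpartition r) : ∑ i, c.partSize i = r := by
  have := Fintype.card_congr c.equivSigma
  simpa using this

theorem faa_size_top {r : ℕ} (c : OrderedFinpartition r) (h : c.length = r) (i : Fin c.length) :
    c.partSize i = 1 := by
  obtain rfl : c = OrderedFinpartition.atomic r := ofp_length_top r h rfl
  rfl

theorem faa_size_one {r : ℕ} (c : OrderedFinpartition r) (h : c.length = 1) (i : Fin c.length) :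
    c.partSize i = r := by
  have hs := ofp_sum r c
  have : ∀ j : Fin c.length, j = i := fun j => Fin.ext (by have := i.2; have := j.2; omega)
  rw [Finset.sum_eq_single i (fun j _ hj => absurd (this j) hj) (by simp)] at hs
  exact hs

theorem faa_size_lt {r : ℕ} (c : OrderedFinpartition r) (h : 2 ≤ c.length) (i : Fin c.length) :
    c.partSize i < r := by
  have hs := ofp_sum r c
  obtain ⟨j, hj⟩ : ∃ j : Fin c.length, j ≠ i := by
    by_cases h0 : i.1 = 0
    · exact ⟨⟨1, by omega⟩, fun e => by have := congrArg Fin.val e; simp at this; omega⟩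
    · exact ⟨⟨0, by omega⟩, fun e => by have := congrArg Fin.val e; simp at this; omega⟩
  have h1 : ∑ k ∈ {i, j}, c.partSize k ≤ ∑ k, c.partSize k :=
    Finset.sum_le_sum_of_subset (Finset.subset_univ _)
  rw [Finset.sum_pair hj.symm] at h1
  have := c.partSize_pos j
  omega

theorem faa_sum_le {α : Type*} [Fintype α] (p : α → Prop) [DecidablePred p] (T : α → ℝ) {A : ℝ}
    (hA : 0 ≤ A) (hp : ∀ a b, p a → p b → a = b) (hT : ∀ a, p a → T a ≤ A) :
    ∑ a ∈ Finset.univ.filter p, T a ≤ A := by
  rcases (Finset.univ.filter p).eq_empty_or_nonempty with h | ⟨a, ha⟩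
  · rw [h]; simpa using hA
  · have ha' : p a := by simpa using ha
    rw [Finset.sum_eq_single a (fun b hb hba => absurd (hp b a (by simpa using hb) ha') hba)
      (fun h => absurd ha h)]
    exact hT a ha'

variable {n : ℕ} {F : Type} [NormedAddCommGroup F] [NormedSpace ℝ F]

theorem faa_all {f : V n → F} {u : V n → V n} (hf : ContDiff ℝ ∞ f) (hu : ContDiff ℝ ∞ u) (r : ℕ)
    (x : V n) : ‖iteratedFDeriv ℝ r (fun y => f (u y)) x‖ ≤
      ∑ c : OrderedFinpartition r,
        ‖iteratedFDeriv ℝ c.length f (u x)‖ * ∏ i, ‖iteratedFDeriv ℝ (c.partSize i) u x‖ := by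
  have h := iteratedFDeriv_comp (𝕜 := ℝ) (n := ∞) (g := f) (f := u) (x := x) hf.contDiffAt
    hu.contDiffAt (i := r) (by exact_mod_cast le_top)
  have e : (fun y => f (u y)) = f ∘ u := rfl
  rw [e, h, FormalMultilinearSeries.taylorComp]
  refine (norm_sum_le _ _).trans (Finset.sum_le_sum fun c _ => ?_)
  exact c.norm_compAlongOrderedFinpartition_le _ _

open Classical in
/-- `iteratedFDeriv_comp`, `FormalMultilinearSeries.taylorComp`,
`OrderedFinpartition.norm_compAlongOrderedFinpartition_le`; the partitions of length `r` have all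
parts of size one, those of length one have a part of size `r`. -/
theorem faa {f : V n → F} {u : V n → V n} (hf : ContDiff ℝ ∞ f) (hu : ContDiff ℝ ∞ u) {r : ℕ}
    (hr : 2 ≤ r) (x : V n) : ‖iteratedFDeriv ℝ r (fun y => f (u y)) x‖ ≤
      ‖iteratedFDeriv ℝ r f (u x)‖ * ‖fderiv ℝ u x‖ ^ r +
      ‖fderiv ℝ f (u x)‖ * ‖iteratedFDeriv ℝ r u x‖ +
      ∑ c ∈ Finset.univ.filter (fun c : OrderedFinpartition r => 2 ≤ c.length ∧ c.length < r),
        ‖iteratedFDeriv ℝ c.length f (u x)‖ * ∏ i, ‖iteratedFDeriv ℝ (c.partSize i) u x‖ := by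
  refine (faa_all hf hu r x).trans ?_
  set T : OrderedFinpartition r → ℝ := fun c =>
    ‖iteratedFDeriv ℝ c.length f (u x)‖ * ∏ i, ‖iteratedFDeriv ℝ (c.partSize i) u x‖ with hT
  have hT0 : ∀ c, 0 ≤ T c := fun c => by positivity
  have h1 : ∑ c ∈ Finset.univ.filter (fun c : OrderedFinpartition r => c.length = r), T c ≤
      ‖iteratedFDeriv ℝ r f (u x)‖ * ‖fderiv ℝ u x‖ ^ r := by
    refine faa_sum_le _ T (by positivity) (fun a b ha hb => ofp_length_top r ha hb) fun c hc => ?_
    have e : ∀ i, ‖iteratedFDeriv ℝ (c.partSize i) u x‖ = ‖fderiv ℝ u x‖ := fun i => by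
      rw [faa_size_top c hc i, norm_iteratedFDeriv_one]
    simp only [hT, e, Finset.prod_const, Finset.card_univ, Fintype.card_fin]
    rw [hc]
  have h2 : ∑ c ∈ Finset.univ.filter (fun c : OrderedFinpartition r => c.length = 1), T c ≤
      ‖fderiv ℝ f (u x)‖ * ‖iteratedFDeriv ℝ r u x‖ := by
    refine faa_sum_le _ T (by positivity) (fun a b ha hb => ofp_length_one r ha hb) fun c hc => ?_
    have e : ∀ i, ‖iteratedFDeriv ℝ (c.partSize i) u x‖ = ‖iteratedFDeriv ℝ r u x‖ := fun i => by
      rw [faa_size_one c hc i]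
    simp only [hT, e, Finset.prod_const, Finset.card_univ, Fintype.card_fin]
    rw [hc, norm_iteratedFDeriv_one, pow_one]
  refine le_trans ?_ (add_le_add (add_le_add h1 h2) le_rfl)
  simp only [Finset.sum_filter, ← Finset.sum_add_distrib]
  refine Finset.sum_le_sum fun c _ => ?_
  have h3 := c.length_le
  have h4 := c.length_pos (by omega)
  have h5 := hT0 c
  change T c ≤ _ + _ + if _ then T c else 0
  by_cases a : c.length = r
  · rw [if_pos a, if_neg (by omega), if_neg (by omega)]; simp
  by_cases b : c.length = 1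
  · rw [if_neg a, if_pos b, if_neg (by omega)]; simp
  · rw [if_neg a, if_neg b, if_pos (by omega)]; simp

theorem norm_fderiv_id_add {g : V n → V n} (hg : ContDiff ℝ ∞ g) (x : V n) :
    ‖fderiv ℝ (fun y => y + g y) x‖ ≤ 1 + ‖fderiv ℝ g x‖ := by
  have hd : DifferentiableAt ℝ g x := (hg.differentiable (by simp)) x
  have h : HasFDerivAt (fun y => y + g y) (ContinuousLinearMap.id ℝ (V n) + fderiv ℝ g x) x :=
    (hasFDerivAt_id x).add hd.hasFDerivAt
  rw [h.fderiv]
  exact (norm_add_le _ _).trans (add_le_add ContinuousLinearMap.norm_id_le le_rfl)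

theorem iteratedFDeriv_id_add {g : V n → V n} (hg : ContDiff ℝ ∞ g) {j : ℕ} (hj : 2 ≤ j) (x : V n) :
    iteratedFDeriv ℝ j (fun y => y + g y) x = iteratedFDeriv ℝ j g x := by
  obtain ⟨k, rfl⟩ : ∃ k, j = k + 1 + 1 := ⟨j - 2, by omega⟩
  have h0 : iteratedFDeriv ℝ (k + 1 + 1) (fun y : V n => y) x = 0 := by
    rw [← norm_eq_zero, ← norm_iteratedFDeriv_fderiv]
    have : fderiv ℝ (fun y : V n => y) = fun _ => ContinuousLinearMap.id ℝ (V n) := by
      ext1 y; exact fderiv_id
    rw [this, iteratedFDeriv_succ_const]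
    simp
  have h1 := iteratedFDeriv_add_apply (𝕜 := ℝ) (i := k + 1 + 1) (f := fun y : V n => y) (g := g)
    (x := x) contDiffAt_id (hg.contDiffAt.of_le (by exact_mod_cast le_top))
  have e : (fun y => y + g y) = (fun y : V n => y) + g := rfl
  rw [e, h1, h0, zero_add]

/-- pointwise bound, used to show that inverses have bounded derivatives -/
theorem comp_pt {f : V n → F} {g : V n → V n} (hf : Sm f) (hg : ContDiff ℝ ∞ g) {r : ℕ}
    (hr : 2 ≤ r) (hB : ∀ j, 1 ≤ j → j < r → ∃ B, ∀ x, ‖iteratedFDeriv ℝ j g x‖ ≤ B) :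
    ∃ C : ℝ, ∀ x, ‖iteratedFDeriv ℝ r (fun y => f (y + g y)) x‖ ≤
      sn 1 f * ‖iteratedFDeriv ℝ r g x‖ + C := by
  classical
  have hu : ContDiff ℝ ∞ fun y => y + g y := contDiff_id.add hg
  have hB' : ∀ j : ℕ, ∃ B : ℝ, ∀ x, 1 ≤ j → j < r →
      ‖iteratedFDeriv ℝ j (fun y => y + g y) x‖ ≤ B := by
    intro j
    by_cases h : 1 ≤ j ∧ j < r
    · obtain ⟨B, hB⟩ := hB j h.1 h.2
      rcases h.1.eq_or_lt with rfl | h2
      · refine ⟨1 + B, fun x _ _ => ?_⟩
        have := hB x
        rw [norm_iteratedFDeriv_one] at this ⊢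
        exact (norm_fderiv_id_add hg x).trans (by linarith)
      · exact ⟨B, fun x _ _ => by rw [iteratedFDeriv_id_add hg h2]; exact hB x⟩
    · exact ⟨0, fun x h1 h2 => absurd ⟨h1, h2⟩ h⟩
  choose B hB' using hB'
  refine ⟨sn r f * B 1 ^ r +
    ∑ c ∈ Finset.univ.filter (fun c : OrderedFinpartition r => 2 ≤ c.length ∧ c.length < r),
      sn c.length f * ∏ i, B (c.partSize i), fun x => ?_⟩
  refine (faa hf.1 hu hr x).trans ?_
  have h1 : ‖iteratedFDeriv ℝ r f (x + g x)‖ * ‖fderiv ℝ (fun y => y + g y) x‖ ^ r ≤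
      sn r f * B 1 ^ r := by
    have := hB' 1 x le_rfl (by omega)
    rw [norm_iteratedFDeriv_one] at this
    exact mul_le_mul (le_sn hf r _) (pow_le_pow_left₀ (norm_nonneg _) this r) (by positivity)
      (sn_nonneg r f)
  have h2 : ‖fderiv ℝ f (x + g x)‖ * ‖iteratedFDeriv ℝ r (fun y => y + g y) x‖ ≤
      sn 1 f * ‖iteratedFDeriv ℝ r g x‖ := by
    rw [iteratedFDeriv_id_add hg hr]
    exact mul_le_mul_of_nonneg_right (norm_fderiv_le_sn_one hf _) (norm_nonneg _)
  have h3 : ∑ c ∈ Finset.univ.filter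
      (fun c : OrderedFinpartition r => 2 ≤ c.length ∧ c.length < r),
        ‖iteratedFDeriv ℝ c.length f (x + g x)‖ *
          ∏ i, ‖iteratedFDeriv ℝ (c.partSize i) (fun y => y + g y) x‖ ≤
      ∑ c ∈ Finset.univ.filter (fun c : OrderedFinpartition r => 2 ≤ c.length ∧ c.length < r),
        sn c.length f * ∏ i, B (c.partSize i) := by
    refine Finset.sum_le_sum fun c hc => ?_
    have hc2 : 2 ≤ c.length := (Finset.mem_filter.1 hc).2.1
    refine mul_le_mul (le_sn hf _ _) (Finset.prod_le_prod (fun i _ => norm_nonneg _) fun i _ => ?_)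
      (by positivity) (sn_nonneg _ f)
    exact hB' _ x (c.partSize_pos i) (faa_size_lt c hc2 i)
  linarith

end Pool.Agent.P.MP_878f14_gt.HT
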