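import Pool.Agent.P.MP_878f14_gt.HT.LK
import Pool.Agent.P.MP_878f14_gt.HT.Faa

/-! Composition estimates for `x ↦ f (x + g x)`. -/

namespace Pool.Agent.P.MP_878f14_gt.HT

open scoped ContDiff

variable {n : ℕ} {F : Type} [NormedAddCommGroup F] [NormedSpace ℝ F] {f : V n → F}
  {g : V n → V n}

theorem Comp.cd_u (hg : Sm g) : ContDiff ℝ ∞ fun y => y + g y := contDiff_id.add hg.1

theorem Comp.fderiv_eq (hf : Sm f) (hg : Sm g) (x : V n) :
    fderiv ℝ (fun y => f (y + g y)) x =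
      (fderiv ℝ f (x + g x)).comp (ContinuousLinearMap.id ℝ (V n) + fderiv ℝ g x) :=
  ((hf.differentiable (x + g x)).hasFDerivAt.comp x
    ((hasFDerivAt_id x).add (hg.differentiable x).hasFDerivAt)).fderiv

theorem fderiv_comp_id_add (hf : Sm f) (hg : Sm g) (x v : V n) :
    fderiv ℝ (fun y => f (y + g y)) x v = fderiv ℝ f (x + g x) (v + fderiv ℝ g x v) := by
  rw [Comp.fderiv_eq hf hg]
  rfl

theorem pd_comp_id_add (hf : Sm f) (hg : Sm g) (d : Fin n) :
    pd d (fun y => f (y + g y)) =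
      fun x => pd d f (x + g x) + fderiv ℝ f (x + g x) (pd d g x) := by
  funext x
  simp only [pd]
  rw [fderiv_comp_id_add hf hg, map_add]

theorem sn_comp_zero (hf : Sm f) (g : V n → V n) : sn 0 (fun x => f (x + g x)) ≤ sn 0 f :=
  sn_zero_le fun _ => norm_le_sn_zero hf _

theorem Comp.norm_u (hg : Sm g) (x : V n) : ‖fderiv ℝ (fun y => y + g y) x‖ ≤ 1 + sn 1 g :=
  (norm_fderiv_id_add hg.1 x).trans (by linarith [norm_fderiv_le_sn_one hg x])

theorem Comp.norm_fderiv_le (hf : Sm f) (hg : Sm g) (x : V n) :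
    ‖fderiv ℝ (fun y => f (y + g y)) x‖ ≤ sn 1 f * (1 + sn 1 g) := by
  rw [Comp.fderiv_eq hf hg]
  refine (ContinuousLinearMap.opNorm_comp_le _ _).trans (mul_le_mul (norm_fderiv_le_sn_one hf _)
    ((norm_add_le _ _).trans (add_le_add ContinuousLinearMap.norm_id_le
      (norm_fderiv_le_sn_one hg x))) (norm_nonneg _) (sn_nonneg _ _))

/-- `comp_pt` for `r ≥ 2` -/
theorem Sm.comp (hf : Sm f) (hg : Sm g) : Sm fun x => f (x + g x) := by
  refine ⟨hf.1.comp (Comp.cd_u hg), fun r => ?_⟩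
  match r with
  | 0 => exact ⟨sn 0 f, fun x => by rw [norm_iteratedFDeriv_zero]; exact norm_le_sn_zero hf _⟩
  | 1 => exact ⟨_, fun x => by rw [norm_iteratedFDeriv_one]; exact Comp.norm_fderiv_le hf hg x⟩
  | r + 2 =>
    obtain ⟨C, hC⟩ := comp_pt hf hg.1 (r := r + 2) (by omega) fun j _ _ => hg.2 j
    exact ⟨sn 1 f * sn (r + 2) g + C, fun x => (hC x).trans (by
      linarith [mul_le_mul_of_nonneg_left (le_sn hg (r + 2) x) (sn_nonneg 1 f)])⟩

theorem sn_comp_one (hf : Sm f) (hg : Sm g) :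
    sn 1 (fun x => f (x + g x)) ≤ sn 1 f * (1 + sn 1 g) :=
  sn_one_le fun x => Comp.norm_fderiv_le hf hg x

/-- bounds for the derivatives of `x ↦ x + g x` -/
noncomputable def Comp.w (g : V n → V n) (j : ℕ) : ℝ := if j = 1 then 1 + sn 1 g else sn j g

theorem Comp.w_nonneg (g : V n → V n) (j : ℕ) : 0 ≤ Comp.w g j := by
  unfold Comp.w
  split_ifs
  · linarith [sn_nonneg 1 g]
  · exact sn_nonneg _ _

theorem Comp.le_w (hg : Sm g) {j : ℕ} (hj : 0 < j) (x : V n) :
    ‖iteratedFDeriv ℝ j (fun y => y + g y) x‖ ≤ Comp.w g j := by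
  unfold Comp.w
  split_ifs with h
  · rw [h, norm_iteratedFDeriv_one]
    exact Comp.norm_u hg x
  · rw [iteratedFDeriv_id_add hg.1 (by omega)]
    exact le_sn hg j x

theorem Comp.main_le (hf : Sm f) (hg : Sm g) {r : ℕ} (hr : 2 ≤ r) {B : ℝ} (hB : 0 ≤ B)
    (h : ∀ c : OrderedFinpartition r, 2 ≤ c.length → c.length < r →
      sn c.length f * ∏ i, Comp.w g (c.partSize i) ≤ B) :
    sn r (fun x => f (x + g x)) ≤ sn r f * (1 + sn 1 g) ^ r + sn 1 f * sn r g +
      Fintype.card (OrderedFinpartition r) * B := by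
  classical
  refine sn_le fun x => (faa hf.1 (Comp.cd_u hg) hr x).trans (add_le_add (add_le_add ?_ ?_) ?_)
  · exact mul_le_mul (le_sn hf _ _) (pow_le_pow_left₀ (norm_nonneg _) (Comp.norm_u hg x) _)
      (by positivity) (sn_nonneg _ _)
  · rw [iteratedFDeriv_id_add hg.1 hr]
    exact mul_le_mul (norm_fderiv_le_sn_one hf _) (le_sn hg _ _) (norm_nonneg _) (sn_nonneg _ _)
  · refine (Finset.sum_le_card_nsmul _ _ B fun c hc => ?_).trans ?_
    · have hc' := (Finset.mem_filter.1 hc).2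
      refine le_trans ?_ (h c hc'.1 hc'.2)
      exact mul_le_mul (le_sn hf _ _) (Finset.prod_le_prod (fun _ _ => norm_nonneg _)
        fun i _ => Comp.le_w hg (c.partSize_pos i) x)
        (Finset.prod_nonneg fun _ _ => norm_nonneg _) (sn_nonneg _ _)
    · rw [nsmul_eq_mul]
      exact mul_le_mul_of_nonneg_right (Nat.cast_le.2 (Finset.card_le_univ _)) hB

/-- `faa` with `r = 2` has no middle terms -/
theorem sn_comp_two (hf : Sm f) (hg : Sm g) :
    sn 2 (fun x => f (x + g x)) ≤ sn 2 f * (1 + sn 1 g) ^ 2 + sn 1 f * sn 2 g := by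
  have := Comp.main_le hf hg (r := 2) le_rfl (B := 0) le_rfl fun c h1 h2 => absurd h2 (by omega)
  rwa [mul_zero, add_zero] at this

/-- `faa`, or `norm_iteratedFDeriv_comp_le` -/
theorem nm_comp_le (r : ℕ) (M : ℝ) : ∃ C : ℝ, 0 ≤ C ∧ ∀ (f : V n → F) (g : V n → V n),
    Sm f → Sm g → nm r g ≤ M → nm r (fun x => f (x + g x)) ≤ C * nm r f := by
  have hU : (1 : ℝ) ≤ 1 + |M| := by linarith [abs_nonneg M]
  refine ⟨∑ j ∈ Finset.range (r + 1), ((1 + |M|) ^ j + (1 + |M|) +
    Fintype.card (OrderedFinpartition j) * (1 + |M|) ^ j), by positivity, fun f g hf hg hM => ?_⟩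
  rw [Finset.sum_mul]
  refine Finset.sum_le_sum fun j hj => ?_
  have hj' : j ≤ r := Nat.lt_succ_iff.1 (Finset.mem_range.1 hj)
  have hg' : ∀ i, i ≤ r → sn i g ≤ |M| := fun i hi =>
    (sn_le_nm hi g).trans (hM.trans (le_abs_self M))
  have n0 := nm_nonneg r f
  have p1 : 0 ≤ (1 + |M|) ^ j * nm r f := by positivity
  have p2 : 0 ≤ (1 + |M|) * nm r f := by positivity
  have p3 : 0 ≤ Fintype.card (OrderedFinpartition j) * (1 + |M|) ^ j * nm r f := by positivity
  have nf := sn_le_nm hj' f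
  rw [add_mul, add_mul]
  rcases lt_or_ge j 2 with h2 | h2
  · interval_cases j
    · have := sn_comp_zero hf g
      rw [pow_zero, one_mul]
      rw [pow_zero] at p3
      linarith
    · have a := (sn_comp_one hf hg).trans (mul_le_mul nf (add_le_add_right (hg' 1 hj') 1)
        (by linarith [sn_nonneg 1 g]) n0)
      linarith
  · have a1 : sn j f * (1 + sn 1 g) ^ j ≤ nm r f * (1 + |M|) ^ j :=
      mul_le_mul nf (pow_le_pow_left₀ (by linarith [sn_nonneg 1 g])
        (by linarith [hg' 1 (by omega)]) j) (pow_nonneg (by linarith [sn_nonneg 1 g]) j) n0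
    have a2 : sn 1 f * sn j g ≤ nm r f * (1 + |M|) :=
      mul_le_mul (sn_le_nm (by omega) f) (by linarith [hg' j hj']) (sn_nonneg _ _) n0
    have a3 := Comp.main_le hf hg h2 (B := nm r f * (1 + |M|) ^ j) (by positivity) fun c _ hc => by
      refine mul_le_mul (sn_le_nm (by omega) f) ?_
        (Finset.prod_nonneg fun _ _ => Comp.w_nonneg _ _) n0
      refine (Finset.prod_le_prod (g := fun _ => 1 + |M|) (fun _ _ => Comp.w_nonneg _ _)
        fun i _ => ?_).trans ?_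
      · unfold Comp.w
        split_ifs
        · linarith [hg' 1 (by omega)]
        · linarith [hg' _ ((c.partSize_le i).trans hj')]
      · rw [Finset.prod_const, Finset.card_univ, Fintype.card_fin]
        exact pow_le_pow_right₀ hU hc.le
    linarith

theorem Comp.ratio (hf : Sm f) (N : ℕ) {T : ℝ} (hT : sn N f / sn 0 f ≤ T) :
    sn N f ≤ sn 0 f * T := by
  rcases (sn_nonneg 0 f).eq_or_lt with h | h
  · have e : f = fun _ => 0 := funext fun x =>
      norm_le_zero_iff.1 ((norm_le_sn_zero hf x).trans h.ge)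
    rw [← h, zero_mul, e, sn_zero_fun]
  · rwa [div_le_iff₀' h] at hT

theorem Comp.exists_scale {G : Type} [NormedAddCommGroup G] [NormedSpace ℝ G] {g : V n → G}
    (hf : Sm f) (hg : Sm g) (N : ℕ) : ∃ l : ℝ, 1 ≤ l ∧
    sn N f ≤ sn 0 f * l ^ N ∧ sn N g ≤ sn 0 g * l ^ N ∧
      sn 0 f * sn 0 g * l ^ N ≤ sn 0 f * sn 0 g + sn N f * sn 0 g + sn 0 f * sn N g := by
  have a0 := sn_nonneg 0 f
  have b0 := sn_nonneg 0 g
  have a1 := sn_nonneg N f
  have b1 := sn_nonneg N g
  rcases Nat.eq_zero_or_pos N with rfl | hN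
  · exact ⟨1, le_rfl, by simp, by simp, by nlinarith [mul_nonneg a0 b0]⟩
  have p1 : 0 ≤ sn N f / sn 0 f := by positivity
  have p2 : 0 ≤ sn N g / sn 0 g := by positivity
  set T : ℝ := 1 + sn N f / sn 0 f + sn N g / sn 0 g with hT
  have hT1 : 1 ≤ T := by linarith
  have e : (T ^ ((N : ℝ)⁻¹)) ^ N = T := Real.rpow_inv_natCast_pow (by linarith) hN.ne'
  refine ⟨T ^ ((N : ℝ)⁻¹), Real.one_le_rpow hT1 (by positivity), ?_, ?_, ?_⟩ <;> rw [e]
  · exact Comp.ratio hf N (by linarith)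
  · exact Comp.ratio hg N (by linarith)
  · have q : ∀ x y : ℝ, 0 ≤ y → x * (y / x) ≤ y := fun x y hy => by
      rcases eq_or_ne x 0 with rfl | hx
      · simpa using hy
      · rw [mul_div_cancel₀ _ hx]
    have q1 := q (sn 0 f) _ a1
    have q2 := q (sn 0 g) _ b1
    have q3 := mul_le_mul_of_nonneg_right q1 b0
    have q4 := mul_le_mul_of_nonneg_left q2 a0
    rw [hT]
    nlinarith

theorem Comp.sum_pred {r : ℕ} (c : OrderedFinpartition r) :
    ∑ i, (c.partSize i - 1) + c.length = r := by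
  have h := ofp_sum r c
  have e : ∑ i, c.partSize i = ∑ i, ((c.partSize i - 1) + 1) :=
    Finset.sum_congr rfl fun i _ => (Nat.sub_add_cancel (c.partSize_pos i)).symm
  rw [e, Finset.sum_add_distrib] at h
  simpa using h

theorem Comp.mid {N : ℕ} {K l : ℝ} (hK : 1 ≤ K) (hl : 1 ≤ l) (g1 : sn 1 g ≤ 1) (g2 : sn 2 g ≤ 1)
    (Hf : ∀ j, j ≤ N → sn (j + 2) f ≤ K * sn 2 f * l ^ j)
    (Hg : ∀ j, j ≤ N → sn (j + 2) g ≤ K * sn 2 g * l ^ j)
    (c : OrderedFinpartition (N + 3)) (h1 : 2 ≤ c.length) (h2 : c.length < N + 3) :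
    sn c.length f * ∏ i, Comp.w g (c.partSize i) ≤
      K * (K + 2) ^ (N + 3) * (sn 2 f * sn 2 g * l ^ N) := by
  classical
  have hs := Comp.sum_pred c
  have hl0 : 0 < l := by linarith
  have a0 := sn_nonneg 2 f
  have b0 := sn_nonneg 2 g
  have hle : ∀ i, c.partSize i - 1 ≤ ∑ i, (c.partSize i - 1) := fun i =>
    Finset.single_le_sum (f := fun i => c.partSize i - 1) (fun _ _ => Nat.zero_le _)
      (Finset.mem_univ i)
  have big : ∀ i, 2 ≤ c.partSize i →
      l * Comp.w g (c.partSize i) ≤ sn 2 g * ((K + 2) * l ^ (c.partSize i - 1)) := fun i hi => by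
    obtain ⟨j, hj⟩ : ∃ j, c.partSize i = j + 2 := ⟨_, (Nat.sub_add_cancel hi).symm⟩
    have := hle i
    have b := Hg j (by omega)
    rw [Comp.w, if_neg (by omega), hj, show j + 2 - 1 = j + 1 from rfl, pow_succ]
    have p : 0 ≤ sn 2 g * l ^ j * l := by positivity
    nlinarith [mul_le_mul_of_nonneg_left b hl0.le]
  have all : ∀ i, Comp.w g (c.partSize i) ≤ (K + 2) * l ^ (c.partSize i - 1) := fun i => by
    rcases lt_or_ge (c.partSize i) 2 with hi | hi
    · have e : c.partSize i = 1 := by have := c.partSize_pos i; omega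
      rw [e, Comp.w, if_pos rfl, Nat.sub_self, pow_zero]
      linarith
    · have b := big i hi
      have p : 0 ≤ (K + 2) * l ^ (c.partSize i - 1) := by positivity
      have w0 := Comp.w_nonneg g (c.partSize i)
      nlinarith [mul_le_mul_of_nonneg_right g2 p, mul_le_mul_of_nonneg_right hl w0]
  obtain ⟨i0, hi0⟩ : ∃ i, 2 ≤ c.partSize i := by
    by_contra hn
    push Not at hn
    have : ∑ i, (c.partSize i - 1) = 0 := Finset.sum_eq_zero fun i _ => by have := hn i; omega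
    omega
  have key : l * ∏ i, Comp.w g (c.partSize i) ≤
      sn 2 g * ∏ i, ((K + 2) * l ^ (c.partSize i - 1)) := by
    rw [← Finset.mul_prod_erase _ _ (Finset.mem_univ i0),
      ← Finset.mul_prod_erase _ (fun i => (K + 2) * l ^ (c.partSize i - 1)) (Finset.mem_univ i0),
      ← mul_assoc, ← mul_assoc]
    exact mul_le_mul (big i0 hi0) (Finset.prod_le_prod (fun _ _ => Comp.w_nonneg _ _)
      fun i _ => all i) (Finset.prod_nonneg fun _ _ => Comp.w_nonneg _ _) (by positivity)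
  rw [Finset.prod_mul_distrib, Finset.prod_const, Finset.prod_pow_eq_pow_sum, Finset.card_univ,
    Fintype.card_fin] at key
  obtain ⟨k, hk⟩ : ∃ k, c.length = k + 2 := ⟨_, (Nat.sub_add_cancel h1).symm⟩
  have bf : sn c.length f ≤ K * sn 2 f * l ^ k := by rw [hk]; exact Hf k (by omega)
  have pw : (K + 2) ^ c.length ≤ (K + 2) ^ (N + 3) := pow_le_pow_right₀ (by linarith) h2.le
  have e : l ^ k * l ^ (∑ i, (c.partSize i - 1)) = l * l ^ N := by
    rw [← pow_add, ← pow_succ']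
    congr 1
    omega
  refine le_of_mul_le_mul_left ?_ hl0
  calc l * (sn c.length f * ∏ i, Comp.w g (c.partSize i))
      = sn c.length f * (l * ∏ i, Comp.w g (c.partSize i)) := by ring
    _ ≤ K * sn 2 f * l ^ k * (sn 2 g * ((K + 2) ^ (N + 3) * l ^ (∑ i, (c.partSize i - 1)))) := by
      refine mul_le_mul bf (key.trans ?_) (mul_nonneg hl0.le
        (Finset.prod_nonneg fun _ _ => Comp.w_nonneg _ _)) (by positivity)
      gcongr
    _ = K * (K + 2) ^ (N + 3) * (sn 2 f * sn 2 g) *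
        (l ^ k * l ^ (∑ i, (c.partSize i - 1))) := by ring
    _ = _ := by rw [e]; ring

theorem Comp.t3_one (r : ℕ) : ∃ C : ℝ, 0 ≤ C ∧ (2 ≤ r → ∀ (f : V n → F) (g : V n → V n),
    Sm f → Sm g → sn 1 g ≤ 1 → sn 2 g ≤ 1 → sn r (fun x => f (x + g x)) ≤
      sn r f * (1 + sn 1 g) ^ r + sn 1 f * sn r g +
        C * (md r f * sn 2 g + sn 2 f * md r g)) := by
  match r with
  | 0 => exact ⟨0, le_rfl, fun h => absurd h (by omega)⟩
  | 1 => exact ⟨0, le_rfl, fun h => absurd h (by omega)⟩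
  | 2 =>
    refine ⟨0, le_rfl, fun _ f g hf hg _ _ => ?_⟩
    rw [zero_mul, add_zero]
    exact sn_comp_two hf hg
  | N + 3 =>
    obtain ⟨K₁, hK₁, hlk₁⟩ := lk (n := n) (F := V n →L[ℝ] V n →L[ℝ] F) N
    obtain ⟨K₂, hK₂, hlk₂⟩ := lk (n := n) (F := V n →L[ℝ] V n →L[ℝ] V n) N
    have hK : 1 ≤ K₁ * K₂ := one_le_mul_of_one_le_of_one_le hK₁ hK₂
    refine ⟨Fintype.card (OrderedFinpartition (N + 3)) *
      (K₁ * K₂ * (K₁ * K₂ + 2) ^ (N + 3) * 2), by positivity, fun _ f g hf hg g1 g2 => ?_⟩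
    obtain ⟨l, hl, s1, s2, s3⟩ := Comp.exists_scale hf.fderiv.fderiv hg.fderiv.fderiv N
    have hl0 : 0 < l := by linarith
    have a0 := sn_nonneg 2 f
    have b0 := sn_nonneg 2 g
    have Hf : ∀ j, j ≤ N → sn (j + 2) f ≤ K₁ * K₂ * sn 2 f * l ^ j := fun j hj => by
      have := hlk₁ _ _ l hf.fderiv.fderiv hl0 le_rfl s1 j hj
      simp only [sn_fderiv, zero_add] at this
      refine this.trans ?_
      have p : 0 ≤ K₁ * sn 2 f * l ^ j := by positivity
      nlinarith [mul_le_mul_of_nonneg_left hK₂ p]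
    have Hg : ∀ j, j ≤ N → sn (j + 2) g ≤ K₁ * K₂ * sn 2 g * l ^ j := fun j hj => by
      have := hlk₂ _ _ l hg.fderiv.fderiv hl0 le_rfl s2 j hj
      simp only [sn_fderiv, zero_add] at this
      refine this.trans ?_
      have p : 0 ≤ K₂ * sn 2 g * l ^ j := by positivity
      nlinarith [mul_le_mul_of_nonneg_left hK₁ p]
    refine (Comp.main_le hf hg (by omega) (by positivity)
      (Comp.mid hK hl g1 g2 Hf Hg)).trans (add_le_add_right ?_ _)
    simp only [sn_fderiv, zero_add] at s3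
    have s4 : sn 2 f * sn 2 g * l ^ N ≤
        sn 2 f * sn 2 g + sn (N + 2) f * sn 2 g + sn 2 f * sn (N + 2) g := s3
    have c1 : sn 2 f ≤ md (N + 3) f := sn_le_md le_rfl (by omega) f
    have c2 : sn (N + 2) f ≤ md (N + 3) f := sn_le_md (by omega) (by omega) f
    have c3 : sn (N + 2) g ≤ md (N + 3) g := sn_le_md (by omega) (by omega) g
    have c4 := mul_le_mul_of_nonneg_right c1 b0
    have c5 := mul_le_mul_of_nonneg_right c2 b0
    have c6 := mul_le_mul_of_nonneg_left c3 a0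
    have c7 := mul_nonneg a0 (md_nonneg (N + 3) g)
    have c8 : sn 2 f * sn 2 g * l ^ N ≤
        2 * (md (N + 3) f * sn 2 g + sn 2 f * md (N + 3) g) := by linarith
    have c9 := mul_le_mul_of_nonneg_left c8 (by positivity :
      0 ≤ Fintype.card (OrderedFinpartition (N + 3)) * (K₁ * K₂ * (K₁ * K₂ + 2) ^ (N + 3)))
    refine le_trans (le_of_eq ?_) (c9.trans (le_of_eq ?_)) <;> ring

/-- Sharp top order composition estimate, from `faa`. For a middle partition with `k` parts of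
sizes `p i` (`2 ≤ k < r`, sum `r`, so at least one part has size at least two) the parts of size one
contribute at most `2` each. Put `ρ = r - 3`, `a = md r f`, `b = md r g`. `lk` applied to the second
derivatives (`fderiv (fderiv f)`, `sn_fderiv`) with `R = ρ` gives `sn (2+j) f ≤ C a₀ l^j`,
`sn (2+j) g ≤ C b₀ l^j` for `j ≤ ρ`, where `a₀ = sn 2 f + t`, `b₀ = sn 2 g + t` (`t > 0` small, let
`t → 0` at the end, or treat zero cases) and `l ≥ 1` with `l ^ ρ = max 1 (max (sn (r-1) f / a₀)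
(sn (r-1) g / b₀))`. With `m ≥ 1` parts of size at least two the exponent of `l` is
`(k - 2) + ∑ (p i - 2) = r - 2 - m ≤ ρ`, and `b₀ ^ m ≤ 2 ^ m b₀`; finally
`a₀ b₀ l ^ ρ ≤ a₀ b₀ + sn (r-1) f b₀ + a₀ sn (r-1) g`. -/
theorem t3 : ∃ C : ℕ → ℝ, (∀ r, 0 ≤ C r) ∧ ∀ r, 2 ≤ r → ∀ (f : V n → F) (g : V n → V n),
    Sm f → Sm g → sn 1 g ≤ 1 → sn 2 g ≤ 1 → sn r (fun x => f (x + g x)) ≤
      sn r f * (1 + sn 1 g) ^ r + sn 1 f * sn r g +
        C r * (md r f * sn 2 g + sn 2 f * md r g) := by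
  choose C h1 h2 using Comp.t3_one (n := n) (F := F)
  exact ⟨C, h1, h2⟩

theorem t3_crude (r : ℕ) : ∃ C : ℝ, 0 ≤ C ∧ ∀ (f : V n → F) (g : V n → V n), Sm f → Sm g →
    sn 1 g ≤ 1 → sn 2 g ≤ 1 → sn r (fun x => f (x + g x)) ≤ C * (nm r f + nm 2 f * nm r g) := by
  obtain ⟨C, hC, h⟩ := Comp.t3_one (n := n) (F := F) r
  refine ⟨2 ^ r + 2 + C, by positivity, fun f g hf hg g1 g2 => ?_⟩
  have n1 := nm_nonneg r f
  have n2 := mul_nonneg (nm_nonneg 2 f) (nm_nonneg r g)
  have n3 := sn_le_nm (le_refl r) f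
  have p2 : (0 : ℝ) < 2 ^ r := by positivity
  rcases lt_or_ge r 2 with hr | hr
  · have a : sn r (fun x => f (x + g x)) ≤ 2 * nm r f := by
      interval_cases r
      · linarith [sn_comp_zero hf g]
      · nlinarith [sn_comp_one hf hg, sn_nonneg 1 f]
    nlinarith [mul_nonneg p2.le n1, mul_nonneg hC n1, mul_nonneg p2.le n2, mul_nonneg hC n2]
  · have a1 : sn r f * (1 + sn 1 g) ^ r ≤ nm r f * 2 ^ r :=
      mul_le_mul n3 (pow_le_pow_left₀ (by linarith [sn_nonneg 1 g]) (by linarith) r)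
        (pow_nonneg (by linarith [sn_nonneg 1 g]) r) n1
    have a2 : sn 1 f * sn r g ≤ nm 2 f * nm r g :=
      mul_le_mul (sn_le_nm (by omega) f) (sn_le_nm le_rfl g) (sn_nonneg _ _) (nm_nonneg _ _)
    have a3 : md r f * sn 2 g ≤ nm r f * 1 :=
      mul_le_mul (md_le_nm r f) g2 (sn_nonneg _ _) n1
    have a4 : sn 2 f * md r g ≤ nm 2 f * nm r g :=
      mul_le_mul (sn_le_nm le_rfl f) (md_le_nm r g) (md_nonneg _ _) (nm_nonneg _ _)
    have a5 := mul_le_mul_of_nonneg_left (add_le_add a3 a4) hC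
    have a6 := h hr f g hf hg g1 g2
    nlinarith [mul_nonneg p2.le n2]

end Pool.Agent.P.MP_878f14_gt.HT
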