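import Pool.Agent.P.MP_878f14_gt.HT.Inv

/-! Infinite products of diffeomorphisms with disjoint supports. -/

namespace Pool.Agent.P.MP_878f14_gt.HT

open Set Metric
open scoped commutatorElement

variable {n : ℕ} {N : Type*} {K : N → Set (V n)} {u v : N → Pm n} {g h : Pm n}

/-- `g` is the product of the `u w` -/
def IsDP (u : N → Pm n) (g : Pm n) : Prop :=
  (∀ w x, u w x ≠ x → g x = u w x) ∧ ∀ x, (∀ w, u w x = x) → g x = x

/-- pairwise disjoint sets -/
def Sep (K : N → Set (V n)) : Prop := Pairwise fun w w' => Disjoint (K w) (K w')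

theorem IsDP.unique (hg : IsDP u g) (hh : IsDP u h) : g = h := by
  ext1 x
  by_cases hx : ∀ w, u w x = x
  · rw [hg.2 x hx, hh.2 x hx]
  · push Not at hx
    obtain ⟨w, hw⟩ := hx
    rw [hg.1 w x hw, hh.1 w x hw]

theorem IsDP.eq_on (hs : Sep K) (hu : ∀ w, Fix (K w) (u w)) (hg : IsDP u g) (w : N)
    {x : V n} (hx : x ∈ K w) : g x = u w x := by
  by_cases h1 : u w x = x
  · rw [h1]
    refine hg.2 x fun w' => ?_
    by_cases hw : w = w'
    · rw [← hw, h1]
    · exact hu w' x (Set.disjoint_left.1 (hs hw) hx)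
  · exact hg.1 w x h1

theorem IsDP.eq_off (hu : ∀ w, Fix (K w) (u w)) (hg : IsDP u g)
    {x : V n} (hx : ∀ w, x ∉ K w) : g x = x :=
  hg.2 x fun w => hu w x (hx w)

theorem isDP_of_eq (hu : ∀ w, Fix (K w) (u w)) (h1 : ∀ w, ∀ x ∈ K w, g x = u w x)
    (h2 : ∀ x, (∀ w, x ∉ K w) → g x = x) : IsDP u g := by
  refine ⟨fun w x hx => h1 w x ?_, fun x hx => ?_⟩
  · by_contra hc
    exact hx (hu w x hc)
  · by_cases hc : ∀ w, x ∉ K w
    · exact h2 x hc
    · push Not at hc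
      obtain ⟨w, hw⟩ := hc
      rw [h1 w x hw, hx w]

theorem isDP_one : IsDP (fun _ : N => (1 : Pm n)) 1 :=
  ⟨fun _ _ _ => rfl, fun _ _ => rfl⟩

theorem IsDP.mul (hs : Sep K) (hu : ∀ w, Fix (K w) (u w)) (hv : ∀ w, Fix (K w) (v w))
    (hg : IsDP u g) (hh : IsDP v h) : IsDP (fun w => u w * v w) (g * h) := by
  refine isDP_of_eq (K := K) (fun w => (hu w).mul (hv w)) (fun w x hx => ?_) (fun x hx => ?_)
  · rw [Equiv.Perm.mul_apply, Equiv.Perm.mul_apply, hh.eq_on hs hv w hx,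
      hg.eq_on hs hu w ((hv w).mapsTo hx)]
  · rw [Equiv.Perm.mul_apply, hh.eq_off hv hx, hg.eq_off hu hx]

theorem IsDP.inv (hs : Sep K) (hu : ∀ w, Fix (K w) (u w)) (hg : IsDP u g) :
    IsDP (fun w => (u w)⁻¹) g⁻¹ := by
  have hu' : ∀ w, Fix (K w) (u w)⁻¹ := fun w => (hu w).inv
  refine isDP_of_eq (K := K) hu' (fun w x hx => ?_) (fun x hx => ?_)
  · rw [Equiv.Perm.inv_eq_iff_eq, hg.eq_on hs hu w ((hu' w).mapsTo hx)]
    simp
  · rw [Equiv.Perm.inv_eq_iff_eq, hg.eq_off hu hx]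

theorem IsDP.conj (hg : IsDP u g) (φ : Pm n) :
    IsDP (fun w => φ * u w * φ⁻¹) (φ * g * φ⁻¹) := by
  refine ⟨fun w x hx => ?_, fun x hx => ?_⟩
  · simp only [Equiv.Perm.mul_apply] at hx ⊢
    rw [hg.1 w (φ⁻¹ x)]
    intro hc
    apply hx
    rw [hc]
    simp
  · simp only [Equiv.Perm.mul_apply] at hx ⊢
    rw [hg.2 (φ⁻¹ x)]
    · simp
    · intro w
      apply φ.injective
      rw [hx w]
      simp

theorem IsDP.fix {T : Set (V n)} (hu : ∀ w, Fix T (u w)) (hg : IsDP u g) : Fix T g :=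
  fun x hx => hg.2 x fun w => hu w x hx

theorem disj_phi_fix {T : Set (V n)} {m : ℕ} (y : Fin m → Gc n × Gc n)
    (hy : ∀ k, Fix T ((y k).1 : Pm n) ∧ Fix T ((y k).2 : Pm n)) :
    Fix T ((Phi (List.ofFn y) : Gc n) : Pm n) := by
  induction m with
  | zero => simpa using fix_one T
  | succ m ih =>
    have h1 := ih (fun k => y k.succ) fun k => hy k.succ
    have h2 := ((((hy 0).1.mul (hy 0).2).mul (hy 0).1.inv).mul (hy 0).2.inv).mul h1
    simpa only [List.ofFn_succ, Phi_cons, commutatorElement_def, Subgroup.coe_mul,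
      Subgroup.coe_inv] using h2

theorem IsDP.phi (hs : Sep K) {m : ℕ} (x : N → Fin m → Gc n × Gc n) (X : Fin m → Gc n × Gc n)
    (hx : ∀ w k, Fix (K w) ((x w k).1 : Pm n) ∧ Fix (K w) ((x w k).2 : Pm n))
    (hX : ∀ k, IsDP (fun w => ((x w k).1 : Pm n)) (X k).1 ∧
      IsDP (fun w => ((x w k).2 : Pm n)) (X k).2) :
    IsDP (fun w => ((Phi (List.ofFn (x w)) : Gc n) : Pm n)) ((Phi (List.ofFn X) : Gc n) : Pm n) := by
  induction m with
  | zero => simpa using isDP_one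
  | succ m ih =>
    have ih' := ih (fun w k => x w k.succ) (fun k => X k.succ) (fun w k => hx w k.succ)
      (fun k => hX k.succ)
    have f1 : ∀ w, Fix (K w) ((x w 0).1 : Pm n) := fun w => (hx w 0).1
    have f2 : ∀ w, Fix (K w) ((x w 0).2 : Pm n) := fun w => (hx w 0).2
    have i1 : ∀ w, Fix (K w) ((x w 0).1 : Pm n)⁻¹ := fun w => (f1 w).inv
    have i2 : ∀ w, Fix (K w) ((x w 0).2 : Pm n)⁻¹ := fun w => (f2 w).inv
    have m1 : ∀ w, Fix (K w) (((x w 0).1 : Pm n) * (x w 0).2) := fun w => (f1 w).mul (f2 w)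
    have m2 : ∀ w, Fix (K w) (((x w 0).1 : Pm n) * (x w 0).2 * ((x w 0).1 : Pm n)⁻¹) :=
      fun w => (m1 w).mul (i1 w)
    have m3 : ∀ w, Fix (K w)
        (((x w 0).1 : Pm n) * (x w 0).2 * ((x w 0).1 : Pm n)⁻¹ * ((x w 0).2 : Pm n)⁻¹) :=
      fun w => (m2 w).mul (i2 w)
    have d1 := IsDP.mul hs f1 f2 (hX 0).1 (hX 0).2
    have d2 := IsDP.mul hs m1 i1 d1 ((hX 0).1.inv hs f1)
    have d3 := IsDP.mul hs m2 i2 d2 ((hX 0).2.inv hs f2)
    have d4 := IsDP.mul hs m3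
      (fun w => disj_phi_fix (fun k => x w k.succ) (fun k => hx w k.succ)) d3 ih'
    simpa only [List.ofFn_succ, Phi_cons, commutatorElement_def, Subgroup.coe_mul,
      Subgroup.coe_inv] using d4

/-- a finite product of elements with disjoint supports (induction on `L`, `List.ofFn_succ`) -/
theorem isDP_prod {L : ℕ} {K : Fin L → Set (V n)} {u : Fin L → Pm n} (hs : Sep K)
    (hu : ∀ j, Fix (K j) (u j)) : IsDP u (List.ofFn u).prod := by
  induction L with
  | zero => exact ⟨fun w => w.elim0, fun x _ => by simp⟩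
  | succ L ih =>
    have hs' : Sep fun j : Fin L => K j.succ := fun j j' hj =>
      hs fun hc => hj (Fin.succ_injective _ hc)
    have hu' : ∀ j : Fin L, Fix (K j.succ) (u j.succ) := fun j => hu j.succ
    have ih' := ih hs' hu'
    have h0 : ∀ j : Fin L, Disjoint (K 0) (K j.succ) := fun j => hs (Fin.succ_ne_zero j).symm
    rw [List.ofFn_succ, List.prod_cons]
    refine isDP_of_eq (K := K) hu (fun w x hx => ?_) (fun x hx => ?_)
    · rw [Equiv.Perm.mul_apply]
      refine Fin.cases (motive := fun w => x ∈ K w → u 0 ((List.ofFn fun j : Fin L =>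
        u j.succ).prod x) = u w x) (fun hx => ?_) (fun j hx => ?_) w hx
      · rw [ih'.eq_off hu' fun j => Set.disjoint_left.1 (h0 j) hx]
      · rw [ih'.eq_on hs' hu' j hx]
        exact hu 0 _ (Set.disjoint_right.1 (h0 j) ((hu' j).mapsTo hx))
    · rw [Equiv.Perm.mul_apply, ih'.eq_off hu' fun j => hx j.succ, hu 0 x (hx 0)]

theorem disj_tsum_on {G : Type} [NormedAddCommGroup G] (hs : Sep K) {f : N → V n → G}
    (hv : ∀ w, Van (K w) (f w)) (w : N) {x : V n} (hx : x ∈ K w) : ∑' w', f w' x = f w x :=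
  tsum_eq_single w fun w' hw => hv w' x fun hc => Set.disjoint_left.1 (hs hw) hc hx

theorem disj_tsum_off {G : Type} [NormedAddCommGroup G] {f : N → V n → G}
    (hv : ∀ w, Van (K w) (f w)) {x : V n} (hx : ∀ w, x ∉ K w) : ∑' w', f w' x = 0 := by
  have : ∀ w, f w x = 0 := fun w => hv w x (hx w)
  simp [this]

/-- The displacement is `∑' w, dp (u w)`, smooth by `contDiff_tsum`, differentiated term by term
(`iteratedFDeriv_tsum`, `fderiv_tsum`); at each point at most one term of the series of first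
derivatives is nonzero (`Van.fderiv`), and `mkG` applies. -/
theorem exists_DP (u : N → Gc n) (hs : Sep K) (hK : ∀ w, IsClosed (K w))
    (hu : ∀ w, Fix (K w) (u w : Pm n)) {R : ℝ} (hR : ∀ w, K w ⊆ closedBall 0 R)
    (hsum : ∀ r, Summable fun w => sn r (dp (u w : Pm n)))
    (h1 : ∀ w, sn 1 (dp (u w : Pm n)) ≤ 1 / 2) :
    ∃ g : Gc n, IsDP (fun w => (u w : Pm n)) g ∧
      (∀ r, sn r (dp (g : Pm n)) ≤ ∑' w, sn r (dp (u w : Pm n))) ∧
      ∀ δ : ℝ, 0 ≤ δ → (∀ w, sn 1 (dp (u w : Pm n)) ≤ δ) → sn 1 (dp (g : Pm n)) ≤ δ := by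
  have hf : ∀ w, Sm (dp (u w : Pm n)) := fun w => Gc.sm (u w)
  have hv : ∀ w, Van (K w) (dp (u w : Pm n)) := fun w => fix_iff_van.1 (hu w)
  have hc : ContDiff ℝ (⊤ : ℕ∞) fun x => ∑' w, dp (u w : Pm n) x :=
    contDiff_tsum (v := fun r w => sn r (dp (u w : Pm n))) (fun w => (hf w).1)
      (fun r _ => hsum r) (fun r w x _ => le_sn (hf w) r x)
  have hi : ∀ (r : ℕ) x, iteratedFDeriv ℝ r (fun x => ∑' w, dp (u w : Pm n) x) x =
      ∑' w, iteratedFDeriv ℝ r (dp (u w : Pm n)) x := fun r x =>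
    iteratedFDeriv_tsum_apply (N := (⊤ : ℕ∞)) (v := fun r w => sn r (dp (u w : Pm n)))
      (fun w => (hf w).1) (fun r _ => hsum r) (fun r w x _ => le_sn (hf w) r x) le_top x
  have hV : Van (closedBall 0 R) fun x => ∑' w, dp (u w : Pm n) x := by
    intro x hx
    have : ∀ w, dp (u w : Pm n) x = 0 := fun w => (hv w).mono (hR w) x hx
    simp [this]
  have hS : Sm fun x => ∑' w, dp (u w : Pm n) x := sm_of_van hc hV isBounded_closedBall
  have hd : ∀ δ : ℝ, 0 ≤ δ → (∀ w, sn 1 (dp (u w : Pm n)) ≤ δ) →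
      sn 1 (fun x => ∑' w, dp (u w : Pm n) x) ≤ δ := by
    intro δ hδ h
    refine sn_le fun x => ?_
    rw [hi 1 x]
    have hv' : ∀ w, Van (K w) (iteratedFDeriv ℝ 1 (dp (u w : Pm n))) :=
      fun w => (hv w).iteratedFDeriv (hK w) 1
    by_cases hx : ∀ w, x ∉ K w
    · rw [disj_tsum_off hv' hx, norm_zero]
      exact hδ
    · push Not at hx
      obtain ⟨w, hw⟩ := hx
      rw [disj_tsum_on hs hv' w hw]
      exact (le_sn (hf w) 1 x).trans (h w)
  obtain ⟨g, hg⟩ := mkG hS (hd _ (by norm_num) h1) hV isBounded_closedBall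
  refine ⟨g, isDP_of_eq hu (fun w x hx => ?_) (fun x hx => ?_), fun r => ?_, ?_⟩
  · rw [apply_eq_add_dp, hg, apply_eq_add_dp (u w : Pm n)]
    beta_reduce
    rw [disj_tsum_on hs hv w hx]
  · rw [apply_eq_add_dp, hg]
    beta_reduce
    rw [disj_tsum_off hv hx, add_zero]
  · rw [hg]
    refine sn_le fun x => ?_
    rw [hi r x]
    exact tsum_of_norm_bounded (f := fun w => iteratedFDeriv ℝ r (dp (u w : Pm n)) x)
      (hsum r).hasSum fun w => le_sn (hf w) r x
  · rw [hg]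
    exact hd

end Pool.Agent.P.MP_878f14_gt.HT
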