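import Pool.Agent.P.MP_878f14_gt.HT.Aff

/-! Local cocycles, and the central extension of a group of germs that they define. -/

namespace Pool.Agent.P.MP_878f14_gt.HT

open Filter Metric
open scoped Topology commutatorElement

/-- size of the first derivative of the displacement -/
noncomputable def s1 {n : ℕ} (g : Gc n) : ℝ := sn 1 (dp (g : Pm n))

/-- a normalised cocycle near the identity -/
structure LC (n : ℕ) (A : Type*) [AddCommGroup A] where
  c : Gc n → Gc n → A
  coc : ∀ g h k, s1 g ≤ 1 / 8 → s1 h ≤ 1 / 8 → s1 k ≤ 1 / 8 →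
    c g h + c (g * h) k = c g (h * k) + c h k
  one_one : c 1 1 = 0

variable {n : ℕ} {A : Type*} [AddCommGroup A] {ι : Type*}

theorem s1_nonneg (g : Gc n) : 0 ≤ s1 g := sn_nonneg _ _

theorem s1_one : s1 (1 : Gc n) = 0 := by
  rw [s1, OneMemClass.coe_one, dp_one, sn_zero_fun]

theorem s1_mul (g h : Gc n) : s1 (g * h) ≤ s1 g * (1 + s1 h) + s1 h :=
  sn_mul_one (Gc.sm g) (Gc.sm h)

theorem s1_inv {g : Gc n} (h : s1 g ≤ 1 / 2) : s1 g⁻¹ ≤ 2 * s1 g := sn_inv_one (Gc.sm g) h

theorem s1_cG {l : ℝ} (hl : 0 < l) (m : V n) (g : Gc n) : s1 (cG l m g) = s1 g :=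
  sn_one_conj_aff (Gc.sm g) hl m

theorem s1_le_nm {R : ℕ} (hR : 1 ≤ R) (g : Gc n) : s1 g ≤ nm R (dp (g : Pm n)) := sn_le_nm hR _

/-- pull back by a homothety -/
noncomputable def LC.pull (c : LC n A) {l : ℝ} (hl : 0 < l) (m : V n) : LC n A where
  c := fun g h => c.c (cG l m g) (cG l m h)
  coc := fun g h k hg hh hk => by
    simp only [map_mul]
    exact c.coc _ _ _ (by rwa [s1_cG hl]) (by rwa [s1_cG hl]) (by rwa [s1_cG hl])
  one_one := by simp [c.one_one]

/-- families tending to the identity in the first derivative -/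
def Tn (F : Filter ι) : Subgroup (ι → Gc n) where
  carrier := {f | Tendsto (fun i => s1 (f i)) F (𝓝 0)}
  one_mem' := by
    change Tendsto (fun _ => s1 (1 : Gc n)) F (𝓝 0)
    rw [s1_one]
    exact tendsto_const_nhds
  mul_mem' := fun {f g} hf hg => by
    have h : Tendsto (fun i => s1 (f i) * (1 + s1 (g i)) + s1 (g i)) F (𝓝 (0 * (1 + 0) + 0)) :=
      (Tendsto.mul hf (tendsto_const_nhds.add hg)).add hg
    rw [zero_mul, add_zero] at h
    exact squeeze_zero (fun _ => s1_nonneg _) (fun i => s1_mul (f i) (g i)) h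
  inv_mem' := fun {f} hf => by
    have h : Tendsto (fun i => 2 * s1 (f i)) F (𝓝 (2 * 0)) := Tendsto.const_mul 2 hf
    rw [mul_zero] at h
    have h2 : ∀ᶠ i in F, s1 (f i) ≤ 1 / 2 := Tendsto.eventually_le_const (by norm_num) hf
    exact squeeze_zero' (Eventually.of_forall fun _ => s1_nonneg _)
      (h2.mono fun i hi => s1_inv hi) h

theorem mem_Tn {F : Filter ι} {f : ι → Gc n} :
    f ∈ Tn F ↔ Tendsto (fun i => s1 (f i)) F (𝓝 0) := Iff.rfl

/-- germs of such families -/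
noncomputable def TG (n : ℕ) (F : Filter ι) : Subgroup (Germ F (Gc n)) :=
  (Tn F).map (Germ.coeMulHom F)

/-- the cocycle on these germs, with values in germs -/
noncomputable def LC.germ (c : LC n A) (F : Filter ι) : Coc (TG n F) (Germ F A) where
  c := fun f g => Germ.map₂ c.c f.1 g.1
  coc := by
    rintro ⟨_, f, hf, rfl⟩ ⟨_, g, hg, rfl⟩ ⟨_, k, hk, rfl⟩
    change ((fun i => c.c (f i) (g i) + c.c (f i * g i) (k i) : ι → A) : Germ F A) =
      ((fun i => c.c (f i) (g i * k i) + c.c (g i) (k i) : ι → A) : Germ F A)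
    rw [Germ.coe_eq]
    filter_upwards [Tendsto.eventually_le_const (show (0 : ℝ) < 1 / 8 by norm_num) hf,
      Tendsto.eventually_le_const (show (0 : ℝ) < 1 / 8 by norm_num) hg,
      Tendsto.eventually_le_const (show (0 : ℝ) < 1 / 8 by norm_num) hk] with i h1 h2 h3
    exact c.coc _ _ _ h1 h2 h3
  one_one := by
    change ((fun _ => c.c 1 1 : ι → A) : Germ F A) = 0
    rw [c.one_one]
    rfl

/-- the projection of the central extension to the germs -/
noncomputable def LC.pr (c : LC n A) (F : Filter ι) : CE (c.germ F) →* Germ F (Gc n) :=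
  (TG n F).subtype.comp (CE.pr (c.germ F))

open Classical in
/-- the standard lift of a family -/
noncomputable def LC.sec (c : LC n A) (F : Filter ι) (f : ι → Gc n) : CE (c.germ F) :=
  if h : f ∈ Tn F then ⟨⟨(f : Germ F (Gc n)), f, h, rfl⟩, 0⟩ else 1

variable {c : LC n A} {F : Filter ι}

theorem LC.pr_central (e : CE (c.germ F)) (h : c.pr F e = 1) :
    e ∈ Subgroup.center (CE (c.germ F)) :=
  CE.central e (Subtype.ext h)

theorem LC.pr_sec {f : ι → Gc n} (h : f ∈ Tn F) : c.pr F (c.sec F f) = (f : Germ F (Gc n)) := by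
  rw [LC.sec, dif_pos h]
  rfl

theorem LC.pr_PhiL {x : List ((ι → Gc n) × (ι → Gc n))} (hx : ∀ z ∈ x, z.1 ∈ Tn F ∧ z.2 ∈ Tn F) :
    c.pr F (PhiL (c.sec F) x) = ((Phi x : ι → Gc n) : Germ F (Gc n)) := by
  have h := map_Phi (Germ.coeMulHom F : (ι → Gc n) →* Germ F (Gc n)) x
  rw [PhiL, map_Phi, List.map_map]
  refine Eq.trans (congrArg Phi (List.map_congr_left fun z hz => ?_)) h.symm
  exact Prod.ext (LC.pr_sec (hx z hz).1) (LC.pr_sec (hx z hz).2)

theorem LC_sec_eq {f : ι → Gc n} (h : f ∈ Tn F) :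
    c.sec F f = ⟨⟨(f : Germ F (Gc n)), f, h, rfl⟩, 0⟩ := dif_pos h

theorem LC_Phi_apply (x : List ((ι → Gc n) × (ι → Gc n))) (i : ι) :
    Phi x i = Phi (x.map fun z => (z.1 i, z.2 i)) :=
  map_Phi (Pi.evalMonoidHom (fun _ : ι => Gc n) i) x

/-- `PhiL_a`, and `PhiA` of the germ cocycle is the germ of `PhiA` (induction on the list) -/
theorem LC.PhiL_sec_a {x : List ((ι → Gc n) × (ι → Gc n))}
    (hx : ∀ z ∈ x, z.1 ∈ Tn F ∧ z.2 ∈ Tn F) : (PhiL (c.sec F) x).a =
      ((fun i => PhiA c.c (x.map fun z => (z.1 i, z.2 i)) : ι → A) : Germ F A) := by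
  induction x with
  | nil => rfl
  | cons p x ih =>
    have hx' : ∀ z ∈ x, z.1 ∈ Tn F ∧ z.2 ∈ Tn F := fun z hz => hx z (List.mem_cons_of_mem _ hz)
    have h1 : ((PhiL (c.sec F) x).g : Germ F (Gc n)) = ((Phi x : ι → Gc n) : Germ F (Gc n)) :=
      LC.pr_PhiL hx'
    have hp := hx p List.mem_cons_self
    have e : PhiL (c.sec F) (p :: x) = ⁅c.sec F p.1, c.sec F p.2⁆ * PhiL (c.sec F) x := by
      simp only [PhiL, List.map_cons, Phi_cons, Prod.map_fst, Prod.map_snd]
    have ea : (⁅c.sec F p.1, c.sec F p.2⁆ : CE (c.germ F)).a =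
        ((fun i => comA c.c (p.1 i) (p.2 i) : ι → A) : Germ F A) := by
      rw [LC_sec_eq hp.1, LC_sec_eq hp.2]
      simp only [commutatorElement_def, CE.mul_a, CE.mul_g, CE.inv_g, CE.inv_a, zero_add, neg_zero,
        zero_sub]
      rfl
    have eg : ((⁅c.sec F p.1, c.sec F p.2⁆ : CE (c.germ F)).g : Germ F (Gc n)) =
        ((⁅p.1, p.2⁆ : ι → Gc n) : Germ F (Gc n)) := by
      rw [LC_sec_eq hp.1, LC_sec_eq hp.2]
      rfl
    have ec : (c.germ F).c (⁅c.sec F p.1, c.sec F p.2⁆ : CE (c.germ F)).g (PhiL (c.sec F) x).g =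
        ((fun i => c.c ⁅p.1 i, p.2 i⁆ (Phi x i) : ι → A) : Germ F A) := by
      change Germ.map₂ c.c _ _ = _
      rw [eg, h1]
      rfl
    rw [e, CE.mul_a, ea, ec, ih hx']
    simp only [List.map_cons, PhiA, LC_Phi_apply]
    rfl

theorem LC_prod_a (l : List (CE (c.germ F))) (h : ∀ e ∈ l, c.pr F e = 1) :
    l.prod.a = (l.map CE.a).sum := by
  induction l with
  | nil => rfl
  | cons e l ih =>
    have he : e.g = 1 := Subtype.ext (h e List.mem_cons_self)
    rw [List.prod_cons, CE.mul_a, ih fun e' he' => h e' (List.mem_cons_of_mem _ he'), he,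
      Coc.one_left, add_zero, List.map_cons, List.sum_cons]

theorem LC.prod_a {L : ℕ} (u : Fin L → CE (c.germ F)) (h : ∀ j, c.pr F (u j) = 1) :
    (List.ofFn u).prod.a = ∑ j, (u j).a := by
  rw [LC_prod_a _ ((List.forall_mem_ofFn_iff).2 h), List.map_ofFn, List.sum_ofFn]
  rfl

end Pool.Agent.P.MP_878f14_gt.HT
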