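import Pool.Agent.P.MP_878f14_gt.HT.Extract
import Pool.Agent.P.MP_878f14_gt.HT.Disj
import Pool.Agent.P.MP_878f14_gt.HT.LC

/-! Configurations of disjointly placed members of a family. -/

namespace Pool.Agent.P.MP_878f14_gt.HT

open Filter Metric
open scoped Topology

/-- nodes with an index and a placement by a homothety -/
structure Config (n : ℕ) (S : Scale) where
  N : Type
  idx : N → S.ι
  sl : N → ℝ
  ct : N → V n

variable {n : ℕ}

namespace Config

variable {S : Scale} (C : Config n S)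

def Adm : Prop := (∀ w, 0 < C.sl w ∧ C.sl w ≤ 1) ∧ (∃ R : ℝ, ∀ w, ‖C.ct w‖ ≤ R) ∧
  (∃ K : ℕ, ∀ r, ∃ B : ℝ, ∀ w, S.H r (C.idx w) ≤ B / S.ε (C.idx w) ^ K) ∧
  ∀ r : ℕ, Summable fun w => √(S.ε (C.idx w)) / C.sl w ^ r

/-- the ball of a node -/
def bl (M : ℝ) (w : C.N) : Set (V n) := closedBall (C.ct w) (C.sl w * M)

/-- total size -/
noncomputable def tot (r : ℕ) : ℝ := ∑' w, √(S.ε (C.idx w)) / C.sl w ^ r

def In (A : Set S.ι) (M : ℝ) (r : ℕ) (δ : ℝ) : Prop :=
  C.Adm ∧ (∀ w, C.idx w ∈ A) ∧ Sep (C.bl M) ∧ C.tot r ≤ δ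

theorem bl_mono {C : Config n S} (h : C.Adm) {M M' : ℝ} (hM : M' ≤ M) (w : C.N) :
    C.bl M' w ⊆ C.bl M w :=
  closedBall_subset_closedBall (mul_le_mul_of_nonneg_left hM (h.1 w).1.le)

theorem In.mono {C : Config n S} {A A' : Set S.ι} {M M' δ δ' : ℝ} {r r' : ℕ} (h : C.In A M r δ)
    (hA : A ⊆ A') (hM : M' ≤ M) (hr : r' ≤ r) (hδ : δ ≤ δ') : C.In A' M' r' δ' := by
  refine ⟨h.1, fun w => hA (h.2.1 w),
    fun w w' hw => (h.2.2.1 hw).mono (bl_mono h.1 hM w) (bl_mono h.1 hM w'),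
    le_trans ?_ (h.2.2.2.trans hδ)⟩
  refine (h.1.2.2.2 r').tsum_le_tsum (fun w => ?_) (h.1.2.2.2 r)
  exact div_le_div_of_nonneg_left (Real.sqrt_nonneg _) (pow_pos (h.1.1 w).1 r)
    (pow_le_pow_of_le_one (h.1.1 w).1.le (h.1.1 w).2 hr)

/-- the member at a node, placed -/
noncomputable def place (t : S.ι → Gc n) (w : C.N) : Gc n := cG (C.sl w) (C.ct w) (t (C.idx w))

open Classical in
/-- the product of the placed members, when it exists -/
noncomputable def PC (t : S.ι → Gc n) : Gc n :=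
  if h : ∃ g : Gc n, IsDP (fun w => (C.place t w : Pm n)) g then h.choose else 1

theorem config_aux_dp {t : S.ι → Gc n} (h : ∃ g : Gc n, IsDP (fun w => (C.place t w : Pm n)) g) :
    IsDP (fun w => (C.place t w : Pm n)) (C.PC t) := by
  unfold PC
  rw [dif_pos h]
  exact h.choose_spec

theorem config_aux_eq {t : S.ι → Gc n} {g : Gc n} (h : IsDP (fun w => (C.place t w : Pm n)) g) :
    C.PC t = g := Subtype.ext ((C.config_aux_dp ⟨g, h⟩).unique h)

/-- apply `PC` to all entries of a tuple -/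
noncomputable def PT {m : ℕ} (x : Fin m → (S.ι → Gc n) × (S.ι → Gc n)) : Fin m → Gc n × Gc n :=
  fun k => (C.PC (x k).1, C.PC (x k).2)

/-- the placed tuple at a node -/
noncomputable def plT {m : ℕ} (x : Fin m → (S.ι → Gc n) × (S.ι → Gc n)) (w : C.N) :
    Fin m → Gc n × Gc n := fun k => (C.place (x k).1 w, C.place (x k).2 w)

end Config

namespace Scale

variable (S : Scale)

variable (n) in
/-- the filter of configurations -/
def KF : Filter (Config n S) where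
  sets := {B | ∃ A ∈ S.F, ∃ (M : ℝ) (r : ℕ) (δ : ℝ), 0 < δ ∧
    ∀ C : Config n S, C.In A M r δ → C ∈ B}
  univ_sets := ⟨Set.univ, univ_mem, 0, 0, 1, one_pos, fun _ _ => trivial⟩
  sets_of_superset := by
    rintro B B' ⟨A, hA, M, r, δ, h0, h⟩ hB
    exact ⟨A, hA, M, r, δ, h0, fun C hC => hB (h C hC)⟩
  inter_sets := by
    rintro B B' ⟨A, hA, M, r, δ, h0, h⟩ ⟨A', hA', M', r', δ', h0', h'⟩
    exact ⟨A ∩ A', inter_mem hA hA', max M M', max r r', min δ δ', lt_min h0 h0', fun C hC =>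
      ⟨h C (hC.mono Set.inter_subset_left (le_max_left _ _) (le_max_left _ _) (min_le_left _ _)),
        h' C (hC.mono Set.inter_subset_right (le_max_right _ _) (le_max_right _ _)
          (min_le_right _ _))⟩⟩

variable {S}

theorem eventually_KF {p : Config n S → Prop} : (∀ᶠ C in S.KF n, p C) ↔
    ∃ A ∈ S.F, ∃ (M : ℝ) (r : ℕ) (δ : ℝ), 0 < δ ∧ ∀ C : Config n S, C.In A M r δ → p C := Iff.rfl

theorem PC_spec {t : S.ι → Gc n} {U : Set (V n)} (ht : cF t ∈ S.GF 1 U) {M : ℝ}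
    (hM : U ⊆ closedBall 0 M) (R : ℕ) {e : ℝ} (he : 0 < e) :
    ∀ᶠ C in S.KF n, Sep (C.bl M) ∧ (∀ w, Fix (C.bl M w) (C.place t w : Pm n)) ∧
      IsDP (fun w => (C.place t w : Pm n)) (C.PC t) ∧ nm R (dp (C.PC t : Pm n)) ≤ e ∧
        ∀ w, nm R (dp (C.place t w : Pm n)) ≤ e := by
  obtain ⟨K, A, hA, -, hT⟩ := GB_tame ht.1
  obtain ⟨C₀, hC₀, h0⟩ := odS_iff.1 ((GB_od1 ht.1).odS_nm R)
  have hδ : 0 < e / ((R + 1) * (C₀ + 1)) := by positivity
  refine eventually_KF.2 ⟨_, inter_mem hA (h0.and ((GF_fix ht).and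
    (GB_small ht.1 1 one_half_pos))), M, R, _, hδ, fun C hC => ?_⟩
  obtain ⟨⟨hsl, ⟨R₀, hR⟩, ⟨K', hK'⟩, hsum⟩, hin, hsep, htot⟩ := hC
  have hfix : ∀ w, Fix (C.bl M w) (C.place t w : Pm n) := by
    intro w
    have h2 := (((hin w).2.2.1).mono hM).conj_aff (hsl w).1 (C.ct w)
    rwa [smul_zero, zero_add] at h2
  have hbd : ∀ w, C.bl M w ⊆ closedBall 0 (|M| + R₀) := by
    intro w
    refine closedBall_subset_closedBall' ?_
    rw [dist_zero_right]
    refine add_le_add ?_ (hR w)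
    exact (mul_le_mul_of_nonneg_left (le_abs_self M) (hsl w).1.le).trans
      (mul_le_of_le_one_left (abs_nonneg M) (hsl w).2)
  have hε1 : ∀ w, S.ε (C.idx w) ≤ 1 := fun w => (S.le_half _).trans (by norm_num)
  have e0 : ∀ w j, j ≤ R → sn j (dp (t (C.idx w) : Pm n)) ≤ C₀ * S.ε (C.idx w) ^ 1 :=
    fun w j hj => (sn_le_nm hj _).trans ((le_abs_self _).trans (hin w).2.1)
  have hpl : ∀ (w : C.N) {j r : ℕ} {E : ℝ}, j ≤ r →
      sn j (dp (t (C.idx w) : Pm n)) ≤ E * √(S.ε (C.idx w)) →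
        sn j (dp (C.place t w : Pm n)) ≤ E * (√(S.ε (C.idx w)) / C.sl w ^ r) := by
    intro w j r E hj e3
    have hp : 0 < C.sl w ^ r := pow_pos (hsl w).1 r
    calc sn j (dp (C.place t w : Pm n))
        = C.sl w / C.sl w ^ j * sn j (dp (t (C.idx w) : Pm n)) :=
          sn_conj_aff (Gc.sm _) (hsl w).1 (C.ct w) j
      _ ≤ 1 / C.sl w ^ r * (E * √(S.ε (C.idx w))) :=
          mul_le_mul (div_le_div₀ zero_le_one (hsl w).2 hp
            (pow_le_pow_of_le_one (hsl w).1.le (hsl w).2 hj)) e3 (sn_nonneg _ _) (by positivity)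
      _ = E * (√(S.ε (C.idx w)) / C.sl w ^ r) := by ring
  have hs : ∀ r, Summable fun w => sn r (dp (C.place t w : Pm n)) := by
    intro r
    obtain ⟨Q, -, hQ⟩ := interp (n := n) (F := V n) r 1 (K + K')
    obtain ⟨D, hD⟩ := hT Q
    obtain ⟨B, hB⟩ := hK' Q
    obtain ⟨E, hE0, hE⟩ := hQ C₀ (max D 0 * B)
    refine Summable.of_nonneg_of_le (fun w => sn_nonneg _ _) (fun w => ?_) ((hsum r).mul_left E)
    have hε := S.pos (C.idx w)
    have hH : 0 ≤ S.H Q (C.idx w) := zero_le_one.trans (S.one_le _ _)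
    have eQ : sn Q (dp (t (C.idx w) : Pm n)) ≤ max D 0 * B / S.ε (C.idx w) ^ (K + K') := by
      calc sn Q (dp (t (C.idx w) : Pm n)) ≤ D * S.H Q (C.idx w) / S.ε (C.idx w) ^ K :=
            hD _ (hin w).1
        _ ≤ max D 0 * (B / S.ε (C.idx w) ^ K') / S.ε (C.idx w) ^ K := by
            refine div_le_div_of_nonneg_right ?_ (pow_pos hε _).le
            exact mul_le_mul (le_max_left _ _) (hB w) hH (le_max_right _ _)
        _ = max D 0 * B / S.ε (C.idx w) ^ (K + K') := by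
            rw [pow_add]; field_simp
    have e1 := hE _ _ hε (hε1 w) (Gc.sm _) (e0 w 0 (Nat.zero_le _)) eQ
    have e2 : E * S.ε (C.idx w) ^ 1 / √(S.ε (C.idx w)) = E * √(S.ε (C.idx w)) := by
      rw [pow_one, mul_div_assoc, Real.div_sqrt]
    exact hpl w le_rfl ((sn_le_nm le_rfl _).trans (e2 ▸ e1))
  obtain ⟨g, hg, hb, -⟩ := exists_DP (C.place t) hsep (fun _ => isClosed_closedBall) hfix hbd hs
    fun w => by
      have h2 : s1 (C.place t w) = s1 (t (C.idx w)) := s1_cG (hsl w).1 _ _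
      exact h2.le.trans ((s1_le_nm le_rfl _).trans (hin w).2.2.2.2)
  have e4 : ∀ w j, j ≤ R →
      sn j (dp (C.place t w : Pm n)) ≤ C₀ * (√(S.ε (C.idx w)) / C.sl w ^ R) := fun w j hj => by
    refine hpl w hj ((e0 w j hj).trans (mul_le_mul_of_nonneg_left ?_ hC₀))
    rw [pow_one]
    exact Real.le_sqrt_of_sq_le (by nlinarith [S.pos (C.idx w), hε1 w])
  have e5 : ((R : ℝ) + 1) * (C₀ * C.tot R) ≤ e := by
    have h2 := mul_le_mul_of_nonneg_left htot hC₀
    refine (mul_le_mul_of_nonneg_left h2 (by positivity)).trans ?_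
    rw [← mul_assoc, ← mul_div_assoc, div_le_iff₀ (by positivity)]
    nlinarith [(Nat.cast_nonneg R : (0 : ℝ) ≤ R)]
  rw [C.config_aux_eq hg]
  refine ⟨hsep, hfix, hg, (nm_le_of_sn_le fun j hj => (hb j).trans ?_).trans e5,
    fun w => (nm_le_of_sn_le fun j hj => (e4 w j hj).trans ?_).trans e5⟩
  · rw [Config.tot, ← tsum_mul_left]
    exact (hs j).tsum_le_tsum (fun w => e4 w j hj) ((hsum R).mul_left C₀)
  · exact mul_le_mul_of_nonneg_left ((hsum R).le_tsum w fun w' _ =>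
      div_nonneg (Real.sqrt_nonneg _) (pow_pos (hsl w').1 R).le) hC₀

theorem PC_congr {t t' : S.ι → Gc n} (h : ∀ᶠ i in S.F, t i = t' i) :
    ∀ᶠ C in S.KF n, C.PC t = C.PC t' := by
  refine eventually_KF.2 ⟨_, h, 0, 0, 1, one_pos, fun C hC => ?_⟩
  have : C.place t = C.place t' := by
    funext w
    unfold Config.place
    rw [show t (C.idx w) = t' (C.idx w) from hC.2.1 w]
  unfold Config.PC
  rw [this]

theorem PC_one (C : Config n S) : C.PC 1 = 1 := by
  refine C.config_aux_eq ?_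
  have : (fun w => (C.place 1 w : Pm n)) = fun _ => 1 := by
    funext w
    simp [Config.place]
  rw [this]
  exact isDP_one

theorem PC_mul {t t' : S.ι → Gc n} {R : ℝ} (ht : cF t ∈ S.GF 1 (ball 0 R))
    (ht' : cF t' ∈ S.GF 1 (ball 0 R)) : ∀ᶠ C in S.KF n, C.PC (t * t') = C.PC t * C.PC t' := by
  filter_upwards [PC_spec ht ball_subset_closedBall 0 one_pos,
    PC_spec ht' ball_subset_closedBall 0 one_pos] with C h h'
  refine C.config_aux_eq ?_
  have : (fun w => (C.place (t * t') w : Pm n)) =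
      fun w => (C.place t w : Pm n) * (C.place t' w : Pm n) := by
    funext w
    simp [Config.place]
  rw [this]
  exact IsDP.mul h.1 h.2.1 h'.2.1 h.2.2.1 h'.2.2.1

theorem PC_inv {t : S.ι → Gc n} {R : ℝ} (ht : cF t ∈ S.GF 1 (ball 0 R)) :
    ∀ᶠ C in S.KF n, C.PC t⁻¹ = (C.PC t)⁻¹ := by
  filter_upwards [PC_spec ht ball_subset_closedBall 0 one_pos] with C h
  refine C.config_aux_eq ?_
  have : (fun w => (C.place t⁻¹ w : Pm n)) = fun w => (C.place t w : Pm n)⁻¹ := by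
    funext w
    simp [Config.place]
  rw [this]
  exact IsDP.inv h.1 h.2.1 h.2.2.1

theorem PC_Tn {t : S.ι → Gc n} {R : ℝ} (ht : cF t ∈ S.GF 1 (ball 0 R)) :
    (fun C : Config n S => C.PC t) ∈ Tn (S.KF n) := by
  rw [mem_Tn, Metric.tendsto_nhds]
  intro ε hε
  filter_upwards [PC_spec ht ball_subset_closedBall 1 (half_pos hε)] with C h
  rw [Real.dist_eq, sub_zero, abs_of_nonneg (s1_nonneg _)]
  exact ((s1_le_nm le_rfl _).trans h.2.2.2.1).trans_lt (half_lt_self hε)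

end Scale

end Pool.Agent.P.MP_878f14_gt.HT
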