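import Pool.Agent.P.MP_878f14_gt.HT.Tree3

/-! Every local cocycle is locally a coboundary. -/

namespace Pool.Agent.P.MP_878f14_gt.HT

open Metric

theorem local_one {n : ℕ} (hn : 2 ≤ n) {A : Type*} [AddCommGroup A] (c : LC n A) :
    ∃ (R : ℕ) (e : ℝ) (a : Gc n → A), 0 < e ∧ ∀ g h : Gc n,
      Fix (closedBall 0 1) (g : Pm n) → Fix (closedBall 0 1) (h : Pm n) →
      nm R (dp (g : Pm n)) ≤ e → nm R (dp (h : Pm n)) ≤ e → nm R (dp ((g * h : Gc n) : Pm n)) ≤ e →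
        a (g * h) = a g + a h + c.c g h := by
  classical
  obtain ⟨n₀, h⟩ := vs_pt n
  obtain ⟨R, e, he, hs⟩ := small hn h c
  obtain ⟨κ, hκ, happ⟩ := app c n₀
  have hq : (0 : ℝ) ≤ ((3 * n₀ : ℕ) : ℝ) := Nat.cast_nonneg _
  obtain ⟨e₁, he₁, h1, h2⟩ : ∃ e₁ : ℝ, 0 < e₁ ∧ e₁ ≤ κ ∧ 2 * ((3 * n₀ : ℕ) : ℝ) * e₁ ≤ e := by
    refine ⟨min κ (e / (2 * ((3 * n₀ : ℕ) : ℝ) + 1)), by positivity, min_le_left _ _,
      (mul_le_mul_of_nonneg_left (min_le_right _ _) (by positivity)).trans ?_⟩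
    rw [← mul_div_assoc, div_le_iff₀ (by positivity)]
    nlinarith
  obtain ⟨R', e', he', hv⟩ := vs_small h (R + 1) he₁
  choose! X hX hP using hv
  refine ⟨R', e', fun g => PhiA c.c (List.ofFn (X g)), he', fun g k g1 k1 g2 k2 u2 => ?_⟩
  have u1 : Fix (closedBall 0 1) ((g * k : Gc n) : Pm n) := g1.mul k1
  have sm : ∀ v : Gc n, Fix (closedBall 0 1) (v : Pm n) → nm R' (dp (v : Pm n)) ≤ e' →
      S1 κ (X v) := fun v v1 v2 j =>
    ⟨(s1_le_nm (Nat.le_add_left 1 R) _).trans ((hX v v1 v2 j).1.2.trans h1),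
      (s1_le_nm (Nat.le_add_left 1 R) _).trans ((hX v v1 v2 j).2.2.trans h1)⟩
  have e1 : Phi (List.ofFn (X g)) * Phi (List.ofFn (X k)) = Phi (List.ofFn (X (g * k))) := by
    rw [hP g g1 g2, hP k k1 k2, hP _ u1 u2]
  have e2 := happ _ _ _ (sm g g1 g2) (sm k k1 k2) (sm _ u1 u2) e1
  have hl : (tri (X g) (X k) (X (g * k))).length = 3 * n₀ := by
    simp [tri]
    omega
  obtain ⟨y, hy, hyx⟩ : ∃ y : Fin (3 * n₀) → Gc n × Gc n,
      (∀ j, y j ∈ tri (X g) (X k) (X (g * k))) ∧ List.ofFn y = tri (X g) (X k) (X (g * k)) := by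
    generalize tri (X g) (X k) (X (g * k)) = l at hl
    rw [← hl]
    exact ⟨l.get, List.get_mem l, List.ofFn_get l⟩
  have hy' : ∀ j, (Fix (ball 0 3) ((y j).1 : Pm n) ∧ nm (R + 1) (dp ((y j).1 : Pm n)) ≤ e₁) ∧
      (Fix (ball 0 3) ((y j).2 : Pm n) ∧ nm (R + 1) (dp ((y j).2 : Pm n)) ≤ e₁) := fun j => by
    have hp := hy j
    generalize y j = p at hp
    rcases List.mem_append.1 hp with hp | hp
    · rcases List.mem_append.1 hp with hp | hp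
      · obtain ⟨i, rfl⟩ := List.mem_ofFn.1 hp
        exact hX g g1 g2 i
      · obtain ⟨i, rfl⟩ := List.mem_ofFn.1 hp
        exact hX k k1 k2 i
    · obtain ⟨p', hp', rfl⟩ := List.mem_map.1 hp
      obtain ⟨i, rfl⟩ := List.mem_ofFn.1 (List.mem_reverse.1 hp')
      exact (hX (g * k) u1 u2 i).symm
  have e3 : Phi (List.ofFn y) = 1 := by
    rw [hyx, tri, Phi_append, Phi_append, Phi_rev, e1, mul_inv_cancel]
  have e4 := hs ⟨y, fun j => ⟨(hy' j).1.1, (hy' j).2.1⟩, e3⟩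
    ((szT_mono y (Nat.le_succ R)).trans
      ((szT_le (R + 1) fun j => ⟨(hy' j).1.2, (hy' j).2.2⟩).trans h2))
  change PhiA c.c (List.ofFn y) = 0 at e4
  rw [hyx, e2, hP g g1 g2, hP k k1 k2, sub_eq_zero] at e4
  exact e4.symm

theorem partC_nm {n : ℕ} {l : ℝ} (hl : 0 < l) (R : ℕ) : ∃ D : ℝ, 0 < D ∧ ∀ g : Gc n,
    nm R (dp (cG l 0 g : Pm n)) ≤ D * nm R (dp (g : Pm n)) := by
  refine ⟨1 + ∑ j ∈ Finset.range (R + 1), l / l ^ j, by positivity, fun g => ?_⟩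
  rw [nm, nm, Finset.mul_sum]
  refine Finset.sum_le_sum fun j hj => ?_
  rw [coe_cG, sn_conj_aff (Gc.sm g) hl]
  refine mul_le_mul_of_nonneg_right (le_trans ?_ (le_add_of_nonneg_left zero_le_one))
    (sn_nonneg _ _)
  exact Finset.single_le_sum (f := fun j => l / l ^ j) (fun _ _ => by positivity) hj

theorem local_cob {n : ℕ} (hn : 2 ≤ n) {A : Type} [AddCommGroup A] (c : LC n A) {M : ℝ}
    (hM : 0 < M) : ∃ (R : ℕ) (e : ℝ) (a : Gc n → A), 0 < e ∧ ∀ g h : Gc n,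
      Fix (closedBall 0 M) (g : Pm n) → Fix (closedBall 0 M) (h : Pm n) →
      nm R (dp (g : Pm n)) ≤ e → nm R (dp (h : Pm n)) ≤ e → nm R (dp ((g * h : Gc n) : Pm n)) ≤ e →
        a (g * h) = a g + a h + c.c g h := by
  obtain ⟨R, e, a, he, H⟩ := local_one hn (c.pull hM 0)
  have hi : 0 < M⁻¹ := inv_pos.2 hM
  obtain ⟨D, hD, hb⟩ := partC_nm (n := n) hi R
  have mem : ∀ g : Gc n, Fix (closedBall 0 M) (g : Pm n) →
      Fix (closedBall 0 1) (cG M⁻¹ 0 g : Pm n) := fun g hg => by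
    have := hg.conj_aff hi 0
    rwa [smul_zero, add_zero, inv_mul_cancel₀ hM.ne'] at this
  have sm : ∀ g : Gc n, nm R (dp (g : Pm n)) ≤ e / D → nm R (dp (cG M⁻¹ 0 g : Pm n)) ≤ e :=
    fun g hg => (hb g).trans ((le_div_iff₀' hD).1 hg)
  have back : ∀ g : Gc n, cG M 0 (cG M⁻¹ 0 g) = g := fun g => by
    rw [cG_cG hM.ne' hi.ne', mul_inv_cancel₀ hM.ne', smul_zero, add_zero, cG_one]
  refine ⟨R, e / D, fun g => a (cG M⁻¹ 0 g), by positivity, fun g h g1 h1 g2 h2 u2 => ?_⟩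
  have := H _ _ (mem g g1) (mem h h1) (sm g g2) (sm h h2) (by rw [← map_mul]; exact sm _ u2)
  beta_reduce
  rw [map_mul, this]
  exact congrArg _ (congrArg₂ c.c (back g) (back h))

end Pool.Agent.P.MP_878f14_gt.HT
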