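import Pool.Agent.P.MP_878f14_gt.HT.Norm

/-! Compact support, cut-off functions, brackets, Poincare inequalities. -/

namespace Pool.Agent.P.MP_878f14_gt.HT

open scoped ContDiff Topology
open Filter Set Metric

variable {n : ℕ} {F : Type} [NormedAddCommGroup F] [NormedSpace ℝ F] {f g : V n → F}
  {K U : Set (V n)}

omit [NormedSpace ℝ F] in
theorem norm2_tsupport (h : Van K f) (hK : IsClosed K) : tsupport f ⊆ K :=
  closure_minimal (fun x hx => by_contra fun hc => hx (h x hc)) hK

theorem Van.fderiv (h : Van K f) (hK : IsClosed K) : Van K (fderiv ℝ f) := fun _ hx =>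
  Function.notMem_support.1 fun hc => hx (norm2_tsupport h hK (support_fderiv_subset ℝ hc))

theorem Van.iteratedFDeriv (h : Van K f) (hK : IsClosed K) (r : ℕ) :
    Van K (iteratedFDeriv ℝ r f) := fun _ hx =>
  Function.notMem_support.1 fun hc => hx (norm2_tsupport h hK (support_iteratedFDeriv_subset r hc))

theorem Van.pd (h : Van K f) (hK : IsClosed K) (d : Fin n) : Van K (pd d f) := fun x hx => by
  rw [HT.pd, h.fderiv hK x hx]
  rfl

theorem Van.hasCompactSupport (h : Van K f) (hK : Bornology.IsBounded K) :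
    HasCompactSupport f :=
  HasCompactSupport.intro hK.isCompact_closure fun x hx => h x fun hc => hx (subset_closure hc)

theorem sm_of_van (hf : ContDiff ℝ ∞ f) (h : Van K f) (hK : Bornology.IsBounded K) : Sm f :=
  ⟨hf, fun r => Continuous.bounded_above_of_compact_support
    (hf.continuous_iteratedFDeriv (by exact_mod_cast le_top))
    ((h.hasCompactSupport hK).iteratedFDeriv r)⟩

/-- a compactly supported smooth scalar times a smooth function -/
theorem sm_smul_of_van {a : V n → ℝ} (ha : ContDiff ℝ ∞ a) (h : Van K a)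
    (hK : Bornology.IsBounded K) (hf : ContDiff ℝ ∞ f) : Sm fun x => a x • f x :=
  sm_of_van (K := K) (ha.smul hf) (fun x hx => by simp [h x hx]) hK

/-- the standard step function -/
noncomputable def chi : ℝ → ℝ := Real.smoothTransition

theorem chi_zero {x : ℝ} (h : x ≤ 0) : chi x = 0 := Real.smoothTransition.zero_of_nonpos h

theorem chi_one {x : ℝ} (h : 1 ≤ x) : chi x = 1 := Real.smoothTransition.one_of_one_le h

theorem abs_chi_le (x : ℝ) : |chi x| ≤ 1 :=
  abs_le.2 ⟨by linarith [show 0 ≤ chi x from Real.smoothTransition.nonneg x],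
    Real.smoothTransition.le_one x⟩

theorem norm2_chi_bd (r : ℕ) : ∃ C : ℝ, ∀ t, ‖iteratedFDeriv ℝ r chi t‖ ≤ C := by
  have hc : ContDiff ℝ ∞ chi := Real.smoothTransition.contDiff
  rcases r with _ | r
  · exact ⟨1, fun t => by rw [norm_iteratedFDeriv_zero]; exact abs_chi_le t⟩
  · have h1 : HasCompactSupport (fderiv ℝ chi) := by
      refine HasCompactSupport.intro (isCompact_Icc (a := 0) (b := 1)) fun t ht => ?_
      rw [mem_Icc, not_and_or, not_le, not_le] at ht
      rcases ht with ht | ht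
      · have : chi =ᶠ[𝓝 t] fun _ => 0 :=
          eventually_of_mem (Iio_mem_nhds ht) fun y hy => chi_zero (le_of_lt hy)
        rw [this.fderiv_eq, fderiv_const_apply]
      · have : chi =ᶠ[𝓝 t] fun _ => 1 :=
          eventually_of_mem (Ioi_mem_nhds ht) fun y hy => chi_one (le_of_lt hy)
        rw [this.fderiv_eq, fderiv_const_apply]
    obtain ⟨C, hC⟩ := Continuous.bounded_above_of_compact_support
      ((contDiff_infty_iff_fderiv.1 hc).2.continuous_iteratedFDeriv (m := r)
        (by exact_mod_cast le_top)) (h1.iteratedFDeriv r)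
    exact ⟨C, fun t => by rw [← norm_iteratedFDeriv_fderiv]; exact hC t⟩

/-- the derivative of `chi` has compact support; compose with the projection
(`ContinuousLinearMap.iteratedFDeriv_comp_right`); one may import
`Pool.Agent.P.MP_7bb7e1_gt.Norm2` and use its `sm_chi` -/
theorem sm_chi (d : Fin n) : Sm fun x : V n => chi (x d) := by
  have hc : ContDiff ℝ ∞ chi := Real.smoothTransition.contDiff
  let L : V n →L[ℝ] ℝ := ContinuousLinearMap.proj d
  refine ⟨hc.comp L.contDiff, fun r => ?_⟩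
  obtain ⟨C, hC⟩ := norm2_chi_bd r
  refine ⟨C * ∏ _i : Fin r, ‖L‖, fun x => ?_⟩
  have e := L.iteratedFDeriv_comp_right hc x (i := r) (by exact_mod_cast le_top)
  refine le_trans (le_of_eq (congrArg _ e)) ?_
  refine (ContinuousMultilinearMap.norm_compContinuousLinearMap_le _ _).trans ?_
  exact mul_le_mul_of_nonneg_right (hC _) (Finset.prod_nonneg fun _ _ => norm_nonneg _)

theorem sn_chi_zero (d : Fin n) : sn 0 (fun x : V n => chi (x d)) ≤ 1 :=
  sn_zero_le fun x => abs_chi_le (x d)

theorem exists_step (d : Fin n) {a b : ℝ} (hab : a < b) : ∃ χ : ℝ → ℝ,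
    Sm (fun x : V n => χ (x d)) ∧ (∀ t, 0 ≤ χ t ∧ χ t ≤ 1) ∧ (∀ t, t ≤ a → χ t = 0) ∧
      ∀ t, b ≤ t → χ t = 1 := by
  have h0 : 0 < b - a := sub_pos.2 hab
  have he : ∀ x, (b - a)⁻¹ * x + -a / (b - a) = (x - a) / (b - a) := fun x => by ring
  refine ⟨fun x => chi ((b - a)⁻¹ * x + -a / (b - a)), ?_,
    fun x => ⟨Real.smoothTransition.nonneg _, Real.smoothTransition.le_one _⟩,
    fun x hx => chi_zero ?_, fun x hx => chi_one ?_⟩
  · simpa only [Pi.add_apply, Pi.smul_apply, smul_eq_mul, sg_same] using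
      (sm_chi d).comp_aff (b - a)⁻¹ (sg d (-a / (b - a)))
  · rw [he]
    exact div_nonpos_of_nonpos_of_nonneg (by linarith) h0.le
  · rw [he, le_div_iff₀ h0]
    linarith

/-- for instance `exists_contDiff_tsupport_subset`, `exists_smooth_zero_one_of_isClosed` or
`exists_contMDiff_support_eq`, with a compact thickening of `K` inside `U` -/
theorem exists_bump (hK : IsCompact K) (hU : IsOpen U) (hKU : K ⊆ U) :
    ∃ (χ : V n → ℝ) (K' : Set (V n)), Sm χ ∧ (∀ x, 0 ≤ χ x ∧ χ x ≤ 1) ∧ IsCompact K' ∧ K' ⊆ U ∧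
      Van K' χ ∧ ∀ x ∈ K, χ x = 1 := by
  obtain ⟨L, h1, h2, h3⟩ := exists_compact_between hK hU hKU
  obtain ⟨u, u1, u2, u3⟩ := exists_contMDiffMap_zero_one_of_isClosed (n := ⊤)
    (modelWithCornersSelf ℝ (V n)) (s := (interior L)ᶜ) isOpen_interior.isClosed_compl hK.isClosed
    (disjoint_compl_left_iff_subset.2 h2)
  have hv : Van L u := fun x hx => u1 fun hc => hx (interior_subset hc)
  exact ⟨u, L, sm_of_van u.contMDiff.contDiff hv h1.isBounded, u3, h1, h3, hv, fun x hx => u2 hx⟩

theorem exists_bump_ball (c : V n) {a b : ℝ} (hab : a < b) : ∃ χ : V n → ℝ, Sm χ ∧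
    (∀ x, 0 ≤ χ x ∧ χ x ≤ 1) ∧ Van (ball c b) χ ∧ ∀ x ∈ closedBall c a, χ x = 1 := by
  obtain ⟨u, L, u1, u2, -, u3, u4, u5⟩ := exists_bump (isCompact_closedBall c a) isOpen_ball
    (closedBall_subset_ball hab)
  exact ⟨u, u1, u2, u4.mono u3, u5⟩

theorem br_eq_sum (f h : V n → V n) (x : V n) :
    br f h x = ∑ d, (f x d • pd d h x - h x d • pd d f x) := by
  rw [br, fderiv_apply_eq_sum, fderiv_apply_eq_sum, Finset.sum_sub_distrib]

theorem br_skew (f h : V n → V n) : br f h = fun x => -br h f x :=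
  funext fun _ => (neg_sub _ _).symm

theorem contDiff_br {f h : V n → V n} (hf : ContDiff ℝ ∞ f) (hh : ContDiff ℝ ∞ h) :
    ContDiff ℝ ∞ (br f h) :=
  ((contDiff_infty_iff_fderiv.1 hh).2.clm_apply hf).sub
    ((contDiff_infty_iff_fderiv.1 hf).2.clm_apply hh)

theorem Sm.br {f h : V n → V n} (hf : Sm f) (hh : Sm h) : Sm (br f h) :=
  (hh.fderiv.app hf).sub (hf.fderiv.app hh)

/-- `VectorField.leibniz_identity_lieBracket` -/
theorem br_jacobi {u v w : V n → V n} (hu : ContDiff ℝ ∞ u) (hv : ContDiff ℝ ∞ v)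
    (hw : ContDiff ℝ ∞ w) : br u (br v w) = fun x => br (br u v) w x + br v (br u w) x :=
  funext fun _ => VectorField.leibniz_identity_lieBracket (𝕜 := ℝ) (n := ∞)
    (by rw [minSmoothness_of_isRCLikeNormedField]; exact WithTop.coe_le_coe.2 le_top)
    hu.contDiffAt hv.contDiffAt hw.contDiffAt

/-- the bracket at `x` only depends on the germs at `x` -/
theorem br_congr {f f' h h' : V n → V n} {x : V n} (hf : f =ᶠ[𝓝 x] f') (hh : h =ᶠ[𝓝 x] h') :
    br f h x = br f' h' x := by
  rw [br, br, hf.fderiv_eq, hh.fderiv_eq, hf.eq_of_nhds, hh.eq_of_nhds]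

theorem Van.br_right {f h : V n → V n} (hh : Van K h) (hK : IsClosed K) : Van K (br f h) :=
  fun x hx => by simp [br, hh x hx, hh.fderiv hK x hx]

theorem norm2_poincare {η : ℝ} (hη : 0 < η) (j : ℕ) : ∀ {G : Type} [NormedAddCommGroup G]
    [NormedSpace ℝ G] {u : V n → G}, Sm u → (∀ d x, u (x + sg d η) = u x) →
      sn (j + 1) u ≤ n * η * sn (j + 2) u := by
  induction j with
  | zero =>
    intro G _ _ u hu hp
    have h0 := sn_nonneg 2 u
    have h1 : ∀ d x, ‖pd d u x‖ ≤ η * sn 2 u := fun d x => by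
      have h2 := taylor_two hu x (sg d η)
      have e : sg d η = η • sg d 1 := by rw [smul_sg, mul_one]
      rw [hp, sub_self, zero_sub, norm_neg, norm_sg, abs_of_pos hη, e, map_smul, norm_smul,
        Real.norm_of_nonneg hη.le] at h2
      refine le_of_mul_le_mul_left (h2.trans (le_of_eq ?_)) hη
      ring
    refine sn_one_le fun x => ContinuousLinearMap.opNorm_le_bound _ (by positivity) fun v => ?_
    rw [fderiv_apply_eq_sum]
    refine (norm_sum_le _ _).trans ((Finset.sum_le_card_nsmul _ _ (‖v‖ * (η * sn 2 u))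
      fun d _ => ?_).trans (le_of_eq ?_))
    · rw [norm_smul]
      exact mul_le_mul (abs_apply_le v d) (h1 d x) (norm_nonneg _) (norm_nonneg _)
    · rw [Finset.card_univ, Fintype.card_fin, nsmul_eq_mul]
      ring
  | succ j ih =>
    intro G _ _ u hu hp
    rw [← sn_fderiv (j + 1), ← sn_fderiv (j + 2)]
    refine ih hu.fderiv fun d x => ?_
    rw [← fderiv_comp_add_right, funext (hp d)]

theorem norm2_cube {α : Type*} {p : V n → α} {η : ℝ} (hη : 0 < η)
    (hp : ∀ d x, p (x + sg d η) = p x) (x : V n) :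
    ∃ y : V n, ‖y‖ ≤ η ∧ ∀ z, p (z + x) = p (z + y) := by
  have h1 : ∀ (s : Finset (Fin n)) (k : Fin n → ℤ),
      Function.Periodic p (∑ d ∈ s, k d • sg d η) := fun s k => by
    induction s using Finset.induction_on with
    | empty => simp
    | insert d s hd ih =>
      rw [Finset.sum_insert hd]
      exact ((show Function.Periodic p (sg d η) from hp d).zsmul _).add_period ih
  refine ⟨fun d => toIcoMod hη 0 (x d), (pi_norm_le_iff_of_nonneg hη.le).2 fun d => ?_,
    fun z => ?_⟩
  · have h2 := toIcoMod_mem_Ico' hη (x d)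
    rw [Real.norm_of_nonneg h2.1]
    exact h2.2.le
  · rw [← h1 Finset.univ (fun d => toIcoDiv hη 0 (x d)) (z + fun d => toIcoMod hη 0 (x d)),
      add_assoc]
    congr 2
    funext i
    rw [Pi.add_apply, Finset.sum_apply, Finset.sum_eq_single i]
    · rw [Pi.smul_apply, sg_same, toIcoMod_add_toIcoDiv_zsmul]
    · intro d _ hd
      rw [Pi.smul_apply, sg_ne hd.symm, smul_zero]
    · exact fun hc => absurd (Finset.mem_univ i) hc

/-- From `taylor_two` with `v = sg d η`: `‖pd d f x‖ ≤ η * sn 2 f`, which gives the case `j = 1`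
by `fderiv_apply_eq_sum`; induct on `j` for all target spaces (`sn_fderiv`). -/
theorem poincare (hf : Sm f) {η : ℝ} (hη : 0 < η) (hp : ∀ d x, f (x + sg d η) = f x) {j : ℕ}
    (hj : 1 ≤ j) : sn j f ≤ n * η * sn (j + 1) f := by
  obtain ⟨k, rfl⟩ := Nat.exists_eq_add_of_le' hj
  exact norm2_poincare hη k hf hp

/-- every point is congruent to a point of norm at most `η` -/
theorem poincare_zero (hf : Sm f) {η : ℝ} (hη : 0 < η) (hp : ∀ d x, f (x + sg d η) = f x)
    (h0 : f 0 = 0) : sn 0 f ≤ η * sn 1 f := by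
  refine sn_zero_le fun x => ?_
  obtain ⟨y, h1, h2⟩ := norm2_cube hη hp x
  have h3 := h2 0
  have h4 := norm_sub_le_sn hf y 0
  rw [zero_add, zero_add] at h3
  rw [h0, sub_zero, sub_zero] at h4
  rw [h3, mul_comm]
  exact h4.trans (mul_le_mul_of_nonneg_left h1 (sn_nonneg _ _))

theorem poincare_one (hf : Sm f) (hp : ∀ d x, f (x + sg d 1) = f x) {j r : ℕ} (hj : 1 ≤ j)
    (hjr : j ≤ r) : sn j f ≤ (n + 1) ^ r * sn r f := by
  have hn : (0 : ℝ) ≤ n := Nat.cast_nonneg n
  induction r, hjr using Nat.le_induction with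
  | base => exact le_mul_of_one_le_left (sn_nonneg _ _) (one_le_pow₀ (by linarith))
  | succ r hr ih =>
    have h1 := poincare hf one_pos hp (hj.trans hr)
    refine ih.trans ?_
    rw [pow_succ, mul_assoc]
    refine mul_le_mul_of_nonneg_left (h1.trans ?_) (by positivity)
    exact mul_le_mul_of_nonneg_right (by linarith) (sn_nonneg _ _)

theorem poincare_one_zero (hf : Sm f) (hp : ∀ d x, f (x + sg d 1) = f x) (h0 : f 0 = 0) {j r : ℕ}
    (hjr : j ≤ r) : sn j f ≤ (n + 1) ^ r * sn r f := by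
  rcases Nat.eq_zero_or_pos j with rfl | hj
  · rcases Nat.eq_zero_or_pos r with rfl | hr
    · rw [pow_zero, one_mul]
    · have h1 := poincare_zero hf one_pos hp h0
      rw [one_mul] at h1
      exact h1.trans (poincare_one hf hp le_rfl hr)
  · exact poincare_one hf hp hj hjr

/-- a periodic function takes all its values on the unit cube -/
theorem exists_cube {α : Type*} {p : V n → α} (hp : ∀ d x, p (x + sg d 1) = p x) (x : V n) :
    ∃ y : V n, ‖y‖ ≤ 1 ∧ ∀ z, p (z + x) = p (z + y) :=
  norm2_cube one_pos hp x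

end Pool.Agent.P.MP_878f14_gt.HT
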