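import Pool.Agent.P.MP_878f14_gt.HT.Comp
import Pool.Agent.P.MP_878f14_gt.HT.Norm2

/-! Construction of diffeomorphisms from small displacements, inverses. -/

namespace Pool.Agent.P.MP_878f14_gt.HT

open scoped ContDiff
open Metric

variable {n : ℕ} {f : V n → V n} {e e' : Pm n} {K : Set (V n)}

theorem sm_dp_mul (he : Sm (dp e)) (he' : Sm (dp e')) : Sm (dp (e * e')) := by
  rw [dp_mul]; exact (he.comp he').add he'

theorem sm_dp_tr (c : V n) : Sm (dp (tr c)) := by rw [dp_tr]; exact sm_const c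

theorem sm_dp_one : Sm (dp (1 : Pm n)) := by rw [dp_one]; exact sm_const 0

theorem inv_coe_eq (e : Pm n) : (fun x => e x) = fun x => x + dp e x := by
  funext x; exact apply_eq_add_dp e x

theorem contDiff_of_sm (he : Sm (dp e)) : ContDiff ℝ ∞ fun x => e x := by
  rw [inv_coe_eq]; exact contDiff_id.add he.1

theorem inv_lower (hf : Sm f) (h : sn 1 f ≤ 1 / 2) (x y : V n) :
    ‖x - y‖ ≤ 2 * ‖(x + f x) - (y + f y)‖ := by
  have h1 := norm_sub_le_sn hf x y
  have h2 := mul_le_mul_of_nonneg_right h (norm_nonneg (x - y))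
  have h3 : x - y = ((x + f x) - (y + f y)) - (f x - f y) := by abel
  have h4 := norm_sub_le ((x + f x) - (y + f y)) (f x - f y)
  rw [← h3] at h4
  linarith

/-- `id + f` approximates the identity with constant `1 / 2` (`norm_sub_le_sn`);
`ApproximatesLinearOn.toHomeomorph` -/
theorem mkP (hf : Sm f) (h : sn 1 f ≤ 1 / 2) : ∃ e : Pm n, dp e = f := by
  have ha : ApproximatesLinearOn (fun x => x + f x)
      ((ContinuousLinearEquiv.refl ℝ (V n) : V n ≃L[ℝ] V n) : V n →L[ℝ] V n) Set.univ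
      (1 / 2 : NNReal) := by
    intro x _ y _
    have h1 := norm_sub_le_sn hf x y
    have h2 := mul_le_mul_of_nonneg_right h (norm_nonneg (x - y))
    have h3 : x + f x - (y + f y) -
        ((ContinuousLinearEquiv.refl ℝ (V n) : V n ≃L[ℝ] V n) : V n →L[ℝ] V n) (x - y) =
          f x - f y := by
      show x + f x - (y + f y) - (x - y) = f x - f y
      abel
    rw [h3]
    push_cast
    linarith
  have hs : Function.Surjective fun x => x + f x := by
    refine ha.surjective ?_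
    rcases subsingleton_or_nontrivial (V n) with hn | hn
    · exact Or.inl hn
    · right
      have h1 : (((ContinuousLinearEquiv.refl ℝ (V n) : V n ≃L[ℝ] V n).symm : V n ≃L[ℝ] V n) :
          V n →L[ℝ] V n) = ContinuousLinearMap.id ℝ (V n) := rfl
      rw [h1, ContinuousLinearMap.nnnorm_id]
      norm_num
  have hi : Function.Injective fun x => x + f x := by
    intro x y hxy
    have h1 := inv_lower hf h x y
    have h2 : x + f x = y + f y := hxy
    rw [h2, sub_self, norm_zero, mul_zero] at h1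
    exact sub_eq_zero.1 (norm_le_zero_iff.1 h1)
  refine ⟨Equiv.ofBijective _ ⟨hi, hs⟩, ?_⟩
  funext x
  show x + f x - x = f x
  abel

theorem norm_sub_le_two (he : Sm (dp e)) (h : sn 1 (dp e) ≤ 1 / 2) (x y : V n) :
    ‖e⁻¹ x - e⁻¹ y‖ ≤ 2 * ‖x - y‖ := by
  have h1 := inv_lower he h (e⁻¹ x) (e⁻¹ y)
  rw [← apply_eq_add_dp, ← apply_eq_add_dp] at h1
  simpa using h1

/-- `e` is a homeomorphism (`norm_sub_le_two`), its derivative `1 + fderiv (dp e) x` is a unit
(`Units.oneSub` or `NormedRing.inverse`, `ContinuousLinearEquiv.unitsEquiv`);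
`Homeomorph.contDiff_symm` -/
theorem contDiff_inv (he : Sm (dp e)) (h : sn 1 (dp e) ≤ 1 / 2) :
    ContDiff ℝ ∞ fun x => e⁻¹ x := by
  have hl : LipschitzWith 2 fun x => e⁻¹ x := LipschitzWith.of_dist_le_mul fun x y => by
    rw [dist_eq_norm, dist_eq_norm]
    exact norm_sub_le_two he h x y
  let o : V n ≃ₜ V n :=
    { toEquiv := e
      continuous_toFun := (contDiff_of_sm he).continuous
      continuous_invFun := hl.continuous }
  have hn : ∀ x, ‖-fderiv ℝ (dp e) x‖ < 1 := fun x => by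
    rw [norm_neg]
    linarith [norm_fderiv_le_sn_one he x]
  have hd : ∀ x, HasFDerivAt o
      ((ContinuousLinearEquiv.unitsEquiv ℝ (V n) (Units.oneSub _ (hn x)) : V n ≃L[ℝ] V n) :
        V n →L[ℝ] V n) x := by
    intro x
    have h1 : HasFDerivAt (fun y => y + dp e y)
        (ContinuousLinearMap.id ℝ (V n) + fderiv ℝ (dp e) x) x :=
      (hasFDerivAt_id x).add (he.differentiable x).hasFDerivAt
    rw [← inv_coe_eq] at h1
    refine HasFDerivAt.congr_fderiv h1 ?_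
    ext1 v
    rw [ContinuousLinearEquiv.coe_coe, ContinuousLinearEquiv.unitsEquiv_apply, Units.val_oneSub]
    simp
  exact o.contDiff_symm hd (contDiff_of_sm he)

theorem inv_aux_bd (he : Sm (dp e)) (h : sn 1 (dp e) ≤ 1 / 2) (r : ℕ) :
    ∃ C : ℝ, ∀ x, ‖iteratedFDeriv ℝ r (dp e⁻¹) x‖ ≤ C := by
  have hc : ContDiff ℝ ∞ (dp e⁻¹) := (contDiff_inv he h).sub contDiff_id
  have heq : ∀ r x, ‖iteratedFDeriv ℝ r (dp e⁻¹) x‖ =
      ‖iteratedFDeriv ℝ r (fun x => dp e (x + dp e⁻¹ x)) x‖ := fun r x => by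
    rw [← norm_aux_neg r fun x => dp e (x + dp e⁻¹ x), ← dp_inv]
  induction r using Nat.strong_induction_on with
  | _ r ih =>
    match r with
    | 0 =>
      refine ⟨sn 0 (dp e), fun x => ?_⟩
      rw [heq, norm_iteratedFDeriv_zero]
      exact norm_le_sn_zero he _
    | 1 =>
      refine ⟨1, fun x => ?_⟩
      have h1 := heq 1 x
      rw [norm_iteratedFDeriv_one, norm_iteratedFDeriv_one] at h1
      rw [norm_iteratedFDeriv_one]
      have hu : DifferentiableAt ℝ (fun y => y + dp e⁻¹ y) x :=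
        (contDiff_id.add hc).differentiable (by simp) x
      have h2 : fderiv ℝ (fun x => dp e (x + dp e⁻¹ x)) x =
          (fderiv ℝ (dp e) (x + dp e⁻¹ x)).comp (fderiv ℝ (fun y => y + dp e⁻¹ y) x) :=
        (HasFDerivAt.comp (g := dp e) (f := fun y => y + dp e⁻¹ y) x
          (he.differentiable (x + dp e⁻¹ x)).hasFDerivAt hu.hasFDerivAt).fderiv
      have h3 := ContinuousLinearMap.opNorm_comp_le (fderiv ℝ (dp e) (x + dp e⁻¹ x))
        (fderiv ℝ (fun y => y + dp e⁻¹ y) x)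
      rw [← h2, ← h1] at h3
      have h4 := mul_le_mul ((norm_fderiv_le_sn_one he (x + dp e⁻¹ x)).trans h)
        (norm_fderiv_id_add hc x) (norm_nonneg _) (by norm_num)
      linarith
    | r + 2 =>
      obtain ⟨C, hC⟩ := comp_pt he hc (r := r + 2) (by omega) fun j _ hj => ih j hj
      refine ⟨2 * C, fun x => ?_⟩
      have h1 := hC x
      rw [← heq] at h1
      have h2 := mul_le_mul_of_nonneg_right h (norm_nonneg (iteratedFDeriv ℝ (r + 2) (dp e⁻¹) x))
      linarith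

/-- `dp_inv`; strong induction on the order with `comp_pt` -/
theorem sm_inv_small (he : Sm (dp e)) (h : sn 1 (dp e) ≤ 1 / 2) : Sm (dp e⁻¹) :=
  ⟨(contDiff_inv he h).sub contDiff_id, inv_aux_bd he h⟩

open Classical in
/-- the permutation with a given displacement, when there is one -/
noncomputable def mkp (f : V n → V n) : Pm n := if h : ∃ e : Pm n, dp e = f then h.choose else 1

theorem dp_mkp (hf : Sm f) (h : sn 1 f ≤ 1 / 2) : dp (mkp f) = f := by
  have hex : ∃ e : Pm n, dp e = f := mkP hf h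
  rw [mkp, dif_pos hex]
  exact hex.choose_spec

theorem mkp_dp (e : Pm n) : mkp (dp e) = e := by
  have hex : ∃ e' : Pm n, dp e' = dp e := ⟨e, rfl⟩
  rw [mkp, dif_pos hex]
  exact ext_dp hex.choose_spec

theorem mem_Gc_of (he : Sm (dp e)) (he' : Sm (dp e⁻¹)) (h : Fix K e)
    (hK : Bornology.IsBounded K) : e ∈ Gc n := by
  obtain ⟨M, hM⟩ := hK.exists_norm_le
  refine ⟨contDiff_of_sm he, contDiff_of_sm he', M + 1, fun x hx => h x fun hx' => ?_⟩
  linarith [hM x hx']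

theorem mem_Gc_small (he : Sm (dp e)) (h1 : sn 1 (dp e) ≤ 1 / 2) (h : Fix K e)
    (hK : Bornology.IsBounded K) : e ∈ Gc n := mem_Gc_of he (sm_inv_small he h1) h hK

theorem mkG (hf : Sm f) (h1 : sn 1 f ≤ 1 / 2) (hv : Van K f) (hK : Bornology.IsBounded K) :
    ∃ g : Gc n, dp (g : Pm n) = f := by
  obtain ⟨e, rfl⟩ := mkP hf h1
  exact ⟨⟨e, mem_Gc_small hf h1 (fix_iff_van.2 hv) hK⟩, rfl⟩

theorem Gc.fix (g : Gc n) : ∃ M : ℝ, 0 < M ∧ Fix (closedBall 0 M) (g : Pm n) := by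
  obtain ⟨M, hM⟩ := g.2.2.2
  refine ⟨max M 1, lt_max_of_lt_right one_pos, fun x hx => hM x ?_⟩
  rw [mem_closedBall_zero_iff, not_le] at hx
  exact (le_max_left M 1).trans hx.le

theorem Gc.sm (g : Gc n) : Sm (dp (g : Pm n)) := by
  obtain ⟨M, -, hM⟩ := Gc.fix g
  exact sm_of_van (g.2.1.sub contDiff_id) (fix_iff_van.1 hM) isBounded_closedBall

theorem sn_mul_zero (he : Sm (dp e)) (he' : Sm (dp e')) :
    sn 0 (dp (e * e')) ≤ sn 0 (dp e) + sn 0 (dp e') := by
  rw [dp_mul]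
  exact (sn_add_le (he.comp he') he' 0).trans (add_le_add (sn_comp_zero he _) le_rfl)

theorem sn_mul_one (he : Sm (dp e)) (he' : Sm (dp e')) :
    sn 1 (dp (e * e')) ≤ sn 1 (dp e) * (1 + sn 1 (dp e')) + sn 1 (dp e') := by
  rw [dp_mul]
  exact (sn_add_le (he.comp he') he' 1).trans (add_le_add (sn_comp_one he he') le_rfl)

theorem inv2_sn_eq (e : Pm n) (r : ℕ) :
    sn r (dp e⁻¹) = sn r fun x => dp e (x + dp e⁻¹ x) := by
  rw [← sn_neg r fun x => dp e (x + dp e⁻¹ x), ← dp_inv]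

theorem sn_inv_zero (he : Sm (dp e)) : sn 0 (dp e⁻¹) ≤ sn 0 (dp e) := by
  rw [inv2_sn_eq]
  exact sn_comp_zero he _

theorem sn_inv_one (he : Sm (dp e)) (h : sn 1 (dp e) ≤ 1 / 2) :
    sn 1 (dp e⁻¹) ≤ 2 * sn 1 (dp e) := by
  have h1 := sn_comp_one he (sm_inv_small he h)
  rw [← inv2_sn_eq] at h1
  have h2 := mul_le_mul_of_nonneg_right h (sn_nonneg 1 (dp e⁻¹))
  linarith

theorem inv2_pow_le (he : Sm (dp e)) (h : sn 1 (dp e) ≤ 1 / 2) (r : ℕ) :
    sn r (dp e) * (1 + sn 1 (dp e⁻¹)) ^ r ≤ 2 ^ r * sn r (dp e) := by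
  have h1 := sn_inv_one he h
  have h2 : (1 + sn 1 (dp e⁻¹)) ^ r ≤ 2 ^ r :=
    pow_le_pow_left₀ (by linarith [sn_nonneg 1 (dp e⁻¹)]) (by linarith) r
  rw [mul_comm]
  exact mul_le_mul_of_nonneg_right h2 (sn_nonneg _ _)

theorem inv2_two (he : Sm (dp e)) (h : sn 1 (dp e) ≤ 1 / 2) (h2 : sn 2 (dp e) ≤ 1 / 8) :
    sn 2 (dp e⁻¹) ≤ 1 := by
  have hi := sm_inv_small he h
  have h1 := sn_comp_two he hi
  rw [← inv2_sn_eq] at h1
  have h3 := inv2_pow_le he h 2
  have h4 := mul_le_mul_of_nonneg_right h (sn_nonneg 2 (dp e⁻¹))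
  linarith

theorem inv2_step : ∃ C : ℕ → ℝ, (∀ r, 0 ≤ C r) ∧ ∀ r, 2 ≤ r → ∀ e : Pm n, Sm (dp e) →
    sn 1 (dp e) ≤ 1 / 2 → sn 2 (dp e) ≤ 1 / 8 →
      sn r (dp e⁻¹) ≤ 2 * 2 ^ r * sn r (dp e) + C r * (md r (dp e) + md r (dp e⁻¹)) := by
  obtain ⟨C, hC, ht⟩ := t3 (n := n) (F := V n)
  refine ⟨fun r => 2 * C r, fun r => by linarith [hC r], fun r hr e he h1 h2 => ?_⟩
  have hi := sm_inv_small he h1
  have i1 : sn 1 (dp e⁻¹) ≤ 1 := by linarith [sn_inv_one he h1]
  have i2 := inv2_two he h1 h2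
  have h3 := ht r hr _ _ he hi i1 i2
  rw [← inv2_sn_eq] at h3
  have h4 := inv2_pow_le he h1 r
  have h5 := mul_le_mul_of_nonneg_right h1 (sn_nonneg r (dp e⁻¹))
  have h6 := mul_le_mul_of_nonneg_left i2 (md_nonneg r (dp e))
  have h7 := mul_le_mul_of_nonneg_right (h2.trans (by norm_num : (1 / 8 : ℝ) ≤ 1))
    (md_nonneg r (dp e⁻¹))
  have h8 := mul_le_mul_of_nonneg_left (add_le_add h6 h7) (hC r)
  linarith

theorem inv2_md (k : ℕ) : ∃ D : ℝ, 0 ≤ D ∧ ∀ e : Pm n, Sm (dp e) →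
    sn 1 (dp e) ≤ 1 / 2 → sn 2 (dp e) ≤ 1 / 8 → md (k + 2) (dp e⁻¹) ≤ D * md (k + 2) (dp e) := by
  obtain ⟨C, hC, hs⟩ := inv2_step (n := n)
  induction k with
  | zero => exact ⟨0, le_rfl, fun e _ _ _ => by rw [zero_add, md_two, zero_mul]⟩
  | succ k ih =>
    obtain ⟨D, hD, ih⟩ := ih
    have hc := hC (k + 2)
    have hp : (0 : ℝ) ≤ 2 * 2 ^ (k + 2) := by positivity
    have hq : 0 ≤ D + C (k + 2) * (1 + D) := by positivity
    refine ⟨2 * 2 ^ (k + 2) + (D + C (k + 2) * (1 + D)), by positivity, fun e he h1 h2 => ?_⟩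
    have h3 := ih e he h1 h2
    have h4 := hs (k + 2) (by omega) e he h1 h2
    have h5 := mul_le_mul_of_nonneg_left h3 hc
    have h6 := mul_nonneg hp (md_nonneg (k + 2) (dp e))
    have h7 := mul_nonneg hq (sn_nonneg (k + 2) (dp e))
    rw [show k + 1 + 2 = k + 2 + 1 from rfl, md_succ (r := k + 2) (by omega) (dp e),
      md_succ (r := k + 2) (by omega) (dp e⁻¹)]
    linarith

/-- Apply `t3` to `dp_inv` and absorb the term `sn 1 f * sn r h`; `sn_comp_two` gives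
`sn 2 h ≤ 8 sn 2 f ≤ 1`; strong induction bounds `md r h` by a constant times `md r f`. -/
theorem inv_star : ∃ C : ℕ → ℝ, (∀ r, 0 ≤ C r) ∧ ∀ r, 2 ≤ r → ∀ e : Pm n, Sm (dp e) →
    sn 1 (dp e) ≤ 1 / 2 → sn 2 (dp e) ≤ 1 / 8 →
      sn r (dp e⁻¹) ≤ 2 * 2 ^ r * sn r (dp e) + C r * md r (dp e) := by
  obtain ⟨C, hC, hs⟩ := inv2_step (n := n)
  choose D hD hm using inv2_md (n := n)
  refine ⟨fun r => C r * (1 + D (r - 2)), fun r => mul_nonneg (hC r) (by linarith [hD (r - 2)]),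
    fun r hr e he h1 h2 => ?_⟩
  have h3 := hm (r - 2) e he h1 h2
  rw [Nat.sub_add_cancel hr] at h3
  have h4 := hs r hr e he h1 h2
  have h5 := mul_le_mul_of_nonneg_left h3 (hC r)
  linarith

theorem inv_crude (r : ℕ) : ∃ C : ℝ, 0 ≤ C ∧ ∀ e : Pm n, Sm (dp e) →
    sn 1 (dp e) ≤ 1 / 2 → sn 2 (dp e) ≤ 1 / 8 → sn r (dp e⁻¹) ≤ C * nm r (dp e) := by
  obtain ⟨C, hC, hs⟩ := inv_star (n := n)
  have hc := hC r
  have hp : (0 : ℝ) ≤ 2 * 2 ^ r := by positivity
  refine ⟨2 + 2 * 2 ^ r + C r, by positivity, fun e he h1 h2 => ?_⟩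
  have n0 := nm_nonneg r (dp e)
  have n1 := sn_le_nm (le_refl r) (dp e)
  have n2 := mul_nonneg hp n0
  have n3 := mul_nonneg hc n0
  match r with
  | 0 => linarith [sn_inv_zero he]
  | 1 => linarith [sn_inv_one he h1]
  | k + 2 =>
    have h3 := hs (k + 2) (by omega) e he h1 h2
    have h4 := mul_le_mul_of_nonneg_left n1 hp
    have h5 := mul_le_mul_of_nonneg_left (md_le_nm (k + 2) (dp e)) hc
    linarith

/-- products and quotients of small elements are small: `inv_crude`, `nm_comp_le` -/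
theorem nm_mul_inv_small (R : ℕ) {δ : ℝ} (hδ : 0 < δ) : ∃ δ' : ℝ, 0 < δ' ∧ ∀ e e' : Pm n,
    Sm (dp e) → Sm (dp e') → nm (R + 2) (dp e) ≤ δ' → nm (R + 2) (dp e') ≤ δ' →
      nm R (dp (e * e'⁻¹)) ≤ δ := by
  choose C hC hc using inv_crude (n := n)
  set D : ℝ := ∑ j ∈ Finset.range (R + 1), C j with hD
  have hD0 : 0 ≤ D := Finset.sum_nonneg fun j _ => hC j
  obtain ⟨C', hC', hc'⟩ := nm_comp_le (n := n) (F := V n) R D
  have hp : 0 < C' + D + 1 := by linarith
  refine ⟨min (1 / 8) (δ / (C' + D + 1)), lt_min (by norm_num) (by positivity),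
    fun e e' he he' h h' => ?_⟩
  set t : ℝ := min (1 / 8) (δ / (C' + D + 1)) with ht
  have t1 : t ≤ 1 / 8 := min_le_left _ _
  have t2 : t * (C' + D + 1) ≤ δ := (le_div_iff₀ hp).1 (min_le_right _ _)
  have t0 : 0 ≤ t := (nm_nonneg _ _).trans h
  have a1 : sn 1 (dp e') ≤ 1 / 2 := by linarith [sn_le_nm (show 1 ≤ R + 2 by omega) (dp e')]
  have a2 : sn 2 (dp e') ≤ 1 / 8 := by linarith [sn_le_nm (show 2 ≤ R + 2 by omega) (dp e')]
  have hi := sm_inv_small he' a1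
  have b1 : nm R (dp e'⁻¹) ≤ D * t := by
    rw [hD, Finset.sum_mul]
    refine Finset.sum_le_sum fun j hj => (hc j e' he' a1 a2).trans ?_
    have hj' := Finset.mem_range.1 hj
    exact mul_le_mul_of_nonneg_left ((nm_mono (by omega) _).trans h') (hC j)
  have b2 : nm R (dp e'⁻¹) ≤ D := by nlinarith
  have b3 := hc' _ _ he hi b2
  have b4 := mul_le_mul_of_nonneg_left ((nm_mono (show R ≤ R + 2 by omega) (dp e)).trans h) hC'
  rw [dp_mul]
  have b5 := nm_add_le (he.comp hi) hi R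
  nlinarith

end Pool.Agent.P.MP_878f14_gt.HT
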