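import Mathlib

/-! The group of compactly supported smooth diffeomorphisms of `ℝ ^ n`, its continuous singular
simplices modulo right translation, and their chain complex. -/

namespace Pool.Agent.P.MP_878f14_gt.HT

open scoped ContDiff

/-- The space `ℝ ^ n`. -/
abbrev V (n : ℕ) : Type := Fin n → ℝ

/-- The group of smooth diffeomorphisms of `ℝ ^ n` with compact support. -/
def Gc (n : ℕ) : Subgroup (Equiv.Perm (V n)) where
  carrier := {e | ContDiff ℝ ∞ (fun x => e x) ∧ ContDiff ℝ ∞ (fun x => e⁻¹ x) ∧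
    ∃ M : ℝ, ∀ x, M ≤ ‖x‖ → e x = x}
  one_mem' := ⟨contDiff_id, contDiff_id, 0, fun _ _ => rfl⟩
  mul_mem' := by
    rintro e e' ⟨h1, h2, M, h3⟩ ⟨h1', h2', M', h3'⟩
    refine ⟨h1.comp h1', ?_, max M M', fun x hx => ?_⟩
    · rw [mul_inv_rev]
      exact h2'.comp h2
    · rw [Equiv.Perm.mul_apply, h3' x (le_trans (le_max_right _ _) hx),
        h3 x (le_trans (le_max_left _ _) hx)]
  inv_mem' := by
    rintro e ⟨h1, h2, M, h3⟩
    refine ⟨h2, by simpa using h1, M, fun x hx => ?_⟩
    rw [Equiv.Perm.inv_eq_iff_eq, h3 x hx]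

/-- The standard `p`-simplex. -/
abbrev Sx (p : ℕ) : Type := stdSimplex ℝ (Fin (p + 1))

/-- Singular simplices of `Gc n`: supports in one compact set, continuous for the smooth topology
(all derivatives in `x` are jointly continuous in the parameter and in `x`). -/
def Spx (n p : ℕ) : Type :=
  {σ : Sx p → Gc n // (∃ M : ℝ, ∀ t x, M ≤ ‖x‖ → (σ t : Equiv.Perm (V n)) x = x) ∧
    ∀ r : ℕ, Continuous fun z : Sx p × V n =>
      iteratedFDeriv ℝ r (fun x => (σ z.1 : Equiv.Perm (V n)) x) z.2}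

/-- The `j`-th face of a simplex. -/
noncomputable def Spx.face {n p : ℕ} (j : Fin (p + 2)) (σ : Spx n (p + 1)) : Spx n p :=
  ⟨fun t => σ.1 (stdSimplex.map j.succAbove t), σ.2.1.imp fun _ h _ => h _, fun r =>
    (σ.2.2 r).comp ((stdSimplex.continuous_map j.succAbove).prodMap continuous_id)⟩

/-- Singular simplices modulo right translation by elements of the group. -/
def Xq (n p : ℕ) : Type := Quot fun σ τ : Spx n p => ∃ g : Gc n, ∀ t, τ.1 t = σ.1 t * g

/-- The faces of a simplex modulo right translation. -/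
noncomputable def Xq.face {n p : ℕ} (j : Fin (p + 2)) : Xq n (p + 1) → Xq n p :=
  Quot.map (Spx.face j) fun _ _ h => h.imp fun _ hg _ => hg _

/-- The boundary operator on integral chains. -/
noncomputable def bd {n p : ℕ} : FreeAbelianGroup (Xq n (p + 1)) →+ FreeAbelianGroup (Xq n p) :=
  FreeAbelianGroup.lift fun σ => ∑ j : Fin (p + 2), (-1 : ℤ) ^ j.1 • .of (Xq.face j σ)

end Pool.Agent.P.MP_878f14_gt.HT
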