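import Pool.Agent.P.MP_878f14_gt.HT.Tow2

/-! Translation and dilation invariance of the class of a commutator with a translation. -/

namespace Pool.Agent.P.MP_878f14_gt.HT

open Filter Metric
open scoped commutatorElement

/-- a link conjugated by a multiple of its translation is a link with the same end -/
theorem Dil_shift {n : ℕ} {σ : ℝ} {d : Fin n} {k a Ω : Pm n} (M : ℕ) (h0 : 0 ≤ (M : ℝ) * σ)
    (h1 : (M : ℝ) * σ ≤ 1) (h : Lnk σ 1 d k a Ω) :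
    Lnk σ 2 d (tr (sg d (M * σ)) * k * (tr (sg d (M * σ)))⁻¹)
      (tr (sg d (M * σ)) * a * (tr (sg d (M * σ)))⁻¹) Ω := by
  obtain ⟨e, hl, hr, hlt, hle, hgt⟩ := h
  have hc : Ω * tr (sg d (M * σ)) = tr (sg d (M * σ)) * Ω := by
    rw [← smul_sg, ← tr_pow]
    exact Commute.pow_right (a := Ω) (b := tr (sg d σ)) (hle d le_rfl) M
  refine ⟨?_, fun x hx => ?_, fun x hx => ?_, fun i hi => ?_, hle, fun i hi x hx => ⟨?_, ?_⟩⟩
  · have h2 : tr (sg d (M * σ)) * tr (sg d σ) * (tr (sg d (M * σ)))⁻¹ = tr (sg d σ) := by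
      rw [tr_comm, mul_inv_cancel_right]
    rw [e, conjugate_commutatorElement, h2]
  · rw [Equiv.Perm.mul_apply, Equiv.Perm.mul_apply, tr_inv_apply,
      hl _ (by rw [Pi.sub_apply, sg_same]; linarith), tr_apply, sub_add_cancel]
  · rw [Equiv.Perm.mul_apply, Equiv.Perm.mul_apply, tr_inv_apply,
      hr _ (by rw [Pi.sub_apply, sg_same]; linarith), ← Equiv.Perm.mul_apply, ← hc,
      Equiv.Perm.mul_apply, tr_apply, sub_add_cancel]
  · have c1 : Commute (tr (sg d (M * σ))) (tr (sg i σ)) := tr_comm _ _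
    have c2 : Commute k (tr (sg i σ)) := hlt i hi
    exact (c1.mul_left c2).mul_left c1.inv_left
  · rw [Equiv.Perm.mul_apply, Equiv.Perm.mul_apply, tr_inv_apply,
      (hgt i hi _ (by rw [Pi.sub_apply, sg_ne hi.ne', sub_zero]; linarith)).1, tr_apply,
      sub_add_cancel]
  · exact (hgt i hi x (by linarith)).2

/-- the commutator of a narrow link in the first direction has small support -/
theorem Dil_fix {n : ℕ} {σ r : ℝ} {d : Fin n} (hd : d.1 = 0) {k a Ω : Pm n} (hr : 0 < r)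
    (hσ : 0 ≤ σ) (hσr : σ ≤ r / 2) (hk : ∀ x, ‖dp k x‖ ≤ r / 2) (h : Lnk σ r d k a Ω) :
    Fix (closedBall 0 (2 * r)) a := by
  intro x hx
  rw [mem_closedBall_zero_iff, pi_norm_le_iff_of_nonneg (by linarith), not_forall] at hx
  obtain ⟨i, hi⟩ := hx
  rw [not_le, Real.norm_eq_abs] at hi
  by_cases hid : i = d
  · subst hid
    refine h.fix_self hσ hk x ?_
    rcases lt_abs.1 hi with h1 | h1
    · exact Or.inr (by linarith)
    · exact Or.inl (by linarith)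
  · refine h.fix_gt (i := i) ?_ x (by linarith)
    refine lt_of_le_of_ne ?_ (Ne.symm hid)
    rw [Fin.le_def, hd]
    exact Nat.zero_le _

theorem Dil_conj {n : ℕ} {e ψ : Pm n} {l r : ℝ} {c : V n} (hc : ‖c‖ = 1) (hl : 0 < l)
    (hr : r ≤ 1 / 8) (he : Fix (closedBall 0 (2 * r)) e) (hψ : Fix (ball c (1 / 2)) ψ)
    (hψe : ∀ x ∈ closedBall c (2 * r), ψ x = c + l • (x - c)) :
    ψ * e * ψ⁻¹ = e ∧ ψ * (tr c * e * (tr c)⁻¹) * ψ⁻¹ =
      tr c * (aff l 0 * e * (aff l 0)⁻¹) * (tr c)⁻¹ := by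
  constructor
  · rw [commute_of_fix (fun x hx => hψ x fun hx' => ?_) he, mul_inv_cancel_right]
    rw [mem_closedBall_zero_iff] at hx
    rw [mem_ball, dist_eq_norm] at hx'
    have h1 := norm_sub_norm_le c x
    rw [norm_sub_rev] at h1
    linarith
  · have h2 : Fix (closedBall c (2 * r)) (tr c * e * (tr c)⁻¹) := by
      have h3 := he.conj_aff one_pos c
      rwa [aff_one, smul_zero, zero_add, one_mul] at h3
    have h3 : ψ * (tr c * e * (tr c)⁻¹) * ψ⁻¹ =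
        tr c * aff l 0 * (tr c)⁻¹ * (tr c * e * (tr c)⁻¹) * (tr c * aff l 0 * (tr c)⁻¹)⁻¹ := by
      refine conj_eq_of_agree h2 fun x hx => ?_
      rw [hψe x hx, Equiv.Perm.mul_apply, Equiv.Perm.mul_apply, tr_inv_apply, aff_apply hl.ne',
        tr_apply, add_zero, add_comm]
    rw [h3]
    group

namespace Scale

variable {n : ℕ} {S : Scale} {β : ℕ} {k a Ω g h : S.ι → Pm n} {σ : S.ι → ℝ}

theorem Dil_SS_conj {x y : Germ S.F (Pm n)} (hx : x ∈ (S.GB n β).map S.gP) (hy : y ∈ S.SS n β) :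
    x * y * x⁻¹ ∈ S.SS n β := by
  obtain ⟨h1, h2⟩ := mem_SS.1 hy
  exact mem_SS.2 ⟨mul_mem (mul_mem hx h1) (inv_mem hx), fun i =>
    ⟨conj_map_GS x hx y (h2 i).1, conj_map_GS x hx y (h2 i).2⟩⟩

/-- the class of the commutator of a link in the first direction depends only on its end -/
theorem Dil_lnk (hβ : 1 ≤ β) (hσ : S.OdS β σ) {ρ : ℝ} (hρ : ρ < 3) {d : Fin n} (hd : d.1 = 0)
    (hk : k ∈ S.GB n β) (hΩ : Ω ∈ S.GB n β)
    (h : ∀ᶠ i in S.F, Lnk (σ i) ρ d (k i) (a i) (Ω i)) :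
    S.gP a ∈ S.SS n β ∧
      S.ab n β (S.gP a) = (S.TW n β).ph (S.sv n σ) (d + 1) (S.gP Ω) := by
  have hs := good (n := n) hβ hσ
  obtain ⟨h1, h2, h3⟩ := trs_of_lnk hρ hk hΩ h
  have h4 : S.gP Ω ∈ (S.TW n β).G (S.sv n σ) d :=
    ⟨h2.1.1, fun i hi => h2.1.2 i (Nat.lt_succ_of_lt hi)⟩
  have h5 := h1.comm_mem h4 (Tower.s_mem hs d d) (h2.1.2 d (Nat.lt_succ_self _))
  rw [← h3] at h5
  refine ⟨mem_SS.2 ⟨h5.1.1, fun i => h5.2 i (by rw [hd]; exact Nat.zero_le _)⟩, ?_⟩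
  rw [Tower.ph_step hs h1 h2, ← h3, hd]
  rfl

/-- Let `d` be the first direction. Write `1 = M i * σ i + ρ i` with `M i = ⌊1 / σ i⌋₊`.
Conjugation of `k` by `tr (sg d (M σ))` gives again a link (width `2`) with the same `Ω`
(`conj_tr_GB`, `trs_of_lnk`, `ph_step` twice), and `tr (sg d ρ)` lies in `GB β` (`ab_conj`). -/
theorem transl (hβ : 1 ≤ β) (hσ : S.OdS β σ) (hpos : ∀ i, 0 < σ i) {d : Fin n} (hd : d.1 = 0)
    (hk : k ∈ S.GB n β) (hΩ : Ω ∈ S.GB n β) (h : ∀ᶠ i in S.F, Lnk (σ i) 1 d (k i) (a i) (Ω i)) :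
    S.gP a ∈ S.SS n β ∧ S.gP (fun i => tr (sg d 1) * a i * (tr (sg d 1))⁻¹) ∈ S.SS n β ∧
      S.ab n β (S.gP fun i => tr (sg d 1) * a i * (tr (sg d 1))⁻¹) = S.ab n β (S.gP a) := by
  obtain ⟨M, hM⟩ : ∃ M : S.ι → ℕ, ∀ i, 0 ≤ (M i : ℝ) * σ i ∧ (M i : ℝ) * σ i ≤ 1 ∧
      1 - (M i : ℝ) * σ i ≤ σ i := by
    refine ⟨fun i => ⌊1 / σ i⌋₊, fun i => ⟨mul_nonneg (Nat.cast_nonneg _) (hpos i).le, ?_, ?_⟩⟩
    · have h1 := Nat.floor_le (one_div_pos.2 (hpos i)).le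
      rwa [le_div_iff₀ (hpos i)] at h1
    · have h1 := Nat.lt_floor_add_one (1 / σ i)
      rw [div_lt_iff₀ (hpos i)] at h1
      linarith
  have hρ : (fun i => tr (sg d (1 - (M i : ℝ) * σ i))) ∈ S.GB n β := by
    refine tr_mem hβ (hσ.of_le 1 (Eventually.of_forall fun i => ?_))
    rw [one_mul, abs_of_pos (hpos i), norm_sg, abs_abs, abs_of_nonneg (by linarith [(hM i).2.1])]
    exact (hM i).2.2
  obtain ⟨h1, h2⟩ := Dil_lnk hβ hσ (by norm_num) hd hk hΩ h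
  obtain ⟨h3, h4⟩ := Dil_lnk (ρ := 2)
    (a := fun i => tr (sg d (M i * σ i)) * a i * (tr (sg d (M i * σ i)))⁻¹) hβ hσ (by norm_num) hd
    (conj_tr_GB hk fun i => sg d (M i * σ i)) hΩ
    (h.mono fun i hi => Dil_shift (M i) (hM i).1 (hM i).2.1 hi)
  have hE : (S.gP fun i => tr (sg d 1) * a i * (tr (sg d 1))⁻¹) =
      (S.gP fun i => tr (sg d (1 - (M i : ℝ) * σ i))) *
        (S.gP fun i => tr (sg d (M i * σ i)) * a i * (tr (sg d (M i * σ i)))⁻¹) *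
          (S.gP fun i => tr (sg d (1 - (M i : ℝ) * σ i)))⁻¹ := by
    rw [← map_inv, ← map_mul, ← map_mul]
    refine gP_eq.2 (Eventually.of_forall fun i => ?_)
    have h5 : tr (sg d 1) = tr (sg d (1 - (M i : ℝ) * σ i)) * tr (sg d (M i * σ i)) := by
      rw [← tr_add, ← sg_add, sub_add_cancel]
    rw [Pi.mul_apply, Pi.mul_apply, Pi.inv_apply, h5]
    group
  rw [hE]
  exact ⟨h1, Dil_SS_conj (mem_map_GB.2 hρ) h3, by rw [ab_conj (mem_map_GB.2 hρ) h3, h4, h2]⟩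

/-- conjugation by a fixed element of `Gc n` supported well inside the cube preserves `SS`
(`conj_fix_GF`), hence its commutator subgroup; `ab_eq` -/
theorem ab_conj_fix (ψ : Gc n) {R : ℝ} (hR : R < 3) (hψ : Fix (closedBall 0 R) (ψ : Pm n))
    (hg : S.gP g ∈ S.SS n β) (hh : S.gP h ∈ S.SS n β) (e : S.ab n β (S.gP g) = S.ab n β (S.gP h)) :
    S.ab n β (S.gP fun i => (ψ : Pm n) * g i * (ψ : Pm n)⁻¹) =
      S.ab n β (S.gP fun i => (ψ : Pm n) * h i * (ψ : Pm n)⁻¹) := by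
  have key : ∀ u : S.ι → Pm n, (MulAut.conj (S.gP fun _ => (ψ : Pm n))).toMonoidHom (S.gP u) =
      S.gP (fun i => (ψ : Pm n) * u i * (ψ : Pm n)⁻¹) := by
    intro u
    change (S.gP fun _ => (ψ : Pm n)) * S.gP u * (S.gP fun _ => (ψ : Pm n))⁻¹ = _
    rw [← map_inv, ← map_mul, ← map_mul]
    rfl
  have hle : (S.SS n β).map (MulAut.conj (S.gP fun _ => (ψ : Pm n))).toMonoidHom ≤ S.SS n β := by
    rintro _ ⟨_, ⟨u, hu, rfl⟩, rfl⟩
    rw [key]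
    exact Subgroup.mem_map_of_mem _ (conj_fix_GF hu ψ hR hψ)
  have h1 := Subgroup.mem_map_of_mem (MulAut.conj (S.gP fun _ => (ψ : Pm n))).toMonoidHom
    ((ab_eq hg hh).1 e)
  rw [Subgroup.map_commutator, map_mul, map_inv] at h1
  rw [← key, ← key]
  exact (ab_eq (hle (Subgroup.mem_map_of_mem _ hg)) (hle (Subgroup.mem_map_of_mem _ hh))).2
    (Subgroup.commutator_mono hle hle h1)

/-- Let `ρ = 1 / (8 D)`. The commutator `a` is eventually supported in `closedBall 0 (2ρ)`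
(`Lnk.fix_self`, `Lnk.fix_gt`). Take `ψ` from `exists_aff` with centre `c = sg d 1`, supported in
`ball c (1/2)` and equal to `x ↦ c + D • (x - c)` on `closedBall c (2ρ)`; conjugate `transl` by `ψ`
(`ab_conj_fix`, `conj_eq_of_agree`, `commute_of_fix`) and use `transl` again for the dilated data
(`Lnk.conj`, `conj_aff_GB`). -/
theorem dil (hβ : 1 ≤ β) {D : ℕ} (hD : 1 ≤ D) (hσ : S.OdS β σ) (hpos : ∀ i, 0 < σ i) {d : Fin n}
    (hd : d.1 = 0) (hk : k ∈ S.GB n β) (hΩ : Ω ∈ S.GB n β)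
    (h : ∀ᶠ i in S.F, Lnk (σ i) (1 / (8 * D)) d (k i) (a i) (Ω i)) :
    S.ab n β (S.gP fun i => aff D 0 * a i * (aff D 0)⁻¹) = S.ab n β (S.gP a) := by
  have hD1 : (1 : ℝ) ≤ D := by exact_mod_cast hD
  have hD0 : (0 : ℝ) < D := by linarith
  obtain ⟨r, hr, hrD⟩ : ∃ r : ℝ, r = 1 / (8 * D) ∧ (D : ℝ) * r = 1 / 8 :=
    ⟨_, rfl, by field_simp⟩
  rw [← hr] at h
  have hr0 : 0 < r := by rw [hr]; positivity
  have hr1 : r ≤ 1 / 8 := by nlinarith
  have hσs : ∀ᶠ i in S.F, σ i ≤ r / 2 := by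
    have h1 := (OdS.mono (m := 0 + 1) hσ hβ).small (δ := r / 2) (by positivity)
    filter_upwards [h1] with i hi
    rw [pow_zero, mul_one] at hi
    exact (le_abs_self _).trans hi
  have hfix : ∀ᶠ i in S.F, Fix (closedBall 0 (2 * r)) (a i) := by
    filter_upwards [h, hσs, Grp2_near (GB_le_one hk) (δ := r / 2) (by positivity)]
      with i hi hσi hsm
    refine Dil_fix hd hr0 (hpos i).le hσi (fun x => ?_) hi
    have h1 := hsm x
    rwa [dist_eq_norm] at h1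
  have hc : ‖sg d (1 : ℝ)‖ = 1 := by rw [norm_sg, abs_one]
  obtain ⟨ψ, hψ, hψe⟩ := exists_aff (l := D) (ρ := 2 * r) (sg d 1) (R := 1 / 2) hD0 (by linarith)
    (by linarith) (by linarith)
  have hψ2 : Fix (closedBall 0 2) (ψ : Pm n) := by
    refine hψ.mono fun x hx => ?_
    rw [mem_ball, dist_eq_norm] at hx
    rw [mem_closedBall_zero_iff]
    have h1 := norm_sub_norm_le x (sg d 1)
    linarith
  obtain ⟨a1, a2, a3⟩ := transl hβ hσ hpos hd hk hΩ (h.mono fun i hi => hi.mono (by linarith))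
  obtain ⟨-, -, b3⟩ := transl (a := fun i => aff D 0 * a i * (aff D 0)⁻¹)
    (σ := fun i => (D : ℝ) * σ i) hβ (hσ.const_mul D) (fun i => mul_pos hD0 (hpos i)) hd
    (conj_aff_GB hk hD0 0) (conj_aff_GB hΩ hD0 0)
    (h.mono fun i hi => (hi.conj hD0).mono (by linarith))
  have h3 := ab_conj_fix ψ (R := 2) (by norm_num) hψ2 a2 a1 a3
  have e1 : (S.gP fun i => (ψ : Pm n) * a i * (ψ : Pm n)⁻¹) = S.gP a :=
    gP_eq.2 (hfix.mono fun i hi => (Dil_conj hc hD0 hr1 hi hψ hψe).1)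
  have e2 : (S.gP fun i => (ψ : Pm n) * (tr (sg d 1) * a i * (tr (sg d 1))⁻¹) * (ψ : Pm n)⁻¹) =
      S.gP fun i => tr (sg d 1) * (aff D 0 * a i * (aff D 0)⁻¹) * (tr (sg d 1))⁻¹ :=
    gP_eq.2 (hfix.mono fun i hi => (Dil_conj hc hD0 hr1 hi hψ hψe).2)
  rw [← b3, ← e2, h3, e1]

/-- `dil` for the first link of a chain -/
theorem FCh.dil (hn : 1 ≤ n) (hβ : 1 ≤ β) {D : ℕ} (hD : 1 ≤ D) (hσ : S.OdS β σ)
    (hpos : ∀ i, 0 < σ i) {O : ℕ → S.ι → Pm n} {k : Fin n → S.ι → Pm n}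
    (h : S.FCh β σ (1 / (8 * D)) O k) :
    S.ab n β (S.gP fun i => aff D 0 * O 0 i * (aff D 0)⁻¹) = S.ab n β (S.gP (O 0)) :=
  Scale.dil (d := ⟨0, hn⟩) hβ hD hσ hpos rfl (h.2.1 _) (h.1 1 hn) (h.2.2.mono fun _ hi => hi _)

/-- For `t = tr (c / N)`, `N = 2 ^ (n+1) - 1`: `unroll_fam` with `ρ = 1 / 16`, `FCh.ph` for the chain
and for its dilation by `2` (`FCh.conj`, `aff_conj_tr`), `FCh.dil`, `sv_pow`, `ph_pow`, `ph_npow`
give `ph t = ph t ^ 2 ^ (n+1)`, so `ph (t ^ N) = 1`. -/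
theorem ph_tr (hn : 1 ≤ n) (hβ : 1 ≤ β) (hσ : S.OdS β σ) (hpos : ∀ i, 0 < σ i) {c : S.ι → V n}
    (hc : S.OdS β fun i => ‖c i‖) :
    (S.TW n β).ph (S.sv n σ) n (S.gP fun i => tr (c i)) = 1 := by
  obtain ⟨N, hN⟩ : ∃ N : ℕ, N + 1 = 2 * 2 ^ n := by
    have : 0 < 2 ^ n := by positivity
    exact ⟨2 * 2 ^ n - 1, by omega⟩
  have hN0 : (N : ℝ) ≠ 0 := by
    have : 0 < 2 ^ n := by positivity
    exact_mod_cast (show N ≠ 0 by omega)
  have h2 : (0 : ℝ) < (2 : ℕ) := by norm_num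
  have ht : (fun i => tr ((N : ℝ)⁻¹ • c i)) ∈ S.GB n β := by
    refine tr_mem hβ ((hc.const_mul ‖(N : ℝ)⁻¹‖).congr (Eventually.of_forall fun i => ?_))
    rw [norm_smul]
  have hcm : ∀ᶠ i in S.F, ∀ d : Fin n, tr ((N : ℝ)⁻¹ • c i) * tr (sg d (σ i)) =
      tr (sg d (σ i)) * tr ((N : ℝ)⁻¹ • c i) := Eventually.of_forall fun i d => tr_comm _ _
  obtain ⟨O, k, hO, hch⟩ := unroll_fam (ρ := 1 / (8 * ((2 : ℕ) : ℝ))) hβ hσ hpos (by positivity) ht hcm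
  have hs := good (n := n) hβ hσ
  have hs' := good (n := n) hβ (hσ.const_mul ((2 : ℕ) : ℝ))
  have hm := (mem_top_iff (σ := σ)).2 ⟨ht, hcm⟩
  have e1 := hch.ph hβ hσ (by norm_num)
  have e2 := (hch.conj h2).ph hβ (hσ.const_mul _) (by norm_num)
  have e3 := hch.dil hn hβ (by norm_num) hσ hpos
  have e4 : (S.gP fun i => aff ((2 : ℕ) : ℝ) 0 * O n i * (aff ((2 : ℕ) : ℝ) 0)⁻¹) =
      (S.gP fun i => tr ((N : ℝ)⁻¹ • c i)) ^ 2 := by
    rw [← map_pow, hO]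
    refine gP_eq.2 (Eventually.of_forall fun i => ?_)
    rw [aff_conj_tr h2.ne', Pi.pow_apply, tr_pow]
  have e5 : (S.gP fun i => tr (c i)) = (S.gP fun i => tr ((N : ℝ)⁻¹ • c i)) ^ N := by
    rw [← map_pow]
    refine gP_eq.2 (Eventually.of_forall fun i => ?_)
    rw [Pi.pow_apply, tr_pow, smul_inv_smul₀ hN0]
  rw [← sv_pow] at hs' e2
  rw [e3, e4, ← e1, hO, Tower.ph_pow hs 2 hs' le_rfl (pow_mem hm 2),
    Tower.ph_npow hs le_rfl hm, ← pow_mul, ← hN, pow_succ] at e2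
  rw [e5, Tower.ph_npow hs le_rfl hm]
  exact mul_eq_right.1 e2

end Scale

end Pool.Agent.P.MP_878f14_gt.HT
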