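import Pool.Agent.P.MP_878f14_gt.HT.Grp2

/-! Central extensions of the group of germs of families. -/

namespace Pool.Agent.P.MP_878f14_gt.HT

open Filter Metric
open scoped commutatorElement

namespace Scale

variable {n : ℕ} {S : Scale} {m p : ℕ} {U U' : Set (V n)} {g : S.ι → Pm n}

variable (S n) in
/-- a group over the germs of families, with central kernel -/
structure Ext (E : Type*) [Group E] where
  q : E →* Germ S.F (Pm n)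
  cen : ∀ e, q e = 1 → e ∈ Subgroup.center E
  sur : ∀ (R : ℝ) (g : S.ι → Pm n), g ∈ S.GF 1 (ball 0 R) → ∃ e, q e = S.gP g

namespace Ext

variable {E : Type*} [Group E] (X : S.Ext n E)

noncomputable def EB : Subgroup E := ((S.GB n 1).map S.gP).comap X.q

noncomputable def EE (p : ℕ) (U : Set (V n)) : Subgroup E := ((S.GF p U).map S.gP).comap X.q

noncomputable def NN (q : ℕ) (U : Set (V n)) : Subgroup E :=
  ⨆ (m : ℕ) (p : ℕ) (_ : 1 ≤ m ∧ 1 ≤ p ∧ q ≤ m + p), ⁅X.EE m U, X.EE p U⁆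

def PP (q : ℕ) : Prop := ∀ e ∈ X.NN q (ball 0 q), X.q e = 1 → e = 1

/-- short high order cycles die -/
def HH (g₀ : ℕ) : Prop := ∀ (c : V n) (x : List (E × E)), x.length ≤ g₀ →
  (∀ z ∈ x, z.1 ∈ X.EE 7 (ball c (1 / 2)) ∧ z.2 ∈ X.EE 7 (ball c (1 / 2))) →
    X.q (Phi x) = 1 → Phi x = 1

variable {X} {e e' : E}

theorem mem_EE : e ∈ X.EE p U ↔ ∃ g ∈ S.GF p U, X.q e = S.gP g := by
  simp only [EE, Subgroup.mem_comap, Subgroup.mem_map, eq_comm]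

theorem mem_EB : e ∈ X.EB ↔ ∃ g ∈ S.GB n 1, X.q e = S.gP g := by
  simp only [EB, Subgroup.mem_comap, Subgroup.mem_map, eq_comm]

theorem EE_rep (h : e ∈ X.EE p U) (hq : X.q e = S.gP g) : g ∈ S.GF p U := by
  rw [EE, Subgroup.mem_comap, hq] at h
  exact mem_map_GF.1 h

theorem EE_le_EB : X.EE p U ≤ X.EB := by
  intro e h
  obtain ⟨g, hg, hq⟩ := mem_EE.1 h
  exact mem_EB.2 ⟨g, GB_le_one hg.1, hq⟩

theorem EE_mono (hmp : m ≤ p) (h : U ⊆ U') : X.EE p U ≤ X.EE m U' := by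
  intro e he
  obtain ⟨g, hg, hq⟩ := mem_EE.1 he
  exact mem_EE.2 ⟨g, GF_mono hmp h hg, hq⟩

theorem EE_le_one : X.EE p U ≤ X.EE 1 U := by
  intro e he
  obtain ⟨g, hg, hq⟩ := mem_EE.1 he
  exact mem_EE.2 ⟨g, GF_le_one subset_rfl hg, hq⟩

theorem EE_inter (h : e ∈ X.EE p U) (h' : e ∈ X.EE m U') : e ∈ X.EE p (U ∩ U') := by
  obtain ⟨g, hg, hq⟩ := mem_EE.1 h
  exact mem_EE.2 ⟨g, GF_inter hg (EE_rep h' hq), hq⟩

theorem EE_congr (h : e ∈ X.EE p U) (hq : X.q e = X.q e') : e' ∈ X.EE p U := by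
  obtain ⟨g, hg, hq'⟩ := mem_EE.1 h
  exact mem_EE.2 ⟨g, hg, hq ▸ hq'⟩

theorem EE_empty (h : e ∈ X.EE p ∅) : X.q e = 1 := by
  obtain ⟨g, hg, hq⟩ := mem_EE.1 h
  rw [hq]
  exact gP_eq_one.2 (GS_empty hg.2)

theorem exists_lift (hU : Bornology.IsBounded U) (hg : g ∈ S.GF p U) :
    ∃ e ∈ X.EE p U, X.q e = S.gP g := by
  obtain ⟨R, hR⟩ := hU.subset_ball 0
  obtain ⟨e, he⟩ := X.sur R g (GF_le_one hR hg)
  exact ⟨e, mem_EE.2 ⟨g, hg, he⟩, he⟩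

theorem conj_EE (hw : e ∈ X.EB) (h : e' ∈ X.EE p U) : e * e' * e⁻¹ ∈ X.EE p U := by
  obtain ⟨w, hw, hq⟩ := mem_EB.1 hw
  obtain ⟨g, hg, hq'⟩ := mem_EE.1 h
  exact mem_EE.2 ⟨_, conj_GF hw hg, by simp only [map_mul, map_inv, hq, hq']⟩

theorem comm_mem_EE (hm : 1 ≤ m) (hp : 1 ≤ p) (h : e ∈ X.EE m U) (h' : e' ∈ X.EE p U) :
    ⁅e, e'⁆ ∈ X.EE (m + p) U := by
  obtain ⟨w, hw, hq⟩ := mem_EE.1 h
  obtain ⟨g, hg, hq'⟩ := mem_EE.1 h'
  exact mem_EE.2 ⟨_, comm_mem_GF hm hp hw.1 hg, by simp only [map_commutatorElement, hq, hq']⟩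

theorem comm_mem_NN {q : ℕ} (hm : 1 ≤ m) (hp : 1 ≤ p) (hq : q ≤ m + p) (h : e ∈ X.EE m U)
    (h' : e' ∈ X.EE p U) : ⁅e, e'⁆ ∈ X.NN q U := by
  refine Subgroup.mem_iSup_of_mem m (Subgroup.mem_iSup_of_mem p
    (Subgroup.mem_iSup_of_mem ⟨hm, hp, hq⟩ ?_))
  exact Subgroup.commutator_mem_commutator h h'

theorem NN_le {q : ℕ} {H : Subgroup E} (h : ∀ m p, 1 ≤ m → 1 ≤ p → q ≤ m + p →
    ∀ e ∈ X.EE m U, ∀ e' ∈ X.EE p U, ⁅e, e'⁆ ∈ H) : X.NN q U ≤ H :=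
  iSup_le fun m => iSup_le fun p => iSup_le fun hh =>
    Subgroup.commutator_le.2 (h m p hh.1 hh.2.1 hh.2.2)

theorem NN_le_EE {q : ℕ} : X.NN q U ≤ X.EE q U :=
  NN_le fun _ _ hm hp hq _ h _ h' => EE_mono hq subset_rfl (comm_mem_EE hm hp h h')

theorem NN_mono {q q' : ℕ} (hq : q' ≤ q) (h : U ⊆ U') : X.NN q U ≤ X.NN q' U' :=
  NN_le fun _ _ hm hp hq' _ h1 _ h2 =>
    comm_mem_NN hm hp (hq.trans hq') (EE_mono le_rfl h h1) (EE_mono le_rfl h h2)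

theorem conj_NN {q : ℕ} (hw : e ∈ X.EB) (h : e' ∈ X.NN q U) : e * e' * e⁻¹ ∈ X.NN q U := by
  have key : X.NN q U ≤ (X.NN q U).comap (MulAut.conj e).toMonoidHom := by
    refine NN_le fun m p hm hp hq a ha b hb => ?_
    rw [Subgroup.mem_comap, map_commutatorElement]
    exact comm_mem_NN hm hp hq (conj_EE hw ha) (conj_EE hw hb)
  exact key h

theorem central_of_q (hq : X.q e = X.q e') : e⁻¹ * e' ∈ Subgroup.center E :=
  X.cen _ (by rw [map_mul, map_inv, hq, inv_mul_cancel])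

theorem frag_EE (hU : IsOpen U) (hU' : IsOpen U') (hb : Bornology.IsBounded (U ∪ U'))
    (h : e ∈ X.EE p (U ∪ U')) : ∃ u ∈ X.EE p U, ∃ u' ∈ X.EE p U', X.q e = X.q (u * u') := by
  obtain ⟨g, hg, hq⟩ := mem_EE.1 h
  obtain ⟨a, ha, b, hb', rfl⟩ := frag hU hU' hb hg
  obtain ⟨u, hu, hqu⟩ := exists_lift (X := X) (hb.subset Set.subset_union_left) ha
  obtain ⟨u', hu', hqu'⟩ := exists_lift (X := X) (hb.subset Set.subset_union_right) hb'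
  exact ⟨u, hu, u', hu', by rw [hq, map_mul, map_mul, hqu, hqu']⟩

/-- lifting a tuple of pairs of families -/
theorem exists_lift_tuple (hU : Bornology.IsBounded U) {a : ℕ}
    (x : Fin a → (S.ι → Pm n) × (S.ι → Pm n)) (hx : ∀ k, (x k).1 ∈ S.GF p U ∧ (x k).2 ∈ S.GF p U) :
    ∃ y : Fin a → E × E, (∀ k, (y k).1 ∈ X.EE p U ∧ (y k).2 ∈ X.EE p U) ∧
      X.q (Phi (List.ofFn y)) = S.gP (Phi (List.ofFn x)) := by
  choose u hu hqu using fun k => exists_lift (X := X) hU (hx k).1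
  choose v hv hqv using fun k => exists_lift (X := X) hU (hx k).2
  refine ⟨fun k => (u k, v k), fun k => ⟨hu k, hv k⟩, ?_⟩
  rw [map_Phi, map_Phi, List.map_ofFn, List.map_ofFn]
  refine congrArg (fun z => Phi (List.ofFn z)) (funext fun k => ?_)
  exact Prod.ext (hqu k) (hqv k)

end Ext

end Scale

end Pool.Agent.P.MP_878f14_gt.HT
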