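import Pool.Agent.P.MP_878f14_gt.HT.Grp2

/-! Passing between families and pointwise statements. -/

namespace Pool.Agent.P.MP_878f14_gt.HT

open Filter Metric

variable {n : ℕ}

/-- support, sup bound and bounds for all derivatives -/
def Ctl (K : Set (V n)) (A₀ : ℝ) (B : ℕ → ℝ) (u : Gc n) : Prop :=
  Fix K (u : Pm n) ∧ sn 0 (dp (u : Pm n)) ≤ A₀ ∧ ∀ r, sn r (dp (u : Pm n)) ≤ B r

theorem extract_mono {K : Set (V n)} {A₀ A₁ : ℝ} {B B' : ℕ → ℝ} {u : Gc n} (h : Ctl K A₀ B u)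
    (h0 : A₀ ≤ A₁) (h1 : ∀ r, B r ≤ B' r) : Ctl K A₁ B' u :=
  ⟨h.1, h.2.1.trans h0, fun r => (h.2.2 r).trans (h1 r)⟩

namespace Scale

variable {S : Scale} {p : ℕ}

theorem extract_up {U : Set (V n)} {K K' : ℕ} {C C' : ℕ → ℝ} {u : Gc n} {i : S.ι} (hK : K ≤ K')
    (hC : ∀ r, 0 ≤ C r) (hC' : ∀ r, C r ≤ C' r)
    (h : Ctl U (C 0 * S.ε i ^ p) (fun r => C r * S.H r i / S.ε i ^ K) u) :
    Ctl U (C' 0 * S.ε i ^ p) (fun r => C' r * S.H r i / S.ε i ^ K') u := by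
  have he := S.pos i
  refine extract_mono h (mul_le_mul_of_nonneg_right (hC' 0) (pow_pos he p).le) fun r => ?_
  have hH : 0 ≤ S.H r i := zero_le_one.trans (S.one_le r i)
  refine div_le_div₀ (mul_nonneg ((hC r).trans (hC' r)) hH)
    (mul_le_mul_of_nonneg_right (hC' r) hH) (pow_pos he K') ?_
  exact pow_le_pow_of_le_one he.le ((S.le_half i).trans (by norm_num)) hK

theorem extract_one {U : Set (V n)} {t : S.ι → Gc n} (ht : cF t ∈ S.GF p U) :
    ∃ A ∈ S.F, ∃ (K : ℕ) (C : ℕ → ℝ), (∀ r, 0 ≤ C r) ∧ ∀ i ∈ A,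
      Ctl U (C 0 * S.ε i ^ p) (fun r => C r * S.H r i / S.ε i ^ K) (t i) := by
  obtain ⟨K, A, hA, -, hC⟩ := GB_tame (mem_GF.1 ht).1
  choose C hC using hC
  obtain ⟨C₀, h0, e0⟩ := odS_iff.1 ((GB_od (mem_GF.1 ht).1).odS_sn 0)
  have e1 := GF_fix ht
  refine ⟨_, inter_mem hA (e0.and e1), K, fun r => max (C r) C₀,
    fun r => h0.trans (le_max_right _ _), fun i hi => ⟨hi.2.2, ?_, fun r => ?_⟩⟩
  · refine (le_abs_self _).trans (hi.2.1.trans ?_)
    exact mul_le_mul_of_nonneg_right (le_max_right _ _) (pow_pos (S.pos i) p).le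
  · refine (hC r i hi.1).trans ?_
    exact div_le_div_of_nonneg_right (mul_le_mul_of_nonneg_right (le_max_left _ _)
      (zero_le_one.trans (S.one_le r i))) (pow_pos (S.pos i) K).le

theorem extract {N : Type*} [Finite N] {U : N → Set (V n)} (x : N → (S.ι → Gc n) × (S.ι → Gc n))
    (hx : ∀ k, cF (x k).1 ∈ S.GF p (U k) ∧ cF (x k).2 ∈ S.GF p (U k)) :
    ∃ A ∈ S.F, ∃ (K : ℕ) (C : ℕ → ℝ), (∀ r, 0 ≤ C r) ∧ ∀ i ∈ A, ∀ k,
      Ctl (U k) (C 0 * S.ε i ^ p) (fun r => C r * S.H r i / S.ε i ^ K) ((x k).1 i) ∧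
      Ctl (U k) (C 0 * S.ε i ^ p) (fun r => C r * S.H r i / S.ε i ^ K) ((x k).2 i) := by
  choose A hA K C hC h using fun k => extract_one (hx k).1
  choose A' hA' K' C' hC' h' using fun k => extract_one (hx k).2
  have := Fintype.ofFinite N
  have hs : ∀ r k, C k r + C' k r ≤ ∑ j, (C j r + C' j r) := fun r k =>
    Finset.single_le_sum (f := fun j => C j r + C' j r)
      (fun j _ => add_nonneg (hC j r) (hC' j r)) (Finset.mem_univ k)
  have hk : ∀ k, K k + K' k ≤ ∑ j, (K j + K' j) := fun k =>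
    Finset.single_le_sum (f := fun j => K j + K' j) (fun j _ => Nat.zero_le _) (Finset.mem_univ k)
  refine ⟨⋂ k, (A k ∩ A' k), iInter_mem.2 fun k => inter_mem (hA k) (hA' k), ∑ j, (K j + K' j),
    fun r => ∑ j, (C j r + C' j r),
    fun r => Finset.sum_nonneg fun j _ => add_nonneg (hC j r) (hC' j r), fun i hi k => ?_⟩
  have hi' := Set.mem_iInter.1 hi k
  exact ⟨extract_up (C' := fun r => ∑ j, (C j r + C' j r)) ((Nat.le_add_right _ _).trans (hk k))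
      (hC k) (fun r => (le_add_of_nonneg_right (hC' k r)).trans (hs r k)) (h k i hi'.1),
    extract_up (C' := fun r => ∑ j, (C j r + C' j r)) ((Nat.le_add_left _ _).trans (hk k))
      (hC' k) (fun r => (le_add_of_nonneg_left (hC k r)).trans (hs r k)) (h' k i hi'.2)⟩

/-- `exists_Gc` for each entry, `Phi_evT`, `map_Phi` -/
theorem exists_tuple {U : Set (V n)} (hU : Bornology.IsBounded U)
    (x : List ((S.ι → Pm n) × (S.ι → Pm n))) (hx : ∀ z ∈ x, z.1 ∈ S.GF p U ∧ z.2 ∈ S.GF p U) :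
    ∃ y : Fin x.length → (S.ι → Gc n) × (S.ι → Gc n),
      (∀ k, cF (y k).1 ∈ S.GF p U ∧ cF (y k).2 ∈ S.GF p U) ∧
        ∀ᶠ i in S.F, ((Phi (List.ofFn (evT y i)) : Gc n) : Pm n) = Phi x i := by
  have hm : ∀ k : Fin x.length, (x.get k).1 ∈ S.GF p U ∧ (x.get k).2 ∈ S.GF p U :=
    fun k => hx _ (List.get_mem x k)
  choose a ha using fun k => exists_Gc (hm k).1 hU
  choose b hb using fun k => exists_Gc (hm k).2 hU
  refine ⟨fun k => (a k, b k), fun k => ⟨GF_congr (hm k).1 ((ha k).mono fun i hi => hi.symm),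
    GF_congr (hm k).2 ((hb k).mono fun i hi => hi.symm)⟩, ?_⟩
  filter_upwards [eventually_all.2 ha, eventually_all.2 hb] with i e1 e2
  have h := map_Phi (Pi.evalMonoidHom (fun _ : S.ι => Pm n) i) x
  rw [Pi.evalMonoidHom_apply] at h
  have h' := map_Phi (Gc n).subtype (List.ofFn (evT (fun k => (a k, b k)) i))
  rw [Subgroup.subtype_apply] at h'
  rw [h, h']
  congr 1
  conv_rhs => rw [← List.ofFn_get x, List.map_ofFn]
  rw [List.map_ofFn]
  congr 1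
  funext k
  exact Prod.ext (e1 k) (e2 k)

/-- `Tame.of_le` and `Tame.od` -/
theorem mem_GF_of_ctl (hp : 1 ≤ p) {c : V n} {a b : ℝ} (hab : a < b) {t : S.ι → Gc n}
    {f : S.ι → V n → V n} (hf : S.Tame f) {K : ℕ} {C : ℕ → ℝ}
    (h : ∀ᶠ i in S.F, Ctl (ball c a) (C 0 * S.ε i ^ (p + 1))
      (fun r => C r * (1 + nm r (f i)) / S.ε i ^ K) (t i)) : cF t ∈ S.GF p (ball c b) := by
  have ht : S.Tame (dpF (cF t)) := by
    refine hf.of_le K 0 h (fun i _ => Gc.sm (t i)) fun r => ⟨C r, fun i hi => ?_⟩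
    rw [Nat.max_zero]
    exact hi.2.2 r
  refine mem_GF.2 ⟨mem_GB_of hp ht (ht.od (odS_iff.2 ⟨|C 0|, abs_nonneg _, ?_⟩)),
    mem_GS_ball.2 ⟨a, hab, h.mono fun i hi => hi.1.mono ball_subset_closedBall⟩⟩
  filter_upwards [h] with i hi
  rw [abs_of_nonneg (sn_nonneg _ _)]
  exact hi.2.1.trans (mul_le_mul_of_nonneg_right (le_abs_self _) (pow_pos (S.pos i) _).le)

end Scale

end Pool.Agent.P.MP_878f14_gt.HT
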