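import Pool.Agent.P.MP_878f14_gt.HT.Tame
import Pool.Agent.P.MP_878f14_gt.HT.Aff

/-! Groups of tame families of small diffeomorphisms. -/

namespace Pool.Agent.P.MP_878f14_gt.HT

open Filter Metric
open scoped commutatorElement

variable {n : ℕ}

/-- the points at depth at least `ρ` inside `U` -/
def inn (ρ : ℝ) (U : Set (V n)) : Set (V n) := {x | ball x ρ ⊆ U}

section

variable {ρ ρ' : ℝ} {U U' K : Set (V n)}

theorem inn_mono (h : ρ' ≤ ρ) (hU : U ⊆ U') : inn ρ U ⊆ inn ρ' U' :=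
  fun _ hx => (ball_subset_ball h).trans (Set.Subset.trans hx hU)

theorem inn_subset (h : 0 < ρ) : inn ρ U ⊆ U := fun _ hx => hx (mem_ball_self h)

theorem inn_inter : inn ρ (U ∩ U') = inn ρ U ∩ inn ρ U' := by
  ext x
  exact Set.subset_inter_iff

/-- the complement is `thickening ρ Uᶜ` -/
theorem isClosed_inn : IsClosed (inn ρ U) := by
  have e : (inn ρ U)ᶜ = thickening ρ Uᶜ := by
    ext x
    rw [mem_thickening_iff]
    simp only [inn, Set.mem_compl_iff, Set.mem_ofPred_eq, Set.not_subset, mem_ball]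
    constructor
    · rintro ⟨y, h1, h2⟩
      exact ⟨y, h2, by rwa [dist_comm]⟩
    · rintro ⟨y, h1, h2⟩
      exact ⟨y, by rwa [dist_comm], h1⟩
  rw [← isOpen_compl_iff, e]
  exact isOpen_thickening

theorem isCompact_inn (h : 0 < ρ) (hU : Bornology.IsBounded U) : IsCompact (inn ρ U) :=
  isCompact_of_isClosed_isBounded isClosed_inn (hU.subset (inn_subset h))

/-- `IsCompact.exists_thickening_subset_open` -/
theorem exists_inn (hK : IsCompact K) (hU : IsOpen U) (h : K ⊆ U) :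
    ∃ ρ, 0 < ρ ∧ K ⊆ inn ρ U := by
  obtain ⟨δ, hδ, h1⟩ := hK.exists_thickening_subset_open hU h
  exact ⟨δ, hδ, fun x hx y hy => h1 (mem_thickening_iff.2 ⟨x, hx, hy⟩)⟩

theorem mem_inn_of_dist {x y : V n} (hx : x ∈ inn ρ U) (h : dist y x ≤ ρ') :
    y ∈ inn (ρ - ρ') U := by
  intro z hz
  apply hx
  rw [mem_ball] at hz ⊢
  linarith [dist_triangle z y x]

end

namespace Scale

variable {S : Scale} {m p : ℕ} {g h k w : S.ι → Pm n} {U U' K : Set (V n)}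

/-- displacements of a family -/
def dpF (g : S.ι → Pm n) : S.ι → V n → V n := fun i => dp (g i)

theorem grp_aux_mul (g h : S.ι → Pm n) :
    dpF (g * h) = fun i x => dpF g i (x + dpF h i x) + dpF h i x := by
  funext i
  exact dp_mul (g i) (h i)

theorem grp_aux_small {f : S.ι → V n → V n} (h1 : S.Od 1 f) (r : ℕ) {δ : ℝ} (hδ : 0 < δ) :
    ∀ᶠ i in S.F, Sm (f i) ∧ nm r (f i) ≤ δ := by
  filter_upwards [h1.sm, Od.small (p := 0) h1 r hδ] with i h2 h3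
  exact ⟨h2, by simpa using h3⟩

theorem grp_aux_inv {f : S.ι → V n → V n} (h1 : S.Od 1 f) :
    ∀ᶠ i in S.F, Sm (f i) ∧ sn 1 (f i) ≤ 1 / 2 ∧ sn 2 (f i) ≤ 1 / 8 := by
  filter_upwards [grp_aux_small h1 2 (δ := 1 / 8) (by norm_num)] with i hi
  have h2 := sn_le_nm (show 1 ≤ 2 by norm_num) (f i)
  have h3 := sn_le_nm (le_refl 2) (f i)
  exact ⟨hi.1, by linarith [hi.2], by linarith [hi.2]⟩

theorem tame_mul (hg : S.Tame (dpF g)) (hh : S.Tame (dpF h)) (h1 : S.Od 1 (dpF h)) :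
    S.Tame (dpF (g * h)) := by
  rw [grp_aux_mul]
  exact (hg.comp hh h1).add hh

theorem od_mul (hg : S.Od p (dpF g)) (hh : S.Od p (dpF h)) : S.Od p (dpF (g * h)) := by
  rw [grp_aux_mul]
  exact (hg.comp (hh.mono (Nat.zero_le p))).add hh

/-- `inv_crude` and `Tame.of_le` -/
theorem tame_inv (hg : S.Tame (dpF g)) (h1 : S.Od 1 (dpF g)) : S.Tame (dpF g⁻¹) := by
  refine hg.of_le 0 0 (grp_aux_inv h1) (fun i hi => sm_inv_small hi.1 hi.2.1) fun r => ?_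
  obtain ⟨C, hC, h⟩ := inv_crude (n := n) r
  refine ⟨C, fun i hi => ?_⟩
  have h2 := h (g i) hi.1 hi.2.1 hi.2.2
  rw [pow_zero, div_one, max_eq_left (Nat.zero_le r), mul_add, mul_one]
  exact h2.trans (le_add_of_nonneg_left hC)

theorem od_inv (hg : S.Od p (dpF g)) (h1 : S.Od 1 (dpF g)) : S.Od p (dpF g⁻¹) := by
  refine hg.of_le ((grp_aux_inv h1).mono fun i hi => sm_inv_small hi.1 hi.2.1) fun r => ?_
  obtain ⟨C, -, h⟩ := inv_crude (n := n) r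
  exact ⟨r, C, (grp_aux_inv h1).mono fun i hi => h (g i) hi.1 hi.2.1 hi.2.2⟩

theorem dpF_one : dpF (1 : S.ι → Pm n) = fun _ _ => 0 := by
  ext i x; simp [dpF]

variable (S n) in
/-- tame families of order `p` (and at least one) -/
def GB (p : ℕ) : Subgroup (S.ι → Pm n) where
  carrier := {g | S.Tame (dpF g) ∧ S.Od 1 (dpF g) ∧ S.Od p (dpF g)}
  one_mem' := by
    refine ⟨?_, ?_, ?_⟩ <;> rw [dpF_one]
    exacts [tame_zero, od_zero, od_zero]
  mul_mem' := fun hg hh => ⟨tame_mul hg.1 hh.1 hh.2.1, od_mul hg.2.1 hh.2.1, od_mul hg.2.2 hh.2.2⟩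
  inv_mem' := fun hg => ⟨tame_inv hg.1 hg.2.1, od_inv hg.2.1 hg.2.1, od_inv hg.2.2 hg.2.1⟩

variable (S) in
/-- eventually supported inside `U`, with room -/
def GS (U : Set (V n)) : Subgroup (S.ι → Pm n) where
  carrier := {g | ∃ ρ : ℝ, 0 < ρ ∧ ∀ᶠ i in S.F, Fix (inn ρ U) (g i)}
  one_mem' := ⟨1, one_pos, Eventually.of_forall fun _ => fix_one _⟩
  mul_mem' := by
    rintro g h ⟨a₁, h₁, e₁⟩ ⟨a₂, h₂, e₂⟩
    refine ⟨min a₁ a₂, lt_min h₁ h₂, ?_⟩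
    filter_upwards [e₁, e₂] with i e₁ e₂
    exact (e₁.mono (inn_mono (min_le_left _ _) subset_rfl)).mul
      (e₂.mono (inn_mono (min_le_right _ _) subset_rfl))
  inv_mem' := by
    rintro g ⟨a₁, h₁, e₁⟩
    exact ⟨a₁, h₁, e₁.mono fun i e₁ => e₁.inv⟩

variable (S) in
/-- tame families of order `p` supported inside `U`, with room -/
def GF (p : ℕ) (U : Set (V n)) : Subgroup (S.ι → Pm n) := S.GB n p ⊓ S.GS U

theorem mem_GB_of (hp : 1 ≤ p) (ht : S.Tame (dpF g)) (ho : S.Od p (dpF g)) : g ∈ S.GB n p :=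
  ⟨ht, ho.mono hp, ho⟩

theorem GB_tame (h : g ∈ S.GB n p) : S.Tame (dpF g) := h.1

theorem GB_od1 (h : g ∈ S.GB n p) : S.Od 1 (dpF g) := h.2.1

theorem GB_od (h : g ∈ S.GB n p) : S.Od p (dpF g) := h.2.2

theorem mem_GS : g ∈ S.GS U ↔ ∃ ρ : ℝ, 0 < ρ ∧ ∀ᶠ i in S.F, Fix (inn ρ U) (g i) := Iff.rfl

theorem mem_GF : g ∈ S.GF p U ↔ g ∈ S.GB n p ∧ g ∈ S.GS U := Iff.rfl

theorem GS_fix (h : g ∈ S.GS U) : ∀ᶠ i in S.F, Fix U (g i) := by
  obtain ⟨ρ, hρ, e⟩ := h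
  exact e.mono fun i hi => hi.mono (inn_subset hρ)

theorem GF_fix (h : g ∈ S.GF p U) : ∀ᶠ i in S.F, Fix U (g i) := GS_fix h.2

theorem GS_empty (h : g ∈ S.GS ∅) : ∀ᶠ i in S.F, g i = 1 :=
  (GS_fix h).mono fun _ hi => Equiv.ext fun x => hi x (Set.notMem_empty x)

theorem mem_GS_of_compact (hK : IsCompact K) (hU : IsOpen U) (h : K ⊆ U)
    (e : ∀ᶠ i in S.F, Fix K (g i)) : g ∈ S.GS U := by
  obtain ⟨ρ, hρ, h1⟩ := exists_inn hK hU h
  exact ⟨ρ, hρ, e.mono fun i hi => hi.mono h1⟩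

theorem GS_compact (h : g ∈ S.GS U) (hU : Bornology.IsBounded U) :
    ∃ K, IsCompact K ∧ K ⊆ U ∧ ∀ᶠ i in S.F, Fix K (g i) := by
  obtain ⟨ρ, hρ, e⟩ := h
  exact ⟨inn ρ U, isCompact_inn hρ hU, inn_subset hρ, e⟩

/-- a compact subset of a ball lies in a smaller closed ball
(`exists_lt_subset_ball`) -/
theorem mem_GS_ball {c : V n} {R : ℝ} :
    g ∈ S.GS (ball c R) ↔ ∃ R', R' < R ∧ ∀ᶠ i in S.F, Fix (closedBall c R') (g i) := by
  constructor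
  · rintro ⟨ρ, hρ, e⟩
    obtain ⟨R', h1, h2⟩ := exists_lt_subset_ball (isClosed_inn (ρ := ρ) (U := ball c R))
      (inn_subset hρ)
    exact ⟨R', h1, e.mono fun i hi => hi.mono (h2.trans ball_subset_closedBall)⟩
  · rintro ⟨R', h1, e⟩
    exact mem_GS_of_compact (isCompact_closedBall c R') isOpen_ball
      (closedBall_subset_ball h1) e

theorem grp_aux_ball (x : V n) (d : Fin n) {t ρ : ℝ} (h : |t| < ρ) : x + sg d t ∈ ball x ρ := by
  rw [mem_ball, dist_eq_norm, add_sub_cancel_left, norm_sg]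
  exact h

theorem grp_aux_abs {x y : V n} (d : Fin n) {ρ : ℝ} (h : y ∈ ball x ρ) : |y d - x d| < ρ := by
  rw [mem_ball, dist_eq_norm] at h
  exact (abs_apply_le (y - x) d).trans_lt h

theorem mem_GS_gt {d : Fin n} {a : ℝ} : g ∈ S.GS {x | a < x d} ↔
    ∃ a', a < a' ∧ ∀ᶠ i in S.F, ∀ x, x d ≤ a' → g i x = x := by
  constructor
  · rintro ⟨ρ, hρ, e⟩
    refine ⟨a + ρ / 2, by linarith, e.mono fun i hi x hx => hi x fun hm => ?_⟩
    have h1 := hm (grp_aux_ball x d (t := -(ρ / 2))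
      (by rw [abs_neg, abs_of_pos (by linarith)]; linarith))
    simp only [Set.mem_ofPred_eq, Pi.add_apply, sg_same] at h1
    linarith
  · rintro ⟨a', ha, e⟩
    refine ⟨a' - a, by linarith, e.mono fun i hi x hx => hi x ?_⟩
    by_contra hc
    refine hx fun y hy => ?_
    have h1 := (abs_lt.1 (grp_aux_abs d hy)).1
    show a < y d
    linarith [not_le.1 hc]

theorem mem_GS_lt {d : Fin n} {b : ℝ} : g ∈ S.GS {x | x d < b} ↔
    ∃ b', b' < b ∧ ∀ᶠ i in S.F, ∀ x, b' ≤ x d → g i x = x := by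
  constructor
  · rintro ⟨ρ, hρ, e⟩
    refine ⟨b - ρ / 2, by linarith, e.mono fun i hi x hx => hi x fun hm => ?_⟩
    have h1 := hm (grp_aux_ball x d (t := ρ / 2)
      (by rw [abs_of_pos (by linarith)]; linarith))
    simp only [Set.mem_ofPred_eq, Pi.add_apply, sg_same] at h1
    linarith
  · rintro ⟨b', hb, e⟩
    refine ⟨b - b', by linarith, e.mono fun i hi x hx => hi x ?_⟩
    by_contra hc
    refine hx fun y hy => ?_
    have h1 := (abs_lt.1 (grp_aux_abs d hy)).2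
    show y d < b
    linarith [not_le.1 hc]

theorem grp_aux_mono (h : U ⊆ U') (hg : g ∈ S.GS U) : g ∈ S.GS U' := by
  obtain ⟨ρ, hρ, e⟩ := hg
  exact ⟨ρ, hρ, e.mono fun i hi => hi.mono (inn_mono le_rfl h)⟩

theorem GS_inter : g ∈ S.GS (U ∩ U') ↔ g ∈ S.GS U ∧ g ∈ S.GS U' := by
  constructor
  · intro h
    exact ⟨grp_aux_mono Set.inter_subset_left h, grp_aux_mono Set.inter_subset_right h⟩
  · rintro ⟨⟨a₁, h₁, e₁⟩, a₂, h₂, e₂⟩
    refine ⟨min a₁ a₂, lt_min h₁ h₂, ?_⟩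
    filter_upwards [e₁, e₂] with i e₁ e₂ x hx
    rw [inn_inter] at hx
    by_cases h3 : x ∈ inn a₁ U
    · exact e₂ x fun h4 => hx ⟨inn_mono (min_le_left _ _) subset_rfl h3,
        inn_mono (min_le_right _ _) subset_rfl h4⟩
    · exact e₁ x h3

theorem grp_aux_finite {W : Fin n → Set (V n)} (h : ∀ d, g ∈ S.GS (W d)) (s : Finset (Fin n)) :
    g ∈ S.GS {x | ∀ d ∈ s, x ∈ W d} := by
  induction s using Finset.induction_on with
  | empty =>
    exact ⟨1, one_pos, Eventually.of_forall fun i x hx => absurd (fun y _ d hd =>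
      absurd hd (Finset.notMem_empty d)) hx⟩
  | insert d s _ ih =>
    refine grp_aux_mono ?_ (GS_inter.2 ⟨h d, ih⟩)
    rintro x ⟨h1, h2⟩ d' hd'
    rcases Finset.mem_insert.1 hd' with rfl | hd'
    · exact h1
    · exact h2 d' hd'

theorem mem_GS_ball_dir {R : ℝ} (hR : 0 < R) : g ∈ S.GS (ball 0 R) ↔
    ∀ d, g ∈ S.GS {x | -R < x d} ∧ g ∈ S.GS {x | x d < R} := by
  constructor
  · intro h d
    refine ⟨grp_aux_mono (fun x hx => ?_) h, grp_aux_mono (fun x hx => ?_) h⟩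
    · have h1 := (abs_lt.1 (grp_aux_abs d hx)).1
      show -R < x d
      simpa using h1
    · have h1 := (abs_lt.1 (grp_aux_abs d hx)).2
      show x d < R
      simpa using h1
  · intro h
    refine grp_aux_mono (fun x hx => ?_) (grp_aux_finite (fun d => GS_inter.2 (h d)) Finset.univ)
    rw [mem_ball_zero_iff, pi_norm_lt_iff hR]
    intro d
    exact abs_lt.2 (hx d (Finset.mem_univ d))

theorem GB_congr (hg : g ∈ S.GB n p) (e : ∀ᶠ i in S.F, g i = h i) : h ∈ S.GB n p := by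
  have e' : ∀ᶠ i in S.F, dpF g i = dpF h i := e.mono fun i hi => by simp only [dpF, hi]
  exact ⟨hg.1.congr e', hg.2.1.congr e', hg.2.2.congr e'⟩

theorem GS_congr (hg : g ∈ S.GS U) (e : ∀ᶠ i in S.F, g i = h i) : h ∈ S.GS U := by
  obtain ⟨ρ, hρ, e₁⟩ := hg
  refine ⟨ρ, hρ, ?_⟩
  filter_upwards [e, e₁] with i e e₁
  rwa [← e]

theorem GF_congr (hg : g ∈ S.GF p U) (e : ∀ᶠ i in S.F, g i = h i) : h ∈ S.GF p U :=
  ⟨GB_congr hg.1 e, GS_congr hg.2 e⟩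

theorem GB_anti (hmp : m ≤ p) : S.GB n p ≤ S.GB n m :=
  fun _ hg => ⟨hg.1, hg.2.1, hg.2.2.mono hmp⟩

theorem GB_le_one : S.GB n p ≤ S.GB n 1 := fun _ hg => ⟨hg.1, hg.2.1, hg.2.1⟩

theorem GS_mono (h : U ⊆ U') : S.GS U ≤ S.GS U' := fun _ hg => grp_aux_mono h hg

theorem GF_mono (hmp : m ≤ p) (h : U ⊆ U') : S.GF p U ≤ S.GF m U' :=
  fun _ hg => ⟨GB_anti hmp hg.1, GS_mono h hg.2⟩

theorem GF_le_one (h : U ⊆ U') : S.GF p U ≤ S.GF 1 U' :=
  fun _ hg => ⟨GB_le_one hg.1, GS_mono h hg.2⟩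

theorem GF_inter (h : g ∈ S.GF p U) (h' : g ∈ S.GF m U') : g ∈ S.GF p (U ∩ U') :=
  ⟨h.1, GS_inter.2 ⟨h.2, h'.2⟩⟩

theorem GB_small (hg : g ∈ S.GB n p) (r : ℕ) {δ : ℝ} (hδ : 0 < δ) :
    ∀ᶠ i in S.F, Sm (dp (g i)) ∧ nm r (dp (g i)) ≤ δ :=
  grp_aux_small (GB_od1 hg) r hδ

/-- take `mkp (f i)` -/
theorem exists_GB (hp : 1 ≤ p) {f : S.ι → V n → V n} (ht : S.Tame f) (ho : S.Od p f) :
    ∃ g ∈ S.GB n p, ∀ᶠ i in S.F, dp (g i) = f i := by
  have e : ∀ᶠ i in S.F, dp (mkp (f i)) = f i :=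
    (grp_aux_inv (ho.mono hp)).mono fun i hi => dp_mkp hi.1 hi.2.1
  have e' : ∀ᶠ i in S.F, f i = dpF (fun i => mkp (f i)) i := e.mono fun i hi => hi.symm
  exact ⟨fun i => mkp (f i), mem_GB_of hp (ht.congr e') (ho.congr e'), e⟩

theorem cut (hk : k ∈ S.GB n p) {χ : V n → ℝ} (hχ : Sm χ) :
    ∃ k' ∈ S.GB n p, ∀ᶠ i in S.F, dp (k' i) = fun x => χ x • dp (k i) x := by
  obtain ⟨k', hk', e⟩ := exists_GB le_rfl ((GB_tame hk).fix_smul hχ) ((GB_od1 hk).fix_smul hχ)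
  exact ⟨k', ⟨hk'.1, hk'.2.1, ((GB_od hk).fix_smul hχ).congr (e.mono fun i hi => hi.symm)⟩, e⟩

theorem tr_mem (hp : 1 ≤ p) {c : S.ι → V n} (hc : S.OdS p fun i => ‖c i‖) :
    (fun i => tr (c i)) ∈ S.GB n p := by
  have e : dpF (fun i => tr (c i)) = fun i _ => c i := by
    funext i
    exact dp_tr (c i)
  refine mem_GB_of hp ?_ ?_ <;> rw [e]
  exacts [hc.tame_cst, hc.od_cst]

/-- coercion of a family in `Gc n` -/
def cF : (S.ι → Gc n) →* (S.ι → Pm n) where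
  toFun g := fun i => g i
  map_one' := rfl
  map_mul' _ _ := rfl

@[simp] theorem cF_apply (g : S.ι → Gc n) (i : S.ι) : cF g i = (g i : Pm n) := rfl

theorem exists_Gc (hg : g ∈ S.GF p U) (hU : Bornology.IsBounded U) :
    ∃ g' : S.ι → Gc n, ∀ᶠ i in S.F, (g' i : Pm n) = g i := by
  classical
  refine ⟨fun i => if h : g i ∈ Gc n then ⟨g i, h⟩ else 1, ?_⟩
  filter_upwards [grp_aux_inv (GB_od1 hg.1), GF_fix hg] with i h1 h2
  rw [dif_pos (mem_Gc_small h1.1 h1.2.1 h2 hU)]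

variable (S) in
/-- germ of a family -/
noncomputable def gP : (S.ι → Pm n) →* Germ S.F (Pm n) := Germ.coeMulHom S.F

theorem gP_eq : S.gP g = S.gP h ↔ ∀ᶠ i in S.F, g i = h i := Germ.coe_eq

theorem gP_eq_one : S.gP g = 1 ↔ ∀ᶠ i in S.F, g i = 1 := by
  rw [← map_one S.gP, gP_eq]; rfl

theorem gP_surj (u : Germ S.F (Pm n)) : ∃ g, S.gP g = u := Germ.inductionOn u fun v => ⟨v, rfl⟩

theorem mem_map_GB : S.gP g ∈ (S.GB n p).map S.gP ↔ g ∈ S.GB n p :=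
  ⟨fun ⟨_, hx, e⟩ => GB_congr hx (gP_eq.1 e), fun h => ⟨g, h, rfl⟩⟩

theorem mem_map_GS : S.gP g ∈ (S.GS U).map S.gP ↔ g ∈ S.GS U :=
  ⟨fun ⟨_, hx, e⟩ => GS_congr hx (gP_eq.1 e), fun h => ⟨g, h, rfl⟩⟩

theorem mem_map_GF : S.gP g ∈ (S.GF p U).map S.gP ↔ g ∈ S.GF p U :=
  ⟨fun ⟨_, hx, e⟩ => GF_congr hx (gP_eq.1 e), fun h => ⟨g, h, rfl⟩⟩

end Scale

end Pool.Agent.P.MP_878f14_gt.HT
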