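import Pool.Agent.P.MP_878f14_gt.HT.Grp

/-! Leading order computations, conjugation invariance, fragmentation. -/

namespace Pool.Agent.P.MP_878f14_gt.HT

open Filter Metric
open scoped commutatorElement

theorem Grp2_add {n : ℕ} (e : Pm n) (x : V n) : x + dp e x = e x := (apply_eq_add_dp e x).symm

theorem Grp2_div {n : ℕ} (e e' : Pm n) :
    dp (e' * e⁻¹) = fun x => dp e' (x + dp e⁻¹ x) - dp e (x + dp e⁻¹ x) := by
  funext x
  rw [Grp2_add]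
  simp [dp]

theorem Grp2_conj {n : ℕ} (w e : Pm n) : dp (w * e * w⁻¹) = fun x =>
    (fun y => dp e y + (dp w (y + dp e y) - dp w y)) (x + dp w⁻¹ x) := by
  funext x
  simp only [Grp2_add]
  simp [dp]
  abel

theorem Grp2_comm {n : ℕ} (e e' : Pm n) : dp ⁅e, e'⁆ = fun x =>
    (fun y => (dp e (y + dp e' y) - dp e y) - (dp e' (y + dp e y) - dp e' y))
      (x + dp (e' * e)⁻¹ x) := by
  funext x
  simp only [Grp2_add]
  simp [dp, commutatorElement_def]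
  abel

namespace Scale

variable {n : ℕ} {S : Scale} {m p : ℕ} {g h k w : S.ι → Pm n} {U U' : Set (V n)}

/-- `Od.comp_sub` -/
theorem L1 (hg : g ∈ S.GB n m) (hh : h ∈ S.GB n p) :
    S.Od (m + p) fun i x => dp (g i * h i) x - dp (g i) x - dp (h i) x := by
  refine ((GB_od hg).comp_sub (GB_od hh)).congr (Eventually.of_forall fun i => ?_)
  funext x
  simp only [dpF, dp_mul]
  abel

theorem L1_inv (hg : g ∈ S.GB n m) : S.Od (m + m) fun i x => dp (g i)⁻¹ x + dp (g i) x := by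
  refine ((GB_od hg).comp_sub (GB_od (inv_mem hg))).neg.congr (Eventually.of_forall fun i => ?_)
  funext x
  have := congrFun (dp_inv (g i)) x
  simp only [dpF, Pi.inv_apply]
  rw [neg_sub, sub_eq_add_neg, ← this, add_comm]

/-- the displacement of `h * g⁻¹` is `(dp h - dp g) ∘ g⁻¹` -/
theorem L1' (hg : g ∈ S.GB n 1) (hh : h ∈ S.GB n 1)
    (e : S.Od p fun i x => dp (h i) x - dp (g i) x) : h * g⁻¹ ∈ S.GB n p := by
  have h1 : h * g⁻¹ ∈ S.GB n 1 := mul_mem hh (inv_mem hg)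
  refine ⟨h1.1, h1.2.1, ?_⟩
  refine (e.comp ((GB_od1 (inv_mem hg)).mono (Nat.zero_le 1))).congr
    (Eventually.of_forall fun i => ?_)
  exact (Grp2_div (g i) (h i)).symm

/-- With `k = ⁅g, h⁆` one has `k * (h * g) = g * h`, so `dp k ∘ (h g)` is
`(dp g ∘ h - dp g) - (dp h ∘ g - dp h)`; use `Od.comp_sub_two`, then compose with `(h g)⁻¹` and
use `Od.comp_sub`. -/
theorem L2 (hm : 1 ≤ m) (hp : 1 ≤ p) (hg : g ∈ S.GB n m) (hh : h ∈ S.GB n p) :
    S.Od (m + p + 1) fun i x => dp ⁅g i, h i⁆ x + br (dp (g i)) (dp (h i)) x := by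
  have hu : (h * g)⁻¹ ∈ S.GB n 1 := inv_mem (mul_mem (GB_le_one hh) (GB_le_one hg))
  have hA := ((GB_od hg).comp_sub_two (GB_od hh)).mono (show m + p + 1 ≤ m + 2 * p by omega)
  have hB := ((GB_od hh).comp_sub_two (GB_od hg)).mono (show m + p + 1 ≤ p + 2 * m by omega)
  have h1 := (hA.sub hB).comp ((GB_od1 hu).mono (Nat.zero_le 1))
  have h2 := ((GB_od hg).br (GB_od hh)).comp_sub (GB_od1 hu)
  refine (h1.sub h2).congr (Eventually.of_forall fun i => ?_)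
  funext x
  rw [Grp2_comm]
  simp only [dpF, br, Pi.inv_apply, Pi.mul_apply]
  abel

theorem comm_mem_GB (hm : 1 ≤ m) (hp : 1 ≤ p) (hg : g ∈ S.GB n m) (hh : h ∈ S.GB n p) :
    ⁅g, h⁆ ∈ S.GB n (m + p) := by
  have h1 : ⁅g, h⁆ ∈ S.GB n 1 := by
    rw [commutatorElement_def]
    exact mul_mem (mul_mem (mul_mem (GB_le_one hg) (GB_le_one hh)) (inv_mem (GB_le_one hg)))
      (inv_mem (GB_le_one hh))
  refine ⟨h1.1, h1.2.1, ?_⟩
  refine (((L2 hm hp hg hh).mono (Nat.le_succ _)).sub ((GB_od hg).br (GB_od hh))).congr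
    (Eventually.of_forall fun i => ?_)
  funext x
  have e : ⁅g, h⁆ i = ⁅g i, h i⁆ := rfl
  simp only [dpF, e]
  abel

theorem conj_GB (hw : w ∈ S.GB n 1) (hg : g ∈ S.GB n p) : w * g * w⁻¹ ∈ S.GB n p := by
  have h1 : w * g * w⁻¹ ∈ S.GB n 1 := mul_mem (mul_mem hw (GB_le_one hg)) (inv_mem hw)
  refine ⟨h1.1, h1.2.1, ?_⟩
  have h2 := ((GB_od1 hw).comp_sub (GB_od hg)).mono (Nat.le_add_left p 1)
  refine (((GB_od hg).add h2).comp ((GB_od1 (inv_mem hw)).mono (Nat.zero_le 1))).congr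
    (Eventually.of_forall fun i => ?_)
  exact (Grp2_conj (w i) (g i)).symm

theorem Grp2_near (hw : w ∈ S.GB n 1) {δ : ℝ} (hδ : 0 < δ) :
    ∀ᶠ i in S.F, ∀ x, dist (w i x) x ≤ δ := by
  filter_upwards [GB_small hw 0 hδ] with i hi x
  rw [dist_eq_norm]
  exact (norm_le_sn_zero hi.1 x).trans ((sn_le_nm le_rfl _).trans hi.2)

/-- the displacement of `w` is eventually smaller than half the room (`Fix.conj`,
`mem_inn_of_dist`) -/
theorem conj_GS (hw : w ∈ S.GB n 1) (hg : g ∈ S.GS U) : w * g * w⁻¹ ∈ S.GS U := by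
  obtain ⟨ρ, hρ, e⟩ := mem_GS.1 hg
  refine mem_GS.2 ⟨ρ - ρ / 2, by linarith, ?_⟩
  filter_upwards [e, Grp2_near hw (δ := ρ / 2) (by linarith)] with i e hi
  refine (e.conj (w i)).mono ?_
  rintro _ ⟨x, hx, rfl⟩
  exact mem_inn_of_dist hx (hi x)

theorem conj_GF (hw : w ∈ S.GB n 1) (hg : g ∈ S.GF p U) : w * g * w⁻¹ ∈ S.GF p U :=
  ⟨conj_GB hw hg.1, conj_GS hw hg.2⟩

theorem comm_mem_GF (hm : 1 ≤ m) (hp : 1 ≤ p) (hg : g ∈ S.GB n m) (hh : h ∈ S.GF p U) :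
    ⁅g, h⁆ ∈ S.GF (m + p) U := by
  obtain ⟨h1, h2⟩ := mem_GF.1 hh
  refine mem_GF.2 ⟨comm_mem_GB hm hp hg h1, ?_⟩
  rw [commutatorElement_def]
  exact mul_mem (conj_GS (GB_le_one hg) h2) (inv_mem h2)

theorem conj_tr_GB (hg : g ∈ S.GB n p) (c : S.ι → V n) :
    (fun i => tr (c i) * g i * (tr (c i))⁻¹) ∈ S.GB n p := by
  have e : dpF (fun i => tr (c i) * g i * (tr (c i))⁻¹) =
      fun i x => dpF g i (x + (fun i => -c i) i) := by
    funext i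
    exact dp_conj_tr (c i) (g i)
  refine ⟨?_, ?_, ?_⟩ <;> rw [e]
  exacts [(GB_tame hg).comp_add _, (GB_od1 hg).comp_add _, (GB_od hg).comp_add _]

theorem conj_aff_GB (hg : g ∈ S.GB n p) {l : ℝ} (hl : 0 < l) (a : V n) :
    (fun i => aff l a * g i * (aff l a)⁻¹) ∈ S.GB n p := by
  have e : dpF (fun i => aff l a * g i * (aff l a)⁻¹) =
      fun i x => l • dpF g i (l⁻¹ • x + -(l⁻¹ • a)) := by
    funext i
    exact dp_conj_aff hl.ne' a (g i)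
  refine ⟨?_, ?_, ?_⟩ <;> rw [e]
  exacts [((GB_tame hg).comp_aff _ _).const_smul l, ((GB_od1 hg).comp_aff _ _).const_smul l,
    ((GB_od hg).comp_aff _ _).const_smul l]

theorem conj_aff_GF {c : V n} {R : ℝ} (hg : g ∈ S.GF p (ball c R)) {l : ℝ} (hl : 0 < l) (a : V n) :
    (fun i => aff l a * g i * (aff l a)⁻¹) ∈ S.GF p (ball (l • c + a) (l * R)) := by
  obtain ⟨h1, h2⟩ := mem_GF.1 hg
  obtain ⟨R', hR, e⟩ := mem_GS_ball.1 h2
  exact mem_GF.2 ⟨conj_aff_GB h1 hl a, mem_GS_ball.2 ⟨l * R', mul_lt_mul_of_pos_left hR hl,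
    e.mono fun i hi => hi.conj_aff hl a⟩⟩

/-- the displacement is `(dp g + (dp ψ ∘ g - dp ψ)) ∘ ψ⁻¹`, and `ψ⁻¹ = id + dp ψ⁻¹` (`Gc.sm`) -/
theorem conj_fix_GB (hg : g ∈ S.GB n p) (ψ : Gc n) :
    (fun i => (ψ : Pm n) * g i * (ψ : Pm n)⁻¹) ∈ S.GB n p := by
  have s1 : Sm (dp (ψ : Pm n)) := Gc.sm ψ
  have s2 : Sm (dp (ψ : Pm n)⁻¹) := Gc.sm ψ⁻¹
  have e : dpF (fun i => (ψ : Pm n) * g i * (ψ : Pm n)⁻¹) = fun i x =>
      (fun i y => dpF g i y + (dp (ψ : Pm n) (y + dpF g i y) - dp (ψ : Pm n) y)) i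
        (x + dp (ψ : Pm n)⁻¹ x) := by
    funext i
    exact Grp2_conj _ (g i)
  have ho : ∀ j, S.Od j (dpF g) → S.Od j (dpF fun i => (ψ : Pm n) * g i * (ψ : Pm n)⁻¹) := by
    intro j hj
    rw [e]
    have h2 := ((od_const (S := S) s1).comp_sub hj).mono (Nat.le_add_left j 0)
    exact (hj.add h2).comp (od_const s2)
  refine ⟨?_, ho 1 (GB_od1 hg), ho p (GB_od hg)⟩
  rw [e]
  exact ((GB_tame hg).add (((tame_const s1).comp (GB_tame hg) (GB_od1 hg)).sub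
    (tame_const s1))).comp_fix s2

theorem conj_fix_GF {R R' : ℝ} (hg : g ∈ S.GF p (ball 0 R)) (ψ : Gc n) (hR : R' < R)
    (hψ : Fix (closedBall 0 R') (ψ : Pm n)) :
    (fun i => (ψ : Pm n) * g i * (ψ : Pm n)⁻¹) ∈ S.GF p (ball 0 R) := by
  obtain ⟨h1, h2⟩ := mem_GF.1 hg
  obtain ⟨R₁, hR₁, e⟩ := mem_GS_ball.1 h2
  refine mem_GF.2 ⟨conj_fix_GB h1 ψ, mem_GS_ball.2 ⟨max R' R₁, max_lt hR hR₁,
    e.mono fun i hi => ?_⟩⟩
  have a1 := hψ.mono (closedBall_subset_closedBall (le_max_left R' R₁))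
  have a2 := hi.mono (closedBall_subset_closedBall (le_max_right R' R₁))
  exact (a1.mul a2).mul a1.inv

/-- fragmentation by a step function in the direction `d`: `exists_step`, `cut`,
`commute_tr_iff` -/
theorem frag_dir (hk : k ∈ S.GB n p) (d : Fin n) {a b : ℝ} (hab : a < b) : ∃ k' ∈ S.GB n p,
    ∀ᶠ i in S.F, (∀ x, x d ≤ a → k' i x = x) ∧ (∀ x, b ≤ x d → k' i x = k i x) ∧
      (∀ x, k i x = x → k' i x = x) ∧
      ∀ v : V n, v d = 0 → k i * tr v = tr v * k i → k' i * tr v = tr v * k' i := by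
  obtain ⟨χ, hχ, -, h0, h1⟩ := exists_step d hab
  obtain ⟨k', hk', e⟩ := cut hk hχ
  refine ⟨k', hk', e.mono fun i hi =>
    ⟨fun x hx => ?_, fun x hx => ?_, fun x hx => ?_, fun v hv hc => ?_⟩⟩
  · rw [apply_eq_add_dp, hi]
    simp [h0 _ hx]
  · rw [apply_eq_add_dp, hi, apply_eq_add_dp (k i) x]
    simp [h1 _ hx]
  · rw [apply_eq_add_dp, hi]
    simp [dp, hx]
  · rw [commute_tr_iff] at hc ⊢
    intro x
    rw [hi]
    simp only [Pi.add_apply, hv, add_zero, hc x]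

/-- `GS_compact`, `IsCompact.binary_compact_cover` gives `K = K₁ ∪ K₂`; cut by a bump equal to one
on `K₁` with support in `U`; `u⁻¹ g` is supported in `K₂` -/
theorem frag (hU : IsOpen U) (hU' : IsOpen U') (hb : Bornology.IsBounded (U ∪ U'))
    (hg : g ∈ S.GF p (U ∪ U')) : ∃ u ∈ S.GF p U, ∃ u' ∈ S.GF p U', g = u * u' := by
  obtain ⟨h1, h2⟩ := mem_GF.1 hg
  obtain ⟨K, hK, hKU, e⟩ := GS_compact h2 hb
  obtain ⟨K₁, K₂, hK₁, hK₂, s₁, s₂, rfl⟩ := hK.binary_compact_cover hU hU' hKU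
  obtain ⟨χ, K', hχ, -, hK', s', h0, hone⟩ := exists_bump hK₁ hU s₁
  obtain ⟨u, hu, e'⟩ := cut h1 hχ
  refine ⟨u, mem_GF.2 ⟨hu, mem_GS_of_compact hK' hU s' (e'.mono fun i hi x hx => ?_)⟩,
    u⁻¹ * g, mem_GF.2 ⟨mul_mem (inv_mem hu) h1, mem_GS_of_compact hK₂ hU' s₂ ?_⟩, ?_⟩
  · rw [apply_eq_add_dp, hi]
    simp [h0 x hx]
  · filter_upwards [e, e'] with i hi hi' x hx
    rw [Pi.mul_apply, Pi.inv_apply, Equiv.Perm.mul_apply, Equiv.Perm.inv_eq_iff_eq,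
      apply_eq_add_dp (u i), hi']
    by_cases hx1 : x ∈ K₁
    · rw [apply_eq_add_dp (g i) x]
      simp [hone x hx1]
    · have h3 : g i x = x := hi x fun hh => hh.elim hx1 hx
      simp [dp, h3]
  · rw [mul_inv_cancel_left]

/-- localisation: `k` acts on a compactly supported family like a compactly supported family
(`conj_eq_of_agree`) -/
theorem loc (hU : IsOpen U) (hb : Bornology.IsBounded U) (hk : k ∈ S.GB n p) (hg : g ∈ S.GF m U) :
    ∃ k' ∈ S.GF p U, ∀ᶠ i in S.F, k i * g i * (k i)⁻¹ = k' i * g i * (k' i)⁻¹ := by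
  obtain ⟨K, hK, hKU, e⟩ := GS_compact (mem_GF.1 hg).2 hb
  obtain ⟨χ, K', hχ, -, hK', s', h0, hone⟩ := exists_bump hK hU hKU
  obtain ⟨k', hk', e'⟩ := cut hk hχ
  refine ⟨k', mem_GF.2 ⟨hk', mem_GS_of_compact hK' hU s' (e'.mono fun i hi x hx => ?_)⟩, ?_⟩
  · rw [apply_eq_add_dp, hi]
    simp [h0 x hx]
  · filter_upwards [e, e'] with i hi hi'
    refine conj_eq_of_agree hi fun x hx => ?_
    rw [apply_eq_add_dp (k' i), hi', apply_eq_add_dp (k i) x]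
    simp [hone x hx]

end Scale

end Pool.Agent.P.MP_878f14_gt.HT
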