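import Pool.Agent.P.MP_878f14_gt.HT.LieCore

/-! Graded families of pairings on vector fields with the Jacobi rule are coboundaries. -/

namespace Pool.Agent.P.MP_878f14_gt.HT

variable {ι W A : Type*} [Fintype ι] [DecidableEq ι] [NonUnitalCommRing W] [Module ℝ W]
  [AddCommGroup A]

/-- derivative of `f` along the field `u` -/
def actN (D : ι → W →ₗ[ℝ] W) (u : ι → W) : W →+ W where
  toFun f := ∑ k, u k * D k f
  map_zero' := by simp
  map_add' f g := by simp [mul_add, Finset.sum_add_distrib]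

/-- the bracket of vector fields -/
def brN (D : ι → W →ₗ[ℝ] W) (u v : ι → W) : ι → W :=
  fun a => ∑ k, (u k * D k (v a) - v k * D k (u a))

/-- commuting derivations `D i` and commuting multipliers `X i` with `D i X j = X j D i + δ` -/
structure IsW (D X : ι → W →ₗ[ℝ] W) : Prop where
  D_mul : ∀ i f h, D i (f * h) = D i f * h + f * D i h
  DD : ∀ i j f, D i (D j f) = D j (D i f)
  X_mul : ∀ i f h, X i (f * h) = X i f * h
  XX : ∀ i j f, X i (X j f) = X j (X i f)
  DX : ∀ i j f, D i (X j f) = X j (D i f) + if i = j then f else 0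

variable {D X : ι → W →ₗ[ℝ] W}

omit [DecidableEq ι] in
theorem actN_apply (u : ι → W) (f : W) : actN D u f = ∑ k, u k * D k f := rfl

omit [DecidableEq ι] in
theorem brN_apply (u v : ι → W) (a : ι) : brN D u v a = actN D u (v a) - actN D v (u a) := by
  rw [brN, Finset.sum_sub_distrib, actN_apply, actN_apply]

omit [DecidableEq ι] in
theorem brN_skew (u v : ι → W) : brN D u v = -brN D v u := by
  funext a
  rw [Pi.neg_apply, brN_apply, brN_apply, neg_sub]

omit [DecidableEq ι] in
theorem brN_self (u : ι → W) : brN D u u = 0 := by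
  funext a
  rw [brN_apply, sub_self, Pi.zero_apply]

/-- the bracket as a biadditive map -/
def brA (D : ι → W →ₗ[ℝ] W) : (ι → W) →+ (ι → W) →+ (ι → W) :=
  AddMonoidHom.mk' (fun u => AddMonoidHom.mk' (brN D u) fun v w => by
    funext a
    simp only [brN, Pi.add_apply, map_add, mul_add, add_mul, ← Finset.sum_add_distrib]
    exact Finset.sum_congr rfl fun _ _ => by abel) fun u u' => by
      refine AddMonoidHom.ext fun v => funext fun a => ?_
      change brN D (u + u') v a = brN D u v a + brN D u' v a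
      simp only [brN, Pi.add_apply, map_add, mul_add, add_mul, ← Finset.sum_add_distrib]
      exact Finset.sum_congr rfl fun _ _ => by abel

omit [DecidableEq ι] in
theorem brA_apply (u v : ι → W) : brA D u v = brN D u v := rfl

theorem brN_single (k : ι) (g : W) (v : ι → W) :
    brN D (Pi.single k g) v = (fun a => g * D k (v a)) - Pi.single k (actN D v g) := by
  funext a
  rw [brN_apply, Pi.sub_apply, actN_apply]
  congr 1
  · rw [Finset.sum_eq_single k (fun b _ hb => by rw [Pi.single_eq_of_ne hb, zero_mul]) (by simp),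
      Pi.single_eq_same]
  · exact Pi.apply_single (fun _ => actN D v) (fun _ => map_zero _) k g a

theorem brN_single_single (i j : ι) (g g' : W) : brN D (Pi.single i g) (Pi.single j g') =
    Pi.single j (g * D i g') - Pi.single i (g' * D j g) := by
  rw [brN_single, actN_apply,
    Finset.sum_eq_single j (fun b _ hb => by rw [Pi.single_eq_of_ne hb, zero_mul]) (by simp),
    Pi.single_eq_same]
  congr 1
  funext a
  exact Pi.apply_single (fun _ f => g * D i f) (fun _ => by simp) j g' a

namespace IsW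

variable (h : IsW D X)
include h

omit [Fintype ι] in
theorem mul_X (i : ι) (f g : W) : f * X i g = X i (f * g) := by
  rw [mul_comm, ← h.X_mul, mul_comm]

theorem act_br (u v : ι → W) (f : W) :
    actN D (brN D u v) f = actN D u (actN D v f) - actN D v (actN D u f) := by
  have key : ∀ u v : ι → W, actN D u (actN D v f) =
      ∑ k, actN D u (v k) * D k f + ∑ k, ∑ j, u j * (v k * D j (D k f)) := by
    intro u v
    rw [actN_apply v, map_sum, ← Finset.sum_add_distrib]
    refine Finset.sum_congr rfl fun k _ => ?_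
    simp only [actN_apply, h.D_mul, mul_add, Finset.sum_add_distrib, Finset.sum_mul, mul_assoc]
  have sym : ∑ k, ∑ j, u j * (v k * D j (D k f)) = ∑ k, ∑ j, v j * (u k * D j (D k f)) := by
    rw [Finset.sum_comm]
    refine Finset.sum_congr rfl fun k _ => Finset.sum_congr rfl fun j _ => ?_
    rw [h.DD, mul_left_comm]
  rw [key, key, sym, actN_apply]
  simp only [brN_apply, sub_mul, Finset.sum_sub_distrib]
  abel

theorem jacobi (u v w : ι → W) :
    brN D (brN D u v) w = brN D u (brN D v w) - brN D v (brN D u w) := by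
  funext a
  simp only [Pi.sub_apply, brN_apply, map_sub, h.act_br]
  abel

/-- every field is a sum of brackets with constant fields and the Euler field -/
theorem euler (T : W) (r : ι → W) :
    ∑ k, brN D (Pi.single k T) (fun a => X k (r a)) - brN D (fun k => X k T) r =
      fun a => (Fintype.card ι + 1) • (T * r a) := by
  funext a
  simp only [brN_single, Pi.sub_apply, Finset.sum_apply, brN_apply, Finset.sum_sub_distrib]
  rw [Finset.sum_pi_single a (fun k => actN D (fun a => X k (r a)) T)]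
  simp only [Finset.mem_univ, if_true, actN_apply, h.DX, mul_add, h.mul_X, ← h.X_mul, mul_ite,
    mul_zero, Finset.sum_add_distrib, Finset.sum_const, Finset.card_univ, Finset.sum_ite_eq',
    add_smul, one_smul, mul_comm (r a) T]
  abel

end IsW

/-- `C` is one and `T` is zero on the small fields, `T` is one where `C` is not locally constant -/
structure Cut (D X : ι → W →ₗ[ℝ] W) (K : Submodule ℝ W) (C T : W) : Prop where
  KD : ∀ i, ∀ f ∈ K, D i f ∈ K
  KX : ∀ i, ∀ f ∈ K, X i f ∈ K
  Km : ∀ f ∈ K, ∀ g ∈ K, f * g ∈ K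
  C_mul : ∀ f ∈ K, C * f = f
  T_mul : ∀ f ∈ K, T * f = 0
  TC : T * (C * C - C) = C * C - C
  TD : ∀ i, T * D i C = D i C

/-- elements living in the shell -/
def Sh (K : Submodule ℝ W) (T w : W) : Prop := T * w = w ∧ ∀ f ∈ K, w * f = 0

variable {K : Submodule ℝ W} {C T : W}

theorem Sh.mul {w : W} (hw : Sh K T w) (g : W) : Sh K T (g * w) :=
  ⟨by rw [mul_left_comm, hw.1], fun f hf => by rw [mul_assoc, hw.2 f hf, mul_zero]⟩

omit [Fintype ι] in
theorem Sh.xm (h : IsW D X) {w : W} (hw : Sh K T w) (i : ι) : Sh K T (X i w) :=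
  ⟨by rw [h.mul_X, hw.1], fun f hf => by rw [← h.X_mul, hw.2 f hf, map_zero]⟩

omit [Fintype ι] in
theorem ann_D (h : IsW D X) (c : Cut D X K C T) {w : W} (hw : ∀ f ∈ K, w * f = 0) (i : ι) :
    ∀ f ∈ K, D i w * f = 0 := by
  intro f hf
  have := h.D_mul i w f
  rw [hw f hf, hw _ (c.KD i f hf), map_zero, add_zero] at this
  exact this.symm

theorem brN_ann (h : IsW D X) (c : Cut D X K C T) {u v : ι → W} (hu : ∀ a, ∀ f ∈ K, u a * f = 0)
    (hv : ∀ a, v a ∈ K) : brN D u v = 0 := by
  funext a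
  refine Finset.sum_eq_zero fun k _ => ?_
  rw [hu k _ (c.KD k _ (hv a)), mul_comm, ann_D h c (hu a) k _ (hv k), sub_zero]

omit [Fintype ι] in
theorem Cut.DC_mul (h : IsW D X) (c : Cut D X K C T) (i : ι) : ∀ f ∈ K, D i C * f = 0 := by
  intro f hf
  have := h.D_mul i C f
  rw [c.C_mul f hf, c.C_mul _ (c.KD i f hf)] at this
  exact left_eq_add.1 (this.trans (add_comm _ _))

omit [Fintype ι] in
theorem Cut.prods (h : IsW D X) (c : Cut D X K C T) (ψ : W →+ A) (hψ : ∀ w, Sh K T w → ψ w = 0) :
    (∀ i, ψ (C * D i C) = 0) ∧ (∀ i b, ψ (C * D i (X b C)) = if i = b then ψ C else 0) ∧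
      ∀ i b d, ψ (C * D i (X b (X d C))) =
        (if i = b then ψ (X d C) else 0) + if i = d then ψ (X b C) else 0 := by
  have s1 : ∀ i, Sh K T (C * D i C) := fun i => Sh.mul ⟨c.TD i, c.DC_mul h i⟩ C
  have s2 : Sh K T (C * C - C) :=
    ⟨c.TC, fun f hf => by rw [sub_mul, mul_assoc, c.C_mul f hf, c.C_mul f hf, sub_self]⟩
  have e0 : ψ (C * C) = ψ C := sub_eq_zero.1 (by rw [← map_sub]; exact hψ _ s2)
  have e1 : ∀ b, ψ (X b (C * C)) = ψ (X b C) := fun b =>
    sub_eq_zero.1 (by rw [← map_sub, ← map_sub]; exact hψ _ (s2.xm h b))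
  refine ⟨fun i => hψ _ (s1 i), fun i b => ?_, fun i b d => ?_⟩
  · rw [h.DX, mul_add, h.mul_X, map_add, hψ _ ((s1 i).xm h b), zero_add]
    split_ifs
    · exact e0
    · simp
  · rw [h.DX, h.DX, map_add, mul_add, mul_add, h.mul_X, h.mul_X, map_add, map_add,
      hψ _ (((s1 i).xm h d).xm h b), zero_add, add_comm]
    congr 1 <;> split_ifs
    · rw [h.mul_X, e1]
    · simp
    · rw [h.mul_X, e1]
    · simp

variable [IsScalarTower ℝ W W] [SMulCommClass ℝ W W]

theorem lie_defect (h : IsW D X) (c : Cut D X K C T) (Ω Ω₁ Ω₂ : (ι → W) →+ (ι → W) →+ A)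
    (jac : ∀ u v w, Ω (brN D u v) w = Ω₁ u (brN D v w) - Ω₂ v (brN D u w)) {r v : ι → W}
    (hr : ∀ a, Sh K T (r a)) (hv : ∀ a, v a ∈ K) : Ω r v = 0 := by
  set r' : ι → W := (1 / (Fintype.card ι + 1 : ℕ) : ℝ) • r with hr'
  have h1 : ∀ a, Sh K T (r' a) := fun a =>
    ⟨by rw [hr', Pi.smul_apply, mul_smul_comm, (hr a).1],
      fun f hf => by rw [hr', Pi.smul_apply, smul_mul_assoc, (hr a).2 f hf, smul_zero]⟩
  have e : r = ∑ k, brN D (Pi.single k T) (fun a => X k (r' a)) - brN D (fun k => X k T) r' := by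
    rw [h.euler]
    funext a
    rw [(h1 a).1, hr', Pi.smul_apply, ← Nat.cast_smul_eq_nsmul ℝ, smul_smul,
      mul_one_div_cancel (by positivity), one_smul]
  have z : ∀ u u' : ι → W, (∀ a, ∀ f ∈ K, u a * f = 0) → (∀ a, ∀ f ∈ K, u' a * f = 0) →
      Ω (brN D u u') v = 0 := by
    intro u u' hu hu'
    rw [jac, brN_ann h c hu hv, brN_ann h c hu' hv, map_zero, map_zero, sub_zero]
  rw [e, map_sub, map_sum, AddMonoidHom.sub_apply, AddMonoidHom.finsetSum_apply,
    z _ _ (fun a f hf => by rw [← h.X_mul, c.T_mul f hf, map_zero]) fun a => (h1 a).2, sub_zero]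
  refine Finset.sum_eq_zero fun k _ => z _ _ (fun a f hf => ?_) fun a => ((h1 a).xm h k).2
  by_cases ha : a = k
  · rw [ha, Pi.single_eq_same, c.T_mul f hf]
  · rw [Pi.single_eq_of_ne ha, zero_mul]

theorem lieN [Nontrivial ι] (h : IsW D X) (c : Cut D X K C T) {q : ℕ} (hq : 5 ≤ q)
    (Ω : ℕ → (ι → W) →+ (ι → W) →+ A)
    (jac : ∀ l m u v w, 1 ≤ l → 1 ≤ m → l + m + 1 ≤ q →
      Ω (l + m) (brN D u v) w = Ω l u (brN D v w) - Ω m v (brN D u w))
    (W₁ : Submodule ℝ W) (hX₁ : ∀ i, ∀ f ∈ W₁, X i f ∈ W₁)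
    (kill : ∀ u v, (∀ a, v a ∈ W₁) → Ω 1 u v = 0) :
    ∃ s : (ι → W) →+ A, (∀ F, (∀ a, F a ∈ W₁) → s F = 0) ∧
      ∀ l, 1 ≤ l → l + 1 ≤ q → ∀ u v, (∀ a, u a ∈ K) → (∀ a, v a ∈ K) →
        Ω l u v = s (brN D u v) := by
  let o : LOps ι K :=
    { D := fun i => (D i).restrict (c.KD i)
      X := fun i => (X i).restrict (c.KX i)
      XX := fun i j f => Subtype.ext (h.XX i j f)
      DX := fun i j f => Subtype.ext (by
        have := h.DX i j f
        split_ifs at this ⊢ <;> exact this) }
  let inc : (ι → K) →+ (ι → W) := (K.subtype.compLeft ι).toAddMonoidHom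
  have inc_apply : ∀ v a, inc v a = (v a : W) := fun _ _ => rfl
  have inc_single : ∀ k (f : K), inc (Pi.single k f) = Pi.single k (f : W) := fun k f =>
    funext fun a => Pi.apply_single (fun _ (f : K) => (f : W)) (fun _ => rfl) k f a
  have hDC : ∀ (f : K) i, (f : W) * D i C = 0 := fun f i => by
    rw [mul_comm, c.DC_mul h i _ f.2]
  have hCm : ∀ f : K, (f : W) * C = f := fun f => by rw [mul_comm, c.C_mul _ f.2]
  let cE : ι → W := fun k => X k C
  have cE_eq : cE = ∑ k, Pi.single k (X k C) := (Finset.univ_sum_single cE).symm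
  have b0 : ∀ k v, brN D (Pi.single k C) (inc v) = inc (o.dL k v) := by
    intro k v
    rw [brN_single, actN_apply, Finset.sum_eq_zero fun b _ => by rw [inc_apply, hDC],
      Pi.single_zero, sub_zero]
    exact funext fun a => c.C_mul _ (c.KD k _ (v a).2)
  have b1 : ∀ i k v, brN D (Pi.single k (X i C)) (inc v) = inc (o.ad1 i k v) := by
    intro i k v
    rw [brN_single, o.ad1_apply, map_sub, LOps.eL_apply, inc_single, actN_apply]
    congr 1
    · funext a
      rw [← h.X_mul, inc_apply, c.C_mul _ (c.KD k _ (v a).2)]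
      rfl
    · simp only [inc_apply, h.DX, mul_add, h.mul_X, hDC, map_zero, zero_add, mul_ite, hCm,
        mul_zero, Finset.sum_ite_eq', Finset.mem_univ, if_true]
  have b2 : ∀ i j k v, brN D (Pi.single k (X i (X j C))) (inc v) = inc (o.ad2 i j k v) := by
    intro i j k v
    rw [brN_single, o.ad2_apply, map_sub, map_sub, o.xe, o.xe, LOps.eL_apply, LOps.eL_apply,
      inc_single, inc_single, actN_apply, sub_sub, ← Pi.single_add]
    congr 1
    · funext a
      rw [← h.X_mul, ← h.X_mul, inc_apply, c.C_mul _ (c.KD k _ (v a).2)]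
      rfl
    · simp only [inc_apply, h.DX, mul_add, map_add, h.mul_X, hDC, map_zero, zero_add, mul_ite, hCm,
        mul_zero, Finset.sum_add_distrib, Finset.sum_ite_eq', Finset.mem_univ, if_true,
        apply_ite (X i)]
      rw [add_comm]
      rfl
  have bE : ∀ v, brN D cE (inc v) = inc (o.adE v) := by
    intro v
    rw [cE_eq, ← brA_apply, map_sum, AddMonoidHom.finsetSum_apply]
    simp only [brA_apply, b1, ← map_sum, o.ad1_apply, Finset.sum_sub_distrib, LOps.eL_apply,
      Finset.univ_sum_single]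
    congr 1
    simp [LOps.adE]
  let sc : (ι → W) →+ (ι → W) := DistribSMul.toAddMonoidHom _ (1 / (Fintype.card ι + 1 : ℕ) : ℝ)
  let s₀ : (ι → W) →+ A :=
    ∑ k, (Ω 1 (Pi.single k C)).comp ((X k).compLeft ι).toAddMonoidHom - Ω 1 cE
  have s₀_apply : ∀ F, s₀ F = ∑ k, Ω 1 (Pi.single k C) (fun a => X k (F a)) - Ω 1 cE F := by
    intro F
    simp only [s₀, AddMonoidHom.sub_apply, AddMonoidHom.finsetSum_apply]
    rfl
  let s : (ι → W) →+ A := s₀.comp sc
  have s_mul : ∀ F, s ((Fintype.card ι + 1) • F) = s₀ F := by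
    intro F
    change s₀ ((1 / (Fintype.card ι + 1 : ℕ) : ℝ) • (Fintype.card ι + 1) • F) = _
    rw [← Nat.cast_smul_eq_nsmul ℝ, smul_smul, one_div_mul_cancel (by positivity), one_smul]
  let Ω' : ℕ → (ι → W) →+ (ι → W) →+ A := fun l => Ω l - (brA D).compr₂ s
  have Ω'_apply : ∀ l u v, Ω' l u v = Ω l u v - s (brN D u v) := fun _ _ _ => rfl
  have jac' : ∀ l m u v w, 1 ≤ l → 1 ≤ m → l + m + 1 ≤ q →
      Ω' (l + m) (brN D u v) w = Ω' l u (brN D v w) - Ω' m v (brN D u w) := by
    intro l m u v w hl hm hlm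
    rw [Ω'_apply, Ω'_apply, Ω'_apply, jac l m u v w hl hm hlm, h.jacobi, map_sub]
    abel
  let Λ : (ι → W) → ℕ → (ι → K) →+ A := fun p m => (Ω' m p).comp inc
  have Λ_apply : ∀ p m v, Λ p m v = Ω' m p (inc v) := fun _ _ _ => rfl
  let ψ : ℕ → (ι → K) → ι → W →+ A := fun m v k =>
    ((Ω' m).flip (inc v)).comp (AddMonoidHom.single (fun _ => W) k)
  have ψ_apply : ∀ m v k w, Ω' m (Pi.single k w) (inc v) = ψ m v k w := fun _ _ _ _ => rfl
  have hψ : ∀ m m' v k, 1 ≤ m → 1 ≤ m' → m + m' ≤ 4 → ∀ w, Sh K T w → ψ (m + m') v k w = 0 := by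
    intro m m' v k hm hm' hmm w hw
    refine lie_defect h c _ _ _ (fun u v w => jac' m m' u v w hm hm' (by omega)) (fun a => ?_)
      fun a => (v a).2
    change Sh K T (Pi.single (M := fun _ => W) k w a)
    by_cases ha : a = k
    · rwa [ha, Pi.single_eq_same]
    · rw [Pi.single_eq_of_ne ha]
      exact ⟨mul_zero _, fun _ _ => zero_mul _⟩
  have P0 := fun m m' v k hm hm' hmm => c.prods h _ (hψ m m' v k hm hm' hmm)
  have P1 := fun m m' v k hm hm' hmm i => c.prods h ((ψ (m + m') v k).comp (X i).toAddMonoidHom)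
    fun w hw => hψ m m' v k hm hm' hmm _ (hw.xm h i)
  have P2 := fun m m' v k hm hm' hmm i j => c.prods h
    (((ψ (m + m') v k).comp (X i).toAddMonoidHom).comp (X j).toAddMonoidHom)
    fun w hw => hψ m m' v k hm hm' hmm _ ((hw.xm h j).xm h i)
  simp only [AddMonoidHom.comp_apply, LinearMap.toAddMonoidHom_coe] at P1 P2
  have brE : ∀ u, brN D cE u = ∑ k, brN D (Pi.single k (X k C)) u := by
    intro u
    rw [cE_eq, ← brA_apply, map_sum, AddMonoidHom.finsetSum_apply]
    rfl
  obtain ⟨z0, zE, z1, z2⟩ := lie_core1 o (fun k => Λ (Pi.single k C)) (Λ cE)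
    (fun i k => Λ (Pi.single k (X i C))) (fun i j k => Λ (Pi.single k (X i (X j C))))
    (by
      intro v
      have e1 := h.euler C (inc v)
      have e2 : (fun a => (Fintype.card ι + 1) • (C * inc v a)) = (Fintype.card ι + 1) • inc v :=
        funext fun a => by rw [inc_apply, c.C_mul _ (v a).2]; rfl
      have e3 := congrArg s (e1.trans e2)
      rw [s_mul, s₀_apply, map_sub, map_sum] at e3
      simp only [Λ_apply, Ω'_apply, Finset.sum_sub_distrib]
      have e4 : ∀ k, inc (o.xL k v) = fun a => X k (inc v a) := fun _ => rfl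
      simp only [e4]
      linear_combination (norm := abel) -e3)
    (by
      intro i j m m' v hm hm' hmm
      have := jac' m m' (Pi.single i C) (Pi.single j C) (inc v) hm hm' (by omega)
      rw [b0, b0, brN_single_single, map_sub, AddMonoidHom.sub_apply, ψ_apply, ψ_apply,
        (P0 m m' v j hm hm' hmm).1, (P0 m m' v i hm hm' hmm).1, sub_self] at this
      exact sub_eq_zero.1 this.symm)
    (by
      intro i m m' v hm hm' hmm
      have := jac' m m' (Pi.single i C) cE (inc v) hm hm' (by omega)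
      rw [b0, bE, brN_skew, brE, map_neg, map_sum, AddMonoidHom.neg_apply,
        AddMonoidHom.finsetSum_apply] at this
      simp only [brN_single_single, map_sub, AddMonoidHom.sub_apply, ψ_apply, ← h.X_mul,
        (P0 m m' v _ hm hm' hmm).2.1, (P1 m m' v _ hm hm' hmm _).1, zero_sub,
        Finset.sum_neg_distrib, neg_neg, Finset.sum_ite_eq, Finset.mem_univ, if_true] at this
      exact this)
    (by
      intro m m' v hm hm' hmm
      have := jac' m m' cE cE (inc v) hm hm' (by omega)
      rw [bE, brN_self, map_zero, AddMonoidHom.zero_apply] at this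
      exact sub_eq_zero.1 this.symm)
    (by
      intro j i k m m' v hm hm' hmm
      have := jac' m m' (Pi.single j C) (Pi.single k (X i C)) (inc v) hm hm' (by omega)
      rw [b0, b1, brN_single_single, map_sub, AddMonoidHom.sub_apply, ψ_apply, ψ_apply,
        ← h.X_mul, (P0 m m' v _ hm hm' hmm).2.1, (P1 m m' v _ hm hm' hmm _).1, sub_zero] at this
      exact this)
    (by
      intro i k m m' v hm hm' hmm
      have := jac' m m' cE (Pi.single k (X i C)) (inc v) hm hm' (by omega)
      rw [bE, b1, brE, map_sum, AddMonoidHom.finsetSum_apply] at this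
      simp only [brN_single_single, map_sub, AddMonoidHom.sub_apply, ψ_apply, ← h.X_mul,
        (P1 m m' v _ hm hm' hmm _).2.1, Finset.sum_sub_distrib, Finset.sum_ite_eq,
        Finset.sum_ite_eq', Finset.mem_univ, if_true, sub_self] at this
      exact sub_eq_zero.1 this.symm)
    (by
      intro a i j k m m' v hm hm' hmm
      have := jac' m m' (Pi.single a C) (Pi.single k (X i (X j C))) (inc v) hm hm' (by omega)
      rw [b0, b2, brN_single_single, map_sub, AddMonoidHom.sub_apply, ψ_apply, ψ_apply,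
        ← h.X_mul, ← h.X_mul, (P0 m m' v _ hm hm' hmm).2.2, (P2 m m' v _ hm hm' hmm _ _).1,
        sub_zero] at this
      exact this)
    (by
      intro i j k m m' v hm hm' hmm
      have := jac' m m' cE (Pi.single k (X i (X j C))) (inc v) hm hm' (by omega)
      rw [bE, b2, brE, map_sum, AddMonoidHom.finsetSum_apply] at this
      simp only [brN_single_single, map_sub, AddMonoidHom.sub_apply, ψ_apply, ← h.X_mul,
        (P1 m m' v _ hm hm' hmm _).2.2, (P2 m m' v _ hm hm' hmm _ _).2.1, Finset.sum_sub_distrib,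
        Finset.sum_add_distrib, Finset.sum_ite_eq, Finset.sum_ite_eq', Finset.mem_univ, if_true,
        h.XX j i, add_sub_cancel_right] at this
      exact this)
  let T' : ℕ → (ι → K) →+ (ι → K) →+ A := fun l => ((Ω' l).comp inc).compl₂ inc
  have T'_apply : ∀ l u v, T' l u v = Ω' l (inc u) (inc v) := fun _ _ _ => rfl
  have J2 : ∀ p (ad : (ι → K) → ι → K) l m u v, (∀ v, brN D p (inc v) = inc (ad v)) →
      (∀ v, Λ p m v = 0) → 1 ≤ l → 1 ≤ m → l + m + 1 ≤ q →
      T' (l + m) (ad u) v + T' l u (ad v) = 0 := by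
    intro p ad l m u v hp hz hl hm hlm
    have := jac' m l p (inc u) (inc v) hm hl (by omega)
    have e := hz fun a => ⟨brN D (inc u) (inc v) a, K.sum_mem fun k _ => K.sub_mem
      (c.Km _ (u k).2 _ (c.KD k _ (v a).2)) (c.Km _ (v k).2 _ (c.KD k _ (u a).2))⟩
    change Ω' m p (brN D (inc u) (inc v)) = 0 at e
    rw [hp, hp, e, Nat.add_comm] at this
    rw [T'_apply, T'_apply, this]
    abel
  have fin := lie_core2 o hq T'
    (fun k l m u v hl hm hm' hlm => J2 _ _ l m u v (b0 k) (fun v => z0 k m v hm hm') hl hm hlm)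
    (fun l m u v hl hm hm' hlm => J2 _ _ l m u v bE (fun v => zE m v hm hm') hl hm hlm)
    (fun i k l u v hl hlm => J2 _ _ l 1 u v (b1 i k) (z1 i k) hl le_rfl hlm)
    (fun i j k l u v hl hlm => J2 _ _ l 1 u v (b2 i j k) (z2 i j k) hl le_rfl hlm)
  refine ⟨s, fun F hF => ?_, fun l hl hl' u v hu hv => ?_⟩
  · change s₀ (sc F) = 0
    have hF' : ∀ a, sc F a ∈ W₁ := fun a => W₁.smul_mem _ (hF a)
    rw [s₀_apply, kill _ _ hF', Finset.sum_eq_zero fun k _ => kill _ _ fun a => hX₁ k _ (hF' a),
      sub_zero]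
  · exact sub_eq_zero.1 (fin l hl hl' (fun a => ⟨u a, hu a⟩) fun a => ⟨v a, hv a⟩)

end Pool.Agent.P.MP_878f14_gt.HT
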