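import Mathlib

/-!
Pure algebra: the graded second cohomology computation for vector fields in at least two
variables (nothing survives).
-/

namespace Pool.Agent.P.MP_878f14_gt.HT

/-- commuting multipliers `X i` and operators `D i` with `D i X j = X j D i + δ` -/
structure LOps (ι K : Type*) [DecidableEq ι] [AddCommGroup K] [Module ℝ K] where
  D : ι → K →ₗ[ℝ] K
  X : ι → K →ₗ[ℝ] K
  XX : ∀ i j f, X i (X j f) = X j (X i f)
  DX : ∀ i j f, D i (X j f) = X j (D i f) + if i = j then f else 0

variable {ι K A : Type*} [Fintype ι] [DecidableEq ι] [AddCommGroup K] [Module ℝ K]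
  [AddCommGroup A]

namespace LOps

variable (o : LOps ι K)

def dL (k : ι) : (ι → K) →ₗ[ℝ] (ι → K) := (o.D k).compLeft ι

def xL (k : ι) : (ι → K) →ₗ[ℝ] (ι → K) := (o.X k).compLeft ι

/-- matrix units -/
def eL (a b : ι) : (ι → K) →ₗ[ℝ] (ι → K) := LinearMap.single ℝ (fun _ => K) a ∘ₗ LinearMap.proj b

/-- bracket with the Euler field -/
def adE : (ι → K) →ₗ[ℝ] (ι → K) := ∑ k, o.xL k ∘ₗ o.dL k - LinearMap.id

/-- bracket with `x_i ∂_k` -/
def ad1 (i k : ι) : (ι → K) →ₗ[ℝ] (ι → K) := o.xL i ∘ₗ o.dL k - eL k i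

/-- bracket with `x_i x_j ∂_k` -/
def ad2 (i j k : ι) : (ι → K) →ₗ[ℝ] (ι → K) :=
  o.xL i ∘ₗ o.xL j ∘ₗ o.dL k - o.xL j ∘ₗ eL k i - o.xL i ∘ₗ eL k j

omit [Fintype ι] in
theorem dL_apply (k : ι) (v : ι → K) (a : ι) : o.dL k v a = o.D k (v a) := rfl

omit [Fintype ι] in
theorem xL_apply (k : ι) (v : ι → K) (a : ι) : o.xL k v a = o.X k (v a) := rfl

omit [Fintype ι] in
theorem eL_apply (a b : ι) (v : ι → K) : eL a b v = Pi.single a (v b) := rfl

omit [Fintype ι] in
theorem xx (i j : ι) (v : ι → K) : o.xL i (o.xL j v) = o.xL j (o.xL i v) :=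
  funext fun a => o.XX i j (v a)

omit [Fintype ι] in
theorem dx (i j : ι) (v : ι → K) :
    o.dL i (o.xL j v) = o.xL j (o.dL i v) + if i = j then v else 0 := by
  funext a
  rw [Pi.add_apply, dL_apply, xL_apply, xL_apply, dL_apply, o.DX]
  split_ifs <;> rfl

omit [Fintype ι] in
theorem xe (i a b : ι) (v : ι → K) : o.xL i (eL a b v) = eL a b (o.xL i v) := by
  funext c
  rw [xL_apply, eL_apply, eL_apply, xL_apply]
  exact Pi.apply_single (fun _ => o.X i) (fun _ => map_zero _) a (v b) c

theorem adE_apply (v : ι → K) :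
    o.adE v = ∑ k, o.dL k (o.xL k v) - (Fintype.card ι + 1) • v := by
  simp only [adE, LinearMap.sub_apply, LinearMap.sum_apply, LinearMap.comp_apply,
    LinearMap.id_apply, dx, if_true, Finset.sum_add_distrib, Finset.sum_const, Finset.card_univ,
    add_smul, one_smul]
  abel

omit [Fintype ι] in
theorem ad1_apply (i k : ι) (v : ι → K) : o.ad1 i k v = o.xL i (o.dL k v) - eL k i v := rfl

omit [Fintype ι] in
theorem ad2_apply (i j k : ι) (v : ι → K) : o.ad2 i j k v =
    o.xL i (o.xL j (o.dL k v)) - o.xL j (eL k i v) - o.xL i (eL k j v) := rfl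

end LOps

theorem lie_div {M : Type*} [AddCommGroup M] [Module ℝ M] (φ : M →+ A) (n : ℕ) (hn : n ≠ 0)
    (h : ∀ x, n • φ x = 0) (x : M) : φ x = 0 := by
  have hx : x = n • ((1 / n : ℝ) • x) := by
    rw [← Nat.cast_smul_eq_nsmul ℝ, smul_smul, mul_one_div_cancel (Nat.cast_ne_zero.2 hn), one_smul]
  rw [hx, map_nsmul, h]

/-- the functionals attached to polynomial fields of degree at most two vanish -/
theorem lie_core1 [Nonempty ι] (o : LOps ι K) (al : ι → ℕ → (ι → K) →+ A) (be : ℕ → (ι → K) →+ A)
    (la : ι → ι → ℕ → (ι → K) →+ A) (nu : ι → ι → ι → ℕ → (ι → K) →+ A)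
    (h0 : ∀ v, ∑ k, al k 1 (o.xL k v) = be 1 v)
    (Ja : ∀ i j m m' v, 1 ≤ m → 1 ≤ m' → m + m' ≤ 4 → al i m (o.dL j v) = al j m' (o.dL i v))
    (Jb : ∀ i m m' v, 1 ≤ m → 1 ≤ m' → m + m' ≤ 4 →
      al i (m + m') v = al i m (o.adE v) - be m' (o.dL i v))
    (Jc : ∀ m m' v, 1 ≤ m → 1 ≤ m' → m + m' ≤ 4 → be m (o.adE v) = be m' (o.adE v))
    (Jd : ∀ j i k m m' v, 1 ≤ m → 1 ≤ m' → m + m' ≤ 4 →
      (if j = i then al k (m + m') v else 0) = al j m (o.ad1 i k v) - la i k m' (o.dL j v))
    (Je : ∀ i k m m' v, 1 ≤ m → 1 ≤ m' → m + m' ≤ 4 →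
      be m (o.ad1 i k v) = la i k m' (o.adE v))
    (Jf : ∀ a i j k m m' v, 1 ≤ m → 1 ≤ m' → m + m' ≤ 4 →
      (if a = i then la j k (m + m') v else 0) + (if a = j then la i k (m + m') v else 0) =
        al a m (o.ad2 i j k v) - nu i j k m' (o.dL a v))
    (Jg : ∀ i j k m m' v, 1 ≤ m → 1 ≤ m' → m + m' ≤ 4 →
      nu i j k (m + m') v = be m (o.ad2 i j k v) - nu i j k m' (o.adE v)) :
    (∀ k m v, 1 ≤ m → m ≤ 2 → al k m v = 0) ∧ (∀ m v, 1 ≤ m → m ≤ 2 → be m v = 0) ∧
      (∀ i k v, la i k 1 v = 0) ∧ ∀ i j k v, nu i j k 1 v = 0 := by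
  set n := Fintype.card ι with hn
  have hn0 : n ≠ 0 := Fintype.card_ne_zero
  have kill : ∀ φ : (ι → K) →+ A, (∀ j v, φ (o.dL j v) = 0) → ∀ v,
      φ (o.adE v) = -((n + 1) • φ v) := by
    intro φ hφ v
    rw [o.adE_apply, map_sub, map_sum, map_nsmul]
    simp [hφ, hn]
  have a1 : ∀ i m, 1 ≤ m → m ≤ 3 → ∀ j v, al i m (o.dL j v) = al i 1 (o.dL j v) := by
    intro i m h1 h2 j v
    rw [Ja i j m 1 v h1 le_rfl (by omega), Ja i j 1 1 v le_rfl le_rfl (by omega)]
  have a2 : ∀ i m, 1 ≤ m → m ≤ 3 → ∀ v, al i (m + 1) v = al i 1 v - (n + 1) • al i m v := by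
    intro i m h1 h2 v
    have e1 : be 1 (o.dL i v) = ∑ k, al i 1 (o.dL k (o.xL k v)) - al i 1 v := by
      rw [← h0]
      have : ∀ k, al k 1 (o.xL k (o.dL i v)) =
          al i 1 (o.dL k (o.xL k v)) - if i = k then al i 1 v else 0 := by
        intro k
        rw [← Ja k i 1 1 _ le_rfl le_rfl (by omega), o.dx, map_add]
        split_ifs with h
        · rw [h]; abel
        · simp
      simp only [this, Finset.sum_sub_distrib, Finset.sum_ite_eq, Finset.mem_univ, if_true]
    rw [Jb i m 1 v h1 le_rfl (by omega), e1, o.adE_apply, map_sub, map_sum, map_nsmul]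
    simp only [a1 i m h1 h2]
    abel
  have a3 : ∀ i j v, al i 1 (o.dL j v) = 0 := by
    intro i j
    refine lie_div ((al i 1).comp (o.dL j).toAddMonoidHom) (n + 1) (by omega) fun v => ?_
    have e1 := a2 i 1 le_rfl (by omega) (o.dL j v)
    rw [a1 i 2 (by omega) (by omega)] at e1
    change (n + 1) • al i 1 (o.dL j v) = 0
    linear_combination (norm := abel) e1
  have a4 : ∀ i v, al i 1 v = 0 := by
    intro i
    refine lie_div (al i 1) ((n + 1) * (n + 1) * (n + 2)) (by positivity) fun v => ?_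
    have e1 := Jb i 1 2 v le_rfl (by omega) (by omega)
    have e2 := Jb i 2 2 v (by omega) (by omega) (by omega)
    rw [kill _ (a3 i)] at e1
    rw [kill _ fun j v => (a1 i 2 (by omega) (by omega) j v).trans (a3 i j v)] at e2
    have e3 := a2 i 1 le_rfl (by omega) v
    have e4 := a2 i 2 (by omega) (by omega) v
    have e5 := a2 i 3 (by omega) (by omega) v
    norm_num only at e1 e2 e3 e4 e5
    rw [e5, e4, e3] at e2
    rw [e4, e3] at e1
    linear_combination (norm := module) e1 - e2
  have a5 : ∀ i m, 1 ≤ m → m ≤ 4 → ∀ v, al i m v = 0 := by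
    intro i m h1 h2 v
    induction m, h1 using Nat.le_induction with
    | base => exact a4 i v
    | succ m h1 ih => rw [a2 i m h1 (by omega), a4, ih (by omega)]; simp
  have b1 : ∀ v, be 1 v = 0 := fun v => by rw [← h0]; simp [a4]
  have b2 : ∀ m, 1 ≤ m → m ≤ 3 → ∀ v, be m v = 0 := by
    intro m h1 h2
    have e1 : ∀ j v, be m (o.dL j v) = 0 := by
      intro j v
      have := Jb j 1 m v le_rfl h1 (by omega)
      rw [a4, a5 j _ (by omega) (by omega)] at this
      simpa using this
    refine lie_div (be m) (n + 1) (by omega) fun v => ?_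
    have := Jc m 1 v h1 le_rfl (by omega)
    rw [b1, kill _ e1] at this
    exact neg_eq_zero.1 this
  have l1 : ∀ i k m, 1 ≤ m → m ≤ 3 → ∀ v, la i k m v = 0 := by
    intro i k m h1 h2
    have e1 : ∀ j v, la i k m (o.dL j v) = 0 := by
      intro j v
      have := Jd j i k 1 m v le_rfl h1 (by omega)
      rw [a4, a5 k _ (by omega) (by omega)] at this
      simpa using this
    refine lie_div (la i k m) (n + 1) (by omega) fun v => ?_
    have := Je i k 1 m v le_rfl h1 (by omega)
    rw [b1, kill _ e1] at this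
    exact neg_eq_zero.1 this.symm
  refine ⟨fun k m v h1 h2 => a5 k m h1 (by omega) v, fun m v h1 h2 => b2 m h1 (by omega) v,
    fun i k v => l1 i k 1 le_rfl (by omega) v, fun i j k => ?_⟩
  have n1 : ∀ m, 1 ≤ m → m ≤ 2 → ∀ a v, nu i j k m (o.dL a v) = 0 := by
    intro m h1 h2 a v
    have := Jf a i j k 1 m v le_rfl h1 (by omega)
    rw [a4, l1 j k _ (by omega) (by omega), l1 i k _ (by omega) (by omega)] at this
    simpa using this
  refine lie_div (nu i j k 1) (n * (n + 1)) (by positivity) fun v => ?_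
  have e1 := Jg i j k 1 1 v le_rfl le_rfl (by omega)
  have e2 := Jg i j k 2 1 v (by omega) le_rfl (by omega)
  have e3 := Jg i j k 1 2 v le_rfl (by omega) (by omega)
  rw [b1, kill _ (n1 1 le_rfl (by omega))] at e1
  rw [b2 2 (by omega) (by omega), kill _ (n1 1 le_rfl (by omega))] at e2
  rw [b1, kill _ (n1 2 (by omega) le_rfl)] at e3
  norm_num only at e1 e2 e3
  rw [e2, e1] at e3
  linear_combination (norm := module) -e3

/-- an invariant biadditive pairing vanishes in at least two variables -/
theorem lie_inv_zero [Nontrivial ι] (o : LOps ι K) (T : (ι → K) →+ (ι → K) →+ A)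
    (h0 : ∀ k u v, T (o.dL k u) v + T u (o.dL k v) = 0)
    (h1 : ∀ i k u v, T (o.ad1 i k u) v + T u (o.ad1 i k v) = 0)
    (h2 : ∀ i j k u v, T (o.ad2 i j k u) v + T u (o.ad2 i j k v) = 0) (u v : ι → K) :
    T u v = 0 := by
  let S : ι → (ι → K) → (ι → K) → A := fun j u v => T (o.xL j u) v - T u (o.xL j v)
  have R1 : ∀ i k u v, S i (o.dL k u) v =
      (if k = i then T u v else 0) + T (LOps.eL k i u) v + T u (LOps.eL k i v) := by
    intro i k u v
    have a := h1 i k u v
    have b := h0 k u (o.xL i v)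
    rw [o.dx] at b
    simp only [o.ad1_apply, map_sub, map_add, AddMonoidHom.sub_apply] at a b
    have c : T u (if k = i then v else 0) = if k = i then T u v else 0 := by
      split_ifs <;> simp
    rw [c] at b
    change T (o.xL i (o.dL k u)) v - T (o.dL k u) (o.xL i v) = _
    linear_combination (norm := abel) a - b
  have R2 : ∀ i j k u v, (if k = i then S j u v else 0) - (if k = j then S i u v else 0) -
      S i (LOps.eL k j u) v + S j u (LOps.eL k i v) = 0 := by
    intro i j k u v
    have a := h2 i j k u v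
    have b := h0 k u (o.xL i (o.xL j v))
    have c := R1 i k (o.xL j u) v
    have d := R1 j k u (o.xL i v)
    rw [o.dx, o.dx, map_add] at b
    have e : o.xL j (o.dL k u) = o.dL k (o.xL j u) - if k = j then u else 0 := by
      rw [o.dx]; abel
    have c' : S i (o.xL j (o.dL k u)) v =
        S i (o.dL k (o.xL j u)) v - if k = j then S i u v else 0 := by
      rw [e]
      simp only [S, map_sub, AddMonoidHom.sub_apply]
      split_ifs
      · abel
      · simp
    rw [c] at c'
    have i1 : T u (if k = i then o.xL j v else 0) = if k = i then T u (o.xL j v) else 0 := by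
      split_ifs <;> simp
    have i2 : T u (o.xL i (if k = j then v else 0)) = if k = j then T u (o.xL i v) else 0 := by
      split_ifs <;> simp
    have i3 : (if k = i then S j u v else 0) =
        (if k = i then T (o.xL j u) v else 0) - if k = i then T u (o.xL j v) else 0 := by
      split_ifs <;> simp [S]
    rw [i3]
    simp only [map_add, i1, i2] at b
    generalize (if k = j then S i u v else 0) = z at c' ⊢
    simp only [S, o.ad2_apply, map_sub, AddMonoidHom.sub_apply, ← o.xe, o.xx j i] at a c' d ⊢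
    linear_combination (norm := abel) a - b - c' - d
  have sl : ∀ (a b : ι) (f : K), LOps.eL a b (Pi.single b f) = Pi.single a f := by
    intro a b f
    rw [LOps.eL_apply, Pi.single_eq_same]
  have sn : ∀ (a b c : ι) (f : K), b ≠ c → LOps.eL a b (Pi.single c f) = 0 := by
    intro a b c f h
    rw [LOps.eL_apply, Pi.single_eq_of_ne h, Pi.single_zero]
  have S0l : ∀ j v, S j 0 v = 0 := fun j v => by simp [S]
  have S0r : ∀ j u, S j u 0 = 0 := fun j u => by simp [S]
  have half : ∀ j u v, (∀ c : ℝ, 2 • S j (c • u) v = 0) → S j u v = 0 := by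
    intro j u v h
    have := h (1 / 2)
    have e : S j u v = 2 • S j ((1 / 2 : ℝ) • u) v := by
      have hu : u = 2 • (1 / 2 : ℝ) • u := by module
      conv_lhs => rw [hu]
      simp only [S, map_nsmul, AddMonoidHom.nsmul_apply, smul_sub]
    rw [e, this]
  have S1 : ∀ j a b (f h : K), j ≠ a → S j (Pi.single a f) (Pi.single b h) = 0 := by
    intro j a b f h hja
    obtain ⟨i, hi⟩ := exists_ne j
    have key : ∀ f : K, S j (Pi.single a f) (Pi.single b h) +
        S j (Pi.single a f) (LOps.eL i i (Pi.single b h)) = 0 := by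
      intro f
      have := R2 i j i (Pi.single a f) (Pi.single b h)
      rw [if_pos rfl, if_neg hi, sn i j a f hja, S0l] at this
      linear_combination (norm := abel) this
    by_cases hb : i = b
    · refine half _ _ _ fun c => ?_
      have := key (c • f)
      rw [hb, sl, Pi.single_smul'] at this
      rw [two_smul, this]
    · have := key f
      rwa [sn i i b h hb, S0r, add_zero] at this
  have S2 : ∀ i a b (f h : K), i ≠ b → S i (Pi.single a f) (Pi.single b h) = 0 := by
    intro i a b f h hib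
    obtain ⟨j, hj⟩ := exists_ne i
    have key : ∀ f : K, S i (Pi.single a f) (Pi.single b h) +
        S i (LOps.eL j j (Pi.single a f)) (Pi.single b h) = 0 := by
      intro f
      have := R2 i j j (Pi.single a f) (Pi.single b h)
      rw [if_pos rfl, if_neg hj, sn j i b h hib, S0r] at this
      linear_combination (norm := abel) -this
    by_cases ha : j = a
    · refine half _ _ _ fun c => ?_
      have := key (c • f)
      rw [ha, sl, Pi.single_smul'] at this
      rw [two_smul, this]
    · have := key f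
      rwa [sn j j a f ha, S0l, add_zero] at this
  have S3 : ∀ j a b (f h : K), S j (Pi.single a f) (Pi.single b h) = 0 := by
    intro j a b f h
    by_cases ha : j = a
    · by_cases hb : j = b
      · obtain ⟨i, hi⟩ := exists_ne j
        have := R2 i j i (Pi.single a f) (Pi.single b h)
        rw [if_pos rfl, if_neg hi, ← ha, ← hb, sl, sn i i j h hi, S0r, S2 i i j f h hi] at this
        rw [← ha, ← hb]
        simpa using this
      · exact S2 j a b f h hb
    · exact S1 j a b f h ha
  have S4 : ∀ j u (b : ι) (h : K), S j u (Pi.single b h) = 0 := by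
    intro j u b h
    have := Finset.sum_eq_zero (s := Finset.univ) fun a _ => S3 j a b (u a) h
    rw [← this]
    conv_lhs => rw [← Finset.univ_sum_single u]
    simp only [S, map_sum, AddMonoidHom.finsetSum_apply, Finset.sum_sub_distrib]
  have T1 : ∀ (a b : ι) (f h : K), T (Pi.single a f) (Pi.single b h) = 0 := by
    intro a b f h
    have key : ∀ f : K, 2 • T (Pi.single a f) (Pi.single b h) +
        T (Pi.single a f) (LOps.eL a a (Pi.single b h)) = 0 := by
      intro f
      have := R1 a a (Pi.single a f) (Pi.single b h)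
      rw [S4, if_pos rfl, sl] at this
      linear_combination (norm := abel) -this
    let φ : K →+ A := (T.flip (Pi.single b h)).comp (AddMonoidHom.single (fun _ => K) a)
    by_cases hb : a = b
    · refine lie_div φ 3 (by norm_num) (fun f => ?_) f
      have := key f
      rw [hb, sl] at this
      change 3 • T (Pi.single a f) (Pi.single b h) = 0
      rw [hb]
      linear_combination (norm := abel) this
    · refine lie_div φ 2 (by norm_num) (fun f => ?_) f
      have := key f
      rwa [sn a a b h hb, map_zero, add_zero] at this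
  rw [← Finset.univ_sum_single u, ← Finset.univ_sum_single v]
  simp only [map_sum, AddMonoidHom.finsetSum_apply, T1, Finset.sum_const_zero]

/-- all pairings vanish -/
theorem lie_core2 [Nontrivial ι] (o : LOps ι K) {q : ℕ} (hq : 5 ≤ q)
    (T : ℕ → (ι → K) →+ (ι → K) →+ A)
    (h0 : ∀ k l m u v, 1 ≤ l → 1 ≤ m → m ≤ 2 → l + m + 1 ≤ q →
      T (l + m) (o.dL k u) v + T l u (o.dL k v) = 0)
    (hE : ∀ l m u v, 1 ≤ l → 1 ≤ m → m ≤ 2 → l + m + 1 ≤ q →
      T (l + m) (o.adE u) v + T l u (o.adE v) = 0)
    (h1 : ∀ i k l u v, 1 ≤ l → l + 2 ≤ q → T (l + 1) (o.ad1 i k u) v + T l u (o.ad1 i k v) = 0)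
    (h2 : ∀ i j k l u v, 1 ≤ l → l + 2 ≤ q →
      T (l + 1) (o.ad2 i j k u) v + T l u (o.ad2 i j k v) = 0)
    (l : ℕ) (hl : 1 ≤ l) (hl' : l + 1 ≤ q) (u v : ι → K) : T l u v = 0 := by
  have gen : ∀ φ : (ι → K) →+ A, (∀ k v, φ (o.dL k v) = 0) → (∀ v, φ (o.adE v) = 0) →
      ∀ v, φ v = 0 := by
    intro φ a b
    refine lie_div φ (Fintype.card ι + 1) (by omega) fun v => ?_
    have := b v
    rw [o.adE_apply, map_sub, map_sum, map_nsmul] at this
    simpa [a] using this
  have up : ∀ l, 1 ≤ l → l + 3 ≤ q → ∀ u v, T (l + 1) u v = T (l + 2) u v := by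
    intro l h h' u v
    refine sub_eq_zero.1 (gen ((T (l + 1)).flip v - (T (l + 2)).flip v) (fun k u => ?_)
      (fun u => ?_) u)
    · have a := h0 k l 1 u v h le_rfl (by omega) (by omega)
      have b := h0 k l 2 u v h (by omega) le_rfl (by omega)
      change T (l + 1) (o.dL k u) v - T (l + 2) (o.dL k u) v = 0
      linear_combination (norm := abel) a - b
    · have a := hE l 1 u v h le_rfl (by omega) (by omega)
      have b := hE l 2 u v h (by omega) le_rfl (by omega)
      change T (l + 1) (o.adE u) v - T (l + 2) (o.adE u) v = 0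
      linear_combination (norm := abel) a - b
  have lo : ∀ u v, T 1 u v = T 2 u v := by
    intro u v
    refine sub_eq_zero.1 (gen (T 1 u - T 2 u) (fun k v => ?_) (fun v => ?_) v)
    · have a := h0 k 1 2 u v le_rfl (by omega) le_rfl (by omega)
      have b := h0 k 2 1 u v (by omega) le_rfl (by omega) (by omega)
      change T 1 u (o.dL k v) - T 2 u (o.dL k v) = 0
      linear_combination (norm := abel) a - b
    · have a := hE 1 2 u v le_rfl (by omega) le_rfl (by omega)
      have b := hE 2 1 u v (by omega) le_rfl (by omega) (by omega)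
      change T 1 u (o.adE v) - T 2 u (o.adE v) = 0
      linear_combination (norm := abel) a - b
  have all : ∀ l, 1 ≤ l → l + 1 ≤ q → ∀ u v, T l u v = T 1 u v := by
    intro l h h' u v
    induction l, h using Nat.le_induction with
    | base => rfl
    | succ l h ih =>
      rcases h.eq_or_lt with rfl | h
      · exact (lo u v).symm
      · obtain ⟨l, rfl⟩ : ∃ l', l = l' + 1 := ⟨l - 1, by omega⟩
        rw [← ih (by omega)]
        exact (up l (by omega) (by omega) u v).symm
  rw [all l hl hl']
  refine lie_inv_zero o (T 1) (fun k u v => ?_) (fun i k u v => ?_) (fun i j k u v => ?_) u v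
  · rw [lo]; exact h0 k 1 1 u v le_rfl le_rfl (by omega) (by omega)
  · rw [lo]; exact h1 i k 1 u v le_rfl (by omega)
  · rw [lo]; exact h2 i j k 1 u v le_rfl (by omega)

end Pool.Agent.P.MP_878f14_gt.HT
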