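import Pool.Agent.P.MP_878f14_gt.HT.Aff

/-! Products of many translates, and rolling up in one direction. -/

namespace Pool.Agent.P.MP_878f14_gt.HT

open scoped commutatorElement

variable {n : ℕ}

/-- the product of the first `j` translates of `g` -/
def Wm (g : Pm n) (v : V n) (j : ℕ) : Pm n := (g * tr v) ^ j * (tr v)⁻¹ ^ j

theorem Wm_zero (g : Pm n) (v : V n) : Wm g v 0 = 1 := by simp [Wm]

theorem Wm_succ (g : Pm n) (v : V n) (j : ℕ) :
    Wm g v (j + 1) = Wm g v j * (tr ((j : ℝ) • v) * g * (tr ((j : ℝ) • v))⁻¹) := by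
  rw [← tr_pow, Wm, Wm, pow_succ, pow_succ', inv_pow]
  group

theorem Wm_comm {g : Pm n} {u : V n} (h : g * tr u = tr u * g) (v : V n) (j : ℕ) :
    Wm g v j * tr u = tr u * Wm g v j := by
  have h1 : Commute g (tr u) := h
  have h2 : Commute (tr v) (tr u) := tr_comm v u
  exact ((h1.mul_left h2).pow_left j).mul_left (h2.inv_left.pow_left j)

theorem Wm_fix {g : Pm n} {K : Set (V n)} {d : Fin n} (hK : ∀ x ∈ K, ∀ t, x + sg d t ∈ K)
    (h : Fix K g) (η : ℝ) (j : ℕ) : Fix K (Wm g (sg d η) j) := by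
  induction j with
  | zero => rw [Wm_zero]; exact fix_one K
  | succ j ih =>
    rw [Wm_succ]
    refine ih.mul ((h.conj _).mono ?_)
    rintro _ ⟨x, hx, rfl⟩
    rw [tr_apply, smul_sg]
    exact hK x hx _

theorem Many_rec {a : ℕ → ℝ} {q B : ℝ} {N : ℕ} (hq : 1 ≤ q) (hB : 0 ≤ B) (h0 : a 0 ≤ 0)
    (h : ∀ j, j < N → a (j + 1) ≤ a j * q + B) : a N ≤ N * q ^ N * B := by
  induction N with
  | zero => simpa using h0
  | succ m ih =>
    have h1 := ih fun j hj => h j (by omega)
    have h2 := h m (by omega)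
    have h3 : 1 ≤ q ^ (m + 1) := one_le_pow₀ hq
    have h4 := mul_le_mul_of_nonneg_right h1 (by linarith : 0 ≤ q)
    have h5 := mul_le_mul_of_nonneg_right h3 hB
    push_cast
    calc a (m + 1) ≤ m * q ^ m * B * q + B := by linarith
      _ ≤ m * q ^ m * B * q + q ^ (m + 1) * B := by linarith
      _ = (m + 1) * q ^ (m + 1) * B := by ring

theorem Many_two {b : ℝ} {N : ℕ} (hb : 0 ≤ b) (h : N * b ≤ 1 / 16) : (1 + b) ^ N ≤ 2 := by
  have h1 : (1 + b) ^ N ≤ Real.exp b ^ N :=
    pow_le_pow_left₀ (by linarith) (by linarith [Real.add_one_le_exp b]) N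
  rw [← Real.exp_nat_mul] at h1
  have h2 : Real.exp (N * b) ≤ Real.exp (1 / 16) := Real.exp_le_exp.2 h
  have h3 := Real.exp_bound_div_one_sub_of_interval (x := 1 / 16) (by norm_num) (by norm_num)
  have h4 : (1 : ℝ) / (1 - 1 / 16) ≤ 2 := by norm_num
  linarith

theorem Many_dp (g : Pm n) (v : V n) (j : ℕ) : dp (Wm g v (j + 1)) = fun x =>
    dp (Wm g v j) (x + dp (tr ((j : ℝ) • v) * g * (tr ((j : ℝ) • v))⁻¹) x) +
      dp (tr ((j : ℝ) • v) * g * (tr ((j : ℝ) • v))⁻¹) x := by
  rw [Wm_succ, dp_mul]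

theorem Many_dp_zero (g : Pm n) (v : V n) : dp (Wm g v 0) = fun _ => 0 := by
  rw [Wm_zero, dp_one]

theorem Many_sm {g : Pm n} (hg : Sm (dp g)) (v : V n) (j : ℕ) : Sm (dp (Wm g v j)) := by
  induction j with
  | zero => rw [Many_dp_zero]; exact sm_const 0
  | succ j ih => rw [Wm_succ]; exact sm_dp_mul ih (sm_conj_tr hg _)

theorem Many_step {g : Pm n} (hg : Sm (dp g)) (v : V n) (j r : ℕ) :
    sn r (dp (Wm g v (j + 1))) ≤
      sn r (fun x => dp (Wm g v j) (x + dp (tr ((j : ℝ) • v) * g * (tr ((j : ℝ) • v))⁻¹) x)) +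
        sn r (dp g) := by
  rw [Many_dp, ← sn_conj_tr ((j : ℝ) • v) g r]
  exact sn_add_le ((Many_sm hg v j).comp (sm_conj_tr hg _)) (sm_conj_tr hg _) r

theorem Many_zero {g : Pm n} (hg : Sm (dp g)) (v : V n) (N : ℕ) :
    sn 0 (dp (Wm g v N)) ≤ N * sn 0 (dp g) := by
  have h := Many_rec (a := fun j => sn 0 (dp (Wm g v j))) (q := 1) (B := sn 0 (dp g)) (N := N)
    le_rfl (sn_nonneg _ _) (by rw [Many_dp_zero, sn_zero_fun]) fun j _ => by
      have h1 := Many_step hg v j 0
      have h2 := sn_comp_zero (Many_sm hg v j) (dp (tr ((j : ℝ) • v) * g * (tr ((j : ℝ) • v))⁻¹))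
      linarith
  simpa using h

theorem Many_one {g : Pm n} (hg : Sm (dp g)) (v : V n) {N : ℕ} (h : N * sn 1 (dp g) ≤ 1 / 16) :
    sn 1 (dp (Wm g v N)) ≤ 2 * N * sn 1 (dp g) := by
  have b1 := sn_nonneg 1 (dp g)
  have h0 := Many_rec (a := fun j => sn 1 (dp (Wm g v j))) (q := 1 + sn 1 (dp g))
    (B := sn 1 (dp g)) (N := N) (by linarith) b1 (by rw [Many_dp_zero, sn_zero_fun])
    fun j _ => by
      have h1 := Many_step hg v j 1
      have h2 := sn_comp_one (Many_sm hg v j) (sm_conj_tr hg ((j : ℝ) • v))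
      rw [sn_conj_tr] at h2
      linarith
  have h3 := Many_two b1 h
  have h4 : 0 ≤ (N : ℝ) * sn 1 (dp g) := by positivity
  calc sn 1 (dp (Wm g v N)) ≤ N * sn 1 (dp g) * (1 + sn 1 (dp g)) ^ N := by linarith
    _ ≤ N * sn 1 (dp g) * 2 := mul_le_mul_of_nonneg_left h3 h4
    _ = 2 * N * sn 1 (dp g) := by ring

theorem Many_md_mono {s r : ℕ} (h : s ≤ r) (f : V n → V n) : md s f ≤ md r f :=
  Finset.sum_le_sum_of_subset_of_nonneg (Finset.Ico_subset_Ico_right h)
    fun _ _ _ => sn_nonneg _ _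

theorem Many_md_conj (c : V n) (g : Pm n) (r : ℕ) :
    md r (dp (tr c * g * (tr c)⁻¹)) = md r (dp g) := by
  simp only [md, sn_conj_tr]

theorem Many_all (r : ℕ) : ∃ K : ℝ, 0 ≤ K ∧ ∀ (g : Pm n) (v : V n) (δ : ℝ) (N : ℕ), Sm (dp g) →
    N * nm 2 (dp g) ≤ δ → δ ≤ 1 / 16 → ∀ s, 2 ≤ s → s < r → sn s (dp (Wm g v N)) ≤
      2 * 2 ^ s * N * sn s (dp g) + K * δ * N * md s (dp g) := by
  induction r with
  | zero => exact ⟨0, le_rfl, fun _ _ _ _ _ _ _ s _ hs => absurd hs (by omega)⟩
  | succ r ih =>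
    obtain ⟨K, hK, ih⟩ := ih
    obtain ⟨C, hC, ht⟩ := t3 (n := n) (F := V n)
    have hCr := hC r
    set L : ℝ := C r * (r * (2 * 2 ^ r + K) + 8) with hL
    have hL0 : 0 ≤ L := by positivity
    refine ⟨K + 2 ^ r * L, by positivity, fun g v δ N hg hN hδ s h2 hs => ?_⟩
    have hn := nm_nonneg 2 (dp g)
    have hδ0 : 0 ≤ δ := le_trans (by positivity) hN
    have hm := md_nonneg s (dp g)
    rcases lt_or_eq_of_le (Nat.lt_succ_iff.1 hs) with hlt | rfl
    · have h1 := ih g v δ N hg hN hδ s h2 hlt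
      have h3 : 0 ≤ 2 ^ r * L * δ * N * md s (dp g) := by positivity
      linarith
    rcases Nat.eq_zero_or_pos N with rfl | hN0
    · simp [Many_dp_zero, sn_zero_fun]
    have hN1 : (1 : ℝ) ≤ N := by exact_mod_cast hN0
    have b1 := sn_nonneg 1 (dp g)
    have b2 := sn_nonneg 2 (dp g)
    have bs := sn_nonneg s (dp g)
    have n1 : N * sn 1 (dp g) ≤ δ :=
      (mul_le_mul_of_nonneg_left (sn_le_nm (by omega) _) (by positivity)).trans hN
    have n2 : N * sn 2 (dp g) ≤ δ :=
      (mul_le_mul_of_nonneg_left (sn_le_nm (by omega) _) (by positivity)).trans hN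
    have g1 : sn 1 (dp g) ≤ 1 := by nlinarith
    have g2 : sn 2 (dp g) ≤ 1 := by nlinarith
    have hq : 1 ≤ (1 + sn 1 (dp g)) ^ s := one_le_pow₀ (by linarith)
    have h0 := Many_rec (a := fun j => sn s (dp (Wm g v j))) (q := (1 + sn 1 (dp g)) ^ s)
      (B := 2 * sn s (dp g) + L * δ * md s (dp g)) (N := N) hq (by positivity)
      (by rw [Many_dp_zero, sn_zero_fun]) fun j hj => by
        have hjN : (j : ℝ) ≤ N := by exact_mod_cast hj.le
        have hj0 : (0 : ℝ) ≤ j := by positivity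
        have hjδ : j * nm 2 (dp g) ≤ δ := (mul_le_mul_of_nonneg_right hjN hn).trans hN
        have j1 : j * sn 1 (dp g) ≤ δ := (mul_le_mul_of_nonneg_right hjN b1).trans n1
        have j2 : j * sn 2 (dp g) ≤ δ := (mul_le_mul_of_nonneg_right hjN b2).trans n2
        have h1 := Many_step hg v j s
        have h3 := ht s h2 _ _ (Many_sm hg v j) (sm_conj_tr hg ((j : ℝ) • v))
          (by rwa [sn_conj_tr]) (by rwa [sn_conj_tr])
        simp only [sn_conj_tr, Many_md_conj] at h3
        have a1 : sn 1 (dp (Wm g v j)) ≤ 1 := by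
          have := Many_one hg v (j1.trans hδ)
          linarith
        have a2 : sn 2 (dp (Wm g v j)) * md s (dp g) ≤ 8 * δ * md s (dp g) := by
          rcases eq_or_lt_of_le h2 with rfl | h4
          · simp [md_two]
          · have h5 := ih g v δ j hg hjδ hδ 2 le_rfl h4
            rw [md_two] at h5
            exact mul_le_mul_of_nonneg_right (by linarith) hm
        have a3 : md s (dp (Wm g v j)) ≤ s * ((2 * 2 ^ s + K) * j * md s (dp g)) := by
          refine md_le_of_sn_le (by positivity) fun t t2 ts => ?_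
          have h5 := ih g v δ j hg hjδ hδ t t2 ts
          have h6 := sn_le_md t2 ts (dp g)
          have h7 := Many_md_mono ts.le (dp g)
          have h8 : (2 : ℝ) ^ t ≤ 2 ^ s := pow_le_pow_right₀ (by norm_num) ts.le
          have h9 := md_nonneg t (dp g)
          have h10 := sn_nonneg t (dp g)
          have h11 : 2 * 2 ^ t * j * sn t (dp g) ≤ 2 * 2 ^ s * j * md s (dp g) := by gcongr
          have h12 : K * δ * j * md t (dp g) ≤ K * 1 * j * md s (dp g) := by
            gcongr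
            linarith
          linarith
        have a4 : md s (dp (Wm g v j)) * sn 2 (dp g) ≤
            s * (2 * 2 ^ s + K) * δ * md s (dp g) := by
          calc md s (dp (Wm g v j)) * sn 2 (dp g)
              ≤ s * ((2 * 2 ^ s + K) * j * md s (dp g)) * sn 2 (dp g) :=
                mul_le_mul_of_nonneg_right a3 b2
            _ = s * (2 * 2 ^ s + K) * (j * sn 2 (dp g)) * md s (dp g) := by ring
            _ ≤ s * (2 * 2 ^ s + K) * δ * md s (dp g) := by gcongr
        have a5 := mul_le_mul_of_nonneg_left (add_le_add a4 a2) hCr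
        have a6 := mul_le_mul_of_nonneg_right a1 bs
        have a7 : C s * (s * (2 * 2 ^ s + K) * δ * md s (dp g) + 8 * δ * md s (dp g)) =
            L * δ * md s (dp g) := by rw [hL]; ring
        show sn s (dp (Wm g v (j + 1))) ≤ sn s (dp (Wm g v j)) * _ + _
        linarith
    have h4 : ((1 + sn 1 (dp g)) ^ s) ^ N ≤ 2 ^ s := by
      rw [← pow_mul, mul_comm, pow_mul]
      exact pow_le_pow_left₀ (by positivity) (Many_two b1 (n1.trans hδ)) s
    have h5 : 0 ≤ K * δ * N * md s (dp g) := by positivity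
    calc sn s (dp (Wm g v N))
        ≤ N * ((1 + sn 1 (dp g)) ^ s) ^ N * (2 * sn s (dp g) + L * δ * md s (dp g)) := h0
      _ ≤ N * 2 ^ s * (2 * sn s (dp g) + L * δ * md s (dp g)) := by gcongr
      _ = 2 * 2 ^ s * N * sn s (dp g) + 2 ^ s * L * δ * N * md s (dp g) := by ring
      _ ≤ _ := by linarith

/-- `dp_mul`, `t3`, `sn_conj_tr`; the recursion `a (j+1) ≤ (1 + b₁)^r a j + B` gives
`a N ≤ 2^r N B` since `(1 + b₁)^N ≤ exp δ ≤ 2`; strong induction on `r`. -/
theorem many : ∃ C : ℕ → ℝ, (∀ r, 0 ≤ C r) ∧ ∀ (g : Pm n) (v : V n) (δ : ℝ) (N : ℕ), Sm (dp g) →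
    N * nm 2 (dp g) ≤ δ → δ ≤ 1 / 16 →
      Sm (dp (Wm g v N)) ∧ sn 0 (dp (Wm g v N)) ≤ N * sn 0 (dp g) ∧
      sn 1 (dp (Wm g v N)) ≤ 2 * N * sn 1 (dp g) ∧
      ∀ r, 2 ≤ r → sn r (dp (Wm g v N)) ≤
        2 * 2 ^ r * N * sn r (dp g) + C r * δ * N * md r (dp g) := by
  choose K hK h using Many_all (n := n)
  refine ⟨fun r => K (r + 1), fun r => hK _, fun g v δ N hg hN hδ => ⟨Many_sm hg v N,
    Many_zero hg v N, Many_one hg v ?_, fun r hr => h _ g v δ N hg hN hδ r hr (by omega)⟩⟩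
  exact ((mul_le_mul_of_nonneg_left (sn_le_nm (by omega) _) (by positivity)).trans hN).trans hδ

/-- periodic extension in the direction `d` from the slab `b ≤ x d < b + η` -/
noncomputable def per (d : Fin n) (b η : ℝ) (w : V n → V n) : V n → V n :=
  fun x => w (x - sg d (η * ⌊(x d - b) / η⌋))

theorem Many_add_sg (d : Fin n) (x : V n) (t : ℝ) : (x + sg d t) d = x d + t := by simp

theorem Many_sub_sg (d : Fin n) (x : V n) (t : ℝ) : (x - sg d t) d = x d - t := by simp

theorem per_add (d : Fin n) {η : ℝ} (hη : 0 < η) (b : ℝ) (w : V n → V n) (x : V n) :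
    per d b η w (x + sg d η) = per d b η w x := by
  have e : (x d + η - b) / η = (x d - b) / η + 1 := by field_simp; ring
  simp only [per, Many_add_sg, e, Int.floor_add_one]
  congr 1
  push_cast
  rw [mul_add, mul_one, sg_add]
  abel

theorem Many_per_eq (d : Fin n) {η b : ℝ} (hη : 0 < η) {w : V n → V n}
    (hp : ∀ x, b - η ≤ x d → x d ≤ b + 2 * η → w (x + sg d η) = w x) (x : V n)
    (h1 : b - η ≤ x d) (h2 : x d ≤ b + 3 * η) : per d b η w x = w x := by
  have base : ∀ y : V n, b ≤ y d → y d < b + η → per d b η w y = w y := by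
    intro y h3 h4
    have e : ⌊(y d - b) / η⌋ = 0 :=
      Int.floor_eq_zero_iff.2 ⟨div_nonneg (by linarith) hη.le, (div_lt_one hη).2 (by linarith)⟩
    simp [per, e]
  have step : ∀ c, c ≤ b + 2 * η → (∀ y : V n, b ≤ y d → y d ≤ c → per d b η w y = w y) →
      ∀ y : V n, b ≤ y d → y d ≤ c + η → per d b η w y = w y := by
    intro c hc ih y h3 h4
    rcases lt_or_ge (y d) (b + η) with h5 | h5
    · exact base y h3 h5
    · have h6 := per_add d hη b w (y - sg d η)
      have h7 := hp (y - sg d η) (by rw [Many_sub_sg]; linarith) (by rw [Many_sub_sg]; linarith)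
      rw [sub_add_cancel] at h6 h7
      rw [h6, h7]
      exact ih _ (by rw [Many_sub_sg]; linarith) (by rw [Many_sub_sg]; linarith)
  have s0 : ∀ y : V n, b ≤ y d → y d ≤ b → per d b η w y = w y :=
    fun y h3 h4 => base y h3 (by linarith)
  have s3 := step _ (by linarith) (step _ (by linarith) (step _ (by linarith) s0))
  rcases le_or_gt b (x d) with h | h
  · exact s3 x h (by linarith)
  · rw [← per_add d hη, ← hp x h1 (by linarith)]
    exact base _ (by rw [Many_add_sg]; linarith) (by rw [Many_add_sg]; linarith)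

theorem Many_per_int (d : Fin n) {η : ℝ} (hη : 0 < η) (b : ℝ) (w : V n → V n) (k : ℤ) (x : V n) :
    per d b η w (x + -sg d (k * η)) = per d b η w x := by
  have hP : Function.Periodic (per d b η w) (sg d η) := per_add d hη b w
  have e : sg d (k * η) = k • sg d η := by
    rw [← smul_sg, Int.cast_smul_eq_zsmul]
  rw [e, ← sub_eq_add_neg]
  exact hP.sub_zsmul_eq k

/-- `sm_of_local` -/
theorem per_spec (d : Fin n) {η b : ℝ} (hη : 0 < η) {w : V n → V n} (hw : Sm w)
    (hp : ∀ x, b - η ≤ x d → x d ≤ b + 2 * η → w (x + sg d η) = w x) :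
    Sm (per d b η w) ∧ (∀ r, sn r (per d b η w) ≤ sn r w) ∧
      ∀ x, b - η ≤ x d → x d ≤ b + 3 * η → per d b η w x = w x := by
  have h := sm_of_local (f := per d b η w) (B := fun r => sn r w) fun x => by
    set k : ℤ := ⌊(x d - b) / η⌋ with hk
    have h1 : (k : ℝ) * η ≤ x d - b := (le_div_iff₀ hη).1 (Int.floor_le _)
    have h2 : x d - b < (k + 1) * η := (div_lt_iff₀ hη).1 (Int.lt_floor_add_one _)
    refine ⟨fun z => w (z + -sg d (k * η)), hw.comp_add _, fun r => (sn_comp_add _ _ r).le, ?_⟩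
    filter_upwards [(continuous_apply d).continuousAt.preimage_mem_nhds
      (Ioo_mem_nhds (show x d - η < x d by linarith) (show x d < x d + η by linarith))] with z hz
    have hz1 : x d - η < z d := hz.1
    have hz2 : z d < x d + η := hz.2
    have e : (z + -sg d (k * η)) d = z d - k * η := by simp [sub_eq_add_neg]
    rw [← Many_per_int d hη b w k z]
    exact Many_per_eq d hη hp _ (by rw [e]; linarith) (by rw [e]; linarith)
  exact ⟨h.1, h.2, Many_per_eq d hη hp⟩

theorem Many_step2 {g : Pm n} {d : Fin n} {a l η : ℝ}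
    (hf : ∀ x, x d ≤ a ∨ a + l ≤ x d → g x = x) (j : ℕ) {y : V n}
    (hy : y d ≤ a + j * η) : Wm g (sg d η) (j + 1) y = Wm g (sg d η) j y := by
  rw [Wm_succ]
  simp only [Equiv.Perm.mul_apply, tr_inv_apply, tr_apply, smul_sg]
  rw [hf _ (Or.inl (by rw [Many_sub_sg]; linarith)), sub_add_cancel]

theorem Many_rec2 {g : Pm n} {d : Fin n} {a l η : ℝ}
    (hf : ∀ x, x d ≤ a ∨ a + l ≤ x d → g x = x) (j : ℕ) {x : V n}
    (hx : x d + η ≤ a + j * η) :
    Wm g (sg d η) j (x + sg d η) = g (Wm g (sg d η) j x + sg d η) := by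
  have e : Wm g (sg d η) (j + 1) = g * tr (sg d η) * Wm g (sg d η) j * (tr (sg d η))⁻¹ := by
    rw [Wm, Wm, pow_succ', pow_succ]
    simp only [mul_assoc]
  rw [← Many_step2 hf j (by rw [Many_add_sg]; exact hx), e]
  simp only [Equiv.Perm.mul_apply, tr_inv_apply, tr_apply, add_sub_cancel_right]

theorem Many_left2 {g : Pm n} {d : Fin n} {a l η : ℝ} (hη : 0 < η)
    (hf : ∀ x, x d ≤ a ∨ a + l ≤ x d → g x = x) (j : ℕ) {x : V n}
    (hx : x d ≤ a) : Wm g (sg d η) j x = x := by
  induction j with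
  | zero => simp [Wm_zero]
  | succ j ih => rw [Many_step2 hf j (hx.trans (le_add_of_nonneg_right (by positivity))), ih]

theorem Many_per_comm (d : Fin n) (b η : ℝ) {w : V n → V n} {u : V n} (hu : u d = 0)
    (hw : ∀ x, w (x + u) = w x) (x : V n) : per d b η w (x + u) = per d b η w x := by
  have e : (x + u) d = x d := by simp [hu]
  simp only [per, e]
  rw [add_sub_right_comm, hw]

theorem Many_per_van (d : Fin n) (b η : ℝ) {w : V n → V n} {K : Set (V n)}
    (hK : ∀ x ∈ K, ∀ t, x + sg d t ∈ K) (hw : Van K w) : Van K (per d b η w) := by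
  intro x hx
  refine hw _ fun h => hx ?_
  have := hK _ h (η * ⌊(x d - b) / η⌋)
  rwa [sub_add_cancel] at this

/-- With `W = Wm g (sg d η) M` one has `W (x + η e) = g (W x + η e)` for `x d + η ≤ a + M η`. The
map `k` has displacement `dp W` for `x d ≤ b = a + l + δ` and `per d b η (dp W)` for `x d ≥ b`.
The last two clauses follow from `Wm_comm`, `Wm_fix`, `commute_tr_iff` and these formulas. -/
theorem roll {g : Pm n} (d : Fin n) {a l η δ : ℝ} {M : ℕ} (hη : 0 < η) (hl : 0 ≤ l)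
    (hf : ∀ x, x d ≤ a ∨ a + l ≤ x d → g x = x)
    (hM : l + δ + 3 * η ≤ M * η) (hs : Sm (dp (Wm g (sg d η) M)))
    (h0 : sn 0 (dp (Wm g (sg d η) M)) ≤ δ) (h1 : sn 1 (dp (Wm g (sg d η) M)) ≤ 1 / 2) :
    ∃ k Ω : Pm n, Sm (dp k) ∧ Sm (dp Ω) ∧ (∀ r, sn r (dp k) ≤ sn r (dp (Wm g (sg d η) M))) ∧
      (∀ r, sn r (dp Ω) ≤ sn r (dp (Wm g (sg d η) M))) ∧ g = ⁅k, tr (sg d η)⁆ ∧
      Ω * tr (sg d η) = tr (sg d η) * Ω ∧
      (∀ x, x d ≤ a → k x = x) ∧ (∀ x, a + l + δ ≤ x d → k x = Ω x) ∧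
      dp Ω = per d (a + l + δ) η (dp (Wm g (sg d η) M)) ∧
      (∀ u : V n, u d = 0 → g * tr u = tr u * g → k * tr u = tr u * k ∧ Ω * tr u = tr u * Ω) ∧
      ∀ K : Set (V n), (∀ x ∈ K, ∀ t, x + sg d t ∈ K) → Fix K g → Fix K k ∧ Fix K Ω := by
  have hδ : 0 ≤ δ := (sn_nonneg _ _).trans h0
  set b := a + l + δ with hb
  set w := dp (Wm g (sg d η) M) with hw
  have hW : ∀ x, Wm g (sg d η) M x = x + w x := apply_eq_add_dp _
  have hp : ∀ x : V n, b - η ≤ x d → x d ≤ b + 2 * η → w (x + sg d η) = w x := by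
    intro x h2 h3
    have h4 := Many_rec2 hf M (x := x) (η := η) (by linarith)
    have h5 := (abs_le.1 (((abs_apply_le _ d).trans (norm_le_sn_zero hs x)).trans h0)).1
    have e : (x + w x + sg d η) d = x d + w x d + η := by simp
    rw [hW, hW, hf _ (Or.inr (by rw [e]; linarith)), add_right_comm] at h4
    have h6 : x + w (x + sg d η) = x + w x := add_right_cancel h4
    exact add_left_cancel h6
  obtain ⟨p1, p2, p3⟩ := per_spec d hη hs hp
  set κ : V n → V n := fun x => if x d ≤ b then w x else per d b η w x with hκ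
  have k1 : ∀ x : V n, x d ≤ b + 3 * η → κ x = w x := by
    intro x hx
    simp only [hκ]
    split_ifs with h
    · rfl
    · exact p3 x (by linarith [not_le.1 h]) hx
  have k2 : ∀ x : V n, b - η ≤ x d → κ x = per d b η w x := by
    intro x hx
    simp only [hκ]
    split_ifs with h
    · exact (p3 x hx (by linarith)).symm
    · rfl
  obtain ⟨q1, q2⟩ := sm_of_local (f := κ) (B := fun r => sn r w) fun x => by
    rcases le_or_gt (x d) b with h | h
    · refine ⟨w, hs, fun _ => le_rfl, ?_⟩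
      filter_upwards [(continuous_apply d).continuousAt.preimage_mem_nhds
        (Iio_mem_nhds (show x d < b + 3 * η by linarith))] with z hz
      exact k1 z (le_of_lt hz)
    · refine ⟨per d b η w, p1, p2, ?_⟩
      filter_upwards [(continuous_apply d).continuousAt.preimage_mem_nhds
        (Ioi_mem_nhds (show b - η < x d by linarith))] with z hz
      exact k2 z (le_of_lt hz)
  have dk := dp_mkp q1 ((q2 1).trans h1)
  have dΩ := dp_mkp p1 ((p2 1).trans h1)
  have ek : ∀ x, mkp κ x = x + κ x := fun x => by rw [apply_eq_add_dp, dk]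
  refine ⟨mkp κ, mkp (per d b η w), dk.symm ▸ q1, dΩ.symm ▸ p1, dk.symm ▸ q2, dΩ.symm ▸ p2, ?_,
    (commute_tr_iff _ _).2 (dΩ.symm ▸ per_add d hη b w), fun x hx => ?_, fun x hx => ?_, dΩ,
    fun u hu hg => ?_, fun K hK hg => ?_⟩
  · have key : g * tr (sg d η) * mkp κ = mkp κ * tr (sg d η) := by
      ext1 x
      simp only [Equiv.Perm.mul_apply, tr_apply, ek]
      rcases le_or_gt (x d) b with h | h
      · rw [k1 x (by linarith), k1 _ (by rw [Many_add_sg]; linarith), ← hW, ← hW,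
          Many_rec2 hf M (by linarith)]
      · have h5 := (abs_le.1 (((abs_apply_le _ d).trans (norm_le_sn_zero p1 x)).trans
          ((p2 0).trans h0))).1
        have e : (x + per d b η w x + sg d η) d = x d + per d b η w x d + η := by simp
        rw [k2 x (by linarith), k2 _ (by rw [Many_add_sg]; linarith), per_add d hη,
          hf _ (Or.inr (by rw [e]; linarith))]
        abel
    rw [commutatorElement_def, ← key]
    group
  · rw [ek, k1 x (by linarith), ← hW, Many_left2 hη hf M hx]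
  · rw [ek, apply_eq_add_dp, dΩ, k2 x (by linarith)]
  · have c1 : ∀ x, w (x + u) = w x := (commute_tr_iff _ _).1 (Wm_comm hg _ M)
    have c2 := Many_per_comm d b η hu c1
    refine ⟨(commute_tr_iff _ _).2 fun x => ?_, (commute_tr_iff _ _).2 (dΩ.symm ▸ c2)⟩
    have e : (x + u) d = x d := by simp [hu]
    rw [dk]
    simp only [hκ, e, c1, c2]
  · have v1 : Van K w := fix_iff_van.1 (Wm_fix hK hg η M)
    have v2 := Many_per_van d b η hK v1
    refine ⟨fix_iff_van.2 fun x hx => ?_, fix_iff_van.2 (dΩ.symm ▸ v2)⟩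
    rw [dk]
    simp only [hκ, v1 x hx, v2 x hx, ite_self]

end Pool.Agent.P.MP_878f14_gt.HT
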