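import Pool.Agent.P.MP_878f14_gt.HT.MicroT

/-! The fixed point theorem of Mather type, at period one and at period `η`. -/

namespace Pool.Agent.P.MP_878f14_gt.HT

open scoped commutatorElement

variable {n : ℕ}

/-- all norms are controlled by those of `ω` -/
def Bw (ω : V n → V n) (C : ℕ → ℝ) (e : Pm n) : Prop :=
  Sm (dp e) ∧ ∀ r, sn r (dp e) ≤ C r * sn (max r (n + 2)) ω

/-- conclusion of the fixed point theorem at period `η` -/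
def MicroAt (D : ℕ) (C : ℕ → ℝ) (η : ℝ) (Ω₀ : Pm n) : Prop :=
  ∃ (O O' : ℕ → Pm n) (k k' : Fin n → Pm n) (c : V n),
    Chn η (η * (3 * D + 1)) O k ∧ Chn η (η * (3 * D + 1)) O' k' ∧
    O' 0 = aff D 0 * O 0 * (aff D 0)⁻¹ ∧ O n = (tr c)⁻¹ * O' n * Ω₀ ∧
    ‖c‖ ≤ C 0 * sn (n + 2) (dp Ω₀) ∧
    (∀ j, j ≤ n → Bw (dp Ω₀) C (O j) ∧ Bw (dp Ω₀) C (O' j)) ∧
    ∀ j, Bw (dp Ω₀) C (k j) ∧ Bw (dp Ω₀) C (k' j)

/-- `microB`, `TP_mapsTo`, `TP_lip`, `fixed_PK`; for the fixed point `p` take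
`O j = dn p (n - j)`, `O' = up D p`, `c = dp (up D p n) 0`. -/
theorem micro_one (n : ℕ) : ∃ (D : ℕ) (e₀ : ℝ) (C : ℕ → ℝ), 2 ≤ D ∧ 0 < e₀ ∧ (∀ r, 0 ≤ C r) ∧
    ∀ Ω₀ : Pm n, Pn (dp Ω₀) → sn (n + 2) (dp Ω₀) ≤ e₀ → MicroAt D C 1 Ω₀ := by
  obtain ⟨D, e₂, C, hD, he, hC, h⟩ := microB n
  obtain ⟨K, e₀, hK, he0, hKe, hT⟩ := TP_mapsTo he hC h
  obtain ⟨L, hL⟩ := TP_lip hD h
  refine ⟨D, e₀, fun r => C r * K (max r (n + 2)), hD, he0,
    fun r => mul_nonneg (hC r) (hK _), fun Ω₀ hω h3 => ?_⟩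
  have small : ∀ p ∈ PK (n := n) (fun r => K r * sn r (dp Ω₀)), sn (n + 2) p ≤ e₂ := fun p hp =>
    (hp.2 (n + 2) le_rfl).trans ((mul_le_mul_of_nonneg_left h3 (hK _)).trans hKe)
  obtain ⟨p, hp, hfix⟩ := fixed_PK (fun r => mul_nonneg (hK r) (sn_nonneg r _)) (hT _ hω h3)
    (L := L) (fun p hp p' hp' d hd => hL _ p p' hp.1 (small p hp) hp'.1 (small p' hp') d hd)
  obtain ⟨d1, a2, a3, -, -, -⟩ := h p hp.1 (small p hp)
  have top : ∀ r, sn (max r (n + 2)) p ≤ K (max r (n + 2)) * sn (max r (n + 2)) (dp Ω₀) :=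
    fun r => hp.2 _ (le_max_right _ _)
  have bw : ∀ e : Pm n, Bd p C e → Bw (dp Ω₀) (fun r => C r * K (max r (n + 2))) e :=
    fun e he => ⟨he.1, fun r => by
      rw [mul_assoc]
      exact (he.2.2 r).trans (mul_le_mul_of_nonneg_left (top r) (hC r))⟩
  have hk' : ∀ j : Fin n, ∃ k : Pm n, Bd p C k ∧
      Lnk 1 (3 * D + 1) j k (up D p j) (up D p (j + 1)) := fun j => (a3 j.1 j.2).2.2.2.2
  choose k' b1 b2 using hk'
  have hk : ∀ j : Fin n, Bd p C (kap j (dn p (n - (j + 1)))) ∧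
      Lnk 1 3 j (kap j (dn p (n - (j + 1)))) (dn p (n - j)) (dn p (n - (j + 1))) := fun j => by
    have hm : n - (j + 1) < n := by have := j.2; omega
    have e1 : Fin.rev ⟨n - (j + 1), hm⟩ = j := by
      apply Fin.ext
      have := j.2
      simp only [Fin.val_rev]
      omega
    have e2 : n - (j + 1) + 1 = n - j := by have := j.2; omega
    obtain ⟨-, c2, c3, -⟩ := a3 _ hm
    rw [e1] at c2 c3
    rw [e2] at c3
    exact ⟨c2, c3⟩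
  have hD' : (2 : ℝ) ≤ D := by exact_mod_cast hD
  refine ⟨fun j => dn p (n - j), up D p, fun j => kap j (dn p (n - (j + 1))), k',
    dp (up D p n) 0, fun j => (hk j).2.mono (by linarith), fun j => (b2 j).mono (by linarith),
    rfl, ?_, ?_, fun j hj => ⟨bw _ (a2 _ (Nat.sub_le _ _)).1, bw _ (a2 j hj).2⟩,
    fun j => ⟨bw _ (hk j).1, bw _ (b1 j)⟩⟩
  · ext1 x
    have e := congrFun hfix x
    simp only [TP] at e
    simp only [Nat.sub_self, dn]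
    rw [Equiv.Perm.mul_apply, Equiv.Perm.mul_apply, tr_inv_apply, apply_eq_add_dp (mkp p), d1,
      apply_eq_add_dp (up D p n), apply_eq_add_dp Ω₀, ← e]
    abel
  · have c1 := (bw _ (a2 n le_rfl).2).2 0
    have c2 : max 0 (n + 2) = n + 2 := max_eq_right (Nat.zero_le _)
    rw [c2] at c1
    simp only [c2]
    exact (norm_le_sn_zero (a2 n le_rfl).2.1 0).trans c1

/-- conjugate by `aff η 0`; `sn_conj_aff`, `aff_conj_tr`, `Chn.conj` -/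
theorem micro (n : ℕ) : ∃ (D : ℕ) (e₀ : ℝ) (C : ℕ → ℝ), 2 ≤ D ∧ 0 < e₀ ∧ (∀ r, 0 ≤ C r) ∧
    ∀ (η : ℝ) (Ω₀ : Pm n), 0 < η → η ≤ 1 → Sm (dp Ω₀) →
      (∀ d, Ω₀ * tr (sg d η) = tr (sg d η) * Ω₀) → Ω₀ 0 = 0 →
      sn (n + 2) (dp Ω₀) ≤ e₀ → MicroAt D C η Ω₀ := by
  obtain ⟨D, e₀, C, hD, he, hC, h⟩ := micro_one n
  refine ⟨D, e₀, C, hD, he, hC, fun η Ω₀ h0 h1 hs hc hz h3 => ?_⟩
  have n0 : η ≠ 0 := h0.ne'
  have hD0 : (D : ℝ) ≠ 0 := by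
    have : 0 < D := by omega
    positivity
  obtain ⟨A, hA⟩ : ∃ A : Pm n, A = aff η 0 := ⟨_, rfl⟩
  have t1 : ∀ d : Fin n, A * tr (sg d 1) * A⁻¹ = tr (sg d η) := fun d => by
    rw [hA, aff_conj_tr n0, smul_sg, mul_one]
  have cD : aff D 0 * A = A * aff D 0 := by
    rw [hA, aff_mul hD0 n0, aff_mul n0 hD0, mul_comm]
    simp
  have sms : ∀ e : Pm n, Sm (dp e) → Sm (dp (A * e * A⁻¹)) :=
    fun e he => hA ▸ sm_conj_aff he η 0
  have sns : ∀ e : Pm n, Sm (dp e) → ∀ r,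
      sn r (dp (A * e * A⁻¹)) = η / η ^ r * sn r (dp e) :=
    fun e he r => hA ▸ sn_conj_aff he h0 0 r
  obtain ⟨Ω, hΩ⟩ : ∃ Ω, Ω = A⁻¹ * Ω₀ * A := ⟨_, rfl⟩
  have e0 : Ω₀ = A * Ω * A⁻¹ := by rw [hΩ]; group
  have s0 : Sm (dp Ω) := by
    have := sm_conj_aff hs η⁻¹ (-(η⁻¹ • (0 : V n)))
    rw [← aff_inv n0, inv_inv, ← hA, ← hΩ] at this
    exact this
  have q : ∀ r, sn r (dp Ω) = η ^ r / η * sn r (dp Ω₀) := fun r => by
    rw [e0, sns Ω s0]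
    field_simp
  have pw : ∀ r : ℕ, η ^ r ≤ 1 := fun r => pow_le_one₀ h0.le h1
  have q3 : sn (n + 2) (dp Ω) ≤ sn (n + 2) (dp Ω₀) := by
    rw [q (n + 2), show η ^ (n + 2) / η = η ^ (n + 1) by rw [pow_succ]; field_simp]
    exact mul_le_of_le_one_left (sn_nonneg _ _) (pw _)
  have pn : Pn (dp Ω) := by
    refine ⟨s0, fun d => (commute_tr_iff _ _).1 ?_, ?_⟩
    · have hc' := hc d
      rw [← t1] at hc'
      rw [hΩ]
      calc A⁻¹ * Ω₀ * A * tr (sg d 1) = A⁻¹ * (Ω₀ * (A * tr (sg d 1) * A⁻¹)) * A := by group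
        _ = A⁻¹ * (A * tr (sg d 1) * A⁻¹ * Ω₀) * A := by rw [hc']
        _ = tr (sg d 1) * (A⁻¹ * Ω₀ * A) := by group
    · have z : Ω 0 = 0 := by
        rw [hΩ, hA, Equiv.Perm.mul_apply, Equiv.Perm.mul_apply, aff_apply n0, aff_inv_apply n0]
        simp [hz]
      simp [dp, z]
  obtain ⟨O, O', k, k', c, a1, a2, a3, a4, a5, a6, a7⟩ := h Ω pn (q3.trans h3)
  have bd : ∀ e : Pm n, Bw (dp Ω) C e → Bw (dp Ω₀) C (A * e * A⁻¹) := fun e hb => by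
    refine ⟨sms e hb.1, fun r => ?_⟩
    rw [sns e hb.1]
    refine (mul_le_mul_of_nonneg_left (hb.2 r) (by positivity)).trans ?_
    obtain ⟨j, hj⟩ : ∃ j, max r (n + 2) = r + j := ⟨max r (n + 2) - r, by omega⟩
    rw [q, show η / η ^ r * (C r * (η ^ max r (n + 2) / η * sn (max r (n + 2)) (dp Ω₀))) =
      η ^ j * (C r * sn (max r (n + 2)) (dp Ω₀)) by rw [hj, pow_add]; field_simp]
    exact mul_le_of_le_one_left (mul_nonneg (hC r) (sn_nonneg _ _)) (pw j)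
  have c1 := a1.conj h0
  have c2 := a2.conj h0
  rw [mul_one, one_mul, ← hA] at c1 c2
  refine ⟨fun j => A * O j * A⁻¹, fun j => A * O' j * A⁻¹, fun j => A * k j * A⁻¹,
    fun j => A * k' j * A⁻¹, η • c, c1, c2, ?_, ?_, ?_,
    fun j hj => ⟨bd _ (a6 j hj).1, bd _ (a6 j hj).2⟩, fun j => ⟨bd _ (a7 j).1, bd _ (a7 j).2⟩⟩
  · beta_reduce
    rw [a3]
    calc A * (aff D 0 * O 0 * (aff D 0)⁻¹) * A⁻¹
        = (A * aff D 0) * O 0 * (A * aff D 0)⁻¹ := by group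
      _ = (aff D 0 * A) * O 0 * (aff D 0 * A)⁻¹ := by rw [cD]
      _ = aff D 0 * (A * O 0 * A⁻¹) * (aff D 0)⁻¹ := by group
  · have t2 : A * tr c * A⁻¹ = tr (η • c) := by rw [hA, aff_conj_tr n0]
    beta_reduce
    rw [a4, ← t2, e0]
    group
  · rw [norm_smul, Real.norm_of_nonneg h0.le]
    refine (mul_le_of_le_one_left (norm_nonneg c) h1).trans (a5.trans ?_)
    exact mul_le_mul_of_nonneg_left q3 (hC 0)

end Pool.Agent.P.MP_878f14_gt.HT
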