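import Pool.Agent.P.MP_7bb7e1_gt.Schauder
import Pool.Agent.P.MP_878f14_gt.HT.LK
import Pool.Agent.P.MP_878f14_gt.HT.Norm2

/-! A fixed point theorem for normalised periodic maps with bounded derivatives. -/

namespace Pool.Agent.P.MP_878f14_gt.HT

open Set

variable {n : ℕ}

/-- smooth, periodic, vanishing at the origin -/
def Pn (p : V n → V n) : Prop := Sm p ∧ (∀ d x, p (x + sg d 1) = p x) ∧ p 0 = 0

def PK (M : ℕ → ℝ) : Set (V n → V n) := {p | Pn p ∧ ∀ r, n + 2 ≤ r → sn r p ≤ M r}

theorem pk_step {F : Type} [NormedAddCommGroup F] [NormedSpace ℝ F] [CompleteSpace F]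
    {q : ℕ → V n → F} {g : V n → F} {C : ℝ} (hq : ∀ k, Sm (q k))
    (hC : ∀ k, sn 2 (q k) ≤ C) (hl : TendstoUniformly q g Filter.atTop) :
    Differentiable ℝ g ∧
      TendstoUniformly (fun k => fderiv ℝ (q k)) (fderiv ℝ g) Filter.atTop := by
  have hC0 : 0 ≤ C := (sn_nonneg 2 (q 0)).trans (hC 0)
  have hcau : UniformCauchySeqOn (fun k => fderiv ℝ (q k)) Filter.atTop univ := by
    rw [Metric.uniformCauchySeqOn_iff]
    intro ε hε
    have hδ : 0 < ε ^ 2 / (64 * (C + 1)) := by positivity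
    obtain ⟨N, hN⟩ := Filter.eventually_atTop.1 (Metric.tendstoUniformly_iff.1 hl _ hδ)
    refine ⟨N, fun m hm k hk x _ => ?_⟩
    have hs : Sm fun y => q m y - q k y := (hq m).sub (hq k)
    have h0 : sn 0 (fun y => q m y - q k y) ≤ 2 * (ε ^ 2 / (64 * (C + 1))) := by
      refine sn_zero_le fun y => ?_
      have h1 := hN m hm y
      have h2 := hN k hk y
      have h3 := dist_triangle_left (q m y) (q k y) (g y)
      rw [← dist_eq_norm]
      linarith
    have h2 : sn 2 (fun y => q m y - q k y) ≤ 2 * C := by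
      have := sn_sub_le (hq m) (hq k) 2
      linarith [hC m, hC k]
    have h1 := landau hs 0
    have h3 : sn 0 (fun y => q m y - q k y) * sn 2 (fun y => q m y - q k y) ≤
        2 * (ε ^ 2 / (64 * (C + 1))) * (2 * C) :=
      mul_le_mul h0 h2 (sn_nonneg _ _) (by positivity)
    have h4 : 8 * (2 * (ε ^ 2 / (64 * (C + 1))) * (2 * C)) < ε ^ 2 := by
      have : 8 * (2 * (ε ^ 2 / (64 * (C + 1))) * (2 * C)) = ε ^ 2 * (C / (2 * (C + 1))) := by
        field_simp; ring
      rw [this]
      refine mul_lt_of_lt_one_right (by positivity) ?_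
      rw [div_lt_one (by positivity)]
      linarith
    have h5 : sn 1 (fun y => q m y - q k y) < ε := by
      refine lt_of_pow_lt_pow_left₀ 2 hε.le ?_
      simp only [zero_add] at h1
      linarith
    have h6 := norm_fderiv_le_sn_one hs x
    have h7 : fderiv ℝ (fun y => q m y - q k y) x = fderiv ℝ (q m) x - fderiv ℝ (q k) x :=
      fderiv_fun_sub ((hq m).differentiable x) ((hq k).differentiable x)
    rw [h7] at h6
    rw [dist_eq_norm]
    exact lt_of_le_of_lt h6 h5
  have hex : ∀ x, ∃ y, Filter.Tendsto (fun k => fderiv ℝ (q k) x) Filter.atTop (nhds y) :=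
    fun x => cauchySeq_tendsto_of_complete (hcau.cauchySeq (mem_univ x))
  choose g' hg' using hex
  have hu : TendstoUniformly (fun k => fderiv ℝ (q k)) g' Filter.atTop :=
    tendstoUniformlyOn_univ.1 (hcau.tendstoUniformlyOn_of_tendsto fun x _ => hg' x)
  have hd : ∀ x, HasFDerivAt g (g' x) x :=
    hasFDerivAt_of_tendstoUniformly hu
      (fun k x => ((hq k).differentiable x).hasFDerivAt) (fun x => hl.tendsto_at x)
  have he : fderiv ℝ g = g' := funext fun x => (hd x).fderiv
  exact ⟨fun x => (hd x).differentiableAt, he ▸ hu⟩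

theorem pk_ind (r : ℕ) : ∀ (F : Type) [NormedAddCommGroup F] [NormedSpace ℝ F] [CompleteSpace F]
    (p : ℕ → V n → F) (f : V n → F) (B : ℕ → ℝ), (∀ k, Sm (p k)) → (∀ k r, sn r (p k) ≤ B r) →
      TendstoUniformly p f Filter.atTop →
        ContDiff ℝ r f ∧ ∀ x, ‖iteratedFDeriv ℝ r f x‖ ≤ B r := by
  induction r with
  | zero =>
    intro F _ _ _ p f B hp hB hl
    refine ⟨?_, fun x => ?_⟩
    · rw [Nat.cast_zero, contDiff_zero]
      exact (pk_step hp (fun k => hB k 2) hl).1.continuous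
    · rw [norm_iteratedFDeriv_zero]
      exact le_of_tendsto' (hl.tendsto_at x).norm fun k =>
        (norm_le_sn_zero (hp k) x).trans (hB k 0)
  | succ r ih =>
    intro F _ _ _ p f B hp hB hl
    obtain ⟨h1, h2⟩ := pk_step hp (fun k => hB k 2) hl
    obtain ⟨h3, h4⟩ := ih _ (fun k => fderiv ℝ (p k)) (fderiv ℝ f) (fun r => B (r + 1))
      (fun k => (hp k).fderiv) (fun k r => by rw [sn_fderiv]; exact hB k _) h2
    refine ⟨?_, fun x => ?_⟩
    · rw [Nat.cast_succ, contDiff_succ_iff_fderiv]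
      exact ⟨h1, fun h => absurd h (by simp), h3⟩
    · rw [← norm_iteratedFDeriv_fderiv]
      exact h4 x

/-- a uniform limit of smooth functions with uniformly bounded derivatives: the derivatives are
uniformly Cauchy by `landau`; `hasFDerivAt_of_tendstoUniformly`; induct on the order for all
complete targets -/
theorem sm_of_limit {F : Type} [NormedAddCommGroup F] [NormedSpace ℝ F] [CompleteSpace F]
    {p : ℕ → V n → F} {f : V n → F} {B : ℕ → ℝ} (hp : ∀ k, Sm (p k))
    (hB : ∀ k r, sn r (p k) ≤ B r) (hl : TendstoUniformly p f Filter.atTop) :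
    Sm f ∧ ∀ r, sn r f ≤ B r := by
  have h := fun r => pk_ind r F p f B hp hB hl
  exact ⟨⟨contDiff_infty.2 fun r => (h r).1, fun r => ⟨B r, (h r).2⟩⟩, fun r => sn_le (h r).2⟩

/-- bounds for all orders -/
noncomputable def pk_B (n : ℕ) (M : ℕ → ℝ) (r : ℕ) : ℝ :=
  if n + 2 ≤ r then M r else (n + 1) ^ (n + 2) * M (n + 2)

theorem pk_bound {M : ℕ → ℝ} {p : V n → V n} (hp : p ∈ PK M) (r : ℕ) : sn r p ≤ pk_B n M r := by
  unfold pk_B
  split_ifs with h
  · exact hp.2 r h
  · exact (poincare_one_zero hp.1.1 hp.1.2.1 hp.1.2.2 (not_le.1 h).le).trans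
      (mul_le_mul_of_nonneg_left (hp.2 _ le_rfl) (by positivity))

/-- the coordinatewise fractional part as a point of the unit ball -/
noncomputable def pk_fr (x : V n) : Metric.closedBall (0 : V n) 1 :=
  ⟨fun d => Int.fract (x d), mem_closedBall_zero_iff.2 <|
    (pi_norm_le_iff_of_nonneg zero_le_one).2 fun d => by
      rw [Real.norm_eq_abs, abs_of_nonneg (Int.fract_nonneg _)]
      exact (Int.fract_lt_one _).le⟩

theorem pk_fr_add (d : Fin n) (x : V n) : pk_fr (x + sg d 1) = pk_fr x := by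
  refine Subtype.ext (funext fun i => ?_)
  change Int.fract (x i + sg d 1 i) = Int.fract (x i)
  by_cases h : i = d
  · subst h
    rw [sg_same, Int.fract_add_one]
  · rw [sg_ne h, add_zero]

theorem pk_per {α : Type} {p : V n → α} (hp : ∀ d x, p (x + sg d 1) = p x) (x : V n) :
    p (pk_fr x) = p x := by
  have h1 : ∀ s : Finset (Fin n), Function.Periodic p (∑ d ∈ s, ⌊x d⌋ • sg d 1) := fun s => by
    induction s using Finset.induction_on with
    | empty => intro y; simp
    | insert d s hd ih =>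
      rw [Finset.sum_insert hd]
      exact (Function.Periodic.zsmul (f := p) (hp d) _).add_period ih
  have h2 : x = (pk_fr x : V n) + ∑ d, ⌊x d⌋ • sg d 1 := by
    funext i
    change x i = Int.fract (x i) + (∑ d, ⌊x d⌋ • sg d (1 : ℝ)) i
    rw [Finset.sum_apply, Finset.sum_eq_single i]
    · simp
    · intro d _ hd
      simp [sg_ne hd.symm]
    · intro h
      exact absurd (Finset.mem_univ i) h
  conv_rhs => rw [h2]
  exact (h1 Finset.univ _).symm

open BoundedContinuousFunction in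
/-- restriction to the unit ball -/
noncomputable def pk_res (p : V n → V n) (hp : Continuous p) :
    Metric.closedBall (0 : V n) 1 →ᵇ V n :=
  BoundedContinuousFunction.mkOfCompact ⟨fun t => p t, hp.comp continuous_subtype_val⟩

open BoundedContinuousFunction in
/-- restrictions of elements of `PK M` -/
def pk_K (n : ℕ) (M : ℕ → ℝ) : Set (Metric.closedBall (0 : V n) 1 →ᵇ V n) :=
  {u | ∃ p ∈ PK M, ∀ t, u t = p t}

open BoundedContinuousFunction in
theorem pk_ex {M : ℕ → ℝ} {u : Metric.closedBall (0 : V n) 1 →ᵇ V n} (hu : u ∈ pk_K n M) :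
    (fun x => u (pk_fr x)) ∈ PK M ∧ ∀ t, u t = u (pk_fr t) := by
  obtain ⟨p, hp, h⟩ := hu
  have he : (fun x => u (pk_fr x)) = p := funext fun x => by rw [h, pk_per hp.1.2.1]
  refine ⟨he ▸ hp, fun t => ?_⟩
  rw [h, h, pk_per hp.1.2.1]

theorem pk_closed (M : ℕ → ℝ) : IsClosed (pk_K n M) := by
  refine IsSeqClosed.isClosed fun u v hu hv => ?_
  have hun : TendstoUniformly (fun k => (u k : Metric.closedBall (0 : V n) 1 → V n)) v
      Filter.atTop := BoundedContinuousFunction.tendsto_iff_tendstoUniformly.1 hv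
  have hl : TendstoUniformly (fun k x => u k (pk_fr x)) (fun x => v (pk_fr x)) Filter.atTop :=
    hun.comp pk_fr
  have hs := sm_of_limit (B := pk_B n M) (fun k => (pk_ex (hu k)).1.1.1)
    (fun k r => pk_bound (pk_ex (hu k)).1 r) hl
  refine ⟨fun x => v (pk_fr x), ⟨⟨hs.1, fun d x => ?_, ?_⟩, fun r hr => ?_⟩, fun t => ?_⟩
  · simp only [pk_fr_add]
  · have h1 := hl.tendsto_at 0
    have h2 : (fun k => u k (pk_fr 0)) = fun _ => (0 : V n) :=
      funext fun k => (pk_ex (hu k)).1.1.2.2
    rw [h2] at h1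
    exact tendsto_nhds_unique h1 tendsto_const_nhds
  · have := hs.2 r
    rwa [pk_B, if_pos hr] at this
  · have h1 := hl.tendsto_at (t : V n)
    have h2 : (fun k => u k (pk_fr t)) = fun k => u k t :=
      funext fun k => ((pk_ex (hu k)).2 t).symm
    rw [h2] at h1
    exact tendsto_nhds_unique (hun.tendsto_at t) h1

theorem pk_compact (M : ℕ → ℝ) : IsCompact (pk_K n M) := by
  refine BoundedContinuousFunction.arzela_ascoli₂ (Metric.closedBall 0 (pk_B n M 0))
    (isCompact_closedBall _ _) _ (pk_closed M) ?_ ?_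
  · rintro u t ⟨p, hp, h⟩
    rw [h]
    exact mem_closedBall_zero_iff.2 ((norm_le_sn_zero hp.1.1 t).trans (pk_bound hp 0))
  · refine Metric.equicontinuous_of_continuity_modulus (fun d => pk_B n M 1 * d) ?_ _ ?_
    · have : Continuous fun d : ℝ => pk_B n M 1 * d := by fun_prop
      simpa using this.tendsto 0
    · rintro x y ⟨u, p, hp, h⟩
      simp only [h, Subtype.dist_eq, dist_eq_norm]
      exact (norm_sub_le_sn hp.1.1 x y).trans
        (mul_le_mul_of_nonneg_right (pk_bound hp 1) (norm_nonneg _))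

theorem pk_convex (M : ℕ → ℝ) : Convex ℝ (pk_K n M) := by
  rintro u ⟨p, hp, h⟩ v ⟨q, hq, h'⟩ a b ha hb hab
  refine ⟨fun x => a • p x + b • q x, ⟨⟨(hp.1.1.const_smul a).add (hq.1.1.const_smul b),
    fun d x => ?_, ?_⟩, fun r hr => ?_⟩, fun t => ?_⟩
  · simp only [hp.1.2.1 d x, hq.1.2.1 d x]
  · simp only [hp.1.2.2, hq.1.2.2, smul_zero, add_zero]
  · have h1 := sn_add_le (hp.1.1.const_smul a) (hq.1.1.const_smul b) r
    rw [sn_const_smul hp.1.1, sn_const_smul hq.1.1, abs_of_nonneg ha, abs_of_nonneg hb] at h1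
    have h2 := mul_le_mul_of_nonneg_left (hp.2 r hr) ha
    have h3 := mul_le_mul_of_nonneg_left (hq.2 r hr) hb
    have h4 : a * M r + b * M r = M r := by rw [← add_mul, hab, one_mul]
    linarith
  · simp [h, h']

/-- Work in bounded continuous functions on `V n`; the set is convex, closed (`sm_of_limit`,
`poincare_one_zero`) and totally bounded (Arzela-Ascoli on the unit cube, `exists_cube`);
`Pool.Agent.P.MP_7bb7e1_gt.schauder`. -/
theorem fixed_PK {M : ℕ → ℝ} (hM : ∀ r, 0 ≤ M r) {T : (V n → V n) → V n → V n}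
    (hm : MapsTo T (PK M) (PK M)) {L : ℝ}
    (hL : ∀ p ∈ PK M, ∀ p' ∈ PK M, ∀ d : ℝ, (∀ x, ‖p x - p' x‖ ≤ d) →
      ∀ x, ‖T p x - T p' x‖ ≤ L * d) : ∃ p ∈ PK M, T p = p := by
  classical
  have hne : (pk_K n M).Nonempty :=
    ⟨0, fun _ => 0, ⟨⟨sm_const 0, fun _ _ => rfl, rfl⟩, fun r _ => by
      rw [sn_zero_fun]; exact hM r⟩, fun _ => rfl⟩
  let S : BoundedContinuousFunction (Metric.closedBall (0 : V n) 1) (V n) →
      BoundedContinuousFunction (Metric.closedBall (0 : V n) 1) (V n) :=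
    fun u => if h : u ∈ pk_K n M then
      pk_res (T fun x => u (pk_fr x)) (hm (pk_ex h).1).1.1.continuous else u
  have hS : ∀ u ∈ pk_K n M, ∀ t, S u t = T (fun x => u (pk_fr x)) t := by
    intro u hu t
    simp only [S, dif_pos hu]
    rfl
  have hmaps : MapsTo S (pk_K n M) (pk_K n M) := fun u hu => ⟨_, hm (pk_ex hu).1, hS u hu⟩
  have hcont : ContinuousOn S (pk_K n M) := by
    have : Nonempty (Metric.closedBall (0 : V n) 1) := ⟨pk_fr 0⟩
    refine (LipschitzOnWith.of_dist_le' (K := L) fun u hu v hv => ?_).continuousOn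
    rw [BoundedContinuousFunction.dist_le_iff_of_nonempty]
    intro t
    rw [hS u hu, hS v hv, dist_eq_norm]
    refine hL _ (pk_ex hu).1 _ (pk_ex hv).1 _ (fun x => ?_) t
    rw [← dist_eq_norm]
    exact BoundedContinuousFunction.dist_coe_le_dist _
  obtain ⟨u, hu, hfix⟩ :=
    Pool.Agent.P.MP_7bb7e1_gt.schauder (pk_convex M) (pk_compact M) hne hcont hmaps
  refine ⟨_, (pk_ex hu).1, funext fun x => ?_⟩
  rw [← pk_per (hm (pk_ex hu).1).1.2.1 x, ← hS u hu, hfix]

end Pool.Agent.P.MP_878f14_gt.HT
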