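import Pool.Agent.P.MP_878f14_gt.HT.Many
import Pool.Agent.P.MP_878f14_gt.HT.PK
import Pool.Agent.P.MP_878f14_gt.HT.Chain

/-! Unrolling a periodic diffeomorphism in all directions: estimates. -/

namespace Pool.Agent.P.MP_878f14_gt.HT

open scoped commutatorElement

variable {n : ℕ}

/-- the transition from the identity to `e` in the direction `d` -/
noncomputable def kap (d : Fin n) (e : Pm n) : Pm n := mkp fun x => chi (x d) • dp e x

noncomputable def un (d : Fin n) (e : Pm n) : Pm n := ⁅kap d e, tr (sg d 1)⁆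

/-- `m` unrollings of `id + p`, starting from the last direction -/
noncomputable def dn (p : V n → V n) : ℕ → Pm n
  | 0 => mkp p
  | m + 1 => if h : m < n then un (Fin.rev ⟨m, h⟩) (dn p m) else dn p m

/-- estimates relative to `p`, with top order coefficients `t` -/
def Est (p : V n → V n) (A : ℝ) (t C : ℕ → ℝ) (e : Pm n) : Prop :=
  Sm (dp e) ∧ (∀ j, j ≤ n + 2 → sn j (dp e) ≤ A * sn (n + 2) p) ∧
    ∀ r, n + 2 < r → sn r (dp e) ≤ t r * sn r p + C r * sn (r - 1) p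

theorem Est.mono {p : V n → V n} {A A' : ℝ} {t t' C C' : ℕ → ℝ} {e : Pm n} (h : Est p A t C e)
    (hA : A ≤ A') (ht : ∀ r, n + 2 < r → t r ≤ t' r) (hC : ∀ r, C r ≤ C' r) : Est p A' t' C' e :=
  ⟨h.1, fun j hj => (h.2.1 j hj).trans (mul_le_mul_of_nonneg_right hA (sn_nonneg _ _)),
    fun r hr => (h.2.2 r hr).trans (add_le_add
      (mul_le_mul_of_nonneg_right (ht r hr) (sn_nonneg _ _))
      (mul_le_mul_of_nonneg_right (hC r) (sn_nonneg _ _)))⟩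

theorem Est.of_le {p : V n → V n} {A : ℝ} {t C : ℕ → ℝ} {e e' : Pm n} (h : Est p A t C e)
    (hs : Sm (dp e')) (hle : ∀ r, sn r (dp e') ≤ sn r (dp e)) : Est p A t C e' :=
  ⟨hs, fun j hj => (hle j).trans (h.2.1 j hj), fun r hr => (hle r).trans (h.2.2 r hr)⟩

/-- `poincare_one` compares the norms of `p` -/
theorem est_nm (A : ℝ) (t C : ℕ → ℝ) : ∃ B : ℕ → ℝ, (∀ r, 0 ≤ B r) ∧ ∀ (p : V n → V n) (e : Pm n),
    Pn p → Est p A t C e → ∀ r, nm r (dp e) ≤ B r * sn (max r (n + 2)) p := by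
  refine ⟨fun r => ∑ j ∈ Finset.range (r + 1),
    (|A| + |t j| + |C j|) * (n + 1) ^ max r (n + 2),
    fun r => Finset.sum_nonneg fun j _ => by positivity, fun p e hp he r => ?_⟩
  rw [nm, Finset.sum_mul]
  refine Finset.sum_le_sum fun j hj => ?_
  have hj' : j ≤ r := Nat.lt_succ_iff.1 (Finset.mem_range.1 hj)
  have key : ∀ (c : ℝ) (i : ℕ), i ≤ max r (n + 2) →
      c * sn i p ≤ |c| * ((n + 1) ^ max r (n + 2) * sn (max r (n + 2)) p) := fun c i hi =>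
    mul_le_mul (le_abs_self c) (poincare_one_zero hp.1 hp.2.1 hp.2.2 hi) (sn_nonneg _ _)
      (abs_nonneg c)
  have h0 : 0 ≤ ((n : ℝ) + 1) ^ max r (n + 2) * sn (max r (n + 2)) p :=
    mul_nonneg (by positivity) (sn_nonneg _ _)
  have a1 := mul_nonneg (abs_nonneg A) h0
  have a2 := mul_nonneg (abs_nonneg (t j)) h0
  have a3 := mul_nonneg (abs_nonneg (C j)) h0
  rw [mul_assoc, add_mul, add_mul]
  rcases le_or_gt j (n + 2) with h | h
  · linarith [he.2.1 j h, key A (n + 2) (le_max_right _ _)]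
  · linarith [he.2.2 j h, key (t j) j (hj'.trans (le_max_left _ _)),
      key (C j) (j - 1) ((Nat.sub_le _ _).trans (hj'.trans (le_max_left _ _)))]

theorem est_mkp : ∃ A e₁ : ℝ, 0 ≤ A ∧ 0 < e₁ ∧ ∀ p : V n → V n, Pn p → sn (n + 2) p ≤ e₁ →
    dp (mkp p) = p ∧ Est p A (fun _ => 1) (fun _ => 0) (mkp p) := by
  have hA : (0 : ℝ) < (n + 1) ^ (n + 2) := by positivity
  refine ⟨(n + 1) ^ (n + 2), 1 / (2 * (n + 1) ^ (n + 2)), hA.le, by positivity,
    fun p hp hs => ?_⟩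
  have h1 := poincare_one_zero hp.1 hp.2.1 hp.2.2 (show 1 ≤ n + 2 by omega)
  rw [le_div_iff₀ (by positivity)] at hs
  have hd : dp (mkp p) = p := dp_mkp hp.1 (by linarith)
  refine ⟨hd, ?_⟩
  rw [Est, hd]
  exact ⟨hp.1, fun j hj => poincare_one_zero hp.1 hp.2.1 hp.2.2 hj, fun r _ => by simp⟩

theorem microA2_small {A s : ℝ} (hA : 0 ≤ A) (hs0 : 0 ≤ s) (hs : s ≤ 1 / (8 * (A + 1))) :
    A * s ≤ 1 / 8 := by
  rw [le_div_iff₀ (by positivity)] at hs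
  nlinarith

theorem microA2_kap {A : ℝ} {t C : ℕ → ℝ} (hC : ∀ r, 0 ≤ C r) :
    ∃ (A' e₁ : ℝ) (C' : ℕ → ℝ), 0 ≤ A' ∧ 0 < e₁ ∧ (∀ r, 0 ≤ C' r) ∧
      ∀ (p : V n → V n) (e : Pm n) (d : Fin n), Pn p → sn (n + 2) p ≤ e₁ → Est p A t C e →
        dp (kap d e) = (fun x => chi (x d) • dp e x) ∧ Est p A' t C' (kap d e) := by
  obtain ⟨B, hB, hb⟩ := est_nm (n := n) A t C
  obtain ⟨K, hK⟩ : ∃ K : ℕ → ℝ, ∀ r, K r = ∑ d : Fin n, nm r fun x : V n => chi (x d) :=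
    ⟨_, fun _ => rfl⟩
  have hK0 : ∀ r, 0 ≤ K r := fun r => by
    rw [hK]; exact Finset.sum_nonneg fun _ _ => nm_nonneg _ _
  have hK1 : ∀ r (d : Fin n), nm r (fun x : V n => chi (x d)) ≤ K r := fun r d => by
    rw [hK]
    exact Finset.single_le_sum (f := fun d : Fin n => nm r fun x : V n => chi (x d))
      (fun _ _ => nm_nonneg _ _) (Finset.mem_univ d)
  have hA' : 0 ≤ 2 ^ (n + 2) * (K (n + 2) * B (n + 2)) := by
    have := hK0 (n + 2)
    have := hB (n + 2)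
    positivity
  refine ⟨2 ^ (n + 2) * (K (n + 2) * B (n + 2)),
    1 / (8 * (2 ^ (n + 2) * (K (n + 2) * B (n + 2)) + 1)),
    fun r => C r + 2 ^ r * (K r * B (r - 1)), hA', by positivity, fun r => ?_,
    fun p e d hp hs he => ?_⟩
  · have := hK0 r
    have := hB (r - 1)
    have := hC r
    positivity
  have hlow : ∀ j, j ≤ n + 2 → sn j (fun x => chi (x d) • dp e x) ≤
      2 ^ (n + 2) * (K (n + 2) * B (n + 2)) * sn (n + 2) p := fun j hj => by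
    have h1 := hb p e hp he (n + 2)
    rw [max_self] at h1
    refine (sn_smul_le_nm (sm_chi d) he.1 j).trans ?_
    rw [mul_assoc, mul_assoc]
    exact mul_le_mul (pow_le_pow_right₀ one_le_two hj)
      (mul_le_mul ((nm_mono hj _).trans (hK1 _ d)) ((nm_mono hj _).trans h1) (nm_nonneg _ _)
        (hK0 _)) (mul_nonneg (nm_nonneg _ _) (nm_nonneg _ _)) (by positivity)
  have hsm : Sm fun x => chi (x d) • dp e x := (sm_chi d).smul he.1
  have hd : dp (kap d e) = fun x => chi (x d) • dp e x :=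
    dp_mkp hsm (by linarith [hlow 1 (by omega), microA2_small hA' (sn_nonneg _ _) hs])
  refine ⟨hd, ?_⟩
  rw [Est, hd]
  refine ⟨hsm, hlow, fun r hr => ?_⟩
  obtain ⟨k, rfl⟩ : ∃ k, r = k + 1 := ⟨r - 1, by omega⟩
  have h1 := hb p e hp he k
  rw [max_eq_left (by omega)] at h1
  have h2 := sn_smul_top (sm_chi d) he.1 k
  have h3 := mul_le_mul_of_nonneg_right (sn_chi_zero d) (sn_nonneg (k + 1) (dp e))
  have h4 := he.2.2 (k + 1) hr
  have h5 := mul_le_mul_of_nonneg_left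
    (mul_le_mul (hK1 (k + 1) d) h1 (nm_nonneg _ _) (hK0 _)) (show (0 : ℝ) ≤ 2 ^ (k + 1) by positivity)
  simp only [Nat.add_sub_cancel] at h4 ⊢
  linarith

theorem microA2_inv {A : ℝ} {t C : ℕ → ℝ} (hA : 0 ≤ A) (hC : ∀ r, 0 ≤ C r) :
    ∃ (A' e₁ : ℝ) (C' : ℕ → ℝ), 0 ≤ A' ∧ 0 < e₁ ∧ (∀ r, 0 ≤ C' r) ∧
      ∀ (p : V n → V n) (e : Pm n), Pn p → sn (n + 2) p ≤ e₁ → Est p A t C e →
        Est p A' (fun r => 2 * 2 ^ r * t r) C' e⁻¹ := by
  obtain ⟨B, hB, hb⟩ := est_nm (n := n) A t C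
  obtain ⟨D, hD, hd⟩ := inv_star (n := n)
  choose E hE he' using inv_crude (n := n)
  have hS : 0 ≤ ∑ j ∈ Finset.range (n + 3), E j := Finset.sum_nonneg fun j _ => hE j
  refine ⟨(∑ j ∈ Finset.range (n + 3), E j) * B (n + 2), 1 / (8 * (A + 1)),
    fun r => 2 * 2 ^ r * C r + D r * B (r - 1), mul_nonneg hS (hB _), by positivity, fun r => ?_,
    fun p e hp hs he => ?_⟩
  · have := hD r
    have := hB (r - 1)
    have := hC r
    positivity
  have h0 := microA2_small hA (sn_nonneg _ _) hs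
  have h1 : sn 1 (dp e) ≤ 1 / 2 := by linarith [he.2.1 1 (by omega)]
  have h2 : sn 2 (dp e) ≤ 1 / 8 := (he.2.1 2 (by omega)).trans h0
  refine ⟨sm_inv_small he.1 h1, fun j hj => ?_, fun r hr => ?_⟩
  · have h3 := hb p e hp he (n + 2)
    rw [max_self] at h3
    refine (he' j e he.1 h1 h2).trans ?_
    rw [mul_assoc]
    exact mul_le_mul (Finset.single_le_sum (fun j _ => hE j) (Finset.mem_range.2 (by omega)))
      ((nm_mono hj _).trans h3) (nm_nonneg _ _) hS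
  · obtain ⟨k, rfl⟩ : ∃ k, r = k + 1 := ⟨r - 1, by omega⟩
    have h3 := hb p e hp he k
    rw [max_eq_left (by omega)] at h3
    have h4 := hd (k + 1) (by omega) e he.1 h1 h2
    have h5 := mul_le_mul_of_nonneg_left ((md_succ_le_nm k (dp e)).trans h3) (hD (k + 1))
    have h6 := mul_le_mul_of_nonneg_left (he.2.2 (k + 1) hr)
      (show (0 : ℝ) ≤ 2 * 2 ^ (k + 1) by positivity)
    simp only [Nat.add_sub_cancel] at h6 ⊢
    linarith

theorem microA2_mul {A₁ A₂ : ℝ} {t₁ t₂ C₁ C₂ : ℕ → ℝ} (hA₁ : 0 ≤ A₁) (hA₂ : 0 ≤ A₂)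
    (hC₁ : ∀ r, 0 ≤ C₁ r) (hC₂ : ∀ r, 0 ≤ C₂ r) :
    ∃ (A' e₁ : ℝ) (C' : ℕ → ℝ), 0 ≤ A' ∧ 0 < e₁ ∧ (∀ r, 0 ≤ C' r) ∧
      ∀ (p : V n → V n) (e e' : Pm n), Pn p → sn (n + 2) p ≤ e₁ → Est p A₁ t₁ C₁ e →
        Est p A₂ t₂ C₂ e' → Est p A' (fun r => 2 ^ r * t₁ r + 3 / 2 * t₂ r) C' (e * e') := by
  obtain ⟨B₁, hB₁, hb₁⟩ := est_nm (n := n) A₁ t₁ C₁
  obtain ⟨B₂, hB₂, hb₂⟩ := est_nm (n := n) A₂ t₂ C₂
  obtain ⟨D, hD, hd⟩ := t3 (n := n) (F := V n)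
  obtain ⟨E, hE, he⟩ := nm_comp_le (n := n) (F := V n) (n + 2) 1
  have hb2 := hB₂ (n + 2)
  refine ⟨E * B₁ (n + 2) + A₂, 1 / (8 * (A₁ + A₂ + B₂ (n + 2) + 1)),
    fun r => 2 ^ r * C₁ r + 3 / 2 * C₂ r + D r * (B₁ (r - 1) + B₂ (r - 1)),
    by have := hB₁ (n + 2); positivity, by positivity, fun r => ?_, fun p e e' hp hs h h' => ?_⟩
  · have := hD r
    have := hB₁ (r - 1)
    have := hB₂ (r - 1)
    have := hC₁ r
    have := hC₂ r
    positivity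
  have hs0 := sn_nonneg (n + 2) p
  have h0 := microA2_small (A := A₁ + A₂ + B₂ (n + 2)) (by positivity) hs0 hs
  have a1 := mul_nonneg hA₁ hs0
  have a2 := mul_nonneg hA₂ hs0
  have a3 := mul_nonneg hb2 hs0
  have f1 : sn 1 (dp e) ≤ 1 / 2 := by linarith [h.2.1 1 (by omega)]
  have f2 : sn 2 (dp e) ≤ 1 := by linarith [h.2.1 2 (by omega)]
  have g1 : sn 1 (dp e') ≤ 1 := by linarith [h'.2.1 1 (by omega)]
  have g2 : sn 2 (dp e') ≤ 1 := by linarith [h'.2.1 2 (by omega)]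
  refine ⟨sm_dp_mul h.1 h'.1, fun j hj => ?_, fun r hr => ?_⟩
  · have h3 := hb₁ p e hp h (n + 2)
    have h4 := hb₂ p e' hp h' (n + 2)
    rw [max_self] at h3 h4
    have h5 := (sn_le_nm hj _).trans (he _ _ h.1 h'.1 (by linarith))
    have h6 := mul_le_mul_of_nonneg_left h3 hE
    have h7 := sn_add_le (h.1.comp h'.1) h'.1 j
    rw [dp_mul]
    linarith [h'.2.1 j hj]
  · obtain ⟨k, rfl⟩ : ∃ k, r = k + 1 := ⟨r - 1, by omega⟩
    have h3 := hb₁ p e hp h k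
    have h4 := hb₂ p e' hp h' k
    rw [max_eq_left (by omega)] at h3 h4
    have h5 := hd (k + 1) (by omega) _ _ h.1 h'.1 g1 g2
    have h6 := sn_add_le (h.1.comp h'.1) h'.1 (k + 1)
    have h7 : sn (k + 1) (dp e) * (1 + sn 1 (dp e')) ^ (k + 1) ≤
        sn (k + 1) (dp e) * 2 ^ (k + 1) := mul_le_mul_of_nonneg_left
      (pow_le_pow_left₀ (by linarith [sn_nonneg 1 (dp e')]) (by linarith) _) (sn_nonneg _ _)
    have h8 := mul_le_mul_of_nonneg_right f1 (sn_nonneg (k + 1) (dp e'))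
    have h9 := mul_le_mul_of_nonneg_left g2 (md_nonneg (k + 1) (dp e))
    have h10 := mul_le_mul_of_nonneg_right f2 (md_nonneg (k + 1) (dp e'))
    have h11 : md (k + 1) (dp e) * sn 2 (dp e') + sn 2 (dp e) * md (k + 1) (dp e') ≤
        B₁ k * sn k p + B₂ k * sn k p := by
      linarith [md_succ_le_nm k (dp e), md_succ_le_nm k (dp e')]
    have h12 := mul_le_mul_of_nonneg_left h11 (hD (k + 1))
    have h13 := mul_le_mul_of_nonneg_left (h.2.2 (k + 1) hr)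
      (show (0 : ℝ) ≤ 2 ^ (k + 1) by positivity)
    have h14 := h'.2.2 (k + 1) hr
    rw [dp_mul]
    simp only [Nat.add_sub_cancel] at h13 h14 ⊢
    linarith

/-- `sn_smul_top`, `sn_chi_zero`, `est_nm` for `kap`. Write
`un d e = κ * (τ * κ⁻¹ * τ⁻¹)` and use `inv_star`, `sn_conj_tr`, `dp_mul`, `t3`: the top
coefficient is at most `2^r t + (3/2) * 2 * 2^r t ≤ 8^r t`. All constants are chosen uniformly in
`d` (finitely many directions). -/
theorem est_un {A : ℝ} {t C : ℕ → ℝ} (hA : 0 ≤ A) (ht : ∀ r, 0 ≤ t r) (hC : ∀ r, 0 ≤ C r) :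
    ∃ (A' e₁ : ℝ) (C' : ℕ → ℝ), 0 ≤ A' ∧ 0 < e₁ ∧ (∀ r, 0 ≤ C' r) ∧
      ∀ (p : V n → V n) (e : Pm n) (d : Fin n), Pn p → sn (n + 2) p ≤ e₁ → Est p A t C e →
        dp (kap d e) = (fun x => chi (x d) • dp e x) ∧
        Est p A' (fun r => 8 ^ r * t r) C' (kap d e) ∧
        Est p A' (fun r => 8 ^ r * t r) C' (un d e) := by
  obtain ⟨A₁, e₁, C₁, hA₁, he₁, hC₁, h₁⟩ := microA2_kap (n := n) (A := A) (t := t) hC
  obtain ⟨A₂, e₂, C₂, hA₂, he₂, hC₂, h₂⟩ := microA2_inv (n := n) (t := t) hA₁ hC₁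
  obtain ⟨A₃, e₃, C₃, hA₃, he₃, hC₃, h₃⟩ :=
    microA2_mul (n := n) (t₁ := t) (t₂ := fun r => 2 * 2 ^ r * t r) hA₁ hA₂ hC₁ hC₂
  have _ := hA
  refine ⟨A₁ + A₃, min e₁ (min e₂ e₃), fun r => C₁ r + C₃ r, by positivity,
    lt_min he₁ (lt_min he₂ he₃), fun r => add_nonneg (hC₁ r) (hC₃ r), fun p e d hp hs he => ?_⟩
  rw [le_min_iff, le_min_iff] at hs
  obtain ⟨k1, k2⟩ := h₁ p e d hp hs.1 he
  have k3 := h₂ p _ hp hs.2.1 k2
  have k4 := k3.of_le (sm_conj_tr k3.1 (sg d 1)) fun r => (sn_conj_tr _ _ r).le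
  have k5 := h₃ p _ _ hp hs.2.2 k2 k4
  have k6 : un d e = kap d e * (tr (sg d 1) * (kap d e)⁻¹ * (tr (sg d 1))⁻¹) := by
    rw [un, commutatorElement_def]; group
  refine ⟨k1, k2.mono (by linarith) (fun r _ => ?_) fun r => by linarith [hC₃ r], ?_⟩
  · exact le_mul_of_one_le_left (ht r) (one_le_pow₀ (by norm_num))
  · rw [k6]
    refine k5.mono (by linarith) (fun r hr => ?_) fun r => by linarith [hC₁ r]
    have h1 : (4 : ℝ) ^ 1 ≤ 4 ^ r := pow_le_pow_right₀ (by norm_num) (by omega)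
    have h2 : (8 : ℝ) ^ r = 4 ^ r * 2 ^ r := by rw [← mul_pow]; norm_num
    have h3 := mul_le_mul_of_nonneg_right h1
      (mul_nonneg (show (0 : ℝ) ≤ 2 ^ r by positivity) (ht r))
    rw [h2]
    linarith

/-- periodic in the directions below `j`, supported in `[0, b]` in the others -/
def Shp (b : ℝ) (j : ℕ) (e : Pm n) : Prop :=
  (∀ i : Fin n, i.1 < j → e * tr (sg i 1) = tr (sg i 1) * e) ∧
    ∀ i : Fin n, j ≤ i.1 → ∀ x, x i ≤ 0 ∨ b ≤ x i → e x = x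

/-- `commute_tr_iff`; the support of the commutator from `comm_fix` with `lo = 0`, `hi = 1` -/
theorem shp_un {d : Fin n} {e : Pm n} (h : Shp 3 (d + 1) e)
    (hk : dp (kap d e) = fun x => chi (x d) • dp e x) (h0 : ∀ x, ‖dp e x‖ ≤ 1) :
    Lnk 1 3 d (kap d e) (un d e) e ∧ Shp 3 d (un d e) := by
  have hv : ∀ x, kap d e x = x + chi (x d) • dp e x := fun x => by rw [apply_eq_add_dp, hk]
  have h1 : ∀ x, x d ≤ 0 → kap d e x = x := fun x hx => by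
    rw [hv, chi_zero hx, zero_smul, add_zero]
  have h2 : ∀ x, 1 ≤ x d → kap d e x = e x := fun x hx => by
    rw [hv, chi_one hx, one_smul, ← apply_eq_add_dp]
  have h3 : ∀ x, e x = x → kap d e x = x := fun x hx => by
    rw [hv, dp, hx, sub_self, smul_zero, add_zero]
  have h4 : ∀ i, i ≤ d → e * tr (sg i 1) = tr (sg i 1) * e := fun i hi =>
    h.1 i (Nat.lt_succ_of_le hi)
  have h5 : ∀ i, i < d → kap d e * tr (sg i 1) = tr (sg i 1) * kap d e := fun i hi => by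
    rw [commute_tr_iff, hk]
    intro x
    simp only [(commute_tr_iff _ _).1 (h4 i hi.le) x, Pi.add_apply, sg_ne hi.ne', add_zero]
  have hL : Lnk 1 3 d (kap d e) (un d e) e := by
    refine ⟨rfl, fun x hx => h1 x (by linarith), fun x hx => h2 x (by linarith), h5, h4,
      fun i hi x hx => ?_⟩
    have h6 : e x = x := h.2 i hi x (by
      rcases le_abs'.1 hx with h7 | h7
      · exact Or.inl (by linarith)
      · exact Or.inr h7)
    exact ⟨h3 x h6, h6⟩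
  refine ⟨hL, fun i hi => hL.comm hi, fun i hi x hx => ?_⟩
  rcases (show d ≤ i from hi).eq_or_lt with rfl | hi'
  · refine comm_fix (lo := 0) (hi := 1) (δ := 1) zero_le_one h1 h2 (h4 _ le_rfl) (fun y => ?_) x
      (hx.imp id fun h7 => by linarith)
    rw [hk, norm_smul, Real.norm_eq_abs]
    exact mul_le_one₀ (abs_chi_le _) (norm_nonneg _) (h0 y)
  · refine chain_comm_fix (h3 x (h.2 i hi' x hx)) (h3 _ (h.2 i hi' _ ?_))
    rwa [Pi.sub_apply, sg_ne hi'.ne', sub_zero]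

theorem microA2_ind (k : ℕ) (hk : k ≤ n) :
    ∃ (A e₁ : ℝ) (C : ℕ → ℝ), 0 ≤ A ∧ 0 < e₁ ∧ (∀ r, 0 ≤ C r) ∧
    ∀ p : V n → V n, Pn p → sn (n + 2) p ≤ e₁ → dp (mkp p) = p ∧
      (∀ m, m ≤ k → Est p A (fun r => (8 ^ r) ^ k) C (dn p m) ∧ Shp 3 (n - m) (dn p m)) ∧
      ∀ (m : ℕ) (h : m < n), m < k →
        dp (kap (Fin.rev ⟨m, h⟩) (dn p m)) = (fun x => chi (x (Fin.rev ⟨m, h⟩)) • dp (dn p m) x) ∧
        Est p A (fun r => (8 ^ r) ^ k) C (kap (Fin.rev ⟨m, h⟩) (dn p m)) ∧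
        Lnk 1 3 (Fin.rev ⟨m, h⟩) (kap (Fin.rev ⟨m, h⟩) (dn p m)) (dn p (m + 1)) (dn p m) := by
  induction k with
  | zero =>
    obtain ⟨A, e₁, hA, he₁, h⟩ := est_mkp (n := n)
    refine ⟨A, e₁, fun _ => 0, hA, he₁, fun _ => le_rfl, fun p hp hs => ?_⟩
    obtain ⟨h1, h2⟩ := h p hp hs
    refine ⟨h1, fun m hm => ?_, fun m _ hm => absurd hm (by omega)⟩
    obtain rfl : m = 0 := by omega
    refine ⟨by simpa only [pow_zero, dn] using h2, fun i _ => ?_, fun i hi => ?_⟩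
    · rw [commute_tr_iff, dn, h1]
      exact hp.2.1 i
    · exact absurd i.2 (by omega)
  | succ k ih =>
    obtain ⟨A, e₁, C, hA, he₁, hC, h⟩ := ih (by omega)
    obtain ⟨A', e₂, C', hA', he₂, hC', h'⟩ :=
      est_un (n := n) (t := fun r => (8 ^ r) ^ k) hA (fun r => by positivity) hC
    refine ⟨A + A', min e₁ (min e₂ (1 / (8 * (A + 1)))), fun r => C r + C' r, by positivity,
      lt_min he₁ (lt_min he₂ (by positivity)), fun r => add_nonneg (hC r) (hC' r),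
      fun p hp hs => ?_⟩
    rw [le_min_iff, le_min_iff] at hs
    obtain ⟨h1, h2, h3⟩ := h p hp hs.1
    have hkn : k < n := hk
    obtain ⟨h4, h5⟩ := h2 k le_rfl
    obtain ⟨h6, h7, h8⟩ := h' p _ (Fin.rev ⟨k, hkn⟩) hp hs.2.1 h4
    have hd : (Fin.rev ⟨k, hkn⟩ : Fin n).1 = n - (k + 1) := Fin.val_rev _
    have h9 : ∀ x, ‖dp (dn p k) x‖ ≤ 1 := fun x => by
      linarith [norm_le_sn_zero h4.1 x, h4.2.1 0 (by omega),
        microA2_small hA (sn_nonneg _ _) hs.2.2]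
    obtain ⟨h10, h11⟩ := shp_un (d := Fin.rev ⟨k, hkn⟩)
      (by rwa [hd, show n - (k + 1) + 1 = n - k by omega]) h6 h9
    have hdn : dn p (k + 1) = un (Fin.rev ⟨k, hkn⟩) (dn p k) := by rw [dn, dif_pos hkn]
    have old : ∀ e, Est p A (fun r => (8 ^ r) ^ k) C e →
        Est p (A + A') (fun r => (8 ^ r) ^ (k + 1)) (fun r => C r + C' r) e := fun e he =>
      he.mono (by linarith) (fun r _ => pow_le_pow_right₀ (one_le_pow₀ (by norm_num)) (by omega))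
        fun r => by linarith [hC' r]
    have new : ∀ e, Est p A' (fun r => 8 ^ r * (8 ^ r) ^ k) C' e →
        Est p (A + A') (fun r => (8 ^ r) ^ (k + 1)) (fun r => C r + C' r) e := fun e he =>
      he.mono (by linarith) (fun r _ => (pow_succ' _ _).ge) fun r => by linarith [hC r]
    refine ⟨h1, fun m hm => ?_, fun m hm hmk => ?_⟩
    · rcases Nat.lt_succ_iff_lt_or_eq.1 (Nat.lt_succ_of_le hm) with h12 | rfl
      · exact ⟨old _ (h2 m (by omega)).1, (h2 m (by omega)).2⟩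
      · rw [hdn, ← hd]
        exact ⟨new _ h8, h11⟩
    · rcases Nat.lt_succ_iff_lt_or_eq.1 hmk with h12 | rfl
      · exact ⟨(h3 m hm h12).1, old _ (h3 m hm h12).2.1, (h3 m hm h12).2.2⟩
      · rw [hdn]
        exact ⟨h6, new _ h7, h10⟩

/-- induction on the number of unrollings -/
theorem microA : ∃ (A e₁ : ℝ) (C : ℕ → ℝ), 0 ≤ A ∧ 0 < e₁ ∧ (∀ r, 0 ≤ C r) ∧
    ∀ p : V n → V n, Pn p → sn (n + 2) p ≤ e₁ → dp (mkp p) = p ∧
      (∀ m, m ≤ n → Est p A (fun r => (8 ^ r) ^ n) C (dn p m) ∧ Shp 3 (n - m) (dn p m)) ∧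
      ∀ (m : ℕ) (h : m < n),
        dp (kap (Fin.rev ⟨m, h⟩) (dn p m)) = (fun x => chi (x (Fin.rev ⟨m, h⟩)) • dp (dn p m) x) ∧
        Est p A (fun r => (8 ^ r) ^ n) C (kap (Fin.rev ⟨m, h⟩) (dn p m)) ∧
        Lnk 1 3 (Fin.rev ⟨m, h⟩) (kap (Fin.rev ⟨m, h⟩) (dn p m)) (dn p (m + 1)) (dn p m) := by
  obtain ⟨A, e₁, C, hA, he₁, hC, h⟩ := microA2_ind n le_rfl
  exact ⟨A, e₁, C, hA, he₁, hC, fun p hp hs =>
    ⟨(h p hp hs).1, (h p hp hs).2.1, fun m hm => (h p hp hs).2.2 m hm hm⟩⟩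

end Pool.Agent.P.MP_878f14_gt.HT
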