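import Pool.Agent.P.MP_878f14_gt.HT.MicroA

/-! Dilating and rolling up in all directions: estimates. -/

namespace Pool.Agent.P.MP_878f14_gt.HT

open scoped commutatorElement

variable {n : ℕ}

noncomputable def rW (D : ℕ) (d : Fin n) (e : Pm n) : Pm n := Wm e (sg d 1) (3 * D + 4)

/-- rolling up in the direction `d` -/
noncomputable def ro (D : ℕ) (d : Fin n) (e : Pm n) : Pm n :=
  mkp (per d (0 + 3 * D + 1) 1 (dp (rW D d e)))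

/-- `m` rollings of the dilated unrolled map -/
noncomputable def up (D : ℕ) (p : V n → V n) : ℕ → Pm n
  | 0 => aff D 0 * dn p n * (aff D 0)⁻¹
  | m + 1 => if h : m < n then ro D ⟨m, h⟩ (up D p m) else up D p m

/-- the estimates, with a sharp bound also in the order `n + 2` -/
def Est2 (p : V n → V n) (A : ℝ) (t C : ℕ → ℝ) (e : Pm n) : Prop :=
  Est p A t C e ∧ sn (n + 2) (dp e) ≤ (t (n + 2) + A * sn (n + 2) p) * sn (n + 2) p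

/-- `sn_conj_aff` -/
theorem est_dil {p : V n → V n} {A : ℝ} {t C : ℕ → ℝ} {e : Pm n} (hA : 0 ≤ A) (hC : ∀ r, 0 ≤ C r)
    (h : Est p A t C e) {D : ℕ} (hD : 1 ≤ D) :
    Est2 p (D * A) (fun r => D / D ^ r * if r = n + 2 then A else t r) C
      (aff D 0 * e * (aff D 0)⁻¹) := by
  have hD1 : (1 : ℝ) ≤ D := by exact_mod_cast hD
  have hD0 : (0 : ℝ) < D := by linarith
  have hq : ∀ r : ℕ, (0 : ℝ) ≤ D / D ^ r := fun r => by positivity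
  have hs := sn_nonneg (n + 2) p
  refine ⟨⟨sm_conj_aff h.1 _ _, fun j hj => ?_, fun r hr => ?_⟩, ?_⟩
  · rw [sn_conj_aff h.1 hD0, mul_assoc]
    exact mul_le_mul (div_le_self hD0.le (one_le_pow₀ hD1)) (h.2.1 j hj) (sn_nonneg _ _) hD0.le
  · rw [sn_conj_aff h.1 hD0]
    simp only [if_neg (show r ≠ n + 2 by omega)]
    have h1 : (D : ℝ) / D ^ r ≤ 1 :=
      (div_le_one (by positivity)).2 (le_self_pow₀ hD1 (by omega))
    have h2 := mul_le_mul_of_nonneg_left (h.2.2 r hr) (hq r)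
    have h3 := mul_le_mul_of_nonneg_right h1 (mul_nonneg (hC r) (sn_nonneg (r - 1) p))
    linarith [mul_add ((D : ℝ) / D ^ r) (t r * sn r p) (C r * sn (r - 1) p),
      mul_assoc ((D : ℝ) / D ^ r) (t r) (sn r p)]
  · rw [sn_conj_aff h.1 hD0]
    simp only [if_true]
    have h2 := mul_le_mul_of_nonneg_left (h.2.1 (n + 2) le_rfl) (hq (n + 2))
    have h3 : 0 ≤ D * A * sn (n + 2) p * sn (n + 2) p := by positivity
    linarith [add_mul ((D : ℝ) / D ^ (n + 2) * A) (D * A * sn (n + 2) p) (sn (n + 2) p),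
      mul_assoc ((D : ℝ) / D ^ (n + 2)) A (sn (n + 2) p)]

theorem shp_dil {b : ℝ} {e : Pm n} (h : Shp b 0 e) {D : ℕ} (hD : 1 ≤ D) :
    Shp (b * D) 0 (aff D 0 * e * (aff D 0)⁻¹) := by
  have hD0 : (0 : ℝ) < D := by exact_mod_cast hD
  refine ⟨fun i hi => absurd hi (Nat.not_lt_zero _), fun i _ x hx => ?_⟩
  have hy : e ((D : ℝ)⁻¹ • (x - 0)) = (D : ℝ)⁻¹ • (x - 0) := by
    refine h.2 i (Nat.zero_le _) _ ?_
    rw [sub_zero, Pi.smul_apply, smul_eq_mul, inv_mul_eq_div]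
    rcases hx with hx | hx
    · exact Or.inl (div_nonpos_of_nonpos_of_nonneg hx hD0.le)
    · exact Or.inr ((le_div_iff₀ hD0).2 hx)
  rw [Equiv.Perm.mul_apply, Equiv.Perm.mul_apply, aff_inv_apply hD0.ne', hy, aff_apply hD0.ne',
    smul_inv_smul₀ hD0.ne', sub_zero, add_zero]

/-- `many` with `δ = M * nm 2 (dp e) ≤ 3 M A sn (n+2) p`, `est_nm`, `md_succ_le_nm` -/
theorem est_W {A : ℝ} {t C : ℕ → ℝ} (hA : 0 ≤ A) (ht : ∀ r, 0 ≤ t r) (hC : ∀ r, 0 ≤ C r) (M : ℕ) :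
    ∃ (A' e₁ : ℝ) (C' : ℕ → ℝ), 0 ≤ A' ∧ 0 < e₁ ∧ (∀ r, 0 ≤ C' r) ∧ A' * e₁ ≤ 1 / 2 ∧
      ∀ (p : V n → V n) (e : Pm n) (v : V n), Pn p → sn (n + 2) p ≤ e₁ → Est2 p A t C e →
        Est2 p A' (fun r => 2 * 2 ^ r * M * t r) C' (Wm e v M) := by
  obtain ⟨Cm, hCm, hm⟩ := many (n := n)
  obtain ⟨B, hB, hnm⟩ := est_nm (n := n) A t C
  obtain ⟨S, hS⟩ : ∃ S : ℝ, S = ∑ r ∈ Finset.range (n + 3), Cm r := ⟨_, rfl⟩
  have hSle : ∀ r, r ≤ n + 2 → Cm r ≤ S := fun r hr => by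
    rw [hS]
    exact Finset.single_le_sum (f := Cm) (fun j _ => hCm j) (Finset.mem_range.2 (by omega))
  have hS0 : 0 ≤ S := (hCm 0).trans (hSle 0 (by omega))
  have hM0 : (0 : ℝ) ≤ M := Nat.cast_nonneg M
  have hMA : 0 ≤ M * A := mul_nonneg hM0 hA
  obtain ⟨a, ha⟩ : ∃ a : ℝ, a = 2 * 2 ^ (n + 2) * M * A := ⟨_, rfl⟩
  obtain ⟨b, hb⟩ : ∃ b : ℝ, b = S * M * ((n + 2 : ℕ) * A) := ⟨_, rfl⟩
  have ha0 : 0 ≤ a := by rw [ha]; positivity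
  have hb0 : 0 ≤ b := by rw [hb]; positivity
  have hc0 : 0 ≤ b * (3 * (M * A)) := by positivity
  have hK : 0 < 2 * (a + b + b * (3 * (M * A))) + 48 * (M * A) + 1 := by positivity
  refine ⟨a + b + b * (3 * (M * A)), 1 / (2 * (a + b + b * (3 * (M * A))) + 48 * (M * A) + 1),
    fun r => 2 * 2 ^ r * M * C r + Cm r * M * B (r - 1), by positivity, by positivity,
    fun r => ?_, ?_, fun p e v hp hs h => ?_⟩
  · have := hC r
    have := hCm r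
    have := hB (r - 1)
    positivity
  · rw [mul_one_div, div_le_iff₀ hK]
    linarith
  obtain ⟨⟨he, h1, h2⟩, h3⟩ := h
  have hs0 := sn_nonneg (n + 2) p
  obtain ⟨s, hsd⟩ : ∃ s, s = sn (n + 2) p := ⟨_, rfl⟩
  rw [← hsd] at hs hs0 h1 h3
  have hδ : 3 * (M * A) * s ≤ 1 / 16 := by
    rw [le_div_iff₀ hK] at hs
    nlinarith [mul_nonneg hs0 (add_nonneg (add_nonneg ha0 hb0) hc0)]
  have hδ0 : 0 ≤ 3 * (M * A) * s := by positivity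
  have hN : M * nm 2 (dp e) ≤ 3 * (M * A) * s := by
    have h4 := nm_le_of_sn_le (r := 2) (f := dp e) (A := A * s) fun j hj => h1 j (by omega)
    have h5 := mul_le_mul_of_nonneg_left h4 hM0
    push_cast at h5
    linarith
  obtain ⟨w1, w2, w3, w4⟩ := hm e v _ M he hN hδ
  have hAs : 0 ≤ A * s := mul_nonneg hA hs0
  have hp2 : (1 : ℝ) ≤ 2 ^ (n + 2) := one_le_pow₀ one_le_two
  have hmd : ∀ r, r ≤ n + 2 → Cm r * M * md r (dp e) ≤ b * s := fun r hr => by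
    have h4 := md_le_of_sn_le (r := r) (f := dp e) hAs fun j _ hj => h1 j (by omega)
    have h5 : (r : ℝ) * (A * s) ≤ (n + 2 : ℕ) * (A * s) :=
      mul_le_mul_of_nonneg_right (by exact_mod_cast hr) hAs
    have h6 := mul_le_mul (mul_le_mul_of_nonneg_right (hSle r hr) hM0) (h4.trans h5)
      (md_nonneg _ _) (mul_nonneg hS0 hM0)
    rw [hb]
    linarith
  have htop : ∀ r, r ≤ n + 2 → 2 * 2 ^ r * M * sn r (dp e) ≤ a * s := fun r hr => by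
    have h4 : (2 : ℝ) * 2 ^ r * M ≤ 2 * 2 ^ (n + 2) * M :=
      mul_le_mul_of_nonneg_right
        (mul_le_mul_of_nonneg_left (pow_le_pow_right₀ one_le_two hr) zero_le_two) hM0
    have h5 := mul_le_mul h4 (h1 r hr) (sn_nonneg _ _) (by positivity)
    rw [ha]
    linarith
  have hbs : 0 ≤ b * s := mul_nonneg hb0 hs0
  have hcs : 0 ≤ b * (3 * (M * A)) * s := mul_nonneg hc0 hs0
  refine ⟨⟨w1, fun j hj => ?_, fun r hr => ?_⟩, ?_⟩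
  · rw [← hsd, add_mul, add_mul]
    have h4 := htop j hj
    have h7 := mul_nonneg hM0 (sn_nonneg j (dp e))
    match j with
    | 0 => norm_num at h4; nlinarith
    | 1 => norm_num at h4; nlinarith
    | j + 2 =>
      have h5 := w4 (j + 2) (by omega)
      have h6 := mul_le_mul hδ (hmd _ hj)
        (mul_nonneg (mul_nonneg (hCm _) hM0) (md_nonneg _ _)) (by norm_num)
      linarith
  · obtain ⟨k, rfl⟩ : ∃ k, r = k + 1 := ⟨r - 1, by omega⟩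
    have h4 := w4 (k + 1) (by omega)
    have h5 := (md_succ_le_nm k (dp e)).trans (hnm p e hp ⟨he, hsd ▸ h1, h2⟩ k)
    rw [max_eq_left (by omega)] at h5
    have h6 := mul_le_mul_of_nonneg_left (h2 _ hr)
      (show (0 : ℝ) ≤ 2 * 2 ^ (k + 1) * M by positivity)
    have h7 := mul_le_mul (hδ.trans (show (1 : ℝ) / 16 ≤ 1 by norm_num))
      (mul_le_mul_of_nonneg_left h5 (mul_nonneg (hCm (k + 1)) hM0))
      (mul_nonneg (mul_nonneg (hCm _) hM0) (md_nonneg _ _)) zero_le_one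
    simp only [Nat.add_sub_cancel] at h6 ⊢
    linarith
  · rw [← hsd]
    have h4 := w4 (n + 2) (by omega)
    have h5 := mul_le_mul_of_nonneg_left h3 (show (0 : ℝ) ≤ 2 * 2 ^ (n + 2) * M by positivity)
    have h6 := mul_le_mul_of_nonneg_left (hmd _ le_rfl) hδ0
    have h7 := mul_nonneg hbs hs0
    have h8 : a * s * s = 2 * 2 ^ (n + 2) * M * A * s * s := by rw [ha]
    linarith

/-- `roll` with `a = 0`, `l = 3 D`, `η = δ = 1`; `mkp_dp` identifies `Ω` with `ro D d e` -/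
theorem shp_ro {D : ℕ} {d : Fin n} {e : Pm n} (h : Shp (3 * D) d e) (hs : Sm (dp (rW D d e)))
    (h0 : sn 0 (dp (rW D d e)) ≤ 1) (h1 : sn 1 (dp (rW D d e)) ≤ 1 / 2) :
    dp (ro D d e) = per d (0 + 3 * D + 1) 1 (dp (rW D d e)) ∧ Sm (dp (ro D d e)) ∧
      (∀ r, sn r (dp (ro D d e)) ≤ sn r (dp (rW D d e))) ∧ Shp (3 * D) (d + 1) (ro D d e) ∧
      ∃ k : Pm n, Sm (dp k) ∧ (∀ r, sn r (dp k) ≤ sn r (dp (rW D d e))) ∧
        Lnk 1 (3 * D + 1) d k e (ro D d e) := by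
  have hD : (0 : ℝ) ≤ D := Nat.cast_nonneg D
  obtain ⟨k, Ω, k1, o1, k2, o2, e1, o3, k3, k4, o4, c1, c2⟩ :=
    roll (g := e) d (a := 0) (l := 3 * D) (η := 1) (δ := 1) (M := 3 * D + 4) one_pos
      (by positivity) (fun x hx => h.2 d le_rfl x (by simpa using hx)) (by push_cast; linarith)
      hs h0 h1
  have hΩ : ro D d e = Ω := by rw [ro, rW, ← o4, mkp_dp]
  have hc : ∀ i : Fin n, i < d →
      k * tr (sg i 1) = tr (sg i 1) * k ∧ Ω * tr (sg i 1) = tr (sg i 1) * Ω := fun i hi =>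
    c1 _ (sg_ne hi.ne' 1) (h.1 i hi)
  have hc' : ∀ i : Fin n, i ≤ d → Ω * tr (sg i 1) = tr (sg i 1) * Ω := fun i hi => by
    rcases hi.eq_or_lt with rfl | hi
    · exact o3
    · exact (hc i hi).2
  have hf : ∀ i : Fin n, d < i → ∀ x : V n, x i ≤ 0 ∨ 3 * D ≤ x i → k x = x ∧ Ω x = x := by
    intro i hi x hx
    obtain ⟨f1, f2⟩ := c2 {y | ¬(y i ≤ 0 ∨ 3 * (D : ℝ) ≤ y i)}
      (fun y hy s => by simpa [sg_ne hi.ne' s] using hy)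
      (fun y hy => h.2 i hi.le y (not_not.1 hy))
    exact ⟨f1 x (not_not.2 hx), f2 x (not_not.2 hx)⟩
  rw [hΩ]
  refine ⟨o4, o1, o2, ⟨fun i hi => hc' i (Nat.lt_succ_iff.1 hi), fun i hi x hx =>
    (hf i hi x hx).2⟩, k, k1, k2, e1, fun x hx => k3 x (by linarith),
    fun x hx => k4 x (by linarith), fun i hi => (hc i hi).1, hc', fun i hi x hx => hf i hi x ?_⟩
  rcases le_abs.1 hx with hx | hx
  · exact Or.inr (by linarith)
  · exact Or.inl (by linarith)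

/-- all norms are controlled by those of `p`, and the first derivative is small -/
def Bd (p : V n → V n) (C : ℕ → ℝ) (e : Pm n) : Prop :=
  Sm (dp e) ∧ sn 1 (dp e) ≤ 1 / 2 ∧ ∀ r, sn r (dp e) ≤ C r * sn (max r (n + 2)) p

/-- the package of estimates used later -/
def MB (n D : ℕ) (e₂ : ℝ) (C : ℕ → ℝ) : Prop := ∀ p : V n → V n, Pn p → sn (n + 2) p ≤ e₂ →
  dp (mkp p) = p ∧ (∀ m, m ≤ n → Bd p C (dn p m) ∧ Bd p C (up D p m)) ∧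
  (∀ (m : ℕ) (h : m < n),
    dp (kap (Fin.rev ⟨m, h⟩) (dn p m)) = (fun x => chi (x (Fin.rev ⟨m, h⟩)) • dp (dn p m) x) ∧
    Bd p C (kap (Fin.rev ⟨m, h⟩) (dn p m)) ∧
    Lnk 1 3 (Fin.rev ⟨m, h⟩) (kap (Fin.rev ⟨m, h⟩) (dn p m)) (dn p (m + 1)) (dn p m) ∧
    dp (up D p (m + 1)) = per ⟨m, h⟩ (0 + 3 * D + 1) 1 (dp (rW D ⟨m, h⟩ (up D p m))) ∧
    ∃ k : Pm n, Bd p C k ∧ Lnk 1 (3 * D + 1) ⟨m, h⟩ k (up D p m) (up D p (m + 1))) ∧
  (∀ d x, dp (up D p n) (x + sg d 1) = dp (up D p n) x) ∧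
  sn (n + 2) (dp (up D p n)) ≤ sn (n + 2) p / (4 * 2 ^ (n + 2)) ∧
  ∀ r, n + 2 < r → sn r (dp (up D p n)) ≤ sn r p / (2 * 2 ^ r) + C r * sn (r - 1) p

/-- the choice of the dilation: with `3 D + 4 ≤ 5 D` the left sides are at most
`(10 * 2^r)^n * D^(n+1) / D^r` times `A` or `(8^r)^n` -/
theorem exists_dil (n : ℕ) {A : ℝ} (hA : 0 ≤ A) : ∃ D : ℕ, 2 ≤ D ∧
    (2 * 2 ^ (n + 2) * ((3 * D + 4 : ℕ) : ℝ)) ^ n * (D / D ^ (n + 2) * A) ≤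
      1 / (8 * 2 ^ (n + 2)) ∧
    ∀ r, n + 2 < r → (2 * 2 ^ r * ((3 * D + 4 : ℕ) : ℝ)) ^ n * (D / D ^ r * (8 ^ r) ^ n) ≤
      1 / (2 * 2 ^ r) := by
  obtain ⟨X, hX⟩ : ∃ X : ℝ, X = 8 * 2 ^ (n + 2) * ((10 * 2 ^ (n + 2)) ^ n * A) := ⟨_, rfl⟩
  obtain ⟨Q, hQ⟩ : ∃ Q : ℝ, Q = 2 * 2 ^ n * 8 ^ n := ⟨_, rfl⟩
  obtain ⟨K, hK⟩ : ∃ K : ℝ, K = 2 * 10 ^ n * Q ^ (n + 1) := ⟨_, rfl⟩
  have hX0 : 0 ≤ X := by rw [hX]; positivity
  have hQ1 : 1 ≤ Q := by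
    rw [hQ]
    exact one_le_mul_of_one_le_of_one_le
      (one_le_mul_of_one_le_of_one_le one_le_two (one_le_pow₀ one_le_two))
      (one_le_pow₀ (by norm_num))
  have hK1 : 1 ≤ K := by
    rw [hK]
    exact one_le_mul_of_one_le_of_one_le
      (one_le_mul_of_one_le_of_one_le one_le_two (one_le_pow₀ (by norm_num))) (one_le_pow₀ hQ1)
  have hKQ : 0 ≤ K * Q := by positivity
  obtain ⟨D, hD⟩ := exists_nat_ge (2 + X + K * Q)
  have hD2 : (2 : ℝ) ≤ D := by linarith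
  have hD0 : (0 : ℝ) < D := by linarith
  have hpw : ∀ r : ℕ, (2 * 2 ^ r * ((3 * D + 4 : ℕ) : ℝ)) ^ n ≤ (10 * 2 ^ r) ^ n * D ^ n := by
    intro r
    rw [← mul_pow]
    refine pow_le_pow_left₀ (by positivity) ?_ n
    have h1 : ((3 * D + 4 : ℕ) : ℝ) ≤ 5 * D := by push_cast; linarith
    have h2 := mul_le_mul_of_nonneg_left h1 (show (0 : ℝ) ≤ 2 * 2 ^ r by positivity)
    linarith
  refine ⟨D, by exact_mod_cast hD2, ?_, fun r hr => ?_⟩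
  · refine (mul_le_mul_of_nonneg_right (hpw _) (by positivity)).trans ?_
    have h1 : (10 * 2 ^ (n + 2)) ^ n * (D : ℝ) ^ n * (D / D ^ (n + 2) * A) =
        (10 * 2 ^ (n + 2)) ^ n * A / D := by
      field_simp
      ring
    rw [h1, div_le_div_iff₀ hD0 (by positivity)]
    linarith
  · refine (mul_le_mul_of_nonneg_right (hpw _) (by positivity)).trans ?_
    obtain ⟨k, rfl⟩ : ∃ k, r = n + 1 + (k + 1) := ⟨r - n - 2, by omega⟩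
    obtain ⟨r, hr'⟩ : ∃ r, r = n + 1 + (k + 1) := ⟨_, rfl⟩
    have h1 : (D : ℝ) ^ r = D ^ n * D * D ^ (k + 1) := by rw [hr', pow_add, pow_succ (D : ℝ) n]
    have h2 : Q ^ r = Q ^ (n + 1) * Q ^ (k + 1) := by rw [hr', pow_add]
    have h3 : Q ^ r = 2 ^ r * (2 ^ r) ^ n * (8 ^ r) ^ n := by
      rw [hQ, mul_pow, mul_pow, pow_right_comm (2 : ℝ) n, pow_right_comm (8 : ℝ) n]
    have h4 : K * Q ^ (k + 1) ≤ D ^ (k + 1) := by
      refine le_trans ?_ (pow_le_pow_left₀ hKQ (show K * Q ≤ D by linarith) (k + 1))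
      rw [mul_pow]
      exact mul_le_mul_of_nonneg_right (le_self_pow₀ hK1 (by omega)) (by positivity)
    rw [← hr', h1]
    have h5 : (10 * 2 ^ r) ^ n * (D : ℝ) ^ n * (D / (D ^ n * D * D ^ (k + 1)) * (8 ^ r) ^ n) =
        10 ^ n * (2 ^ r) ^ n * (8 ^ r) ^ n / D ^ (k + 1) := by
      rw [mul_pow]
      field_simp
    rw [h5, div_le_div_iff₀ (by positivity) (by positivity), one_mul]
    refine le_trans (le_of_eq ?_) h4
    rw [hK, mul_assoc (2 * 10 ^ n), ← h2, h3]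
    ring

theorem microB2_mono {p : V n → V n} {C C' : ℕ → ℝ} {e : Pm n} (h : Bd p C e)
    (hC : ∀ r, C r ≤ C' r) : Bd p C' e :=
  ⟨h.1, h.2.1, fun r => (h.2.2 r).trans (mul_le_mul_of_nonneg_right (hC r) (sn_nonneg _ _))⟩

theorem microB2_small {A δ : ℝ} (hA : 0 ≤ A) (hδ : 0 < δ) :
    ∃ e : ℝ, 0 < e ∧ ∀ s, s ≤ e → A * s ≤ δ := by
  refine ⟨δ / (A + 1), by positivity, fun s hs => (mul_le_mul_of_nonneg_left hs hA).trans ?_⟩
  rw [← mul_div_assoc, div_le_iff₀ (by positivity)]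
  nlinarith

theorem microB2_bd {A : ℝ} (hA : 0 ≤ A) (t C : ℕ → ℝ) : ∃ (e₁ : ℝ) (B : ℕ → ℝ), 0 < e₁ ∧
    (∀ r, 0 ≤ B r) ∧ ∀ (p : V n → V n) (e : Pm n), Pn p → sn (n + 2) p ≤ e₁ → Est p A t C e →
      Bd p B e := by
  obtain ⟨B, hB, h⟩ := est_nm (n := n) A t C
  obtain ⟨e₁, he, hs⟩ := microB2_small hA (one_half_pos : (0 : ℝ) < 1 / 2)
  exact ⟨e₁, B, he, hB, fun p e hp h1 h2 => ⟨h2.1, (h2.2.1 1 (by omega)).trans (hs _ h1),
    fun r => (sn_le_nm le_rfl _).trans (h p e hp h2 r)⟩⟩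

theorem microB2_roll {A : ℝ} {t C : ℕ → ℝ} (hA : 0 ≤ A) (ht : ∀ r, 0 ≤ t r) (hC : ∀ r, 0 ≤ C r)
    (D : ℕ) : ∃ (A' e₁ : ℝ) (C' : ℕ → ℝ), 0 ≤ A' ∧ 0 < e₁ ∧ (∀ r, 0 ≤ C' r) ∧
      ∀ (p : V n → V n) (e : Pm n) (d : Fin n), Pn p → sn (n + 2) p ≤ e₁ → Est2 p A t C e →
        Shp (3 * D) d e →
        Est2 p A' (fun r => 2 * 2 ^ r * ((3 * D + 4 : ℕ) : ℝ) * t r) C' (ro D d e) ∧
        Shp (3 * D) (d + 1) (ro D d e) ∧
        dp (ro D d e) = per d (0 + 3 * D + 1) 1 (dp (rW D d e)) ∧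
        ∃ k : Pm n, Est p A' (fun r => 2 * 2 ^ r * ((3 * D + 4 : ℕ) : ℝ) * t r) C' k ∧
          Lnk 1 (3 * D + 1) d k e (ro D d e) := by
  obtain ⟨A', e₁, C', hA', he, hC', hAe, h⟩ := est_W (n := n) hA ht hC (3 * D + 4)
  refine ⟨A', e₁, C', hA', he, hC', fun p e d hp h1 h2 h3 => ?_⟩
  have hW : Est2 p A' (fun r => 2 * 2 ^ r * ((3 * D + 4 : ℕ) : ℝ) * t r) C' (rW D d e) :=
    h p e (sg d 1) hp h1 h2
  have hs : A' * sn (n + 2) p ≤ 1 / 2 := (mul_le_mul_of_nonneg_left h1 hA').trans hAe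
  obtain ⟨q1, q2, q3, q4, k, q5, q6, q7⟩ := shp_ro h3 hW.1.1
    (((hW.1.2.1 0 (by omega)).trans hs).trans (by norm_num)) ((hW.1.2.1 1 (by omega)).trans hs)
  exact ⟨⟨hW.1.of_le q2 q3, (q3 _).trans hW.2⟩, q4, q1, k, hW.1.of_le q5 q6, q7⟩

theorem microB2_up {D : ℕ} {p : V n → V n} {m : ℕ} (h : m < n) :
    up D p (m + 1) = ro D ⟨m, h⟩ (up D p m) := by
  rw [up, dif_pos h]

theorem microB2_ind {A e₁ : ℝ} {t C : ℕ → ℝ} (hA : 0 ≤ A) (he : 0 < e₁) (ht : ∀ r, 0 ≤ t r)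
    (hC : ∀ r, 0 ≤ C r) (D : ℕ) (h0 : ∀ p : V n → V n, Pn p → sn (n + 2) p ≤ e₁ →
      Est2 p A t C (up D p 0) ∧ Shp (3 * D) 0 (up D p 0)) (m : ℕ) :
    ∃ (A' e' : ℝ) (C' : ℕ → ℝ), 0 ≤ A' ∧ 0 < e' ∧ (∀ r, 0 ≤ C' r) ∧
      ∀ p : V n → V n, Pn p → sn (n + 2) p ≤ e' → m ≤ n →
        Est2 p A' (fun r => (2 * 2 ^ r * ((3 * D + 4 : ℕ) : ℝ)) ^ m * t r) C' (up D p m) ∧
        Shp (3 * D) m (up D p m) := by
  induction m with
  | zero =>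
    refine ⟨A, e₁, C, hA, he, hC, fun p hp h1 _ => ?_⟩
    simpa only [pow_zero, one_mul] using h0 p hp h1
  | succ m ih =>
    obtain ⟨A', e', C', hA', he', hC', h⟩ := ih
    obtain ⟨A₂, e₂, C₂, hA₂, he₂, hC₂, h₂⟩ := microB2_roll (n := n) hA'
      (t := fun r => (2 * 2 ^ r * ((3 * D + 4 : ℕ) : ℝ)) ^ m * t r)
      (fun r => mul_nonneg (by positivity) (ht r)) hC' D
    refine ⟨A₂, min e' e₂, C₂, hA₂, lt_min he' he₂, hC₂, fun p hp h1 hm => ?_⟩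
    obtain ⟨q1, q2⟩ := h p hp (h1.trans (min_le_left _ _)) (by omega)
    obtain ⟨q3, q4, -⟩ := h₂ p _ ⟨m, hm⟩ hp (h1.trans (min_le_right _ _)) q1 q2
    rw [microB2_up hm]
    refine ⟨?_, q4⟩
    simpa only [pow_succ' _ m, mul_assoc (2 * 2 ^ _ * ((3 * D + 4 : ℕ) : ℝ))] using q3

theorem microB2_lnk {A e₁ : ℝ} {t C : ℕ → ℝ} (hA : 0 ≤ A) (he : 0 < e₁) (ht : ∀ r, 0 ≤ t r)
    (hC : ∀ r, 0 ≤ C r) (D : ℕ) (h0 : ∀ p : V n → V n, Pn p → sn (n + 2) p ≤ e₁ →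
      Est2 p A t C (up D p 0) ∧ Shp (3 * D) 0 (up D p 0)) (m : ℕ) :
    ∃ (e' : ℝ) (B : ℕ → ℝ), 0 < e' ∧ (∀ r, 0 ≤ B r) ∧
      ∀ p : V n → V n, Pn p → sn (n + 2) p ≤ e' → (m ≤ n → Bd p B (up D p m)) ∧ ∀ h : m < n,
        dp (up D p (m + 1)) = per ⟨m, h⟩ (0 + 3 * D + 1) 1 (dp (rW D ⟨m, h⟩ (up D p m))) ∧
        ∃ k : Pm n, Bd p B k ∧ Lnk 1 (3 * D + 1) ⟨m, h⟩ k (up D p m) (up D p (m + 1)) := by
  obtain ⟨A', e', C', hA', he', hC', h⟩ := microB2_ind hA he ht hC D h0 m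
  obtain ⟨A₂, e₂, C₂, hA₂, he₂, hC₂, h₂⟩ := microB2_roll (n := n) hA'
    (t := fun r => (2 * 2 ^ r * ((3 * D + 4 : ℕ) : ℝ)) ^ m * t r)
    (fun r => mul_nonneg (by positivity) (ht r)) hC' D
  obtain ⟨e₃, B₃, he₃, hB₃, h₃⟩ := microB2_bd (n := n) hA'
    (fun r => (2 * 2 ^ r * ((3 * D + 4 : ℕ) : ℝ)) ^ m * t r) C'
  obtain ⟨e₄, B₄, he₄, hB₄, h₄⟩ := microB2_bd (n := n) hA₂
    (fun r => 2 * 2 ^ r * ((3 * D + 4 : ℕ) : ℝ) *
      ((2 * 2 ^ r * ((3 * D + 4 : ℕ) : ℝ)) ^ m * t r)) C₂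
  refine ⟨min (min e' e₂) (min e₃ e₄), fun r => B₃ r + B₄ r,
    lt_min (lt_min he' he₂) (lt_min he₃ he₄), fun r => add_nonneg (hB₃ r) (hB₄ r),
    fun p hp h1 => ?_⟩
  simp only [le_min_iff] at h1
  obtain ⟨⟨w1, w2⟩, w3, w4⟩ := h1
  refine ⟨fun hm => microB2_mono (h₃ p _ hp w3 (h p hp w1 hm).1.1)
    fun r => le_add_of_nonneg_right (hB₄ r), fun hm => ?_⟩
  obtain ⟨q1, q2⟩ := h p hp w1 hm.le
  obtain ⟨-, -, q3, k, q4, q5⟩ := h₂ p _ ⟨m, hm⟩ hp w2 q1 q2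
  rw [microB2_up hm]
  exact ⟨q3, k, microB2_mono (h₄ p k hp w4 q4) fun r => le_add_of_nonneg_left (hB₃ r), q5⟩

/-- `microA`, `exists_dil`, `est_dil`, `shp_dil`; induction on the number `m` of rollings with
`est_W`, `shp_ro` (top coefficient `(2 * 2^r * M)^m` times the one from `est_dil`); `est_nm`;
finally shrink `e₂`. -/
theorem microB (n : ℕ) : ∃ (D : ℕ) (e₂ : ℝ) (C : ℕ → ℝ), 2 ≤ D ∧ 0 < e₂ ∧ (∀ r, 0 ≤ C r) ∧
    MB n D e₂ C := by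
  obtain ⟨A, e₁, C, hA, he, hC, hm⟩ := microA (n := n)
  obtain ⟨D, hD, hD1, hD2⟩ := exists_dil n hA
  have hD' : 1 ≤ D := by omega
  have hDA : (0 : ℝ) ≤ D * A := mul_nonneg (Nat.cast_nonneg D) hA
  have ht : ∀ r, (0 : ℝ) ≤ D / D ^ r * if r = n + 2 then A else (8 ^ r) ^ n := fun r =>
    mul_nonneg (by positivity) (by split_ifs; exacts [hA, by positivity])
  have h0 : ∀ p : V n → V n, Pn p → sn (n + 2) p ≤ e₁ →
      Est2 p (D * A) (fun r => D / D ^ r * if r = n + 2 then A else (8 ^ r) ^ n) C (up D p 0) ∧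
        Shp (3 * D) 0 (up D p 0) := fun p hp h1 => by
    obtain ⟨q1, q2⟩ := (hm p hp h1).2.1 n le_rfl
    rw [Nat.sub_self] at q2
    exact ⟨est_dil hA hC q1 hD', shp_dil q2 hD'⟩
  obtain ⟨A₁, e₂, C₁, hA₁, he₂, hC₁, h₁⟩ := microB2_ind hDA he ht hC D h0 n
  choose e₃ B he₃ hB h₃ using microB2_lnk hDA he ht hC D h0
  obtain ⟨e₄, B₄, he₄, hB₄, h₄⟩ := microB2_bd (n := n) hA (fun r => (8 ^ r) ^ n) C
  obtain ⟨e₅, he₅, h₅⟩ := microB2_small hA₁ (δ := 1 / (8 * 2 ^ (n + 2))) (by positivity)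
  have hne : (Finset.range (n + 1)).Nonempty := ⟨0, by simp⟩
  have hS : ∀ r, 0 ≤ ∑ m ∈ Finset.range (n + 1), B m r := fun r =>
    Finset.sum_nonneg fun m _ => hB m r
  refine ⟨D, min (min e₁ e₂) (min (min e₄ e₅) ((Finset.range (n + 1)).inf' hne e₃)),
    fun r => C₁ r + B₄ r + ∑ m ∈ Finset.range (n + 1), B m r, hD,
    lt_min (lt_min he he₂) (lt_min (lt_min he₄ he₅)
      ((Finset.lt_inf'_iff hne).2 fun m _ => he₃ m)),
    fun r => add_nonneg (add_nonneg (hC₁ r) (hB₄ r)) (hS r), fun p hp h1 => ?_⟩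
  simp only [le_min_iff, Finset.le_inf'_iff, Finset.mem_range] at h1
  obtain ⟨⟨w1, w2⟩, ⟨w4, w5⟩, w3⟩ := h1
  have c4 : ∀ r, B₄ r ≤ C₁ r + B₄ r + ∑ m ∈ Finset.range (n + 1), B m r := fun r => by
    linarith [hC₁ r, hS r]
  have c3 : ∀ m, m ≤ n → ∀ r, B m r ≤ C₁ r + B₄ r + ∑ m ∈ Finset.range (n + 1), B m r :=
    fun m h r => by
      have := Finset.single_le_sum (f := fun m => B m r) (fun m _ => hB m r)
        (Finset.mem_range.2 (Nat.lt_succ_of_le h))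
      linarith [hC₁ r, hB₄ r]
  obtain ⟨q1, q2, q3⟩ := hm p hp w1
  obtain ⟨⟨u1, u2⟩, u3⟩ := h₁ p hp w2 le_rfl
  refine ⟨q1, fun m h => ⟨microB2_mono (h₄ p _ hp w4 (q2 m h).1) c4,
    microB2_mono ((h₃ m p hp (w3 m (Nat.lt_succ_of_le h))).1 h) (c3 m h)⟩, fun m h => ?_,
    fun d => (commute_tr_iff _ _).1 (u3.1 d d.2), u2.trans ?_, fun r hr => ?_⟩
  · obtain ⟨v1, v2, v3⟩ := q3 m h
    obtain ⟨v4, k, v5, v6⟩ := (h₃ m p hp (w3 m (by omega))).2 h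
    exact ⟨v1, microB2_mono (h₄ p _ hp w4 v2) c4, v3, v4, k, microB2_mono v5 (c3 m h.le), v6⟩
  · have h2 := h₅ _ w5
    simp only [if_true]
    rw [div_eq_inv_mul (sn (n + 2) p)]
    refine mul_le_mul_of_nonneg_right ((add_le_add hD1 h2).trans (le_of_eq ?_)) (sn_nonneg _ _)
    field_simp
    norm_num
  · refine (u1.2.2 r hr).trans (add_le_add ?_
      (mul_le_mul_of_nonneg_right (by linarith [hB₄ r, hS r]) (sn_nonneg _ _)))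
    simp only [if_neg hr.ne']
    rw [div_eq_inv_mul (sn r p), ← one_div]
    exact mul_le_mul_of_nonneg_right (hD2 r hr) (sn_nonneg _ _)

end Pool.Agent.P.MP_878f14_gt.HT
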