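import Pool.Agent.P.MP_878f14_gt.HT.MicroB

/-! The fixed point map. -/

namespace Pool.Agent.P.MP_878f14_gt.HT

open scoped commutatorElement
open Set

variable {n : ℕ}

noncomputable def TP (D : ℕ) (ω p : V n → V n) : V n → V n :=
  fun x => dp (up D p n) (x + ω x) + ω x - dp (up D p n) 0

/-- the constants of the invariant set -/
noncomputable def microT_K (n : ℕ) (C C' : ℕ → ℝ) : ℕ → ℝ
  | 0 => 6
  | r + 1 => if r < n + 2 then 6 else
      2 * (2 ^ (r + 1) * C (r + 1) * (microT_K n C C' r * (n + 1) ^ (r + 1)) + 3 / 2 +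
        C' (r + 1) * ((r + 1) * ((n + 1) ^ r * (C r * (microT_K n C C' r * (n + 1) ^ (r + 1)))) +
          (r + 1) * (n + 1) ^ (r + 1)))

theorem microT_K_nonneg {C C' : ℕ → ℝ} (hC : ∀ r, 0 ≤ C r) (hC' : ∀ r, 0 ≤ C' r) :
    ∀ r, 0 ≤ microT_K n C C' r
  | 0 => by norm_num [microT_K]
  | r + 1 => by
    have := microT_K_nonneg hC hC' r
    have := hC r
    have := hC (r + 1)
    have := hC' (r + 1)
    rw [microT_K]
    split_ifs <;> positivity

/-- `t3` with `f = dp (up D p n)`, `g = ω`; take `K (n+2) = 6`, `K r` recursively, and use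
`poincare_one_zero` for `ω` and `p` to compare norms. -/
theorem TP_mapsTo {D : ℕ} {e₂ : ℝ} {C : ℕ → ℝ} (he : 0 < e₂) (hC : ∀ r, 0 ≤ C r)
    (h : MB n D e₂ C) : ∃ (K : ℕ → ℝ) (e₀ : ℝ), (∀ r, 0 ≤ K r) ∧ 0 < e₀ ∧ K (n + 2) * e₀ ≤ e₂ ∧
      ∀ ω : V n → V n, Pn ω → sn (n + 2) ω ≤ e₀ →
        MapsTo (TP D ω) (PK fun r => K r * sn r ω) (PK fun r => K r * sn r ω) := by
  obtain ⟨C', hC', ht⟩ := t3 (n := n) (F := V n)
  have hK := microT_K_nonneg (n := n) hC hC'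
  have k3 : microT_K n C C' (n + 2) = 6 := by simp [microT_K]
  have c3 := hC' (n + 2)
  obtain ⟨Q, hQ⟩ : ∃ Q : ℝ, Q = (n + 1) ^ (n + 2) := ⟨_, rfl⟩
  have hn : (0 : ℝ) ≤ n := Nat.cast_nonneg n
  have Q1 : 1 ≤ Q := hQ ▸ one_le_pow₀ (by linarith)
  obtain ⟨B, hB⟩ : ∃ B : ℝ, B = C' (n + 2) * (((n + 2 : ℕ) : ℝ) * Q * Q) := ⟨_, rfl⟩
  have B0 : 0 ≤ B := hB ▸ by positivity
  obtain ⟨e₀, e0, e1, e2⟩ : ∃ e₀ : ℝ, 0 < e₀ ∧ e₀ ≤ e₂ / 6 ∧ e₀ ≤ 1 / (4 * B + 6 * Q) :=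
    ⟨min (e₂ / 6) (1 / (4 * B + 6 * Q)), by positivity, min_le_left _ _, min_le_right _ _⟩
  rw [le_div_iff₀ (by positivity)] at e2
  have e3 : 6 * (Q * e₀) ≤ 1 := by nlinarith [mul_nonneg B0 e0.le]
  have e4 : 4 * (B * e₀) ≤ 1 := by nlinarith [mul_nonneg (by linarith : 0 ≤ Q) e0.le]
  refine ⟨microT_K n C C', e₀, hK, e0, by rw [k3]; linarith, fun ω hω w3 p ⟨hp, hb⟩ => ?_⟩
  have p3 : sn (n + 2) p ≤ 6 * sn (n + 2) ω := k3 ▸ hb (n + 2) le_rfl
  have h3 : sn (n + 2) p ≤ e₂ := by linarith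
  obtain ⟨-, hbd, -, hper, b3, b4⟩ := h p hp h3
  obtain ⟨hs, f1, b2⟩ := (hbd n le_rfl).2
  obtain ⟨f, hf⟩ : ∃ f, f = dp (up D p n) := ⟨_, rfl⟩
  have hT : TP D ω p = fun x => (f (x + ω x) + ω x) + -f 0 := by
    rw [hf]; funext x; simp only [TP, sub_eq_add_neg]
  rw [← hf] at hs f1 b2 hper b3 b4
  have hcomp : Sm fun x => f (x + ω x) := hs.comp hω.1
  rw [hT]
  refine ⟨⟨(hcomp.add hω.1).add (sm_const _), fun d x => ?_, by simp [hω.2.2]⟩, fun r hr => ?_⟩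
  · simp only [hω.2.1, add_right_comm x (sg d 1), hper]
  have pw := fun j r => poincare_one (j := j) (r := r) hω.1 hω.2.1
  have pf := fun j r => poincare_one (j := j) (r := r) hs hper
  have nw := sn_nonneg (n + 2) ω
  have wQ : Q * sn (n + 2) ω ≤ Q * e₀ := mul_le_mul_of_nonneg_left w3 (by linarith)
  have wj : ∀ j, 1 ≤ j → j ≤ n + 2 → sn j ω ≤ Q * sn (n + 2) ω := fun j h1 h2 => hQ ▸ pw j _ h1 h2
  have w1 : sn 1 ω ≤ 1 := by linarith [wj 1 le_rfl (by omega), mul_pos (by linarith : 0 < Q) e0]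
  have w2 : sn 2 ω ≤ Q * e₀ := (wj 2 (by omega) (by omega)).trans wQ
  have w2' : sn 2 ω ≤ 1 := by linarith [mul_pos (by linarith : 0 < Q) e0]
  have q0 : (0 : ℝ) < 2 ^ (n + 2) := by positivity
  have f3 : sn (n + 2) f * 2 ^ (n + 2) ≤ 3 / 2 * sn (n + 2) ω := by
    rw [le_div_iff₀ (by positivity)] at b3
    linarith
  have f4 : sn (n + 2) f ≤ 6 * sn (n + 2) ω := by
    have := mul_le_mul_of_nonneg_left (one_le_pow₀ (n := n + 2) (one_le_two (α := ℝ)))
      (sn_nonneg (n + 2) f)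
    linarith
  have fj : ∀ j, 1 ≤ j → j ≤ n + 2 → sn j f ≤ Q * (6 * sn (n + 2) ω) := fun j h1 h2 =>
    (hQ ▸ pf j _ h1 h2 : sn j f ≤ Q * sn (n + 2) f).trans
      (mul_le_mul_of_nonneg_left f4 (by linarith))
  have f2 : sn 2 f ≤ 6 * (Q * e₀) := by linarith [fj 2 (by omega) (by omega)]
  obtain ⟨r, rfl⟩ : ∃ r', r = r' + 1 := ⟨r - 1, by omega⟩
  have k := ht (r + 1) (by omega) _ _ hs hω.1 w1 w2'
  rw [sn_add_const r (fun x => f (x + ω x) + ω x) (-f 0)]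
  refine (sn_add_le hcomp hω.1 _).trans ((add_le_add k le_rfl).trans ?_)
  have n1 := sn_nonneg (r + 1) ω
  have n2 := sn_nonneg 2 ω
  have n3 := sn_nonneg 2 f
  have k1 : sn (r + 1) f * (1 + sn 1 ω) ^ (r + 1) ≤ sn (r + 1) f * 2 ^ (r + 1) :=
    mul_le_mul_of_nonneg_left (pow_le_pow_left₀ (by linarith [sn_nonneg 1 ω]) (by linarith) _)
      (sn_nonneg _ _)
  have k2 := mul_le_mul_of_nonneg_right f1 n1
  rcases (show r = n + 1 ∨ n + 2 ≤ r by omega) with rfl | h3r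
  · change _ ≤ microT_K n C C' (n + 2) * sn (n + 2) ω
    rw [k3]
    have m1 : md (n + 2) f ≤ ((n + 2 : ℕ) : ℝ) * (Q * (6 * sn (n + 2) ω)) :=
      md_le_of_sn_le (by positivity) fun j h1 h2 => fj j (by omega) h2.le
    have m2 : md (n + 2) ω ≤ ((n + 2 : ℕ) : ℝ) * (Q * sn (n + 2) ω) :=
      md_le_of_sn_le (by positivity) fun j h1 h2 => wj j (by omega) h2.le
    have m3 := mul_le_mul_of_nonneg_left (add_le_add
      (mul_le_mul m1 w2 n2 ((md_nonneg _ _).trans m1))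
      (mul_le_mul f2 m2 (md_nonneg _ _) (n3.trans f2))) c3
    have m4 : C' (n + 2) * (((n + 2 : ℕ) : ℝ) * (Q * (6 * sn (n + 2) ω)) * (Q * e₀) +
        6 * (Q * e₀) * (((n + 2 : ℕ) : ℝ) * (Q * sn (n + 2) ω))) =
        12 * (B * e₀) * sn (n + 2) ω := by rw [hB]; ring
    have m5 := mul_le_mul_of_nonneg_right e4 nw
    change sn (n + 2) f * (1 + sn 1 ω) ^ (n + 2) ≤ sn (n + 2) f * 2 ^ (n + 2) at k1
    change sn 1 f * sn (n + 2) ω ≤ 1 / 2 * sn (n + 2) ω at k2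
    change sn (n + 2) f * (1 + sn 1 ω) ^ (n + 2) + sn 1 f * sn (n + 2) ω +
      C' (n + 2) * (md (n + 2) f * sn 2 ω + sn 2 f * md (n + 2) ω) + sn (n + 2) ω ≤ _
    linarith
  · have wr : sn r ω ≤ (n + 1) ^ (r + 1) * sn (r + 1) ω := pw _ _ (by omega) (by omega)
    have pr : sn r p ≤ microT_K n C C' r * ((n + 1) ^ (r + 1) * sn (r + 1) ω) :=
      (hb r h3r).trans (mul_le_mul_of_nonneg_left wr (hK r))
    have fr : sn r f ≤ C r * sn r p := by
      have := b2 r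
      rwa [max_eq_left h3r] at this
    have c1 := hC r
    have c2 := hK r
    have m1 : md (r + 1) f ≤ ((r + 1 : ℕ) : ℝ) *
        ((n + 1) ^ r * (C r * (microT_K n C C' r * ((n + 1) ^ (r + 1) * sn (r + 1) ω)))) :=
      md_le_of_sn_le (by positivity) fun j h1 h2 =>
        (pf j r (by omega) (by omega)).trans (mul_le_mul_of_nonneg_left (fr.trans
          (mul_le_mul_of_nonneg_left pr c1)) (by positivity))
    have m2 : md (r + 1) ω ≤ ((r + 1 : ℕ) : ℝ) * ((n + 1) ^ (r + 1) * sn (r + 1) ω) :=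
      md_le_of_sn_le (by positivity) fun j h1 h2 => pw j _ (by omega) h2.le
    have m3 := mul_le_mul_of_nonneg_left (add_le_add
      (mul_le_mul m1 w2' n2 ((md_nonneg _ _).trans m1))
      (mul_le_mul (f2.trans e3) m2 (md_nonneg _ _) zero_le_one)) (hC' (r + 1))
    have q : (0 : ℝ) < 2 ^ (r + 1) := by positivity
    have m4 : sn (r + 1) f * 2 ^ (r + 1) ≤ microT_K n C C' (r + 1) * sn (r + 1) ω / 2 +
        2 ^ (r + 1) * C (r + 1) * (microT_K n C C' r * ((n + 1) ^ (r + 1) * sn (r + 1) ω)) := by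
      have k7 := mul_le_mul_of_nonneg_right (b4 (r + 1) (by omega)) q.le
      have k8 := mul_le_mul_of_nonneg_left pr (mul_nonneg q.le (hC (r + 1)))
      have k9 : sn (r + 1) p / (2 * 2 ^ (r + 1)) * 2 ^ (r + 1) = sn (r + 1) p / 2 := by field_simp
      rw [add_mul, k9, Nat.add_sub_cancel] at k7
      linarith [hb (r + 1) hr]
    have e' : microT_K n C C' (r + 1) * sn (r + 1) ω =
        2 * (2 ^ (r + 1) * C (r + 1) * (microT_K n C C' r * (n + 1) ^ (r + 1)) + 3 / 2 +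
        C' (r + 1) * ((r + 1) * ((n + 1) ^ r * (C r * (microT_K n C C' r * (n + 1) ^ (r + 1)))) +
          (r + 1) * (n + 1) ^ (r + 1))) * sn (r + 1) ω := by rw [microT_K, if_neg h3r.not_gt]
    push_cast at m3
    linarith

/-- uniform closeness -/
def Cl (d : ℝ) (e e' : Pm n) : Prop := ∀ x, ‖e x - e' x‖ ≤ d

def Lip (L : ℝ) (e : Pm n) : Prop := ∀ x y, ‖e x - e y‖ ≤ L * ‖x - y‖

theorem cl_iff_dp {d : ℝ} {e e' : Pm n} : Cl d e e' ↔ ∀ x, ‖dp e x - dp e' x‖ ≤ d := by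
  simp only [Cl, dp, sub_sub_sub_cancel_right]

theorem Cl.mul {d d' L : ℝ} {e e' f f' : Pm n} (h : Cl d e e') (h' : Cl d' f f') (hL : 0 ≤ L)
    (hl : Lip L e') : Cl (d + L * d') (e * f) (e' * f') := by
  intro x
  simp only [Equiv.Perm.mul_apply]
  have h1 := h (f x)
  have h2 := hl (f x) (f' x)
  have h3 := mul_le_mul_of_nonneg_left (h' x) hL
  have h4 := norm_sub_le_norm_sub_add_norm_sub (e (f x)) (e' (f x)) (e' (f' x))
  linarith

theorem Cl.inv {d L : ℝ} {e e' : Pm n} (h : Cl d e e') (hL : 0 ≤ L) (hl : Lip L e'⁻¹) :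
    Cl (L * d) e⁻¹ e'⁻¹ := by
  intro x
  have h1 := hl (e' (e⁻¹ x)) (e (e⁻¹ x))
  have h2 := h (e⁻¹ x)
  rw [norm_sub_rev] at h2
  have e1 : e'⁻¹ (e' (e⁻¹ x)) = e⁻¹ x := e'.symm_apply_apply _
  have e2 : e'⁻¹ (e (e⁻¹ x)) = e'⁻¹ x := congrArg _ (e.apply_symm_apply x)
  rw [e1, e2] at h1
  exact h1.trans (mul_le_mul_of_nonneg_left h2 hL)

theorem lip_of_sn {e : Pm n} (he : Sm (dp e)) : Lip (1 + sn 1 (dp e)) e := by
  intro x y
  have h1 := norm_sub_le_sn he x y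
  have h2 : e x - e y = (x - y) + (dp e x - dp e y) := by simp only [dp]; abel
  rw [h2, add_mul, one_mul]
  exact (norm_add_le _ _).trans (by linarith)

theorem microT2_lip_mono {L L' : ℝ} {e : Pm n} (h : Lip L e) (hL : L ≤ L') : Lip L' e :=
  fun x y => (h x y).trans (mul_le_mul_of_nonneg_right hL (norm_nonneg _))

theorem microT2_lip_tr {L : ℝ} {e : Pm n} (h : Lip L e) (c : V n) : Lip L (e * tr c) := by
  intro x y
  have := h (x + c) (y + c)
  rwa [add_sub_add_right_eq_sub] at this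

theorem microT2_cl_right {d : ℝ} {e e' : Pm n} (h : Cl d e e') (f : Pm n) :
    Cl d (e * f) (e' * f) := fun x => h (f x)

theorem microT2_cl_left {d L : ℝ} {e f f' : Pm n} (h : Cl d f f') (hL : 0 ≤ L) (hl : Lip L e) :
    Cl (L * d) (e * f) (e * f') :=
  fun x => (hl (f x) (f' x)).trans (mul_le_mul_of_nonneg_left (h x) hL)

theorem microT2_cl_pow {d : ℝ} {g g' : Pm n} (h : Cl d g g') (hl : Lip 2 g') (j : ℕ) :
    Cl ((2 ^ j - 1) * d) (g ^ j) (g' ^ j) := by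
  induction j with
  | zero => intro x; simp
  | succ j ih =>
    have := h.mul ih (by norm_num) hl
    rw [pow_succ' g, pow_succ' g', show ((2 : ℝ) ^ (j + 1) - 1) * d = d + 2 * ((2 ^ j - 1) * d) by
      ring]
    exact this

theorem microT2_lip_aff {l : ℝ} (hl : 0 < l) : Lip l (aff l (0 : V n)) := by
  intro x y
  rw [aff_apply hl.ne', aff_apply hl.ne', add_zero, add_zero, ← smul_sub, norm_smul,
    Real.norm_of_nonneg hl.le]

theorem cl_Wm {d : ℝ} {e e' : Pm n} (hd : 0 ≤ d) (h : Cl d e e') (hl : Lip 2 e') (v : V n) (M : ℕ) :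
    Cl (M * 2 ^ M * d) (Wm e v M) (Wm e' v M) := by
  intro x
  refine (microT2_cl_right (microT2_cl_pow (microT2_cl_right h (tr v)) (microT2_lip_tr hl v) M) _
    x).trans (mul_le_mul_of_nonneg_right ?_ hd)
  rcases M with _ | M
  · simp
  · have h1 : (0 : ℝ) ≤ M * 2 ^ (M + 1) := by positivity
    push_cast
    linarith

theorem microT2_cl_un {d : ℝ} {e e' : Pm n} {i : Fin n} (h : Cl d e e')
    (hk : dp (kap i e) = fun x => chi (x i) • dp e x)
    (hk' : dp (kap i e') = fun x => chi (x i) • dp e' x) (hs : Sm (dp (kap i e')))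
    (h1 : sn 1 (dp (kap i e')) ≤ 1 / 2) : Cl (4 * d) (un i e) (un i e') := by
  have c : Cl d (kap i e) (kap i e') := by
    rw [cl_iff_dp] at h ⊢
    intro x
    rw [hk, hk', ← smul_sub, norm_smul, Real.norm_eq_abs]
    have h2 := abs_chi_le (x i)
    have h3 := h x
    have h4 := norm_nonneg (dp e x - dp e' x)
    nlinarith
  have l1 : Lip (3 / 2) (kap i e') := microT2_lip_mono (lip_of_sn hs) (by linarith)
  have l2 : Lip 2 (kap i e')⁻¹ := norm_sub_le_two hs h1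
  rw [un, un, commutatorElement_def, commutatorElement_def,
    show 4 * d = d + 3 / 2 * (2 * d) by ring]
  exact microT2_cl_right ((microT2_cl_right c (tr (sg i 1))).mul (c.inv (by norm_num) l2)
    (by norm_num) (microT2_lip_tr l1 _)) _

/-- induction along `dn` and then along `up` (`norm_sub_le_two` for inverses) -/
theorem TP_lip {D : ℕ} {e₂ : ℝ} {C : ℕ → ℝ} (hD : 2 ≤ D) (h : MB n D e₂ C) : ∃ L : ℝ,
    ∀ ω p p' : V n → V n, Pn p → sn (n + 2) p ≤ e₂ → Pn p' → sn (n + 2) p' ≤ e₂ → ∀ d : ℝ,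
      (∀ x, ‖p x - p' x‖ ≤ d) → ∀ x, ‖TP D ω p x - TP D ω p' x‖ ≤ L * d := by
  refine ⟨2 * ((((3 * D + 4 : ℕ) : ℝ) * 2 ^ (3 * D + 4)) ^ n * (D * 4 ^ n)),
    fun ω p p' hp h3 hp' h3' d hd x => ?_⟩
  obtain ⟨k0, -, k1, -⟩ := h p hp h3
  obtain ⟨k0', b', k1', -⟩ := h p' hp' h3'
  have d0 : 0 ≤ d := (norm_nonneg _).trans (hd 0)
  have hD' : (0 : ℝ) < D := by exact_mod_cast (by omega : 0 < D)
  have c1 : ∀ m, m ≤ n → Cl (4 ^ m * d) (dn p m) (dn p' m) := fun m => by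
    induction m with
    | zero => intro _; rw [cl_iff_dp, dn, dn, k0, k0', pow_zero, one_mul]; exact hd
    | succ m ih =>
      intro hm
      have hm' : m < n := hm
      rw [dn, dn, dif_pos hm', dif_pos hm', pow_succ', mul_assoc]
      exact microT2_cl_un (ih hm'.le) (k1 m hm').1 (k1' m hm').1 (k1' m hm').2.1.1
        (k1' m hm').2.1.2.1
  have c2 : ∀ m, m ≤ n → Cl ((((3 * D + 4 : ℕ) : ℝ) * 2 ^ (3 * D + 4)) ^ m * (D * (4 ^ n * d)))
      (up D p m) (up D p' m) := fun m => by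
    induction m with
    | zero =>
      intro _
      rw [up, up, pow_zero, one_mul]
      exact microT2_cl_right (microT2_cl_left (c1 n le_rfl) hD'.le (microT2_lip_aff hD')) _
    | succ m ih =>
      intro hm
      have hm' : m < n := hm
      have l : Lip 2 (up D p' m) :=
        microT2_lip_mono (lip_of_sn (b' m hm'.le).2.1) (by linarith [(b' m hm'.le).2.2.1])
      have w := cl_iff_dp.1 (cl_Wm (by positivity) (ih hm'.le) l (sg ⟨m, hm'⟩ 1) (3 * D + 4))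
      rw [cl_iff_dp, (k1 m hm').2.2.2.1, (k1' m hm').2.2.2.1, pow_succ', mul_assoc]
      exact fun y => w _
  have ho := cl_iff_dp.1 (c2 n le_rfl)
  have h1 := ho (x + ω x)
  have h2 := ho 0
  have h4 : TP D ω p x - TP D ω p' x = (dp (up D p n) (x + ω x) - dp (up D p' n) (x + ω x)) -
      (dp (up D p n) 0 - dp (up D p' n) 0) := by
    simp only [TP]; abel
  rw [h4]
  refine (norm_sub_le _ _).trans ?_
  linarith

end Pool.Agent.P.MP_878f14_gt.HT
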