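import Pool.Agent.P.MP_878f14_gt.HT.Basic

/-! Sup norms of derivatives: elementary facts. -/

namespace Pool.Agent.P.MP_878f14_gt.HT

open scoped ContDiff Topology
open Filter Set

variable {n : ℕ} {F G H : Type} [NormedAddCommGroup F] [NormedSpace ℝ F] [NormedAddCommGroup G]
  [NormedSpace ℝ G] [NormedAddCommGroup H] [NormedSpace ℝ H] {f g : V n → F}

theorem Sm.contDiff (hf : Sm f) : ContDiff ℝ ∞ f := hf.1

theorem Sm.differentiable (hf : Sm f) : Differentiable ℝ f := hf.1.differentiable (by simp)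

theorem Sm.continuous (hf : Sm f) : Continuous f := hf.1.continuous

theorem sn_nonneg (r : ℕ) (f : V n → F) : 0 ≤ sn r f :=
  Real.iSup_nonneg fun _ => norm_nonneg _

theorem le_sn (hf : Sm f) (r : ℕ) (x : V n) : ‖iteratedFDeriv ℝ r f x‖ ≤ sn r f := by
  obtain ⟨C, hC⟩ := hf.2 r
  exact le_ciSup (f := fun x => ‖iteratedFDeriv ℝ r f x‖) ⟨C, by rintro _ ⟨y, rfl⟩; exact hC y⟩ x

theorem sn_le {r : ℕ} {A : ℝ} (h : ∀ x, ‖iteratedFDeriv ℝ r f x‖ ≤ A) : sn r f ≤ A :=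
  ciSup_le h

theorem sn_zero_le {A : ℝ} (h : ∀ x, ‖f x‖ ≤ A) : sn 0 f ≤ A :=
  sn_le fun x => by rw [norm_iteratedFDeriv_zero]; exact h x

theorem sn_one_le {A : ℝ} (h : ∀ x, ‖fderiv ℝ f x‖ ≤ A) : sn 1 f ≤ A :=
  sn_le fun x => by rw [norm_iteratedFDeriv_one]; exact h x

theorem norm_le_sn_zero (hf : Sm f) (x : V n) : ‖f x‖ ≤ sn 0 f := by
  have h := le_sn hf 0 x
  rwa [norm_iteratedFDeriv_zero] at h

theorem norm_fderiv_le_sn_one (hf : Sm f) (x : V n) : ‖fderiv ℝ f x‖ ≤ sn 1 f := by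
  have h := le_sn hf 1 x
  rwa [norm_iteratedFDeriv_one] at h

/-- `norm_iteratedFDeriv_fderiv` -/
theorem sn_fderiv (r : ℕ) (f : V n → F) : sn r (fderiv ℝ f) = sn (r + 1) f := by
  simp only [sn, norm_iteratedFDeriv_fderiv]

theorem norm_aux_le (r : ℕ) : (r : WithTop ℕ∞) ≤ ∞ := by exact_mod_cast le_top

theorem norm_aux_cd (hf : Sm f) (r : ℕ) : ContDiff ℝ r f := hf.1.of_le (norm_aux_le r)

theorem norm_aux_cda (hf : Sm f) (r : ℕ) (x : V n) : ContDiffAt ℝ r f x :=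
  (norm_aux_cd hf r).contDiffAt

theorem Sm.fderiv (hf : Sm f) : Sm (fderiv ℝ f) :=
  ⟨(contDiff_infty_iff_fderiv.mp hf.1).2, fun r => by
    simpa only [norm_iteratedFDeriv_fderiv] using hf.2 (r + 1)⟩

theorem sm_of_fderiv (hf : Differentiable ℝ f) (h0 : ∃ C, ∀ x, ‖f x‖ ≤ C) (hd : Sm (fderiv ℝ f)) :
    Sm f := by
  refine ⟨contDiff_infty_iff_fderiv.mpr ⟨hf, hd.1⟩, fun r => ?_⟩
  rcases r with _ | r
  · simpa only [norm_iteratedFDeriv_zero] using h0
  · simpa only [norm_iteratedFDeriv_fderiv] using hd.2 r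

theorem sm_const (c : F) : Sm fun _ : V n => c :=
  ⟨contDiff_const, fun r => ⟨‖c‖, fun x => by
    rcases r with _ | r
    · rw [norm_iteratedFDeriv_zero]
    · rw [iteratedFDeriv_succ_const]; simp⟩⟩

theorem sn_const_zero (c : F) : sn 0 (fun _ : V n => c) = ‖c‖ := by
  simp only [sn, norm_iteratedFDeriv_zero, ciSup_const]

theorem sn_const_succ (r : ℕ) (c : F) : sn (r + 1) (fun _ : V n => c) = 0 := by
  simp only [sn, iteratedFDeriv_succ_const, Pi.zero_apply, norm_zero, ciSup_const]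

theorem sn_zero_fun (r : ℕ) : sn r (fun _ : V n => (0 : F)) = 0 := by
  simp only [sn, iteratedFDeriv_fun_zero, Pi.zero_apply, norm_zero, ciSup_const]

theorem norm_aux_add (hf : Sm f) (hg : Sm g) (r : ℕ) (x : V n) :
    ‖iteratedFDeriv ℝ r (fun x => f x + g x) x‖ ≤ sn r f + sn r g := by
  rw [fun_iteratedFDeriv_add_apply (norm_aux_cda hf r x) (norm_aux_cda hg r x)]
  exact (norm_add_le _ _).trans (add_le_add (le_sn hf r x) (le_sn hg r x))

theorem norm_aux_neg (r : ℕ) (f : V n → F) (x : V n) :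
    ‖iteratedFDeriv ℝ r (fun x => -f x) x‖ = ‖iteratedFDeriv ℝ r f x‖ := by
  rw [← norm_neg (iteratedFDeriv ℝ r f x), ← iteratedFDeriv_neg_apply]; rfl

theorem norm_aux_smul (hf : Sm f) (r : ℕ) (c : ℝ) (x : V n) :
    ‖iteratedFDeriv ℝ r (fun x => c • f x) x‖ = |c| * ‖iteratedFDeriv ℝ r f x‖ := by
  rw [iteratedFDeriv_const_smul_apply' (norm_aux_cda hf r x), norm_smul, Real.norm_eq_abs]

theorem norm_aux_sum {α : Type*} {s : Finset α} {u : α → V n → F} (hu : ∀ a ∈ s, Sm (u a))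
    (r : ℕ) (x : V n) :
    ‖iteratedFDeriv ℝ r (fun x => ∑ a ∈ s, u a x) x‖ ≤ ∑ a ∈ s, sn r (u a) := by
  rw [iteratedFDeriv_fun_sum_apply fun a ha => norm_aux_cda (hu a ha) r x]
  exact (norm_sum_le _ _).trans (Finset.sum_le_sum fun a ha => le_sn (hu a ha) r x)

theorem Sm.add (hf : Sm f) (hg : Sm g) : Sm fun x => f x + g x :=
  ⟨hf.1.add hg.1, fun r => ⟨_, norm_aux_add hf hg r⟩⟩

theorem Sm.neg (hf : Sm f) : Sm fun x => -f x :=
  ⟨hf.1.neg, fun r => by simpa only [norm_aux_neg] using hf.2 r⟩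

theorem Sm.sub (hf : Sm f) (hg : Sm g) : Sm fun x => f x - g x := by
  simpa only [sub_eq_add_neg] using hf.add hg.neg

theorem Sm.const_smul (hf : Sm f) (c : ℝ) : Sm fun x => c • f x :=
  ⟨hf.1.const_smul c, fun r => ⟨|c| * sn r f, fun x => by
    rw [norm_aux_smul hf]
    exact mul_le_mul_of_nonneg_left (le_sn hf r x) (abs_nonneg c)⟩⟩

theorem Sm.sum {α : Type*} {s : Finset α} {u : α → V n → F} (hu : ∀ a ∈ s, Sm (u a)) :
    Sm fun x => ∑ a ∈ s, u a x :=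
  ⟨ContDiff.sum fun a ha => (hu a ha).1, fun r => ⟨_, norm_aux_sum hu r⟩⟩

theorem sn_add_le (hf : Sm f) (hg : Sm g) (r : ℕ) :
    sn r (fun x => f x + g x) ≤ sn r f + sn r g := sn_le (norm_aux_add hf hg r)

theorem sn_neg (r : ℕ) (f : V n → F) : sn r (fun x => -f x) = sn r f := by
  simp only [sn, norm_aux_neg]

theorem sn_sub_le (hf : Sm f) (hg : Sm g) (r : ℕ) :
    sn r (fun x => f x - g x) ≤ sn r f + sn r g := by
  simpa only [sub_eq_add_neg, sn_neg] using sn_add_le hf hg.neg r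

theorem sn_const_smul (hf : Sm f) (r : ℕ) (c : ℝ) :
    sn r (fun x => c • f x) = |c| * sn r f := by
  simp only [sn, norm_aux_smul hf]
  exact (Real.mul_iSup_of_nonneg (abs_nonneg c) _).symm

theorem sn_add_const (r : ℕ) (f : V n → F) (c : F) :
    sn (r + 1) (fun x => f x + c) = sn (r + 1) f := by
  rw [← sn_fderiv, ← sn_fderiv]
  congr 1
  funext x
  exact fderiv_add_const c

theorem sn_sum_le {α : Type*} {s : Finset α} {u : α → V n → F} (hu : ∀ a ∈ s, Sm (u a)) (r : ℕ) :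
    sn r (fun x => ∑ a ∈ s, u a x) ≤ ∑ a ∈ s, sn r (u a) := sn_le (norm_aux_sum hu r)

theorem norm_aux_clm (hf : Sm f) (L : F →L[ℝ] G) (r : ℕ) (x : V n) :
    ‖iteratedFDeriv ℝ r (fun x => L (f x)) x‖ ≤ ‖L‖ * sn r f :=
  (L.norm_iteratedFDeriv_comp_left (norm_aux_cda hf r x) le_rfl).trans
    (mul_le_mul_of_nonneg_left (le_sn hf r x) (norm_nonneg _))

/-- `ContinuousLinearMap.norm_iteratedFDeriv_comp_left` -/
theorem Sm.clm (hf : Sm f) (L : F →L[ℝ] G) : Sm fun x => L (f x) :=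
  ⟨L.contDiff.comp hf.1, fun r => ⟨_, norm_aux_clm hf L r⟩⟩

theorem sn_clm_le (hf : Sm f) (L : F →L[ℝ] G) (r : ℕ) :
    sn r (fun x => L (f x)) ≤ ‖L‖ * sn r f := sn_le (norm_aux_clm hf L r)

theorem norm_aux_leib {g : V n → G} (hf : Sm f) (hg : Sm g) (r : ℕ) (x : V n) :
    ∑ j ∈ Finset.range (r + 1),
        (r.choose j : ℝ) * ‖iteratedFDeriv ℝ j f x‖ * ‖iteratedFDeriv ℝ (r - j) g x‖ ≤
      ∑ j ∈ Finset.range (r + 1), (r.choose j : ℝ) * (sn j f * sn (r - j) g) := by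
  refine Finset.sum_le_sum fun j _ => ?_
  rw [mul_assoc]
  exact mul_le_mul_of_nonneg_left
    (mul_le_mul (le_sn hf j x) (le_sn hg _ x) (norm_nonneg _) (sn_nonneg _ _)) (Nat.cast_nonneg _)

theorem norm_aux_bilin (B : F →L[ℝ] G →L[ℝ] H) {g : V n → G} (hf : Sm f) (hg : Sm g) (r : ℕ)
    (x : V n) : ‖iteratedFDeriv ℝ r (fun x => B (f x) (g x)) x‖ ≤
      ‖B‖ * ∑ j ∈ Finset.range (r + 1), (r.choose j : ℝ) * (sn j f * sn (r - j) g) :=
  (B.norm_iteratedFDeriv_le_of_bilinear hf.1 hg.1 x (norm_aux_le r)).trans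
    (mul_le_mul_of_nonneg_left (norm_aux_leib hf hg r x) B.opNorm_nonneg)

theorem norm_aux_smul2 {a : V n → ℝ} (ha : Sm a) (hf : Sm f) (r : ℕ) (x : V n) :
    ‖iteratedFDeriv ℝ r (fun x => a x • f x) x‖ ≤
      ∑ j ∈ Finset.range (r + 1), (r.choose j : ℝ) * (sn j a * sn (r - j) f) :=
  (norm_iteratedFDeriv_smul_le ha.1 hf.1 x (norm_aux_le r)).trans (norm_aux_leib ha hf r x)

theorem norm_aux_app {A : V n → F →L[ℝ] G} (hA : Sm A) (hf : Sm f) (r : ℕ) (x : V n) :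
    ‖iteratedFDeriv ℝ r (fun x => A x (f x)) x‖ ≤
      ∑ j ∈ Finset.range (r + 1), (r.choose j : ℝ) * (sn j A * sn (r - j) f) :=
  (norm_iteratedFDeriv_clm_apply hA.1 hf.1 x (norm_aux_le r)).trans (norm_aux_leib hA hf r x)

/-- Leibniz bound, `ContinuousLinearMap.norm_iteratedFDeriv_le_of_bilinear` -/
theorem sn_bilin_le (B : F →L[ℝ] G →L[ℝ] H) {g : V n → G} (hf : Sm f) (hg : Sm g) (r : ℕ) :
    sn r (fun x => B (f x) (g x)) ≤
      ‖B‖ * ∑ j ∈ Finset.range (r + 1), (r.choose j : ℝ) * (sn j f * sn (r - j) g) :=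
  sn_le (norm_aux_bilin B hf hg r)

theorem Sm.bilin (B : F →L[ℝ] G →L[ℝ] H) {g : V n → G} (hf : Sm f) (hg : Sm g) :
    Sm fun x => B (f x) (g x) :=
  ⟨(B.contDiff.comp hf.1).clm_apply hg.1, fun r => ⟨_, norm_aux_bilin B hf hg r⟩⟩

theorem Sm.smul {a : V n → ℝ} (ha : Sm a) (hf : Sm f) : Sm fun x => a x • f x :=
  ⟨ha.1.smul hf.1, fun r => ⟨_, norm_aux_smul2 ha hf r⟩⟩

theorem sn_smul_le {a : V n → ℝ} (ha : Sm a) (hf : Sm f) (r : ℕ) : sn r (fun x => a x • f x) ≤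
    ∑ j ∈ Finset.range (r + 1), (r.choose j : ℝ) * (sn j a * sn (r - j) f) :=
  sn_le (norm_aux_smul2 ha hf r)

theorem Sm.app {A : V n → F →L[ℝ] G} (hA : Sm A) (hf : Sm f) : Sm fun x => A x (f x) :=
  ⟨hA.1.clm_apply hf.1, fun r => ⟨_, norm_aux_app hA hf r⟩⟩

theorem sn_app_le {A : V n → F →L[ℝ] G} (hA : Sm A) (hf : Sm f) (r : ℕ) :
    sn r (fun x => A x (f x)) ≤
      ∑ j ∈ Finset.range (r + 1), (r.choose j : ℝ) * (sn j A * sn (r - j) f) :=
  sn_le (norm_aux_app hA hf r)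

theorem norm1b_apply_le (d : Fin n) :
    ‖(ContinuousLinearMap.apply ℝ F (sg d 1 : V n) : (V n →L[ℝ] F) →L[ℝ] F)‖ ≤ 1 := by
  refine ContinuousLinearMap.opNorm_le_bound _ zero_le_one fun A => ?_
  have := A.le_opNorm (sg d 1)
  simpa [norm_sg] using this

theorem Sm.pd (hf : Sm f) (d : Fin n) : Sm (pd d f) :=
  hf.fderiv.clm (ContinuousLinearMap.apply ℝ F (sg d 1 : V n))

theorem sn_pd_le (hf : Sm f) (d : Fin n) (r : ℕ) : sn r (pd d f) ≤ sn (r + 1) f := by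
  have h := sn_clm_le hf.fderiv (ContinuousLinearMap.apply ℝ F (sg d 1 : V n)) r
  rw [sn_fderiv] at h
  exact h.trans (mul_le_of_le_one_left (sn_nonneg _ _) (norm1b_apply_le d))

theorem fderiv_apply_eq_sum (f : V n → F) (x v : V n) :
    fderiv ℝ f x v = ∑ d, v d • pd d f x := by
  conv_lhs => rw [← sum_sg v]
  rw [map_sum]
  refine Finset.sum_congr rfl fun d _ => ?_
  rw [pd, ← map_smul, smul_sg, mul_one]

theorem norm1b_proj_le (d : Fin n) :
    ‖(ContinuousLinearMap.proj d : V n →L[ℝ] ℝ)‖ ≤ 1 := by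
  refine ContinuousLinearMap.opNorm_le_bound _ zero_le_one fun x => ?_
  simpa using abs_apply_le x d

theorem norm1b_smulRight_le (d : Fin n) :
    ‖ContinuousLinearMap.smulRightL ℝ (V n) F (ContinuousLinearMap.proj d : V n →L[ℝ] ℝ)‖ ≤ 1 := by
  refine ContinuousLinearMap.opNorm_le_bound _ zero_le_one fun y => ?_
  rw [ContinuousLinearMap.smulRightL_apply_apply, ContinuousLinearMap.norm_smulRight_apply]
  exact mul_le_mul_of_nonneg_right (norm1b_proj_le d) (norm_nonneg _)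

/-- `fderiv f x = ∑ d, (proj d).smulRight (pd d f x)` -/
theorem sn_succ_le_sum (hf : Sm f) (r : ℕ) : sn (r + 1) f ≤ ∑ d, sn r (pd d f) := by
  have e : fderiv ℝ f = fun x => ∑ d, ContinuousLinearMap.smulRightL ℝ (V n) F
      (ContinuousLinearMap.proj d : V n →L[ℝ] ℝ) (pd d f x) := by
    ext1 x
    ext1 v
    rw [fderiv_apply_eq_sum, sum_apply]
    rfl
  rw [← sn_fderiv, e]
  refine (sn_sum_le (fun d _ => (hf.pd d).clm _) r).trans (Finset.sum_le_sum fun d _ => ?_)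
  exact (sn_clm_le (hf.pd d) _ r).trans
    (mul_le_of_le_one_left (sn_nonneg _ _) (norm1b_smulRight_le d))

theorem Sm.coord {f : V n → V n} (hf : Sm f) (d : Fin n) : Sm fun x => f x d :=
  hf.clm (ContinuousLinearMap.proj d : V n →L[ℝ] ℝ)

theorem sn_coord_le {f : V n → V n} (hf : Sm f) (d : Fin n) (r : ℕ) :
    sn r (fun x => f x d) ≤ sn r f :=
  (sn_clm_le hf (ContinuousLinearMap.proj d : V n →L[ℝ] ℝ) r).trans
    (mul_le_of_le_one_left (sn_nonneg _ _) (norm1b_proj_le d))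

theorem norm1b_aff (hf : Sm f) (l : ℝ) (m : V n) (r : ℕ) (x : V n) :
    iteratedFDeriv ℝ r (fun x => f (l • x + m)) x = l ^ r • iteratedFDeriv ℝ r f (l • x + m) := by
  have h : ContDiff ℝ ∞ fun z => f (z + m) := hf.1.comp (contDiff_id.add contDiff_const)
  have := (l • ContinuousLinearMap.id ℝ (V n)).iteratedFDeriv_comp_right h x (i := r)
    (by exact_mod_cast le_top)
  rw [iteratedFDeriv_comp_add_right] at this
  refine Eq.trans this ?_
  ext v
  have h2 := (iteratedFDeriv ℝ r f (l • x + m)).map_smul_univ (fun _ => l) v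
  simpa using h2

theorem norm1b_aff_norm (hf : Sm f) (l : ℝ) (m : V n) (r : ℕ) (x : V n) :
    ‖iteratedFDeriv ℝ r (fun x => f (l • x + m)) x‖ =
      |l| ^ r * ‖iteratedFDeriv ℝ r f (l • x + m)‖ := by
  rw [norm1b_aff hf, norm_smul, Real.norm_eq_abs, abs_pow]

theorem Sm.comp_aff (hf : Sm f) (l : ℝ) (m : V n) : Sm fun x => f (l • x + m) :=
  ⟨hf.1.comp ((contDiff_id.const_smul l).add contDiff_const), fun r =>
    ⟨|l| ^ r * sn r f, fun x => by
      rw [norm1b_aff_norm hf]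
      exact mul_le_mul_of_nonneg_left (le_sn hf r _) (by positivity)⟩⟩

/-- `ContinuousLinearMap.iteratedFDeriv_comp_right` and translation invariance -/
theorem sn_comp_aff (hf : Sm f) {l : ℝ} (hl : l ≠ 0) (m : V n) (r : ℕ) :
    sn r (fun x => f (l • x + m)) = |l| ^ r * sn r f := by
  simp only [sn, norm1b_aff_norm hf]
  rw [← Real.mul_iSup_of_nonneg (by positivity)]
  congr 1
  have hs : Function.Surjective fun x : V n => l • x + m := fun y =>
    ⟨l⁻¹ • (y - m), by simp [smul_smul, hl]⟩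
  exact hs.iSup_comp fun y => ‖iteratedFDeriv ℝ r f y‖

theorem Sm.comp_add (hf : Sm f) (c : V n) : Sm fun x => f (x + c) := by
  simpa only [one_smul] using hf.comp_aff 1 c

/-- `iteratedFDeriv_comp_add_right` -/
theorem sn_comp_add (f : V n → F) (c : V n) (r : ℕ) : sn r (fun x => f (x + c)) = sn r f := by
  simp only [sn, iteratedFDeriv_comp_add_right]
  exact (add_right_surjective c).iSup_comp fun y => ‖iteratedFDeriv ℝ r f y‖

theorem nm_nonneg (r : ℕ) (f : V n → F) : 0 ≤ nm r f :=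
  Finset.sum_nonneg fun j _ => sn_nonneg j f

theorem sn_le_nm {j r : ℕ} (h : j ≤ r) (f : V n → F) : sn j f ≤ nm r f :=
  Finset.single_le_sum (f := fun j => sn j f) (fun j _ => sn_nonneg j f)
    (Finset.mem_range.mpr (by omega))

theorem nm_mono {j r : ℕ} (h : j ≤ r) (f : V n → F) : nm j f ≤ nm r f :=
  Finset.sum_le_sum_of_subset_of_nonneg (Finset.range_subset_range.mpr (by omega))
    fun j _ _ => sn_nonneg j f

theorem nm_le_of_sn_le {r : ℕ} {A : ℝ} (h : ∀ j, j ≤ r → sn j f ≤ A) : nm r f ≤ (r + 1) * A := by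
  have := Finset.sum_le_card_nsmul (Finset.range (r + 1)) (fun j => sn j f) A
    fun j hj => h j (by simpa [Nat.lt_succ_iff] using hj)
  simpa [nm] using this

theorem nm_zero_fun (r : ℕ) : nm r (fun _ : V n => (0 : F)) = 0 := by
  simp only [nm, sn_zero_fun, Finset.sum_const_zero]

theorem nm_succ (r : ℕ) (f : V n → F) : nm (r + 1) f = sn 0 f + nm r (fderiv ℝ f) := by
  rw [nm, Finset.sum_range_succ', add_comm, nm]
  simp only [sn_fderiv]

theorem nm_add_le (hf : Sm f) (hg : Sm g) (r : ℕ) :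
    nm r (fun x => f x + g x) ≤ nm r f + nm r g := by
  rw [nm, nm, nm, ← Finset.sum_add_distrib]
  exact Finset.sum_le_sum fun j _ => sn_add_le hf hg j

theorem nm_neg (r : ℕ) (f : V n → F) : nm r (fun x => -f x) = nm r f := by
  simp only [nm, sn_neg]

theorem nm_sub_le (hf : Sm f) (hg : Sm g) (r : ℕ) :
    nm r (fun x => f x - g x) ≤ nm r f + nm r g := by
  rw [nm, nm, nm, ← Finset.sum_add_distrib]
  exact Finset.sum_le_sum fun j _ => sn_sub_le hf hg j

theorem nm_const_smul (hf : Sm f) (r : ℕ) (c : ℝ) :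
    nm r (fun x => c • f x) = |c| * nm r f := by
  simp only [nm, sn_const_smul hf, Finset.mul_sum]

theorem nm_clm_le (hf : Sm f) (L : F →L[ℝ] G) (r : ℕ) :
    nm r (fun x => L (f x)) ≤ ‖L‖ * nm r f := by
  rw [nm, nm, Finset.mul_sum]
  exact Finset.sum_le_sum fun j _ => sn_clm_le hf L j

theorem norm1b_choose (f : V n → F) (g : V n → G) (r : ℕ) :
    ∑ j ∈ Finset.range (r + 1), (r.choose j : ℝ) * (sn j f * sn (r - j) g) ≤
      2 ^ r * (nm r f * nm r g) := by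
  have e : (2 : ℝ) ^ r = ∑ j ∈ Finset.range (r + 1), (r.choose j : ℝ) := by
    exact_mod_cast (Nat.sum_range_choose r).symm
  rw [e, Finset.sum_mul]
  refine Finset.sum_le_sum fun j hj => mul_le_mul_of_nonneg_left ?_ (Nat.cast_nonneg _)
  exact mul_le_mul (sn_le_nm (by simpa [Nat.lt_succ_iff] using hj) f) (sn_le_nm (Nat.sub_le _ _) g)
    (sn_nonneg _ _) (nm_nonneg _ _)

theorem sn_bilin_le_nm (B : F →L[ℝ] G →L[ℝ] H) {g : V n → G} (hf : Sm f) (hg : Sm g) (r : ℕ) :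
    sn r (fun x => B (f x) (g x)) ≤ ‖B‖ * (2 ^ r * (nm r f * nm r g)) :=
  (sn_bilin_le B hf hg r).trans (mul_le_mul_of_nonneg_left (norm1b_choose f g r) B.opNorm_nonneg)

theorem sn_smul_le_nm {a : V n → ℝ} (ha : Sm a) (hf : Sm f) (r : ℕ) :
    sn r (fun x => a x • f x) ≤ 2 ^ r * (nm r a * nm r f) :=
  (sn_smul_le ha hf r).trans (norm1b_choose a f r)

theorem nm_smul_le {a : V n → ℝ} (ha : Sm a) (hf : Sm f) (r : ℕ) :
    nm r (fun x => a x • f x) ≤ (r + 1) * 2 ^ r * (nm r a * nm r f) := by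
  rw [mul_assoc]
  refine nm_le_of_sn_le fun j hj => (sn_smul_le_nm ha hf j).trans ?_
  exact mul_le_mul (pow_le_pow_right₀ one_le_two hj)
    (mul_le_mul (nm_mono hj a) (nm_mono hj f) (nm_nonneg _ _) (nm_nonneg _ _))
    (mul_nonneg (nm_nonneg _ _) (nm_nonneg _ _)) (by positivity)

/-- the top order term of the Leibniz bound is kept apart -/
theorem sn_smul_top {a : V n → ℝ} (ha : Sm a) (hf : Sm f) (r : ℕ) :
    sn (r + 1) (fun x => a x • f x) ≤
      sn 0 a * sn (r + 1) f + 2 ^ (r + 1) * (nm (r + 1) a * nm r f) := by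
  refine (sn_smul_le ha hf (r + 1)).trans ?_
  rw [Finset.sum_range_succ', add_comm]
  refine add_le_add (by simp) ?_
  have e : (2 : ℝ) ^ (r + 1) = ∑ j ∈ Finset.range (r + 1 + 1), ((r + 1).choose j : ℝ) := by
    exact_mod_cast (Nat.sum_range_choose (r + 1)).symm
  have hp : 0 ≤ nm (r + 1) a * nm r f := mul_nonneg (nm_nonneg _ _) (nm_nonneg _ _)
  rw [e, Finset.sum_range_succ' _ (r + 1), add_mul, Finset.sum_mul]
  refine le_add_of_le_of_nonneg ?_ (mul_nonneg (Nat.cast_nonneg _) hp)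
  refine Finset.sum_le_sum fun j hj => mul_le_mul_of_nonneg_left ?_ (Nat.cast_nonneg _)
  have hj' := Finset.mem_range.mp hj
  exact mul_le_mul (sn_le_nm (by omega) a) (sn_le_nm (by omega) f) (sn_nonneg _ _) (nm_nonneg _ _)

theorem sn_app_le_nm {A : V n → F →L[ℝ] G} (hA : Sm A) (hf : Sm f) (r : ℕ) :
    sn r (fun x => A x (f x)) ≤ 2 ^ r * (nm r A * nm r f) :=
  (sn_app_le hA hf r).trans (norm1b_choose A f r)

theorem md_nonneg (r : ℕ) (f : V n → F) : 0 ≤ md r f :=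
  Finset.sum_nonneg fun j _ => sn_nonneg j f

theorem md_two (f : V n → F) : md 2 f = 0 := by
  simp [md]

theorem md_succ {r : ℕ} (hr : 2 ≤ r) (f : V n → F) : md (r + 1) f = md r f + sn r f :=
  Finset.sum_Ico_succ_top hr _

theorem sn_le_md {j r : ℕ} (h2 : 2 ≤ j) (h : j < r) (f : V n → F) : sn j f ≤ md r f :=
  Finset.single_le_sum (f := fun j => sn j f) (fun j _ => sn_nonneg j f)
    (Finset.mem_Ico.mpr ⟨h2, h⟩)

theorem md_le_nm (r : ℕ) (f : V n → F) : md r f ≤ nm r f :=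
  Finset.sum_le_sum_of_subset_of_nonneg
    (fun j hj => Finset.mem_range.mpr (by have := (Finset.mem_Ico.mp hj).2; omega))
    fun j _ _ => sn_nonneg j f

theorem md_succ_le_nm (r : ℕ) (f : V n → F) : md (r + 1) f ≤ nm r f :=
  Finset.sum_le_sum_of_subset_of_nonneg
    (fun _ hj => Finset.mem_range.mpr (Finset.mem_Ico.mp hj).2)
    fun j _ _ => sn_nonneg j f

theorem md_le_of_sn_le {r : ℕ} {A : ℝ} (hA : 0 ≤ A) (h : ∀ j, 2 ≤ j → j < r → sn j f ≤ A) :
    md r f ≤ r * A := by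
  have := Finset.sum_le_card_nsmul (Finset.Ico 2 r) (fun j => sn j f) A
    fun j hj => h j (Finset.mem_Ico.mp hj).1 (Finset.mem_Ico.mp hj).2
  rw [Nat.card_Ico, nsmul_eq_mul] at this
  exact this.trans (mul_le_mul_of_nonneg_right (by exact_mod_cast Nat.sub_le r 2) hA)

/-- mean value inequality -/
theorem norm_sub_le_sn (hf : Sm f) (x y : V n) : ‖f x - f y‖ ≤ sn 1 f * ‖x - y‖ :=
  convex_univ.norm_image_sub_le_of_norm_fderiv_le (fun z _ => hf.differentiable z)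
    (fun z _ => norm_fderiv_le_sn_one hf z) (mem_univ y) (mem_univ x)

/-- second order Taylor bound: mean value inequality on the closed ball of radius `‖v‖` for
`y ↦ f y - fderiv f x y` -/
theorem taylor_two (hf : Sm f) (x v : V n) :
    ‖f (x + v) - f x - fderiv ℝ f x v‖ ≤ sn 2 f * ‖v‖ ^ 2 := by
  have key := (convex_closedBall x ‖v‖).norm_image_sub_le_of_norm_fderiv_le'
    (f := f) (φ := fderiv ℝ f x) (C := sn 2 f * ‖v‖) (x := x) (y := x + v)
    (fun z _ => hf.differentiable z) (fun z hz => by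
      have h1 := norm_sub_le_sn hf.fderiv z x
      rw [sn_fderiv] at h1
      refine h1.trans (mul_le_mul_of_nonneg_left ?_ (sn_nonneg _ _))
      simpa [dist_eq_norm] using hz) (Metric.mem_closedBall_self (norm_nonneg _))
    (by simp [dist_eq_norm])
  rw [add_sub_cancel_left] at key
  rw [sq, ← mul_assoc]
  exact key

/-- a function that locally agrees with uniformly bounded smooth functions -/
theorem sm_of_local {B : ℕ → ℝ}
    (h : ∀ x, ∃ g, Sm g ∧ (∀ r, sn r g ≤ B r) ∧ f =ᶠ[𝓝 x] g) :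
    Sm f ∧ ∀ r, sn r f ≤ B r := by
  have hb : ∀ r x, ‖iteratedFDeriv ℝ r f x‖ ≤ B r := fun r x => by
    obtain ⟨g, hg, hB, e⟩ := h x
    rw [(e.iteratedFDeriv ℝ r).eq_of_nhds]
    exact (le_sn hg r x).trans (hB r)
  refine ⟨⟨contDiff_iff_contDiffAt.mpr fun x => ?_, fun r => ⟨_, hb r⟩⟩, fun r => sn_le (hb r)⟩
  obtain ⟨g, hg, -, e⟩ := h x
  exact hg.1.contDiffAt.congr_of_eventuallyEq e

end Pool.Agent.P.MP_878f14_gt.HT
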