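import Pool.Agent.P.MP_878f14_gt.HT.Comp
import Pool.Agent.P.MP_878f14_gt.HT.Norm2

/-! Scales, orders of families of numbers and of functions. -/

namespace Pool.Agent.P.MP_878f14_gt.HT

open Filter Asymptotics
open scoped Topology

/-- an index set with a filter, a small parameter and weights -/
structure Scale where
  ι : Type
  F : Filter ι
  ε : ι → ℝ
  H : ℕ → ι → ℝ
  pos : ∀ i, 0 < ε i
  le_half : ∀ i, ε i ≤ 1 / 2
  tend : Tendsto ε F (𝓝 0)
  one_le : ∀ r i, 1 ≤ H r i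
  mono : ∀ i, Monotone fun r => H r i
  ev : ∀ r, ∀ᶠ i in F, H r i ≤ 2

namespace Scale

variable (S : Scale)

/-- scalar family of order `k` -/
def OdS (k : ℕ) (c : S.ι → ℝ) : Prop := c =O[S.F] fun i => S.ε i ^ k

section

variable {n : ℕ} {F : Type} [NormedAddCommGroup F] [NormedSpace ℝ F]

/-- family of functions of order `k` -/
def Od (k : ℕ) (f : S.ι → V n → F) : Prop :=
  (∀ᶠ i in S.F, Sm (f i)) ∧ ∀ r, S.OdS k fun i => sn r (f i)

/-- tame family of functions -/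
def Tame (f : S.ι → V n → F) : Prop :=
  ∃ K : ℕ, ∃ A ∈ S.F, (∀ i ∈ A, Sm (f i)) ∧
    ∀ r, ∃ C : ℝ, ∀ i ∈ A, sn r (f i) ≤ C * S.H r i / S.ε i ^ K

end

section

variable {S} {m n k : ℕ} {c d : S.ι → ℝ}

theorem odS_iff : S.OdS n c ↔ ∃ C : ℝ, 0 ≤ C ∧ ∀ᶠ i in S.F, |c i| ≤ C * S.ε i ^ n := by
  unfold OdS
  constructor
  · intro h
    obtain ⟨C, hC, h⟩ := h.exists_nonneg
    refine ⟨C, hC, h.bound.mono fun i hi => ?_⟩
    rwa [Real.norm_eq_abs, Real.norm_eq_abs, abs_of_pos (pow_pos (S.pos i) n)] at hi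
  · rintro ⟨C, -, h⟩
    refine IsBigO.of_bound C (h.mono fun i hi => ?_)
    rwa [Real.norm_eq_abs, Real.norm_eq_abs, abs_of_pos (pow_pos (S.pos i) n)]

theorem OdS.congr (h : S.OdS n c) (e : ∀ᶠ i in S.F, c i = d i) : S.OdS n d := 
  IsBigO.congr' h e (EventuallyEq.refl _ _)

theorem OdS.of_le (h : S.OdS n c) (C : ℝ) (e : ∀ᶠ i in S.F, |d i| ≤ C * |c i|) : S.OdS n d := 
  IsBigO.trans (IsBigO.of_bound C e) h

theorem OdS.mono (h : S.OdS n c) (hm : m ≤ n) : S.OdS m c := by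
  obtain ⟨C, hC, h⟩ := odS_iff.1 h
  refine odS_iff.2 ⟨C, hC, h.mono fun i hi => hi.trans ?_⟩
  exact mul_le_mul_of_nonneg_left
    (pow_le_pow_of_le_one (S.pos i).le (by linarith [S.le_half i]) hm) hC

theorem odS_zero : S.OdS n fun _ => 0 := isBigO_zero _ _

theorem odS_const (a : ℝ) : S.OdS 0 fun _ => a := 
  odS_iff.2 ⟨|a|, abs_nonneg a, Eventually.of_forall fun i => by simp⟩

theorem odS_pow (n : ℕ) : S.OdS n fun i => S.ε i ^ n := isBigO_refl _ _

theorem OdS.add (h : S.OdS n c) (h' : S.OdS n d) : S.OdS n fun i => c i + d i := 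
  IsBigO.add h h'

theorem OdS.neg (h : S.OdS n c) : S.OdS n fun i => -c i := IsBigO.neg_left h

theorem OdS.sub (h : S.OdS n c) (h' : S.OdS n d) : S.OdS n fun i => c i - d i := 
  IsBigO.sub h h'

theorem OdS.abs (h : S.OdS n c) : S.OdS n fun i => |c i| := IsBigO.abs_left h

theorem OdS.const_mul (h : S.OdS n c) (a : ℝ) : S.OdS n fun i => a * c i := 
  IsBigO.const_mul_left h a

theorem OdS.mul (h : S.OdS m c) (h' : S.OdS n d) : S.OdS (m + n) fun i => c i * d i := by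
  unfold OdS
  simp only [pow_add]
  exact IsBigO.mul h h'

theorem OdS.div_pow (h : S.OdS (n + k) c) : S.OdS n fun i => c i / S.ε i ^ k := by
  obtain ⟨C, hC, h⟩ := odS_iff.1 h
  refine odS_iff.2 ⟨C, hC, h.mono fun i hi => ?_⟩
  have hp := pow_pos (S.pos i) k
  rw [abs_div, abs_of_pos hp, div_le_iff₀ hp, mul_assoc, ← pow_add]
  exact hi

theorem OdS.of_pow_mul (h : S.OdS (n + k) fun i => S.ε i ^ k * c i) : S.OdS n c := 
  h.div_pow.congr (Eventually.of_forall fun i =>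
    mul_div_cancel_left₀ _ (pow_pos (S.pos i) k).ne')

theorem OdS.small (h : S.OdS (n + 1) c) {δ : ℝ} (hδ : 0 < δ) :
    ∀ᶠ i in S.F, |c i| ≤ δ * S.ε i ^ n := by
  obtain ⟨C, hC, h⟩ := odS_iff.1 h
  have h1 : ∀ᶠ i in S.F, S.ε i ≤ δ / (C + 1) :=
    S.tend.eventually (ge_mem_nhds (by positivity))
  filter_upwards [h, h1] with i hi hi'
  refine hi.trans ?_
  have hp := pow_pos (S.pos i) n
  rw [le_div_iff₀ (by positivity)] at hi'
  have h2 : C * S.ε i ≤ δ := by nlinarith [S.pos i]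
  rw [pow_succ', ← mul_assoc]
  exact mul_le_mul_of_nonneg_right h2 hp.le

theorem eps_small (S : Scale) {δ : ℝ} (hδ : 0 < δ) : ∀ᶠ i in S.F, S.ε i ≤ δ := 
  S.tend.eventually (ge_mem_nhds hδ)

end

variable {S} {n m p k : ℕ} {F G H : Type} [NormedAddCommGroup F] [NormedSpace ℝ F]
  [NormedAddCommGroup G] [NormedSpace ℝ G] [NormedAddCommGroup H] [NormedSpace ℝ H]
  {c : S.ι → ℝ} {f g : S.ι → V n → F}

theorem Od.sm (h : S.Od p f) : ∀ᶠ i in S.F, Sm (f i) := h.1

theorem Od.odS_sn (h : S.Od p f) (r : ℕ) : S.OdS p fun i => sn r (f i) := h.2 r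

theorem Od.odS_nm (h : S.Od p f) (r : ℕ) : S.OdS p fun i => nm r (f i) :=
  IsBigO.fun_sum (A := fun j i => sn j (f i)) fun j _ => h.2 j

theorem Od.congr (h : S.Od p f) (e : ∀ᶠ i in S.F, f i = g i) : S.Od p g :=
  ⟨(h.1.and e).mono fun _ hi => hi.2 ▸ hi.1, fun r => (h.2 r).congr (e.mono fun _ hi => by rw [hi])⟩

theorem Od.mono (h : S.Od p f) (hm : m ≤ p) : S.Od m f := ⟨h.1, fun r => (h.2 r).mono hm⟩

theorem Od.of_le {g : S.ι → V n → G} (h : S.Od p f) (hs : ∀ᶠ i in S.F, Sm (g i))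
    (e : ∀ r, ∃ r' : ℕ, ∃ C : ℝ, ∀ᶠ i in S.F, sn r (g i) ≤ C * nm r' (f i)) : S.Od p g := by
  refine ⟨hs, fun r => ?_⟩
  obtain ⟨r', C, e⟩ := e r
  refine (h.odS_nm r').of_le C (e.mono fun i hi => ?_)
  rwa [abs_of_nonneg (sn_nonneg _ _), abs_of_nonneg (nm_nonneg _ _)]

/-- comparison with a loss of `k` orders -/
theorem Od.of_le_div {g : S.ι → V n → G} (h : S.Od (p + k) f) (hs : ∀ᶠ i in S.F, Sm (g i))
    (e : ∀ r, ∃ r' : ℕ, ∃ C : ℝ, ∀ᶠ i in S.F, sn r (g i) ≤ C * nm r' (f i) / S.ε i ^ k) :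
    S.Od p g := by
  refine ⟨hs, fun r => ?_⟩
  obtain ⟨r', C, e⟩ := e r
  refine (h.odS_nm r').div_pow.of_le C (e.mono fun i hi => ?_)
  rwa [abs_of_nonneg (sn_nonneg _ _),
    abs_of_nonneg (div_nonneg (nm_nonneg _ _) (pow_pos (S.pos i) k).le), ← mul_div_assoc]

theorem Od.small (h : S.Od (p + 1) f) (r : ℕ) {δ : ℝ} (hδ : 0 < δ) :
    ∀ᶠ i in S.F, nm r (f i) ≤ δ * S.ε i ^ p :=
  ((h.odS_nm r).small hδ).mono fun _ hi => (le_abs_self _).trans hi

/-- a nonnegative family bounded by a family of order `p` -/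
theorem scale_aux1 {r : ℕ} (h : S.OdS p c) (e : ∀ᶠ i in S.F, sn r (f i) ≤ c i) :
    S.OdS p fun i => sn r (f i) :=
  h.of_le 1 (e.mono fun i hi => by
    rw [abs_of_nonneg (sn_nonneg _ _), one_mul]
    exact hi.trans (le_abs_self _))

theorem scale_sum {α : Type*} {s : Finset α} {u : α → S.ι → ℝ} (h : ∀ a ∈ s, S.OdS p (u a)) :
    S.OdS p fun i => ∑ a ∈ s, u a i :=
  IsBigO.fun_sum (A := u) h

theorem od_zero : S.Od p fun _ (_ : V n) => (0 : F) :=
  ⟨Eventually.of_forall fun _ => sm_const 0, fun r =>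
    odS_zero.congr (Eventually.of_forall fun _ => (sn_zero_fun r).symm)⟩

theorem od_const {φ : V n → F} (h : Sm φ) : S.Od 0 fun _ => φ :=
  ⟨Eventually.of_forall fun _ => h, fun _ => odS_const _⟩

theorem OdS.od_cst {v : S.ι → F} (h : S.OdS p fun i => ‖v i‖) :
    S.Od p fun i (_ : V n) => v i := by
  refine ⟨Eventually.of_forall fun i => sm_const _, fun r => ?_⟩
  cases r with
  | zero => exact h.congr (Eventually.of_forall fun i => (sn_const_zero _).symm)
  | succ r => exact odS_zero.congr (Eventually.of_forall fun i => (sn_const_succ r _).symm)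

theorem Od.add (h : S.Od p f) (h' : S.Od p g) : S.Od p fun i x => f i x + g i x :=
  ⟨(h.1.and h'.1).mono fun _ hi => hi.1.add hi.2, fun r => scale_aux1 ((h.2 r).add (h'.2 r))
    ((h.1.and h'.1).mono fun _ hi => sn_add_le hi.1 hi.2 r)⟩

theorem Od.neg (h : S.Od p f) : S.Od p fun i x => -f i x :=
  ⟨h.1.mono fun _ hi => hi.neg, fun r =>
    (h.2 r).congr (Eventually.of_forall fun _ => (sn_neg r _).symm)⟩

theorem Od.sub (h : S.Od p f) (h' : S.Od p g) : S.Od p fun i x => f i x - g i x :=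
  ⟨(h.1.and h'.1).mono fun _ hi => hi.1.sub hi.2, fun r => scale_aux1 ((h.2 r).add (h'.2 r))
    ((h.1.and h'.1).mono fun _ hi => sn_sub_le hi.1 hi.2 r)⟩

theorem Od.sum {α : Type*} {s : Finset α} {u : α → S.ι → V n → F} (h : ∀ a ∈ s, S.Od p (u a)) :
    S.Od p fun i x => ∑ a ∈ s, u a i x := by
  have hs : ∀ᶠ i in S.F, ∀ a ∈ s, Sm (u a i) :=
    (eventually_all_finset s).2 fun a ha => (h a ha).1
  exact ⟨hs.mono fun i hi => Sm.sum (u := fun a => u a i) hi, fun r =>
    scale_aux1 (scale_sum (u := fun a i => sn r (u a i)) fun a ha => (h a ha).2 r)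
      (hs.mono fun i hi => sn_sum_le (u := fun a => u a i) hi r)⟩

theorem Od.const_smul (h : S.Od p f) (a : ℝ) : S.Od p fun i x => a • f i x :=
  ⟨h.1.mono fun _ hi => hi.const_smul a, fun r =>
    ((h.2 r).const_mul |a|).congr (h.1.mono fun _ hi => (sn_const_smul hi r a).symm)⟩

theorem Od.clm (h : S.Od p f) (L : F →L[ℝ] G) : S.Od p fun i x => L (f i x) :=
  ⟨h.1.mono fun _ hi => hi.clm L, fun r =>
    scale_aux1 ((h.2 r).const_mul ‖L‖) (h.1.mono fun _ hi => sn_clm_le hi L r)⟩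

theorem Od.bilin (B : F →L[ℝ] G →L[ℝ] H) {g : S.ι → V n → G} (h : S.Od m f) (h' : S.Od p g) :
    S.Od (m + p) fun i x => B (f i x) (g i x) :=
  ⟨(h.1.and h'.1).mono fun _ hi => Sm.bilin B hi.1 hi.2, fun r =>
    scale_aux1 ((((h.odS_nm r).mul (h'.odS_nm r)).const_mul (2 ^ r)).const_mul ‖B‖)
      ((h.1.and h'.1).mono fun _ hi => sn_bilin_le_nm B hi.1 hi.2 r)⟩

theorem Od.mul {a : S.ι → V n → ℝ} (h : S.Od m a) (h' : S.Od p f) :
    S.Od (m + p) fun i x => a i x • f i x :=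
  ⟨(h.1.and h'.1).mono fun _ hi => hi.1.smul hi.2, fun r =>
    scale_aux1 (((h.odS_nm r).mul (h'.odS_nm r)).const_mul (2 ^ r))
      ((h.1.and h'.1).mono fun _ hi => sn_smul_le_nm hi.1 hi.2 r)⟩

theorem Od.app {A : S.ι → V n → F →L[ℝ] G} (h : S.Od m A) (h' : S.Od p f) :
    S.Od (m + p) fun i x => A i x (f i x) :=
  ⟨(h.1.and h'.1).mono fun _ hi => hi.1.app hi.2, fun r =>
    scale_aux1 (((h.odS_nm r).mul (h'.odS_nm r)).const_mul (2 ^ r))
      ((h.1.and h'.1).mono fun _ hi => sn_app_le_nm hi.1 hi.2 r)⟩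

theorem Od.smul (hc : S.OdS m c) (h : S.Od p f) : S.Od (m + p) fun i x => c i • f i x :=
  (OdS.od_cst (n := n) (v := c) hc.abs).mul h

theorem Od.fix_smul (h : S.Od p f) {φ : V n → ℝ} (hφ : Sm φ) :
    S.Od p fun i x => φ x • f i x := by
  have := (od_const (S := S) hφ).mul h
  rwa [zero_add] at this

theorem Od.pow_smul (h : S.Od p f) (k : ℕ) : S.Od (k + p) fun i x => S.ε i ^ k • f i x :=
  Od.smul (odS_pow k) h

theorem Od.div_pow (h : S.Od (p + k) f) : S.Od p fun i x => (S.ε i ^ k)⁻¹ • f i x := by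
  refine ⟨h.1.mono fun i hi => hi.const_smul _, fun r =>
    (h.2 r).div_pow.congr (h.1.mono fun i hi => ?_)⟩
  beta_reduce
  rw [sn_const_smul hi, abs_of_pos (inv_pos.2 (pow_pos (S.pos i) k)), div_eq_inv_mul]

theorem Od.of_pow_smul (h : S.Od (p + k) fun i x => S.ε i ^ k • f i x) : S.Od p f :=
  h.div_pow.congr (Eventually.of_forall fun i => funext fun _ =>
    inv_smul_smul₀ (pow_pos (S.pos i) k).ne' _)

theorem Od.fderiv (h : S.Od p f) : S.Od p fun i => fderiv ℝ (f i) :=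
  ⟨h.1.mono fun _ hi => hi.fderiv, fun r =>
    (h.2 (r + 1)).congr (Eventually.of_forall fun _ => (sn_fderiv r _).symm)⟩

theorem Od.pd (h : S.Od p f) (d : Fin n) : S.Od p fun i => pd d (f i) :=
  ⟨h.1.mono fun _ hi => hi.pd d, fun r =>
    scale_aux1 (h.2 (r + 1)) (h.1.mono fun _ hi => sn_pd_le hi d r)⟩

/-- converse: `sn_fderiv` -/
theorem od_of_fderiv (hs : ∀ᶠ i in S.F, Sm (f i)) (h0 : S.OdS p fun i => sn 0 (f i))
    (h : S.Od p fun i => _root_.fderiv ℝ (f i)) : S.Od p f := by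
  refine ⟨hs, fun r => ?_⟩
  cases r with
  | zero => exact h0
  | succ r => exact (h.2 r).congr (Eventually.of_forall fun _ => sn_fderiv r _)

theorem Od.coord {f : S.ι → V n → V n} (h : S.Od p f) (d : Fin n) :
    S.Od p fun i x => f i x d :=
  ⟨h.1.mono fun _ hi => hi.coord d, fun r =>
    scale_aux1 (h.2 r) (h.1.mono fun _ hi => sn_coord_le hi d r)⟩

theorem Od.br {f g : S.ι → V n → V n} (h : S.Od m f) (h' : S.Od p g) :
    S.Od (m + p) fun i => br (f i) (g i) := by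
  have h1 := h'.fderiv.app h
  rw [add_comm] at h1
  exact h1.sub (h.fderiv.app h')

theorem Od.comp_aff (h : S.Od p f) (l : ℝ) (a : V n) : S.Od p fun i x => f i (l • x + a) := by
  rcases eq_or_ne l 0 with rfl | hl
  · have h1 : S.OdS p fun i => ‖f i a‖ := (h.2 0).of_le 1 (h.1.mono fun i hi => by
      rw [one_mul, abs_of_nonneg (sn_nonneg _ _), abs_norm]
      exact norm_le_sn_zero hi _)
    simpa only [zero_smul, zero_add] using h1.od_cst (n := n)
  · exact ⟨h.1.mono fun _ hi => hi.comp_aff l a, fun r =>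
      ((h.2 r).const_mul (|l| ^ r)).congr (h.1.mono fun _ hi => (sn_comp_aff hi hl a r).symm)⟩

theorem Od.comp_add (h : S.Od p f) (c : S.ι → V n) : S.Od p fun i x => f i (x + c i) :=
  ⟨h.1.mono fun _ hi => hi.comp_add _, fun r =>
    (h.2 r).congr (Eventually.of_forall fun _ => (sn_comp_add _ _ r).symm)⟩

theorem Od.apply (h : S.Od p f) (x : S.ι → V n) : S.OdS p fun i => ‖f i (x i)‖ :=
  (h.2 0).of_le 1 (h.1.mono fun i hi => by
    rw [one_mul, abs_of_nonneg (sn_nonneg _ _), abs_norm]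
    exact norm_le_sn_zero hi _)

/-- use `nm_comp_le` -/
theorem Od.comp {g : S.ι → V n → V n} (h : S.Od p f) (h' : S.Od 0 g) :
    S.Od p fun i x => f i (x + g i x) := by
  refine h.of_le ((h.1.and h'.1).mono fun _ hi => hi.1.comp hi.2) fun r => ?_
  obtain ⟨M, -, hM⟩ := odS_iff.1 (h'.odS_nm r)
  obtain ⟨C, -, hC⟩ := nm_comp_le (n := n) (F := F) r M
  refine ⟨r, C, ?_⟩
  filter_upwards [h.1, h'.1, hM] with i h1 h2 h3
  rw [pow_zero, mul_one] at h3
  exact (sn_le_nm le_rfl _).trans (hC _ _ h1 h2 ((le_abs_self _).trans h3))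

omit [NormedAddCommGroup G] [NormedSpace ℝ G] [NormedAddCommGroup H] [NormedSpace ℝ H] in
theorem scale_pd_sub {u v : V n → F} (hu : Sm u) (hv : Sm v) (d : Fin n) :
    HT.pd d (fun x => u x - v x) = fun x => HT.pd d u x - HT.pd d v x := by
  funext x
  simp only [HT.pd]
  rw [fderiv_fun_sub (hu.differentiable x) (hv.differentiable x)]
  rfl

omit [NormedAddCommGroup G] [NormedSpace ℝ G] [NormedAddCommGroup H] [NormedSpace ℝ H] in
theorem scale_pd_app {u : V n → F} {w : V n → V n} (hu : Sm u) (hw : Sm w) (d : Fin n) :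
    HT.pd d (fun x => _root_.fderiv ℝ u x (w x)) = fun x =>
      _root_.fderiv ℝ (HT.pd d u) x (w x) + _root_.fderiv ℝ u x (HT.pd d w x) := by
  funext x
  have hs : IsSymmSndFDerivAt ℝ u x := hu.1.contDiffAt.isSymmSndFDerivAt
    (by rw [minSmoothness_of_isRCLikeNormedField]; exact WithTop.coe_le_coe.2 le_top)
  have e1 : _root_.fderiv ℝ (HT.pd d u) x (w x) =
      _root_.fderiv ℝ (_root_.fderiv ℝ u) x (w x) (sg d 1) := by
    unfold HT.pd
    rw [fderiv_clm_apply (hu.fderiv.differentiable x) (differentiableAt_const _)]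
    simp
  rw [e1, hs.eq]
  simp only [HT.pd]
  rw [fderiv_clm_apply (hu.fderiv.differentiable x) (hw.differentiable x)]
  simp [add_comm]

/-- induction on the order `r` of the derivative, for all `f` at once (`sn_succ_le_sum`,
`pd_comp_id_add`): `pd d (f ∘ u - f) = (pd d f ∘ u - pd d f) + (fderiv f ∘ u) (pd d g)` -/
theorem Od.comp_sub {g : S.ι → V n → V n} (h : S.Od m f) (h' : S.Od p g) :
    S.Od (m + p) fun i x => f i (x + g i x) - f i x := by
  have h0 : S.Od 0 g := h'.mono p.zero_le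
  refine ⟨(h.1.and h'.1).mono fun _ hi => (hi.1.comp hi.2).sub hi.1, fun r => ?_⟩
  induction r generalizing f with
  | zero =>
    refine scale_aux1 ((h.2 1).mul (h'.2 0)) ?_
    filter_upwards [h.1, h'.1] with i h1 h2
    refine sn_zero_le fun x => ?_
    refine (norm_sub_le_sn h1 _ _).trans (mul_le_mul_of_nonneg_left ?_ (sn_nonneg _ _))
    rw [add_sub_cancel_left]
    exact norm_le_sn_zero h2 x
  | succ r ih =>
    refine scale_aux1 (scale_sum (s := Finset.univ) fun d _ =>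
      (ih (h.pd d)).add (((h.fderiv.comp h0).app (h'.pd d)).2 r)) ?_
    filter_upwards [h.1, h'.1] with i h1 h2
    refine (sn_succ_le_sum ((h1.comp h2).sub h1) r).trans (Finset.sum_le_sum fun d _ => ?_)
    have e : HT.pd d (fun x => f i (x + g i x) - f i x) = fun x =>
        (HT.pd d (f i) (x + g i x) - HT.pd d (f i) x) +
          _root_.fderiv ℝ (f i) (x + g i x) (HT.pd d (g i) x) := by
      rw [scale_pd_sub (h1.comp h2) h1, pd_comp_id_add h1 h2]
      funext x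
      beta_reduce
      abel
    rw [e]
    exact sn_add_le (((h1.pd d).comp h2).sub (h1.pd d)) ((h1.fderiv.comp h2).app (h2.pd d)) r

/-- `pd d` of it is `(pd d f ∘ u - pd d f - fderiv (pd d f) g) + (fderiv f ∘ u - fderiv f) (pd d g)`
(symmetry of the second derivative, `ContDiffAt.isSymmSndFDerivAt`); base case `taylor_two` -/
theorem Od.comp_sub_two {g : S.ι → V n → V n} (h : S.Od m f) (h' : S.Od p g) :
    S.Od (m + 2 * p) fun i x => f i (x + g i x) - f i x - _root_.fderiv ℝ (f i) x (g i x) := by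
  refine ⟨(h.1.and h'.1).mono fun _ hi =>
    ((hi.1.comp hi.2).sub hi.1).sub (hi.1.fderiv.app hi.2), fun r => ?_⟩
  induction r generalizing f with
  | zero =>
    rw [two_mul]
    refine scale_aux1 ((h.2 2).mul ((h'.2 0).mul (h'.2 0))) ?_
    filter_upwards [h.1, h'.1] with i h1 h2
    refine sn_zero_le fun x => ?_
    refine (taylor_two h1 _ _).trans (mul_le_mul_of_nonneg_left ?_ (sn_nonneg _ _))
    rw [sq]
    exact mul_self_le_mul_self (norm_nonneg _) (norm_le_sn_zero h2 x)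
  | succ r ih =>
    have h3 := fun d => ((h.fderiv.comp_sub h').app (h'.pd d)).2 r
    rw [add_assoc, ← two_mul] at h3
    refine scale_aux1 (scale_sum (s := Finset.univ) fun d _ => (ih (h.pd d)).add (h3 d)) ?_
    filter_upwards [h.1, h'.1] with i h1 h2
    refine (sn_succ_le_sum (((h1.comp h2).sub h1).sub (h1.fderiv.app h2)) r).trans
      (Finset.sum_le_sum fun d _ => ?_)
    have e : HT.pd d (fun x => f i (x + g i x) - f i x - _root_.fderiv ℝ (f i) x (g i x)) =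
        fun x => (HT.pd d (f i) (x + g i x) - HT.pd d (f i) x -
          _root_.fderiv ℝ (HT.pd d (f i)) x (g i x)) +
          (_root_.fderiv ℝ (f i) (x + g i x) - _root_.fderiv ℝ (f i) x) (HT.pd d (g i) x) := by
      rw [scale_pd_sub ((h1.comp h2).sub h1) (h1.fderiv.app h2), scale_pd_sub (h1.comp h2) h1,
        pd_comp_id_add h1 h2, scale_pd_app h1 h2]
      funext x
      beta_reduce
      rw [_root_.sub_apply]
      abel
    rw [e]
    exact sn_add_le ((((h1.pd d).comp h2).sub (h1.pd d)).sub ((h1.pd d).fderiv.app h2))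
      (((h1.fderiv.comp h2).sub h1.fderiv).app (h2.pd d)) r

end Scale

end Pool.Agent.P.MP_878f14_gt.HT
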