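import Pool.Agent.P.MP_878f14_gt.HT.Dil
import Pool.Agent.P.MP_878f14_gt.HT.Micro

/-! The solver without loss of derivatives. -/

namespace Pool.Agent.P.MP_878f14_gt.HT

open Filter Metric
open scoped commutatorElement

namespace Scale

variable {n : ℕ} {S : Scale} {β : ℕ} {g : S.ι → Pm n}

theorem solver1_choice {α γ : Type*} [Nonempty γ] {F : Filter α} {r : α → γ → Prop}
    (h : ∀ᶠ x in F, ∃ y, r x y) : ∃ f : α → γ, ∀ᶠ x in F, r x (f x) := by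
  classical
  refine ⟨fun x => if hx : ∃ y, r x y then hx.choose else Classical.arbitrary γ,
    h.mono fun x hx => ?_⟩
  simp only [dif_pos hx]
  exact hx.choose_spec

theorem solver1_mem {p : ℕ} (hp : 1 ≤ p) {f : S.ι → V n → V n} (ht : S.Tame f) {j : ℕ}
    (ho : S.Od (p + j) f) {u : S.ι → Pm n} (C : ℕ → ℝ) (hC : ∀ r, 0 ≤ C r)
    (h : ∀ᶠ i in S.F, Sm (dp (u i)) ∧
      ∀ r, sn r (dp (u i)) ≤ C r * nm r (f i) / S.ε i ^ j) : u ∈ S.GB n p := by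
  refine mem_GB_of hp (ht.of_le j 0 h (fun i hi => hi.1) fun r => ⟨C r, fun i hi => ?_⟩)
    (ho.of_le_div (h.mono fun i hi => hi.1) fun r => ⟨r, C r, h.mono fun i hi => hi.2 r⟩)
  refine (hi.2 r).trans ?_
  rw [max_eq_left (Nat.zero_le r)]
  have := pow_pos (S.pos i) j
  have := hC r
  gcongr
  linarith

theorem solver1_roll : ∃ C : ℕ → ℝ, (∀ r, 0 ≤ C r) ∧ ∀ (d : Fin n) (g : Pm n) (η : ℝ), 0 < η →
    η ≤ 1 / 2 → Sm (dp g) → nm 2 (dp g) ≤ 1 / 96 * η →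
    (∀ e, e < d → g * tr (sg e η) = tr (sg e η) * g) → (∀ e, d ≤ e → ∀ x, 1 < |x e| → g x = x) →
    ∃ k Ω : Pm n, (Sm (dp k) ∧ ∀ r, sn r (dp k) ≤ C r * nm r (dp g) / η) ∧
      (Sm (dp Ω) ∧ ∀ r, sn r (dp Ω) ≤ C r * nm r (dp g) / η) ∧ Lnk η 2 d k g Ω ∧
      ∀ e, d < e → ∀ x, 1 < |x e| → Ω x = x := by
  obtain ⟨C, hC, hm⟩ := many (n := n)
  refine ⟨fun r => 12 * 2 ^ r + 6 * C r, fun r => by have := hC r; positivity,
    fun d g η hp hle hs h2 hc hf => ?_⟩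
  set M := ⌈5 / η⌉₊ with hM
  have hM1 : 5 ≤ M * η := by
    have := Nat.le_ceil (5 / η)
    rwa [div_le_iff₀ hp] at this
  have hM2 : (M : ℝ) ≤ 6 / η := by
    have := (Nat.ceil_lt_add_one (by positivity : 0 ≤ 5 / η)).le
    rw [le_div_iff₀ hp]
    have h5 : 5 / η * η = 5 := by field_simp
    nlinarith
  have hN : (M : ℝ) * nm 2 (dp g) ≤ 1 / 16 := by
    have := mul_le_mul hM2 h2 (nm_nonneg _ _) (by positivity)
    refine this.trans (le_of_eq ?_)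
    field_simp
    norm_num
  obtain ⟨w1, w0, w2, wr⟩ := hm g (sg d η) (1 / 16) M hs hN le_rfl
  have hMn : (0 : ℝ) ≤ M := Nat.cast_nonneg _
  have s0 := mul_le_mul_of_nonneg_left (sn_le_nm (by norm_num : 0 ≤ 2) (dp g)) hMn
  have s1 := mul_le_mul_of_nonneg_left (sn_le_nm (by norm_num : 1 ≤ 2) (dp g)) hMn
  obtain ⟨k, Ω, k1, Ω1, k2, Ω2, e1, e2, e3, e4, -, e5, e6⟩ := roll (g := g) d (a := -9 / 8)
    (l := 9 / 4) (δ := 1 / 2) (M := M) hp (by norm_num) (fun x hx => hf d le_rfl x (by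
      rcases hx with hx | hx
      · exact lt_abs.2 (Or.inr (by linarith))
      · exact lt_abs.2 (Or.inl (by linarith)))) (by linarith) w1 (by linarith) (by linarith)
  have hW : ∀ r, sn r (dp (Wm g (sg d η) M)) ≤ (12 * 2 ^ r + 6 * C r) * nm r (dp g) / η := by
    intro r
    have a1 := sn_le_nm (le_refl r) (dp g)
    have a2 := md_le_nm r (dp g)
    have a3 := nm_nonneg r (dp g)
    have a4 : (M : ℝ) * nm r (dp g) ≤ 6 / η * nm r (dp g) := mul_le_mul_of_nonneg_right hM2 a3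
    have a5 := mul_le_mul_of_nonneg_left a1 hMn
    have a6 := mul_le_mul_of_nonneg_left a2 hMn
    have a7 : (1 : ℝ) ≤ 2 ^ r := one_le_pow₀ (by norm_num)
    have a8 := hC r
    have a9 : 0 ≤ 6 / η * nm r (dp g) := by positivity
    have e : (12 * 2 ^ r + 6 * C r) * nm r (dp g) / η =
        (2 * 2 ^ r + C r) * (6 / η * nm r (dp g)) := by field_simp; ring
    rw [e]
    rcases Nat.lt_or_ge r 2 with h | h
    · interval_cases r
      · nlinarith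
      · nlinarith
    · refine (wr r h).trans ?_
      have b1 : 2 * 2 ^ r * (M : ℝ) * sn r (dp g) ≤ 2 * 2 ^ r * (6 / η * nm r (dp g)) := by
        rw [mul_assoc]; exact mul_le_mul_of_nonneg_left (a5.trans a4) (by positivity)
      have b2 : C r * (1 / 16) * M * md r (dp g) ≤ C r * (6 / η * nm r (dp g)) := by
        rw [mul_assoc, mul_assoc]
        refine mul_le_mul_of_nonneg_left ?_ a8
        have := mul_nonneg hMn (md_nonneg r (dp g))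
        linarith
      linarith
  have e7 : ∀ e, d < e → ∀ x, 1 < |x e| → k x = x ∧ Ω x = x := fun e he x hx => by
    have h := e6 {x | |x e| ≤ 1} (fun y hy t => by
      show |(y + sg d t) e| ≤ 1
      rw [Pi.add_apply, sg_ne he.ne', add_zero]
      exact hy) fun y hy => hf e he.le y (not_le.1 hy)
    exact ⟨h.1 x (not_le.2 hx), h.2 x (not_le.2 hx)⟩
  refine ⟨k, Ω, ⟨k1, fun r => (k2 r).trans (hW r)⟩, ⟨Ω1, fun r => (Ω2 r).trans (hW r)⟩,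
    ⟨e1, fun x hx => e3 x (by linarith), fun x hx => e4 x (by linarith),
      fun e he => (e5 _ (sg_ne he.ne' η) (hc e he)).1, fun e he => ?_,
      fun e he x hx => e7 e he x (by linarith)⟩, fun e he x hx => (e7 e he x hx).2⟩
  rcases eq_or_lt_of_le he with rfl | he
  · exact e2
  · exact (e5 _ (sg_ne he.ne' η) (hc e he)).2

/-- `many` with `δ = 1 / 16` and `roll` with `a = -9/8`, `l = 9/4`, `η = ε ^ β`,
`M = ⌈5 / η⌉₊ ≤ 6 / η`; `Tame.of_le`, `Od.of_le_div`. The supports in the later directions `e`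
come from the last clause of `roll` with `K = {x | |x e| ≤ 1}`. -/
theorem roll_fam (hβ : 1 ≤ β) {p : ℕ} (hp : 1 ≤ p) (d : Fin n) (hg : g ∈ S.GB n (p + β))
    (hf : ∀ᶠ i in S.F,
      (∀ e, e < d → g i * tr (sg e (S.ε i ^ β)) = tr (sg e (S.ε i ^ β)) * g i) ∧
      ∀ e, d ≤ e → ∀ x, 1 < |x e| → g i x = x) :
    ∃ k ∈ S.GB n p, ∃ Ω ∈ S.GB n p, ∀ᶠ i in S.F, Lnk (S.ε i ^ β) 2 d (k i) (g i) (Ω i) ∧
      ∀ e, d < e → ∀ x, 1 < |x e| → Ω i x = x := by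
  obtain ⟨C, hC, hm⟩ := solver1_roll (n := n)
  have ho : S.Od (p + β) (dpF g) := GB_od hg
  have hsm : ∀ᶠ i in S.F, nm 2 (dp (g i)) ≤ 1 / 96 * S.ε i ^ β :=
    (ho.mono (by omega : β + 1 ≤ _)).small 2 (by norm_num)
  have key : ∀ᶠ i in S.F, ∃ k Ω : Pm n,
      (Sm (dp k) ∧ ∀ r, sn r (dp k) ≤ C r * nm r (dp (g i)) / S.ε i ^ β) ∧
      (Sm (dp Ω) ∧ ∀ r, sn r (dp Ω) ≤ C r * nm r (dp (g i)) / S.ε i ^ β) ∧
      Lnk (S.ε i ^ β) 2 d k (g i) Ω ∧ ∀ e, d < e → ∀ x, 1 < |x e| → Ω x = x := by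
    filter_upwards [hf, hsm, ho.sm] with i hf h2 hs
    exact hm d (g i) _ (pow_pos (S.pos i) _)
      ((pow_le_of_le_one (S.pos i).le (by linarith [S.le_half i]) (by omega)).trans (S.le_half i))
      hs h2 hf.1 hf.2
  obtain ⟨k, key⟩ := solver1_choice key
  obtain ⟨Ω, key⟩ := solver1_choice key
  exact ⟨k, solver1_mem hp (GB_tame hg) ho C hC (key.mono fun i h => h.1), Ω,
    solver1_mem hp (GB_tame hg) ho C hC (key.mono fun i h => h.2.1), key.mono fun i h => h.2.2⟩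

/-- `chain_up` with `Q j a`: `a ∈ GB ((n + 1 - j) * β)`, periodic below `j`, supported in
`[-1, 1]` from `j` on -/
theorem roll_chain (hβ : 1 ≤ β) (hg : g ∈ S.GB n ((n + 1) * β))
    (hf : ∀ᶠ i in S.F, Fix (closedBall 0 1) (g i)) :
    ∃ (O : ℕ → S.ι → Pm n) (k : Fin n → S.ι → Pm n), O 0 = g ∧
      S.FCh β (fun i => S.ε i ^ β) 2 O k := by
  obtain ⟨O, k, h0, hQ, hR⟩ := chain_up n
    (fun j (a : S.ι → Pm n) => a ∈ S.GB n ((n + 1 - j) * β) ∧ ∀ᶠ i in S.F,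
      (∀ e : Fin n, (e : ℕ) < j → a i * tr (sg e (S.ε i ^ β)) = tr (sg e (S.ε i ^ β)) * a i) ∧
      ∀ e : Fin n, j ≤ (e : ℕ) → ∀ x, 1 < |x e| → a i x = x)
    (fun j (k a a' : S.ι → Pm n) => k ∈ S.GB n β ∧
      ∀ᶠ i in S.F, Lnk (S.ε i ^ β) 2 j (k i) (a i) (a' i))
    (fun j a ha => by
      have hj := j.2
      have e1 : (n + 1 - j) * β = (n - j) * β + β := by
        rw [show n + 1 - j = n - j + 1 by omega, add_mul, one_mul]
      have hp : β ≤ (n - j) * β := Nat.le_mul_of_pos_left β (by omega)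
      obtain ⟨k, hk, Ω, hΩ, he⟩ := roll_fam hβ (hβ.trans hp) j (e1 ▸ ha.1) ha.2
      refine ⟨k, Ω, ⟨GB_anti hp hk, he.mono fun i hi => hi.1⟩, ?_, he.mono fun i hi =>
        ⟨fun e h => hi.1.2.2.2.2.1 e (Nat.lt_succ_iff.1 h), fun e h => hi.2 e h⟩⟩
      rwa [show n + 1 - (j + 1) = n - j by omega]) g
    ⟨hg, hf.mono fun i hi => ⟨fun e h => absurd h (Nat.not_lt_zero _), fun e _ x hx => hi x fun h =>
      absurd ((abs_apply_le x e).trans (mem_closedBall_zero_iff.1 h)) (not_le.2 hx)⟩⟩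
  exact ⟨O, k, h0, fun j hj => GB_anti (Nat.le_mul_of_pos_left β (by omega)) (hQ j hj).1,
    fun j => (hR j).1, eventually_all.2 fun j => (hR j).2⟩

theorem solver2_bw (hβ : 1 ≤ β) {Ω₀ e : S.ι → Pm n} (h : Ω₀ ∈ S.GB n β) {C : ℕ → ℝ}
    (hC : ∀ r, 0 ≤ C r) (hb : ∀ᶠ i in S.F, Bw (dp (Ω₀ i)) C (e i)) : e ∈ S.GB n β := by
  refine mem_GB_of hβ ((GB_tame h).of_le 0 (n + 2) hb (fun i hi => hi.1) fun r =>
    ⟨C r, fun i hi => (hi.2 r).trans ?_⟩) ((GB_od h).of_le (hb.mono fun i hi => hi.1) fun r =>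
    ⟨max r (n + 2), C r, hb.mono fun i hi => (hi.2 r).trans
      (mul_le_mul_of_nonneg_left (sn_le_nm le_rfl _) (hC r))⟩)
  rw [pow_zero, div_one]
  exact mul_le_mul_of_nonneg_left
    ((sn_le_nm le_rfl _).trans (le_add_of_nonneg_left zero_le_one)) (hC r)

theorem solver2_top (hn : 1 ≤ n) {σ : S.ι → ℝ} {ρ : ℝ} {O : ℕ → S.ι → Pm n}
    {k : Fin n → S.ι → Pm n} (h : S.FCh β σ ρ O k) :
    ∀ᶠ i in S.F, ∀ d : Fin n, O n i * tr (sg d (σ i)) = tr (sg d (σ i)) * O n i := by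
  refine h.2.2.mono fun i hi d => ?_
  have h1 := (hi ⟨n - 1, by omega⟩).2.2.2.2.1 d (by
    have := d.2
    show d.1 ≤ n - 1
    omega)
  simpa only [Nat.sub_add_cancel hn] using h1

/-- `micro` along the family (`choose` on the eventual set; `Tame.of_le`, `Od.of_le`, `Chn.mono`) -/
theorem micro_fam (hβ : 1 ≤ β) : ∃ D : ℕ, 2 ≤ D ∧ ∀ Ω₀ ∈ S.GB n β,
    (∀ᶠ i in S.F, (∀ d, Ω₀ i * tr (sg d (S.ε i ^ β)) = tr (sg d (S.ε i ^ β)) * Ω₀ i) ∧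
      Ω₀ i 0 = 0) →
    ∃ (O O' : ℕ → S.ι → Pm n) (k k' : Fin n → S.ι → Pm n) (c : S.ι → V n),
      S.FCh β (fun i => S.ε i ^ β) (1 / (8 * D)) O k ∧ S.FCh β (fun i => S.ε i ^ β) 1 O' k' ∧
      (S.OdS β fun i => ‖c i‖) ∧ ∀ᶠ i in S.F, O' 0 i = aff D 0 * O 0 i * (aff D 0)⁻¹ ∧
        O n i = (tr (c i))⁻¹ * O' n i * Ω₀ i := by
  obtain ⟨D, e₀, C, hD, he, hC, hm⟩ := micro n
  refine ⟨D, hD, fun Ω₀ hΩ hp => ?_⟩
  have hD' : (2 : ℝ) ≤ D := by exact_mod_cast hD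
  have hle : ∀ i, S.ε i ^ β ≤ S.ε i := fun i =>
    pow_le_of_le_one (S.pos i).le (by linarith [S.le_half i]) (by omega)
  have hA : ∀ᶠ i in S.F, MicroAt D C (S.ε i ^ β) (Ω₀ i) := by
    filter_upwards [hp, GB_small hΩ (n + 2) he] with i h1 h2
    exact hm _ _ (pow_pos (S.pos i) β) ((hle i).trans (by linarith [S.le_half i])) h2.1 h1.1 h1.2
      ((sn_le_nm le_rfl _).trans h2.2)
  have hρ : ∀ᶠ i in S.F, S.ε i ^ β * (3 * D + 1) ≤ 1 / (8 * D) := by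
    filter_upwards [S.eps_small (δ := 1 / (8 * D) / (3 * D + 1)) (by positivity)] with i hi
    exact (le_div_iff₀ (by positivity)).1 ((hle i).trans hi)
  have hone : (1 : ℝ) / (8 * D) ≤ 1 := by
    rw [div_le_one (by positivity)]
    linarith
  have hex : ∀ i, ∃ (O O' : ℕ → Pm n) (k k' : Fin n → Pm n) (c : V n),
      MicroAt D C (S.ε i ^ β) (Ω₀ i) →
      Chn (S.ε i ^ β) (S.ε i ^ β * (3 * D + 1)) O k ∧
      Chn (S.ε i ^ β) (S.ε i ^ β * (3 * D + 1)) O' k' ∧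
      O' 0 = aff D 0 * O 0 * (aff D 0)⁻¹ ∧ O n = (tr c)⁻¹ * O' n * Ω₀ i ∧
      ‖c‖ ≤ C 0 * sn (n + 2) (dp (Ω₀ i)) ∧
      (∀ j, j ≤ n → Bw (dp (Ω₀ i)) C (O j) ∧ Bw (dp (Ω₀ i)) C (O' j)) ∧
      ∀ j, Bw (dp (Ω₀ i)) C (k j) ∧ Bw (dp (Ω₀ i)) C (k' j) := by
    intro i
    by_cases hi : MicroAt D C (S.ε i ^ β) (Ω₀ i)
    · obtain ⟨O, O', k, k', c, h⟩ := hi
      exact ⟨O, O', k, k', c, fun _ => h⟩
    · exact ⟨1, 1, 1, 1, 0, fun h => absurd h hi⟩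
  choose O O' k k' c hh using hex
  have hE := hA.mono hh
  refine ⟨fun j i => O i j, fun j i => O' i j, fun j i => k i j, fun j i => k' i j, c,
    ⟨fun j hj => solver2_bw hβ hΩ hC (hE.mono fun i hi => (hi.2.2.2.2.2.1 j hj).1),
      fun j => solver2_bw hβ hΩ hC (hE.mono fun i hi => (hi.2.2.2.2.2.2 j).1), ?_⟩,
    ⟨fun j hj => solver2_bw hβ hΩ hC (hE.mono fun i hi => (hi.2.2.2.2.2.1 j hj).2),
      fun j => solver2_bw hβ hΩ hC (hE.mono fun i hi => (hi.2.2.2.2.2.2 j).2), ?_⟩,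
    ((GB_od hΩ).odS_sn (n + 2)).of_le (C 0) (hE.mono fun i hi => ?_),
    hE.mono fun i hi => ⟨hi.2.2.1, hi.2.2.2.1⟩⟩
  · filter_upwards [hE, hρ] with i hi h2
    exact hi.1.mono h2
  · filter_upwards [hE, hρ] with i hi h2
    exact hi.2.1.mono (h2.trans hone)
  · rw [abs_of_nonneg (norm_nonneg _), abs_of_nonneg (sn_nonneg _ _)]
    exact hi.2.2.2.2.1

/-- `micro_fam`, `FCh.ph`, `FCh.dil`, `ph_tr`, `ph_spec`, `ph_inv`, `mem_top_iff`; write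
`Ω = tr (Ω 0) * Ω₀` -/
theorem ph_top (hn : 1 ≤ n) (hβ : 1 ≤ β) {Ω : S.ι → Pm n} (hΩ : Ω ∈ S.GB n β)
    (hc : ∀ᶠ i in S.F, ∀ d, Ω i * tr (sg d (S.ε i ^ β)) = tr (sg d (S.ε i ^ β)) * Ω i) :
    (S.TW n β).ph (S.sv n fun i => S.ε i ^ β) n (S.gP Ω) = 1 := by
  obtain ⟨D, hD, hm⟩ := micro_fam (S := S) (n := n) hβ
  have hσ := S.odS_pow β
  have hpos : ∀ i, 0 < S.ε i ^ β := fun i => pow_pos (S.pos i) β
  have hs := good (n := n) hβ hσ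
  have hmul := (Tower.ph_spec hs n le_rfl).1
  have htr : ∀ c : S.ι → V n, (S.OdS β fun i => ‖c i‖) →
      S.gP (fun i => tr (c i)) ∈ (S.TW n β).M (S.sv n fun i => S.ε i ^ β) n n := fun c hc =>
    mem_top_iff.2 ⟨tr_mem hβ hc, Eventually.of_forall fun i d => tr_comm _ _⟩
  have hc0 : S.OdS β fun i => ‖dp (Ω i) 0‖ := (GB_od hΩ).apply fun _ => 0
  obtain ⟨t, ht⟩ : ∃ t : S.ι → Pm n, t = fun i => tr (dp (Ω i) 0) := ⟨_, rfl⟩
  have ht1 : (S.TW n β).ph (S.sv n fun i => S.ε i ^ β) n (S.gP t) = 1 :=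
    ht ▸ ph_tr hn hβ hσ hpos hc0
  have htM : S.gP t ∈ (S.TW n β).M (S.sv n fun i => S.ε i ^ β) n n := ht ▸ htr _ hc0
  have hΩM : S.gP Ω ∈ (S.TW n β).M (S.sv n fun i => S.ε i ^ β) n n := mem_top_iff.2 ⟨hΩ, hc⟩
  have h0M : S.gP (t⁻¹ * Ω) ∈ (S.TW n β).M (S.sv n fun i => S.ε i ^ β) n n := by
    rw [map_mul, map_inv]
    exact mul_mem (inv_mem htM) hΩM
  obtain ⟨h0, h0c⟩ := mem_top_iff.1 h0M
  obtain ⟨O, O', k, k', c, h1, h2, h3, h4⟩ := hm (t⁻¹ * Ω) h0 (h0c.mono fun i hi => ⟨hi, by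
    rw [Pi.mul_apply, Pi.inv_apply, Equiv.Perm.mul_apply, ht, tr_inv_apply, dp, sub_zero, sub_self]⟩)
  have hD' : (2 : ℝ) ≤ D := by exact_mod_cast hD
  have hρ : (1 : ℝ) / (8 * D) < 3 := by
    rw [div_lt_iff₀ (by positivity)]
    linarith
  have e1 := h1.ph hβ hσ hρ
  have e2 := h2.ph hβ hσ (by norm_num)
  have e3 := h1.dil hn hβ (by omega) hσ hpos
  have e4 : S.gP (O' 0) = S.gP fun i => aff D 0 * O 0 i * (aff D 0)⁻¹ :=
    gP_eq.2 (h4.mono fun i hi => hi.1)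
  have e5 : S.gP (O n) = (S.gP fun i => tr (c i))⁻¹ * S.gP (O' n) * S.gP (t⁻¹ * Ω) := by
    rw [← map_inv, ← map_mul, ← map_mul]
    exact gP_eq.2 (h4.mono fun i hi => hi.2)
  have hOM : S.gP (O' n) ∈ (S.TW n β).M (S.sv n fun i => S.ε i ^ β) n n :=
    mem_top_iff.2 ⟨h2.1 n le_rfl, solver2_top hn h2⟩
  rw [e5, hmul _ (mul_mem (inv_mem (htr c h3)) hOM) _ h0M, hmul _ (inv_mem (htr c h3)) _ hOM,
    Tower.ph_inv hs le_rfl (htr c h3), ph_tr hn hβ hσ hpos h3, e2, e4, e3, inv_one, one_mul,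
    mul_eq_left] at e1
  have e6 : S.gP Ω = S.gP t * S.gP (t⁻¹ * Ω) := by rw [← map_mul, mul_inv_cancel_left]
  rw [e6, hmul _ htM _ h0M, ht1, e1, one_mul]

/-- `roll_chain`, `FCh.ph`, `ph_top`, `ab_eq_one`; for `n = 0` every permutation is trivial -/
theorem solver (hβ : 1 ≤ β) (hg : g ∈ S.GB n ((n + 1) * β))
    (hf : ∀ᶠ i in S.F, Fix (closedBall 0 1) (g i)) : S.gP g ∈ ⁅S.SS n β, S.SS n β⁆ := by
  rcases Nat.eq_zero_or_pos n with rfl | hn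
  · rw [Subsingleton.elim g 1, map_one]
    exact one_mem _
  obtain ⟨O, k, rfl, h⟩ := roll_chain hβ hg hf
  have h1 : S.gP (O 0) ∈ S.SS n β :=
    mem_map_GF.2 ⟨h.1 0 n.zero_le, mem_GS_ball.2 ⟨1, by norm_num, hf⟩⟩
  rw [← ab_eq_one h1, ← h.ph hβ (S.odS_pow β) (by norm_num)]
  exact ph_top hn hβ (h.1 n le_rfl) (solver2_top hn h)

/-- `exists_Phi_of_mem`, `map_Phi` -/
theorem solver_list (hβ : 1 ≤ β) (hg : g ∈ S.GB n ((n + 1) * β))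
    (hf : ∀ᶠ i in S.F, Fix (closedBall 0 1) (g i)) :
    ∃ x : List ((S.ι → Pm n) × (S.ι → Pm n)),
      (∀ z ∈ x, z.1 ∈ S.GF β (ball 0 3) ∧ z.2 ∈ S.GF β (ball 0 3)) ∧
        ∀ᶠ i in S.F, Phi x i = g i := by
  have h := solver hβ hg hf
  rw [SS, ← Subgroup.map_commutator] at h
  obtain ⟨y, hy, e⟩ := Subgroup.mem_map.1 h
  obtain ⟨x, hx, rfl⟩ := exists_Phi_of_mem hy
  exact ⟨x, hx, gP_eq.1 e⟩

end Scale

end Pool.Agent.P.MP_878f14_gt.HT
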