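import Pool.Agent.P.MP_878f14_gt.HT.Solver
import Pool.Agent.P.MP_878f14_gt.HT.Extract

/-! The solver with a uniform number of commutators. -/

namespace Pool.Agent.P.MP_878f14_gt.HT

open Filter Metric

variable {n : ℕ}

/-- the order from which on the uniform solver works -/
def bb (n : ℕ) : ℕ := (n + 1) * 8 + 1

/-- pointwise solver with `n₀` commutators -/
def VSpt (n n₀ : ℕ) : Prop := ∃ (r₀ K : ℕ) (e₀ : ℝ) (C : ℕ → ℝ), 0 < e₀ ∧ (∀ r, 0 ≤ C r) ∧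
  ∀ (ε : ℝ) (g : Gc n), 0 < ε → ε ≤ e₀ → Fix (closedBall 0 1) (g : Pm n) →
    nm r₀ (dp (g : Pm n)) ≤ ε ^ ((n + 1) * 8) → ∃ x : Fin n₀ → Gc n × Gc n,
      (∀ k, Ctl (ball 0 3) (C 0 * ε ^ 8) (fun r => C r * (1 + nm r (dp (g : Pm n))) / ε ^ K)
          (x k).1 ∧
        Ctl (ball 0 3) (C 0 * ε ^ 8) (fun r => C r * (1 + nm r (dp (g : Pm n))) / ε ^ K) (x k).2) ∧
      Phi (List.ofFn x) = g

/-- the universal data used in `vs_pt` -/
noncomputable def vs_data (n : ℕ) : UData where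
  ι := {p : ℝ × Gc n // 0 < p.1 ∧ p.1 ≤ 1 / 2 ∧ Fix (closedBall 0 1) (p.2 : Pm n)}
  ε := fun i => i.1.1
  sz := fun r i => nm r (dp (i.1.2 : Pm n))
  a := (n + 1) * 8
  pos := fun i => i.2.1
  le_half := fun i => i.2.2.1
  nonneg := fun _ _ => nm_nonneg _ _
  mono := fun _ _ _ h => nm_mono h _

/-- Universal scale on pairs `(ε, g)` with `Fix (closedBall 0 1) g`, size `nm r (dp g)` and
`a = (n + 1) * 8`; `solver_list` with `β = 8`, `exists_tuple`, `extract`. -/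
theorem vs_pt (n : ℕ) : ∃ n₀, VSpt n n₀ := by
  let v : (vs_data n).scale.ι → Gc n := fun i => i.1.2
  have ht := (vs_data n).taut (f := Scale.dpF (S := (vs_data n).scale) (Scale.cF v))
    (fun i => Gc.sm i.1.2) fun r i => sn_le_nm le_rfl _
  have hg : Scale.cF v ∈ (vs_data n).scale.GB n ((n + 1) * 8) :=
    Scale.mem_GB_of (by omega) ht.1 ht.2
  obtain ⟨x, hx, ex⟩ := Scale.solver_list (β := 8) (by norm_num) hg
    (Eventually.of_forall fun i => i.2.2.2)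
  obtain ⟨y, hy, ey⟩ := Scale.exists_tuple isBounded_ball x hx
  obtain ⟨A, hA, K, C, hC, h⟩ := Scale.extract (U := fun _ => ball 0 3) y hy
  obtain ⟨e, he, r₀, hm⟩ := (vs_data n).mem_filt.1 (inter_mem hA (ex.and ey))
  refine ⟨x.length, r₀, K, min e (1 / 2), C, lt_min he (by norm_num), hC,
    fun ε w hε hε' hf h1 => ?_⟩
  have hh : ε ≤ 1 / 2 := hε'.trans (min_le_right _ _)
  let i : (vs_data n).scale.ι := ⟨(ε, w), hε, hh, hf⟩
  have hi := hm i (hε'.trans (min_le_left _ _)) h1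
  exact ⟨evT y i, fun k => h i hi.1 k, Subtype.ext (hi.2.2.trans hi.2.1)⟩

/-- fix a small `ε`, ask in addition `nm R'' ≤ 1`, and use `interp` -/
theorem vs_small {n₀ : ℕ} (h : VSpt n n₀) (R : ℕ) {e : ℝ} (he : 0 < e) :
    ∃ (R' : ℕ) (e' : ℝ), 0 < e' ∧ ∀ g : Gc n, Fix (closedBall 0 1) (g : Pm n) →
      nm R' (dp (g : Pm n)) ≤ e' → ∃ x : Fin n₀ → Gc n × Gc n,
        (∀ k, (Fix (ball 0 3) ((x k).1 : Pm n) ∧ nm R (dp ((x k).1 : Pm n)) ≤ e) ∧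
          (Fix (ball 0 3) ((x k).2 : Pm n) ∧ nm R (dp ((x k).2 : Pm n)) ≤ e)) ∧
        Phi (List.ofFn x) = g := by
  obtain ⟨r₀, K, e₀, C, h0, hC, h⟩ := h
  obtain ⟨R₁, -, hi⟩ := interp (n := n) (F := V n) R 8 K
  obtain ⟨D, hD, hi⟩ := hi (C 0) (C R₁ * 2)
  obtain ⟨ε, ε0, ε1, ε2, ε3⟩ : ∃ ε : ℝ, 0 < ε ∧ ε ≤ 1 ∧ ε ≤ e₀ ∧ ε * (D + 1) ≤ e :=
    ⟨min (min 1 e₀) (e / (D + 1)), by positivity, (min_le_left _ _).trans (min_le_left _ _),
      (min_le_left _ _).trans (min_le_right _ _),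
      (le_div_iff₀ (by positivity)).1 (min_le_right _ _)⟩
  refine ⟨max r₀ R₁, ε ^ ((n + 1) * 8), by positivity, fun v hv h1 => ?_⟩
  obtain ⟨x, hx, hv⟩ := h ε v ε0 ε2 hv ((nm_mono (le_max_left _ _) _).trans h1)
  have h3 : nm R₁ (dp (v : Pm n)) ≤ 1 :=
    ((nm_mono (le_max_right _ _) _).trans h1).trans (pow_le_one₀ ε0.le ε1)
  have key : ∀ u : Gc n, Ctl (ball 0 3) (C 0 * ε ^ 8)
      (fun r => C r * (1 + nm r (dp (v : Pm n))) / ε ^ K) u →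
      Fix (ball 0 3) (u : Pm n) ∧ nm R (dp (u : Pm n)) ≤ e := fun u hu => by
    refine ⟨hu.1, (hi ε _ ε0 ε1 (Gc.sm u) hu.2.1 ((hu.2.2 R₁).trans ?_)).trans ?_⟩
    · exact div_le_div_of_nonneg_right (mul_le_mul_of_nonneg_left (by linarith) (hC _))
        (by positivity)
    · have s1 : ε ≤ √ε := Real.le_sqrt_of_sq_le (by nlinarith)
      have s2 : ε ^ 8 ≤ ε ^ 2 := pow_le_pow_of_le_one ε0.le ε1 (by norm_num)
      rw [div_le_iff₀ (by linarith)]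
      nlinarith [mul_le_mul_of_nonneg_left s2 hD, mul_le_mul_of_nonneg_left s1 he.le,
        mul_le_mul_of_nonneg_right ε3 ε0.le, sq_nonneg ε]
  exact ⟨x, fun k => ⟨key _ (hx k).1, key _ (hx k).2⟩, hv⟩

theorem vs_aux_choice {ι β : Type*} {F : Filter ι} {r : ι → β → Prop} (o : β)
    (h : ∀ᶠ i in F, ∃ y, r i y) : ∃ f : ι → β, ∀ᶠ i in F, r i (f i) :=
  haveI : Nonempty β := ⟨o⟩
  ⟨fun i => Classical.epsilon (r i), h.mono fun _ hi => Classical.epsilon_spec hi⟩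

/-- conjugate by `cG` with the inverse homothety, solve pointwise, `mem_GF_of_ctl`, and conjugate
back (`conj_aff_GF`, `map_Phi`, `cG_cG`) -/
theorem Scale.vs_unif {n₀ : ℕ} (h : VSpt n n₀) {S : Scale} {l : ℝ} (hl : 0 < l) (m : V n)
    {g : S.ι → Gc n} (hg : Scale.cF g ∈ S.GF (bb n) (ball m l)) :
    ∃ x : Fin n₀ → (S.ι → Gc n) × (S.ι → Gc n),
      (∀ k, Scale.cF (x k).1 ∈ S.GF 7 (ball m (4 * l)) ∧
        Scale.cF (x k).2 ∈ S.GF 7 (ball m (4 * l))) ∧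
        ∀ᶠ i in S.F, Phi (List.ofFn x) i = g i := by
  obtain ⟨r₀, K, e₀, C, h0, hC, h⟩ := h
  have hl' := inv_pos.2 hl
  have hw : cF (fun i => cG l⁻¹ (-(l⁻¹ • m)) (g i)) ∈ S.GF (bb n) (ball 0 1) := by
    have := conj_aff_GF hg hl' (-(l⁻¹ • m))
    rwa [add_neg_cancel, inv_mul_cancel₀ hl.ne'] at this
  have hx : ∀ᶠ i in S.F, ∃ x : Fin n₀ → Gc n × Gc n,
      (∀ k, Ctl (ball 0 3) (C 0 * S.ε i ^ 8) (fun r => C r *
          (1 + nm r (dp (cG l⁻¹ (-(l⁻¹ • m)) (g i) : Pm n))) / S.ε i ^ K) (x k).1 ∧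
        Ctl (ball 0 3) (C 0 * S.ε i ^ 8) (fun r => C r *
          (1 + nm r (dp (cG l⁻¹ (-(l⁻¹ • m)) (g i) : Pm n))) / S.ε i ^ K) (x k).2) ∧
      Phi (List.ofFn x) = cG l⁻¹ (-(l⁻¹ • m)) (g i) := by
    filter_upwards [S.eps_small h0, GF_fix hw, Od.small (p := (n + 1) * 8) (GB_od hw.1) r₀ one_pos]
      with i e1 e2 e3
    rw [one_mul] at e3
    exact h _ _ (S.pos i) e1 (e2.mono ball_subset_closedBall) e3
  obtain ⟨x, hx⟩ := vs_aux_choice (fun _ => (1, 1)) hx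
  have key : ∀ t : S.ι → Gc n, (∀ᶠ i in S.F, Ctl (ball 0 3) (C 0 * S.ε i ^ 8) (fun r => C r *
      (1 + nm r (dp (cG l⁻¹ (-(l⁻¹ • m)) (g i) : Pm n))) / S.ε i ^ K) (t i)) →
      cF (fun i => cG l m (t i)) ∈ S.GF 7 (ball m (4 * l)) := fun t ht => by
    have := conj_aff_GF (mem_GF_of_ctl (p := 7) (b := 4) (by norm_num) (by norm_num)
      (GB_tame hw.1) ht) hl m
    rwa [smul_zero, zero_add, mul_comm l 4] at this
  refine ⟨fun k => (fun i => cG l m (x i k).1, fun i => cG l m (x i k).2), fun k =>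
    ⟨key _ (hx.mono fun i hi => (hi.1 k).1), key _ (hx.mono fun i hi => (hi.1 k).2)⟩,
    hx.mono fun i hi => ?_⟩
  have e := map_Phi (cG l m) (List.ofFn (x i))
  rw [hi.2, List.map_ofFn, cG_cG hl.ne' hl'.ne', mul_inv_cancel₀ hl.ne', smul_neg, smul_smul,
    mul_inv_cancel₀ hl.ne', one_smul, neg_add_cancel, cG_one] at e
  rw [Phi_evT]
  exact e.symm

/-- `exists_Gc`, `vs_unif`, `map_Phi` with `cF` -/
theorem Scale.vs_unif' {n₀ : ℕ} (h : VSpt n n₀) {S : Scale} {l : ℝ} (hl : 0 < l) (m : V n)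
    {g : S.ι → Pm n} (hg : g ∈ S.GF (bb n) (ball m l)) :
    ∃ x : Fin n₀ → (S.ι → Pm n) × (S.ι → Pm n),
      (∀ k, (x k).1 ∈ S.GF 7 (ball m (4 * l)) ∧ (x k).2 ∈ S.GF 7 (ball m (4 * l))) ∧
        S.gP (Phi (List.ofFn x)) = S.gP g := by
  obtain ⟨g', hg'⟩ := exists_Gc hg isBounded_ball
  have h1 : cF g' ∈ S.GF (bb n) (ball m l) := GF_congr hg (hg'.mono fun _ hi => hi.symm)
  obtain ⟨x, hx, ex⟩ := vs_unif h hl m h1
  refine ⟨fun k => (cF (x k).1, cF (x k).2), hx, gP_eq.2 ?_⟩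
  have e := map_Phi (cF (S := S) (n := n)) (List.ofFn x)
  rw [List.map_ofFn] at e
  filter_upwards [ex, hg'] with i e1 e2
  rw [← e2, ← e1]
  exact (congrFun e i).symm

end Pool.Agent.P.MP_878f14_gt.HT
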