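import Pool.Agent.P.MP_878f14_gt.HT.Trans
import Pool.Agent.P.MP_878f14_gt.HT.VS
import Pool.Agent.P.MP_878f14_gt.HT.Disj

/-! Small cycles with disjoint supports add up. -/

namespace Pool.Agent.P.MP_878f14_gt.HT

open Filter Metric
open scoped Topology commutatorElement

section

variable {E Γ : Type*} [Group E] [Group Γ]

theorem split_mul {L : ℕ} (a b : Fin L → E) (h : ∀ i j, i ≠ j → Commute (b i) (a j)) :
    (List.ofFn fun j => a j * b j).prod = (List.ofFn a).prod * (List.ofFn b).prod := by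
  induction L with
  | zero => simp
  | succ L ih =>
    rw [List.ofFn_succ, List.ofFn_succ, List.ofFn_succ, List.prod_cons, List.prod_cons,
      List.prod_cons, ih (fun j => a j.succ) (fun j => b j.succ)
        fun i j hij => h _ _ fun e => hij (Fin.succ_injective _ e)]
    have h1 : Commute (b 0) (List.ofFn fun j : Fin L => a j.succ).prod := by
      refine Commute.list_prod_right _ _ fun z hz => ?_
      obtain ⟨j, rfl⟩ := List.mem_ofFn.1 hz
      exact h _ _ (Fin.succ_ne_zero j).symm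
    rw [mul_assoc, mul_assoc, ← mul_assoc (b 0), h1.eq, mul_assoc]

theorem split_abs {L m : ℕ} (K : Fin L → Subgroup E)
    (hK : ∀ i j, i ≠ j → ∀ x ∈ K i, ∀ y ∈ K j, Commute x y) (u : Fin L → Fin m → E × E)
    (hu : ∀ j k, (u j k).1 ∈ K j ∧ (u j k).2 ∈ K j) :
    Phi (List.ofFn fun k => ((List.ofFn fun j => (u j k).1).prod,
      (List.ofFn fun j => (u j k).2).prod)) = (List.ofFn fun j => Phi (List.ofFn (u j))).prod := by
  let P : Subgroup (Fin L → E) := Subgroup.pi Set.univ K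
  let Ψ : P →* E := MonoidHom.mk' (fun a => (List.ofFn a.1).prod) fun a b =>
    split_mul a.1 b.1 fun i j hij => hK i j hij _ (b.2 i trivial) _ (a.2 j trivial)
  let x : Fin m → P × P := fun k =>
    (⟨fun j => (u j k).1, fun j _ => (hu j k).1⟩, ⟨fun j => (u j k).2, fun j _ => (hu j k).2⟩)
  have h1 := map_Phi Ψ (List.ofFn x)
  rw [List.map_ofFn] at h1
  refine h1.symm.trans ?_
  change (List.ofFn (Phi (List.ofFn x)).1).prod = _
  congr 2
  funext j
  have h2 := map_Phi ((Pi.evalMonoidHom (fun _ : Fin L => E) j).comp P.subtype) (List.ofFn x)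
  rw [List.map_ofFn] at h2
  exact h2

theorem comm_abs (π : E →* Γ) (hc : ∀ e, π e = 1 → e ∈ Subgroup.center E) {H : Subgroup E}
    {e e₀ e' : E} (h0 : e₀ ∈ ⁅H, H⁆) (he : π e₀ = π e) (h : ∀ u ∈ H, π (e' * u * e'⁻¹) = π u) :
    Commute e e' := by
  have hle : ⁅H, H⁆ ≤ Subgroup.centralizer {e'} := by
    refine Subgroup.commutator_le.2 fun u hu v hv => ?_
    refine Subgroup.mem_centralizer_singleton_iff.2 ?_
    have h1 := comm_congr_of_ker π hc (h u hu) (h v hv)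
    have h2 : ⁅e' * u * e'⁻¹, e' * v * e'⁻¹⁆ = e' * ⁅u, v⁆ * e'⁻¹ := by
      simp only [commutatorElement_def]; group
    rw [h2] at h1
    exact (mul_inv_eq_iff_eq_mul.1 h1).symm
  have h1 : e₀ * e' = e' * e₀ := Subgroup.mem_centralizer_singleton_iff.1 (hle h0)
  have h2 := Subgroup.mem_center_iff.1 (hc (e₀⁻¹ * e) (by simp [he])) e'
  calc e * e' = e₀ * ((e₀⁻¹ * e) * e') := by group
    _ = e₀ * (e' * (e₀⁻¹ * e)) := by rw [h2]
    _ = (e₀ * e') * (e₀⁻¹ * e) := by group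
    _ = e' * e := by rw [h1]; group

end

variable {n n₀ : ℕ} {A : Type*} [AddCommGroup A]

/-- total size of a tuple -/
noncomputable def szT (r : ℕ) {m : ℕ} (x : Fin m → Gc n × Gc n) : ℝ :=
  ∑ k, (nm r (dp ((x k).1 : Pm n)) + nm r (dp ((x k).2 : Pm n)))

theorem szT_nonneg (r : ℕ) {m : ℕ} (x : Fin m → Gc n × Gc n) : 0 ≤ szT r x :=
  Finset.sum_nonneg fun _ _ => add_nonneg (nm_nonneg _ _) (nm_nonneg _ _)

theorem szT_mono {m : ℕ} (x : Fin m → Gc n × Gc n) : Monotone fun r => szT r x :=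
  fun _ _ h => Finset.sum_le_sum fun _ _ => add_le_add (nm_mono h _) (nm_mono h _)

theorem le_szT (r : ℕ) {m : ℕ} (x : Fin m → Gc n × Gc n) (k : Fin m) :
    nm r (dp ((x k).1 : Pm n)) ≤ szT r x ∧ nm r (dp ((x k).2 : Pm n)) ≤ szT r x := by
  have h : nm r (dp ((x k).1 : Pm n)) + nm r (dp ((x k).2 : Pm n)) ≤ szT r x :=
    Finset.single_le_sum (f := fun k => nm r (dp ((x k).1 : Pm n)) + nm r (dp ((x k).2 : Pm n)))
      (fun _ _ => add_nonneg (nm_nonneg _ _) (nm_nonneg _ _)) (Finset.mem_univ k)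
  exact ⟨(le_add_of_nonneg_right (nm_nonneg _ _)).trans h,
    (le_add_of_nonneg_left (nm_nonneg _ _)).trans h⟩

theorem szT_le (r : ℕ) {m : ℕ} {x : Fin m → Gc n × Gc n} {M : ℝ}
    (h : ∀ k, nm r (dp ((x k).1 : Pm n)) ≤ M ∧ nm r (dp ((x k).2 : Pm n)) ≤ M) :
    szT r x ≤ 2 * m * M := by
  have h1 := Finset.sum_le_card_nsmul Finset.univ
    (fun k => nm r (dp ((x k).1 : Pm n)) + nm r (dp ((x k).2 : Pm n))) (2 * M)
    fun k _ => by linarith [(h k).1, (h k).2]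
  rw [Finset.card_univ, Fintype.card_fin, nsmul_eq_mul] at h1
  exact h1.trans (le_of_eq (by ring))

theorem S1_of_szT {R m : ℕ} (hR : 1 ≤ R) {κ : ℝ} {x : Fin m → Gc n × Gc n} (h : szT R x ≤ κ) :
    S1 κ x := fun k =>
  ⟨(s1_le_nm hR _).trans ((le_szT R x k).1.trans h), (s1_le_nm hR _).trans ((le_szT R x k).2.trans h)⟩

theorem GB_Tn {S : Scale} {p : ℕ} {t : S.ι → Gc n} (h : Scale.cF t ∈ S.GB n p) : t ∈ Tn S.F := by
  rw [mem_Tn, Metric.tendsto_nhds]
  intro ε hε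
  filter_upwards [Scale.GB_small h 1 (half_pos hε)] with i hi
  rw [Real.dist_eq, sub_zero, abs_of_nonneg (s1_nonneg _)]
  exact ((s1_le_nm le_rfl _).trans hi.2).trans_lt (half_lt_self hε)

/-- lifts of tame families -/
noncomputable def LC.LE (c : LC n A) (S : Scale) (p : ℕ) (U : Set (V n)) :
    Subgroup (CE (c.germ S.F)) :=
  (((S.GF p U).comap Scale.cF).map (Germ.coeMulHom S.F)).comap (c.pr S.F)

theorem LC.sec_mem (c : LC n A) {S : Scale} {p : ℕ} {U : Set (V n)} {t : S.ι → Gc n}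
    (h : Scale.cF t ∈ S.GF p U) : c.sec S.F t ∈ c.LE S p U :=
  ⟨t, h, (LC.pr_sec (GB_Tn h.1)).symm⟩

theorem LC.comm_LE (c : LC n A) (h : VSpt n n₀) {S : Scale} {l : ℝ} (hl : 0 < l) {b : V n}
    {p : ℕ} {U : Set (V n)} (hd : Disjoint (ball b (4 * l)) U) {e e' : CE (c.germ S.F)}
    (he : e ∈ c.LE S (bb n) (ball b l)) (he' : e' ∈ c.LE S p U) : Commute e e' := by
  obtain ⟨t, ht, e1⟩ := he
  obtain ⟨t', ht', e2⟩ := he'
  obtain ⟨x, hx, e3⟩ := Scale.vs_unif h hl b ht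
  have hT : ∀ k, (x k).1 ∈ Tn S.F ∧ (x k).2 ∈ Tn S.F := fun k =>
    ⟨GB_Tn (hx k).1.1, GB_Tn (hx k).2.1⟩
  refine comm_abs (c.pr S.F) LC.pr_central (H := c.LE S 7 (ball b (4 * l)))
    (e₀ := PhiL (c.sec S.F) (List.ofFn x)) (Phi_mem fun z hz => ?_) ?_ ?_
  · obtain ⟨z, hz', rfl⟩ := List.mem_map.1 hz
    obtain ⟨k, rfl⟩ := List.mem_ofFn.1 hz'
    exact ⟨c.sec_mem (hx k).1, c.sec_mem (hx k).2⟩
  · rw [LC.pr_PhiL (mem_ofFn_Tn hT), ← e1]
    exact Germ.coe_eq.2 e3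
  · rintro u ⟨s, hs, e4⟩
    rw [map_mul, map_mul, map_inv, ← e2, ← e4, ← map_inv, ← map_mul, ← map_mul]
    refine Germ.coe_eq.2 ?_
    filter_upwards [Scale.GF_fix hs, Scale.GF_fix ht'] with i f1 f2
    have h1 : (t' i : Pm n) * s i = s i * t' i :=
      commute_of_fix (fun z hz => f2 z (Set.disjoint_left.1 hd hz)) f1
    have h2 : t' i * s i = s i * t' i := Subtype.ext h1
    change t' i * s i * (t' i)⁻¹ = s i
    rw [h2, mul_inv_cancel_right]

/-- the universal data for `split` -/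
noncomputable def splitU (n L m : ℕ) (b : Fin L → V n) (μ : ℝ) : UData where
  ι := {p : ℝ × (Fin L → Fin m → Gc n × Gc n) × (Fin m → Gc n × Gc n) // 0 < p.1 ∧ p.1 ≤ 1 / 2 ∧
    (∀ j k, Fix (closedBall (b j) μ) ((p.2.1 j k).1 : Pm n) ∧
      Fix (closedBall (b j) μ) ((p.2.1 j k).2 : Pm n)) ∧
    (∀ k, IsDP (fun j => ((p.2.1 j k).1 : Pm n)) (p.2.2 k).1 ∧
      IsDP (fun j => ((p.2.1 j k).2 : Pm n)) (p.2.2 k).2) ∧ ∀ j, Phi (List.ofFn (p.2.1 j)) = 1}
  ε := fun i => i.1.1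
  sz := fun r i => ∑ j, szT r (i.1.2.1 j)
  a := bb n
  pos := fun i => i.2.1
  le_half := fun i => i.2.2.1
  nonneg := fun r _ => Finset.sum_nonneg fun _ _ => szT_nonneg r _
  mono := fun _ _ _ h => Finset.sum_le_sum fun _ _ => szT_mono _ h

theorem split (h : VSpt n n₀) (c : LC n A) {L : ℕ} (m : ℕ) (b : Fin L → V n) {μ : ℝ} (hμ : 0 < μ)
    (hsep : Sep fun j => ball (b j) (5 * μ)) : ∃ (R : ℕ) (e : ℝ), 0 < e ∧
      ∀ (u : Fin L → Fin m → Gc n × Gc n) (X : Fin m → Gc n × Gc n),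
        (∀ j k, Fix (closedBall (b j) μ) ((u j k).1 : Pm n) ∧
          Fix (closedBall (b j) μ) ((u j k).2 : Pm n)) →
        (∀ k, IsDP (fun j => ((u j k).1 : Pm n)) (X k).1 ∧
          IsDP (fun j => ((u j k).2 : Pm n)) (X k).2) →
        (∀ j, Phi (List.ofFn (u j)) = 1) → (∀ j, szT R (u j) ≤ e) →
          PhiA c.c (List.ofFn X) = ∑ j, PhiA c.c (List.ofFn (u j)) := by
  let D := splitU n L m b μ
  let S := D.scale
  let U : Fin L → Fin m → (S.ι → Gc n) × (S.ι → Gc n) := fun j => fmT fun i : D.ι => i.1.2.1 j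
  let X : Fin m → (S.ι → Gc n) × (S.ι → Gc n) := fmT fun i : D.ι => i.1.2.2
  have hl : 0 < 5 / 4 * μ := by positivity
  have mem : ∀ (j : Fin L) (t : S.ι → Gc n), (∀ i, Fix (closedBall (b j) μ) (t i : Pm n)) →
      (∀ r i, nm r (dp (t i : Pm n)) ≤ szT r (i.1.2.1 j)) →
        Scale.cF t ∈ S.GF (bb n) (ball (b j) (5 / 4 * μ)) := by
    intro j t h1 h2
    have h3 := D.taut (f := Scale.dpF (S := S) (Scale.cF t)) (fun i => Gc.sm (t i)) fun r i =>
      ((sn_le_nm le_rfl _).trans (h2 r i)).trans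
        (Finset.single_le_sum (f := fun j => szT r (i.1.2.1 j)) (fun _ _ => szT_nonneg _ _)
          (Finset.mem_univ j))
    exact ⟨Scale.mem_GB_of (Nat.le_add_left _ _) h3.1 h3.2,
      Scale.mem_GS_ball.2 ⟨μ, by linarith, Eventually.of_forall h1⟩⟩
  have hU : ∀ j k, Scale.cF (U j k).1 ∈ S.GF (bb n) (ball (b j) (5 / 4 * μ)) ∧
      Scale.cF (U j k).2 ∈ S.GF (bb n) (ball (b j) (5 / 4 * μ)) := fun j k =>
    ⟨mem j _ (fun i => (i.2.2.2.1 j k).1) fun r i => (le_szT r _ k).1,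
      mem j _ (fun i => (i.2.2.2.1 j k).2) fun r i => (le_szT r _ k).2⟩
  have hUT : ∀ j k, (U j k).1 ∈ Tn S.F ∧ (U j k).2 ∈ Tn S.F := fun j k =>
    ⟨GB_Tn (hU j k).1.1, GB_Tn (hU j k).2.1⟩
  have hs' : Sep fun j => closedBall (b j) μ := fun i j hij =>
    (hsep hij).mono (closedBall_subset_ball (by linarith)) (closedBall_subset_ball (by linarith))
  have key : ∀ (v : Fin L → S.ι → Gc n) (w : S.ι → Gc n), (∀ j, v j ∈ Tn S.F) →
      (∀ j i, Fix (closedBall (b j) μ) (v j i : Pm n)) →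
      (∀ i, IsDP (fun j => (v j i : Pm n)) (w i)) →
      w ∈ Tn S.F ∧ c.pr S.F (c.sec S.F w) = c.pr S.F (List.ofFn fun j => c.sec S.F (v j)).prod := by
    intro v w h1 h2 h3
    have e1 : w = (List.ofFn v).prod := by
      funext i
      apply Subtype.ext
      have e2 := map_list_prod ((Gc n).subtype.comp (Pi.evalMonoidHom (fun _ : S.ι => Gc n) i))
        (List.ofFn v)
      rw [List.map_ofFn] at e2
      exact ((h3 i).unique (isDP_prod hs' fun j => h2 j i)).trans e2.symm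
    have e3 : w ∈ Tn S.F := by
      rw [e1]
      refine list_prod_mem fun z hz => ?_
      obtain ⟨j, rfl⟩ := List.mem_ofFn.1 hz
      exact h1 j
    refine ⟨e3, ?_⟩
    have e4 := map_list_prod (Germ.coeMulHom S.F) (List.ofFn v)
    rw [← e1, List.map_ofFn] at e4
    rw [LC.pr_sec e3, map_list_prod, List.map_ofFn]
    refine e4.trans ?_
    congr 2
    funext j
    exact (LC.pr_sec (h1 j)).symm
  have k1 := fun k => key (fun j => (U j k).1) (X k).1 (fun j => (hUT j k).1)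
    (fun j i => (i.2.2.2.1 j k).1) fun i => (i.2.2.2.2.1 k).1
  have k2 := fun k => key (fun j => (U j k).2) (X k).2 (fun j => (hUT j k).2)
    (fun j i => (i.2.2.2.1 j k).2) fun i => (i.2.2.2.2.1 k).2
  have h1 := split_abs (fun j => c.LE S (bb n) (ball (b j) (5 / 4 * μ)))
    (fun i j hij x hx y hy => c.comm_LE h hl
      ((hsep hij).mono (ball_subset_ball (by linarith)) (ball_subset_ball (by linarith))) hx hy)
    (fun j k => (c.sec S.F (U j k).1, c.sec S.F (U j k).2))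
    fun j k => ⟨c.sec_mem (hU j k).1, c.sec_mem (hU j k).2⟩
  have h2 : PhiL (c.sec S.F) (List.ofFn X) =
      (List.ofFn fun j => PhiL (c.sec S.F) (List.ofFn (U j))).prod := by
    simp only [PhiL, List.map_ofFn]
    refine Eq.trans ?_ h1
    refine Phi_congr_of_ker (c.pr S.F) LC.pr_central ?_
    simp only [List.map_ofFn]
    congr 1
    funext k
    exact Prod.ext (k1 k).2 (k2 k).2
  have h3 := congrArg CE.a h2
  rw [LC.prod_a _ fun j => by
      rw [c.pr_ofFn (hUT j)]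
      exact Germ.coe_eq.2 (Eventually.of_forall fun i => i.2.2.2.2.2 j),
    c.PhiL_ofFn_a fun k => ⟨(k1 k).1, (k2 k).1⟩] at h3
  have h4 := map_sum (Germ.coeAddHom S.F)
    (fun j i => PhiA c.c (List.ofFn (evT (U j) i))) Finset.univ
  have h5 : ((fun i => PhiA c.c (List.ofFn (evT X i)) : S.ι → A) : Germ S.F A) =
      ((∑ j, fun i => PhiA c.c (List.ofFn (evT (U j) i)) : S.ι → A) : Germ S.F A) := by
    refine h3.trans (Eq.trans ?_ h4.symm)
    exact Finset.sum_congr rfl fun j _ => c.PhiL_ofFn_a (hUT j)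
  obtain ⟨e₀, he₀, R, hm⟩ := D.mem_filt.1 (Germ.coe_eq.1 h5)
  have hε : 0 < min e₀ (1 / 2) := lt_min he₀ (by norm_num)
  refine ⟨R, min e₀ (1 / 2) ^ bb n / (L + 1), by positivity, fun u X f1 f2 f3 f4 => ?_⟩
  have h6 := hm ⟨(min e₀ (1 / 2), u, X), hε, min_le_right _ _, f1, f2, f3⟩ (min_le_left _ _) (by
    change ∑ j, szT R (u j) ≤ min e₀ (1 / 2) ^ bb n
    refine (Finset.sum_le_sum fun j _ => f4 j).trans ?_
    rw [Finset.sum_const, Finset.card_univ, Fintype.card_fin, nsmul_eq_mul, ← mul_div_assoc,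
      div_le_iff₀ (by positivity)]
    nlinarith [pow_pos hε (bb n)])
  exact Eq.trans h6 (Finset.sum_apply _ _ _)

end Pool.Agent.P.MP_878f14_gt.HT
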