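import Pool.Agent.P.MP_878f14_gt.HT.Tame
import Pool.Agent.P.MP_878f14_gt.HT.Lie

/-! The algebra of bounded scalar families that are approximable by tame families. -/

namespace Pool.Agent.P.MP_878f14_gt.HT

open Filter Metric
open scoped ContDiff Topology

variable {n : ℕ}

section Dir

variable {F : Type} [NormedAddCommGroup F] [NormedSpace ℝ F] {f g : V n → F}

theorem walg_pd_add (hf : Differentiable ℝ f) (hg : Differentiable ℝ g) (d : Fin n) (x : V n) :
    pd d (fun y => f y + g y) x = pd d f x + pd d g x := by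
  rw [pd, fderiv_fun_add (hf x) (hg x)]
  rfl

theorem walg_pd_sub (hf : Differentiable ℝ f) (hg : Differentiable ℝ g) (d : Fin n) (x : V n) :
    pd d (fun y => f y - g y) x = pd d f x - pd d g x := by
  rw [pd, fderiv_fun_sub (hf x) (hg x)]
  rfl

theorem walg_pd_smul (hf : Differentiable ℝ f) (c : ℝ) (d : Fin n) (x : V n) :
    pd d (fun y => c • f y) x = c • pd d f x := by
  rw [pd, fderiv_fun_const_smul (hf x)]
  rfl

theorem walg_pd_mul {a b : V n → ℝ} (ha : Differentiable ℝ a) (hb : Differentiable ℝ b)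
    (d : Fin n) (x : V n) : pd d (fun y => a y * b y) x = pd d a x * b x + a x * pd d b x := by
  rw [pd, fderiv_fun_mul (ha x) (hb x)]
  simp only [pd, add_apply, smul_apply, smul_eq_mul]
  ring

theorem walg_pd_coord (i j : Fin n) (x : V n) :
    pd i (fun y : V n => y j) x = if i = j then 1 else 0 := by
  have h := (ContinuousLinearMap.proj j : V n →L[ℝ] ℝ).fderiv (x := x)
  have e : (fun y : V n => y j) = (ContinuousLinearMap.proj j : V n →L[ℝ] ℝ) := rfl
  rw [pd, e, h, ContinuousLinearMap.proj_apply, sg_apply]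
  simp only [eq_comm]

theorem walg_pd_pd (hf : ContDiff ℝ ∞ f) (i j : Fin n) (x : V n) :
    pd i (pd j f) x = fderiv ℝ (fderiv ℝ f) x (sg i 1) (sg j 1) := by
  have h1 : DifferentiableAt ℝ (fderiv ℝ f) x :=
    (contDiff_infty_iff_fderiv.1 hf).2.differentiable (by simp) x
  have e : pd j f = fun y => fderiv ℝ f y ((fun _ => sg j 1) y) := rfl
  rw [pd, e, fderiv_clm_apply h1 (differentiableAt_const _)]
  simp

theorem walg_pd_comm (hf : ContDiff ℝ ∞ f) (i j : Fin n) : pd i (pd j f) = pd j (pd i f) := by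
  funext x
  rw [walg_pd_pd hf, walg_pd_pd hf]
  exact (hf.contDiffAt.isSymmSndFDerivAt
    (by rw [minSmoothness_of_isRCLikeNormedField]; exact WithTop.coe_le_coe.2 le_top)).eq _ _

theorem walg_pd_apply {u : V n → V n} (hu : Differentiable ℝ u) (d a : Fin n) (x : V n) :
    pd d u x a = pd d (fun y => u y a) x := by
  rw [pd, pd, fderiv_apply (hu x)]
  rfl

theorem walg_pd_congr {x : V n} (h : f =ᶠ[𝓝 x] g) (d : Fin n) : pd d f x = pd d g x := by
  rw [pd, pd, h.fderiv_eq]

end Dir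

namespace Scale

variable {S : Scale} {κ κ' : ℝ} {f g : S.ι → V n → ℝ}

variable (S) in
/-- approximable by a tame family -/
def AT (f : S.ι → V n → ℝ) : Prop := ∃ t, S.Tame t ∧ S.Od 1 fun i x => f i x - t i x

variable (S) in
def InW (κ : ℝ) (f : S.ι → V n → ℝ) : Prop :=
  (∀ i, Sm (f i) ∧ Van (closedBall 0 κ) (f i)) ∧ S.Od 0 f ∧ S.AT f

theorem walg_od_zero {t : S.ι → V n → ℝ} (ho : S.Od 0 f)
    (h : S.Od 1 fun i x => f i x - t i x) : S.Od 0 t :=
  (ho.sub (h.mono zero_le_one)).congr (Eventually.of_forall fun i => by ext x; ring)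

theorem walg_fix_mul (hf : S.InW κ f) {φ : V n → ℝ} (hφ : Sm φ) :
    S.InW κ fun i x => φ x * f i x := by
  obtain ⟨h1, h2, t, ht, h3⟩ := hf
  refine ⟨fun i => ⟨hφ.smul (h1 i).1, fun x hx => by simp only [(h1 i).2 x hx, mul_zero]⟩,
    h2.fix_smul hφ, fun i x => φ x • t i x, ht.fix_smul hφ, ?_⟩
  exact (h3.fix_smul hφ).congr (Eventually.of_forall fun i => by
    ext x; simp only [smul_eq_mul]; ring)

theorem walg_exists_x (κ : ℝ) (d : Fin n) : ∃ φ : V n → ℝ, Sm φ ∧
    ∀ u : V n → ℝ, Van (closedBall 0 κ) u → (fun x => φ x * u x) = fun x => x d * u x := by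
  obtain ⟨χ, h1, -, h2, h3⟩ := exists_bump_ball (0 : V n) (a := κ) (b := κ + 1) (by linarith)
  refine ⟨fun x => χ x • x d, sm_smul_of_van h1.contDiff h2 isBounded_ball
    (ContinuousLinearMap.proj d : V n →L[ℝ] ℝ).contDiff, fun u hu => ?_⟩
  ext x
  by_cases hx : x ∈ closedBall (0 : V n) κ
  · simp only [h3 x hx, one_smul]
  · simp only [hu x hx, mul_zero]

theorem inW_zero : S.InW κ (0 : S.ι → V n → ℝ) :=
  ⟨fun _ => ⟨sm_const 0, fun _ _ => rfl⟩, od_zero, fun _ _ => 0, tame_zero,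
    (od_zero (p := 1)).congr (Eventually.of_forall fun i => by ext x; simp)⟩

theorem InW.add (hf : S.InW κ f) (hg : S.InW κ g) : S.InW κ (f + g) := by
  obtain ⟨h1, h2, t, ht, h3⟩ := hf
  obtain ⟨h1', h2', t', ht', h3'⟩ := hg
  refine ⟨fun i => ⟨(h1 i).1.add (h1' i).1, fun x hx => ?_⟩, h2.add h2',
    fun i x => t i x + t' i x, ht.add ht', ?_⟩
  · simp only [Pi.add_apply, (h1 i).2 x hx, (h1' i).2 x hx, add_zero]
  · exact (h3.add h3').congr (Eventually.of_forall fun i => by
      ext x; simp only [Pi.add_apply]; ring)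

theorem InW.smul (hf : S.InW κ f) (c : ℝ) : S.InW κ (c • f) :=
  walg_fix_mul hf (sm_const c)

theorem InW.mul (hf : S.InW κ f) (hg : S.InW κ g) : S.InW κ (f * g) := by
  obtain ⟨h1, h2, t, ht, h3⟩ := hf
  obtain ⟨h1', h2', t', ht', h3'⟩ := hg
  refine ⟨fun i => ⟨(h1 i).1.smul (h1' i).1, fun x hx => ?_⟩, h2.mul h2',
    fun i x => t i x • t' i x, ht.mul ht', ?_⟩
  · simp only [Pi.mul_apply, (h1 i).2 x hx, zero_mul]
  · have e1 : S.Od 1 _ := h3.mul h2'
    have e2 : S.Od 1 _ := (walg_od_zero h2 h3).mul h3'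
    exact (e1.add e2).congr (Eventually.of_forall fun i => by
      ext x; simp only [Pi.mul_apply, smul_eq_mul]; ring)

/-- the tame approximant of the derivative is the difference quotient -/
theorem InW.pd (hf : S.InW κ f) (d : Fin n) : S.InW κ fun i => pd d (f i) := by
  obtain ⟨h1, h2, t, ht, h3⟩ := hf
  refine ⟨fun i => ⟨(h1 i).1.pd d, (h1 i).2.pd isClosed_closedBall d⟩, h2.pd d,
    fun i x => (S.ε i ^ 1)⁻¹ • (t i (x + sg d (S.ε i ^ 1)) - t i x),
    ((ht.comp_add fun i => sg d (S.ε i ^ 1)).sub ht).div_pow 1, ?_⟩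
  have h4 : S.OdS 1 fun i => ‖sg d (S.ε i ^ 1)‖ :=
    (odS_pow (S := S) 1).abs.congr (Eventually.of_forall fun i => (norm_sg d _).symm)
  have e1 : S.Od (1 + 1) _ := (walg_od_zero h2 h3).comp_sub_two h4.od_cst
  refine ((h3.pd d).sub e1.div_pow).congr ?_
  filter_upwards [ht.sm] with i hi
  ext x
  have hε := (S.pos i).ne'
  have e2 : fderiv ℝ (t i) x (sg d (S.ε i ^ 1)) = S.ε i ^ 1 * HT.pd d (t i) x := by
    rw [HT.pd, ← smul_eq_mul, ← map_smul, smul_sg, mul_one]
  rw [walg_pd_sub (h1 i).1.differentiable hi.differentiable, e2]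
  simp only [smul_eq_mul]
  field_simp
  ring

/-- multiply by a fixed bump times a coordinate -/
theorem InW.xmul (hf : S.InW κ f) (d : Fin n) : S.InW κ fun i x => x d * f i x := by
  obtain ⟨φ, h1, h2⟩ := walg_exists_x κ d
  have h := walg_fix_mul hf h1
  have e : (fun i x => φ x * f i x) = fun i x => x d * f i x := funext fun i => h2 _ (hf.1 i).2
  rwa [e] at h

theorem inW_const {φ : V n → ℝ} (h : Sm φ) (hv : Van (closedBall 0 κ) φ) : S.InW κ fun _ => φ :=
  ⟨fun _ => ⟨h, hv⟩, od_const h, fun _ => φ, tame_const h,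
    (od_zero (p := 1)).congr (Eventually.of_forall fun i => by ext x; simp)⟩

/-- a tame bounded family with eventual support condition has a modification in `W` -/
theorem exists_inW (hκ : κ ≤ κ') (ht : S.Tame f) (ho : S.Od 0 f)
    (hv : ∀ᶠ i in S.F, Van (closedBall 0 κ) (f i)) :
    ∃ f', S.InW κ' f' ∧ (∀ i, Van (closedBall 0 κ) (f' i)) ∧ ∀ᶠ i in S.F, f' i = f i := by
  classical
  have e : ∀ᶠ i in S.F,
      f i = (fun i => if Sm (f i) ∧ Van (closedBall 0 κ) (f i) then f i else fun _ => 0) i := by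
    filter_upwards [ho.sm, hv] with i h1 h2
    simp only [h1, h2, and_self, if_true]
  have hs : ∀ i, Sm (if Sm (f i) ∧ Van (closedBall 0 κ) (f i) then f i else fun _ => 0) ∧
      Van (closedBall 0 κ) (if Sm (f i) ∧ Van (closedBall 0 κ) (f i) then f i else fun _ => 0) := by
    intro i
    by_cases h : Sm (f i) ∧ Van (closedBall 0 κ) (f i)
    · simp only [h, and_self, if_true]
    · simp only [h, if_false]
      exact ⟨sm_const 0, fun _ _ => rfl⟩
  refine ⟨fun i => if Sm (f i) ∧ Van (closedBall 0 κ) (f i) then f i else fun _ => 0,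
    ⟨fun i => ⟨(hs i).1, (hs i).2.mono (closedBall_subset_closedBall hκ)⟩, ho.congr e, f, ht,
      (od_zero (p := 1)).congr ?_⟩, fun i => (hs i).2, e.mono fun _ h => h.symm⟩
  filter_upwards [e] with i hi
  ext x
  rw [← hi, sub_self]

variable (S n) in
/-- the algebra `W κ` -/
def WA (κ : ℝ) : NonUnitalSubalgebra ℝ (S.ι → V n → ℝ) where
  carrier := {f | S.InW κ f}
  add_mem' := InW.add
  zero_mem' := inW_zero
  mul_mem' := InW.mul
  smul_mem' := fun c _ hf => InW.smul hf c

theorem WA.sm (f : S.WA n κ) (i : S.ι) : Sm (f.1 i) := (f.2.1 i).1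

theorem WA.diff (f : S.WA n κ) (i : S.ι) : Differentiable ℝ (f.1 i) := (WA.sm f i).differentiable

variable (S κ) in
noncomputable def WD (d : Fin n) : S.WA n κ →ₗ[ℝ] S.WA n κ where
  toFun f := ⟨fun i => pd d (f.1 i), InW.pd f.2 d⟩
  map_add' f g := Subtype.ext (funext fun i => funext fun x =>
    walg_pd_add (WA.diff f i) (WA.diff g i) d x)
  map_smul' c f := Subtype.ext (funext fun i => funext fun x => walg_pd_smul (WA.diff f i) c d x)

variable (S κ) in
def WX (d : Fin n) : S.WA n κ →ₗ[ℝ] S.WA n κ where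
  toFun f := ⟨fun i x => x d * f.1 i x, InW.xmul f.2 d⟩
  map_add' _ _ := Subtype.ext (funext fun _ => funext fun _ => mul_add _ _ _)
  map_smul' _ _ := Subtype.ext (funext fun _ => funext fun _ => mul_left_comm _ _ _)

theorem WD_val (d : Fin n) (f : S.WA n κ) (i : S.ι) : (S.WD κ d f).1 i = pd d (f.1 i) := rfl

theorem WX_val (d : Fin n) (f : S.WA n κ) (i : S.ι) (x : V n) :
    (S.WX κ d f).1 i x = x d * f.1 i x := rfl

theorem isW : IsW (S.WD (n := n) κ) (S.WX κ) where
  D_mul d f h := Subtype.ext (funext fun i => funext fun x =>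
    walg_pd_mul (WA.diff f i) (WA.diff h i) d x)
  DD a b f := Subtype.ext (funext fun i => walg_pd_comm (WA.sm f i).contDiff a b)
  X_mul d f h := Subtype.ext (funext fun i => funext fun x => (mul_assoc _ _ _).symm)
  XX a b f := Subtype.ext (funext fun i => funext fun x => mul_left_comm _ _ _)
  DX a b f := by
    refine Subtype.ext (funext fun i => funext fun x => ?_)
    have h := walg_pd_mul (a := fun y : V n => y b)
      (ContinuousLinearMap.proj b : V n →L[ℝ] ℝ).differentiable (WA.diff f i) a x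
    rw [walg_pd_coord] at h
    refine h.trans ?_
    split_ifs
    · change 1 * f.1 i x + x b * pd a (f.1 i) x = x b * pd a (f.1 i) x + f.1 i x
      ring
    · change 0 * f.1 i x + x b * pd a (f.1 i) x = x b * pd a (f.1 i) x + 0
      ring

variable (S n κ) in
/-- the elements of order one -/
def W1 : Submodule ℝ (S.WA n κ) where
  carrier := {f | S.Od 1 f.1}
  add_mem' := fun hf hg => hf.add hg
  zero_mem' := od_zero
  smul_mem' := fun c _ hf => hf.const_smul c

theorem mem_W1 {f : S.WA n κ} : f ∈ S.W1 n κ ↔ S.Od 1 f.1 := Iff.rfl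

theorem WX_W1 (d : Fin n) (f : S.WA n κ) (h : f ∈ S.W1 n κ) : S.WX κ d f ∈ S.W1 n κ := by
  obtain ⟨φ, h1, h2⟩ := walg_exists_x κ d
  exact (Od.fix_smul h h1).congr (Eventually.of_forall fun i => h2 _ (f.2.1 i).2)

variable (S n κ') in
/-- the elements with smaller support -/
def WK (κ : ℝ) : Submodule ℝ (S.WA n κ') where
  carrier := {f | ∀ i, Van (closedBall 0 κ) (f.1 i)}
  add_mem' := fun {f g} hf hg i x hx => by
    change f.1 i x + g.1 i x = 0
    rw [hf i x hx, hg i x hx, add_zero]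
  zero_mem' := fun _ _ _ => rfl
  smul_mem' := fun c f hf i x hx => by
    change c * f.1 i x = 0
    rw [hf i x hx, mul_zero]

theorem mem_WK {f : S.WA n κ'} : f ∈ S.WK n κ' κ ↔ ∀ i, Van (closedBall 0 κ) (f.1 i) := Iff.rfl

/-- the cut-off functions -/
theorem exists_cut (κ : ℝ) : ∃ C T : S.WA n (κ + 3 / 4),
    Cut (S.WD (κ + 3 / 4)) (S.WX (κ + 3 / 4)) (S.WK n (κ + 3 / 4) κ) C T := by
  obtain ⟨χ₀, hχ₀, -, hχ₀v, hχ₀1⟩ := exists_bump_ball (0 : V n) (a := κ) (b := κ + 1 / 4)
    (by linarith)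
  obtain ⟨χ, hχ, -, hχv, hχ1⟩ := exists_bump_ball (0 : V n) (a := κ + 1 / 4) (b := κ + 1 / 2)
    (by linarith)
  obtain ⟨χ₂, hχ₂, -, hχ₂v, hχ₂1⟩ := exists_bump_ball (0 : V n) (a := κ + 1 / 2) (b := κ + 3 / 4)
    (by linarith)
  have hχc : Van (closedBall 0 (κ + 1 / 2)) χ := hχv.mono ball_subset_closedBall
  have hT : ∀ x, x ∉ ball (0 : V n) (κ + 1 / 4) → x ∈ closedBall (0 : V n) (κ + 1 / 2) →
      χ₂ x - χ₀ x = 1 := fun x h1 h2 => by rw [hχ₂1 x h2, hχ₀v x h1, sub_zero]
  refine ⟨⟨fun _ => χ, inW_const hχ (hχc.mono (closedBall_subset_closedBall (by linarith)))⟩,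
    ⟨fun _ x => χ₂ x - χ₀ x, inW_const (hχ₂.sub hχ₀) fun x hx => ?_⟩,
    fun d f hf i => (hf i).pd isClosed_closedBall d, fun d f hf i x hx => ?_,
    fun f hf g _ i x hx => ?_, fun f hf => ?_, fun f hf => ?_, ?_, fun d => ?_⟩
  · rw [hχ₂v x fun h => hx (ball_subset_closedBall h), hχ₀v x fun h =>
      hx (ball_subset_closedBall (ball_subset_ball (by linarith) h)), sub_zero]
  · rw [WX_val, hf i x hx, mul_zero]
  · change f.1 i x * g.1 i x = 0
    rw [hf i x hx, zero_mul]
  · refine Subtype.ext (funext fun i => funext fun x => ?_)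
    change χ x * f.1 i x = f.1 i x
    by_cases hx : x ∈ closedBall (0 : V n) κ
    · rw [hχ1 x (closedBall_subset_closedBall (by linarith) hx), one_mul]
    · rw [hf i x hx, mul_zero]
  · refine Subtype.ext (funext fun i => funext fun x => ?_)
    change (χ₂ x - χ₀ x) * f.1 i x = 0
    by_cases hx : x ∈ closedBall (0 : V n) κ
    · rw [hχ₂1 x (closedBall_subset_closedBall (by linarith) hx), hχ₀1 x hx, sub_self, zero_mul]
    · rw [hf i x hx, mul_zero]
  · refine Subtype.ext (funext fun i => funext fun x => ?_)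
    change (χ₂ x - χ₀ x) * (χ x * χ x - χ x) = χ x * χ x - χ x
    by_cases h1 : x ∈ ball (0 : V n) (κ + 1 / 4)
    · rw [hχ1 x (ball_subset_closedBall h1)]; ring
    · by_cases h2 : x ∈ closedBall (0 : V n) (κ + 1 / 2)
      · rw [hT x h1 h2, one_mul]
      · rw [hχc x h2]; ring
  · refine Subtype.ext (funext fun i => funext fun x => ?_)
    change (χ₂ x - χ₀ x) * pd d χ x = pd d χ x
    by_cases h1 : x ∈ ball (0 : V n) (κ + 1 / 4)
    · have e : χ =ᶠ[𝓝 x] fun _ => 1 := by
        filter_upwards [isOpen_ball.mem_nhds h1] with y hy using hχ1 y (ball_subset_closedBall hy)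
      rw [walg_pd_congr e]
      simp [pd]
    · by_cases h2 : x ∈ closedBall (0 : V n) (κ + 1 / 2)
      · rw [hT x h1 h2, one_mul]
      · rw [hχc.pd isClosed_closedBall d x h2, mul_zero]

/-- the family of vector fields with the given components -/
def vec (u : Fin n → S.WA n κ) : S.ι → V n → V n := fun i x a => (u a).1 i x

theorem walg_pi (u : Fin n → S.ι → V n → ℝ) : (fun i x a => u a i x) =
    fun i x => ∑ a, (ContinuousLinearMap.single ℝ (fun _ : Fin n => ℝ) a) (u a i x) := by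
  funext i x
  exact (Finset.univ_sum_single fun a => u a i x).symm

theorem od_pi {p : ℕ} {u : Fin n → S.ι → V n → ℝ} (h : ∀ a, S.Od p (u a)) :
    S.Od p fun i x a => u a i x := by
  rw [walg_pi]
  exact Od.sum fun a _ => (h a).clm _

theorem walg_tame_sum {α : Type*} {s : Finset α} {u : α → S.ι → V n → V n}
    (h : ∀ a, S.Tame (u a)) : S.Tame fun i x => ∑ a ∈ s, u a i x := by
  classical
  induction s using Finset.induction_on with
  | empty => simpa using tame_zero
  | insert a s ha ih => simpa only [Finset.sum_insert ha] using (h a).add ih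

theorem tame_pi {u : Fin n → S.ι → V n → ℝ} (h : ∀ a, S.Tame (u a)) :
    S.Tame fun i x a => u a i x := by
  rw [walg_pi]
  exact walg_tame_sum fun a => (h a).clm _

theorem vec_sm (u : Fin n → S.WA n κ) (i : S.ι) : Sm (vec u i) := by
  have e := congrFun (walg_pi fun a => (u a).1) i
  rw [show vec u i = _ from e]
  exact Sm.sum fun a _ => (WA.sm (u a) i).clm _

theorem vec_van (u : Fin n → S.WA n κ) (i : S.ι) : Van (closedBall 0 κ) (vec u i) :=
  fun x hx => funext fun a => ((u a).2.1 i).2 x hx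

theorem vec_od (u : Fin n → S.WA n κ) : S.Od 0 (vec u) := od_pi fun a => (u a).2.2.1

theorem vec_at (u : Fin n → S.WA n κ) :
    ∃ t, S.Tame t ∧ S.Od 1 fun i x => vec u i x - t i x := by
  choose t ht h using fun a => (u a).2.2.2
  exact ⟨fun i x a => t a i x, tame_pi ht, od_pi h⟩

theorem vec_add (u v : Fin n → S.WA n κ) : vec (u + v) = vec u + vec v := rfl

theorem vec_brN (u v : Fin n → S.WA n κ) (i : S.ι) :
    vec (brN (S.WD κ) u v) i = br (vec u i) (vec v i) := by
  funext x a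
  rw [br_eq_sum, Finset.sum_apply]
  change (∑ k, (u k * S.WD κ k (v a) - v k * S.WD κ k (u a))).1 i x = _
  rw [AddSubmonoidClass.coe_finsetSum, Finset.sum_apply, Finset.sum_apply]
  refine Finset.sum_congr rfl fun k _ => ?_
  rw [Pi.sub_apply, Pi.smul_apply, Pi.smul_apply, walg_pd_apply (vec_sm u i).differentiable,
    walg_pd_apply (vec_sm v i).differentiable]
  rfl

end Scale

end Pool.Agent.P.MP_878f14_gt.HT
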