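import Mathlib

/-! Abstract calculus of iterated transitions. -/

namespace Pool.Agent.P.MP_878f14_gt.HT

open scoped commutatorElement

/-- a group `Γ` inside `P`, left and right trivial subgroups in each direction, and an invariant
homomorphism on the elements that are trivial on all sides -/
structure Tower (n : ℕ) (P A : Type*) [Group P] [CommGroup A] where
  Γ : Subgroup P
  L : Fin n → Subgroup P
  R : Fin n → Subgroup P
  φ : P → A
  nL : ∀ g ∈ Γ, ∀ i, ∀ k ∈ L i, g * k * g⁻¹ ∈ L i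
  nR : ∀ g ∈ Γ, ∀ i, ∀ k ∈ R i, g * k * g⁻¹ ∈ R i
  mul : ∀ x ∈ Γ, ∀ y ∈ Γ, (∀ i, x ∈ L i ∧ x ∈ R i) → (∀ i, y ∈ L i ∧ y ∈ R i) →
    φ (x * y) = φ x * φ y
  inv : ∀ g ∈ Γ, ∀ x ∈ Γ, (∀ i, x ∈ L i ∧ x ∈ R i) → φ (g * x * g⁻¹) = φ x

namespace Tower

variable {n : ℕ} {P A : Type*} [Group P] [CommGroup A] (T : Tower n P A) (s : Fin n → P)

/-- the elements of `Γ` that commute with `s i` for `i < j` -/
def G (j : ℕ) : Subgroup P where
  carrier := {g | g ∈ T.Γ ∧ ∀ i : Fin n, i.1 < j → g * s i = s i * g}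
  one_mem' := ⟨one_mem _, fun _ _ => by simp⟩
  mul_mem' := fun ha hb => ⟨mul_mem ha.1 hb.1, fun i hi =>
    (Commute.mul_left (ha.2 i hi) (hb.2 i hi) :)⟩
  inv_mem' := fun ha => ⟨inv_mem ha.1, fun i hi => (Commute.inv_left (ha.2 i hi) :)⟩

/-- those that are trivial on both sides in the directions `i ≥ j'` -/
def M (j j' : ℕ) : Subgroup P where
  carrier := {g | g ∈ T.G s j ∧ ∀ i : Fin n, j' ≤ i.1 → g ∈ T.L i ∧ g ∈ T.R i}
  one_mem' := ⟨one_mem _, fun _ _ => ⟨one_mem _, one_mem _⟩⟩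
  mul_mem' := fun ha hb => ⟨mul_mem ha.1 hb.1, fun i hi =>
    ⟨mul_mem (ha.2 i hi).1 (hb.2 i hi).1, mul_mem (ha.2 i hi).2 (hb.2 i hi).2⟩⟩
  inv_mem' := fun ha => ⟨inv_mem ha.1, fun i hi => ⟨inv_mem (ha.2 i hi).1, inv_mem (ha.2 i hi).2⟩⟩

theorem mem_G {j : ℕ} {g : P} :
    g ∈ T.G s j ↔ g ∈ T.Γ ∧ ∀ i : Fin n, i.1 < j → g * s i = s i * g := Iff.rfl

theorem mem_M {j j' : ℕ} {g : P} :
    g ∈ T.M s j j' ↔ g ∈ T.G s j ∧ ∀ i : Fin n, j' ≤ i.1 → g ∈ T.L i ∧ g ∈ T.R i := Iff.rfl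

/-- `k` is a transition in the direction `j` from the identity to `Ω` -/
def Trs (j : Fin n) (k Ω : P) : Prop := k ∈ T.M s j (j + 1) ∧ k ∈ T.L j ∧ k⁻¹ * Ω ∈ T.R j

/-- admissible systems of translations -/
def Good : Prop := (∀ i, s i ∈ T.Γ) ∧ (∀ i i', s i * s i' = s i' * s i) ∧
  ∀ j : Fin n, ∀ Ω ∈ T.M s j (j + 1), ∃ k, T.Trs s j k Ω

open Classical in
/-- the invariant at level `j` -/
noncomputable def ph : ℕ → P → A
  | 0 => T.φ
  | j + 1 => fun Ω => if h : j < n then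
      (if h' : ∃ k, T.Trs s ⟨j, h⟩ k Ω then ph j ⁅h'.choose, s ⟨j, h⟩⁆ else 1) else 1

variable {T s}

theorem M_conj {j j' : ℕ} {g x : P} (hg : g ∈ T.G s j) (hx : x ∈ T.M s j j') :
    g * x * g⁻¹ ∈ T.M s j j' :=
  ⟨mul_mem (mul_mem hg hx.1) (inv_mem hg), fun i hi =>
    ⟨T.nL g hg.1 i x (hx.2 i hi).1, T.nR g hg.1 i x (hx.2 i hi).2⟩⟩

theorem tower_G_anti {j₁ j₂ : ℕ} (h : j₁ ≤ j₂) : T.G s j₂ ≤ T.G s j₁ :=
  fun _ hx => ⟨hx.1, fun i hi => hx.2 i (lt_of_lt_of_le hi h)⟩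

theorem M_anti {j₁ j₂ j' : ℕ} (h : j₁ ≤ j₂) : T.M s j₂ j' ≤ T.M s j₁ j' :=
  fun _ hx => ⟨tower_G_anti h hx.1, hx.2⟩

theorem s_mem (hs : T.Good s) (i : Fin n) (j : ℕ) : s i ∈ T.G s j :=
  ⟨hs.1 i, fun i' _ => hs.2.1 i i'⟩

/-- with `u = k⁻¹ Ω` one has `⁅k, s⁆ = Ω (u⁻¹ (s u s⁻¹)) Ω⁻¹` when `Ω` commutes with `s` -/
theorem Trs.comm_mem {j : Fin n} {k Ω t : P} (h : T.Trs s j k Ω) (hΩ : Ω ∈ T.G s j)
    (ht : t ∈ T.G s j) (hc : Ω * t = t * Ω) : ⁅k, t⁆ ∈ T.M s j j := by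
  obtain ⟨hk, hL, hR⟩ := h
  have e : ⁅k, t⁆ = k * (t * k⁻¹ * t⁻¹) := by rw [commutatorElement_def]; group
  refine ⟨?_, fun i hi => ?_⟩
  · rw [e]
    exact mul_mem hk.1 (mul_mem (mul_mem ht (inv_mem hk.1)) (inv_mem ht))
  · rcases Nat.eq_or_lt_of_le hi with h0 | h0
    · obtain rfl : j = i := Fin.ext h0
      refine ⟨?_, ?_⟩
      · rw [e]
        exact mul_mem hL (T.nL t ht.1 j _ (inv_mem hL))
      · have e2 : ⁅k, t⁆ = Ω * ((k⁻¹ * Ω)⁻¹ * (t * (k⁻¹ * Ω) * t⁻¹)) * Ω⁻¹ := by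
          have hc' : Ω * t⁻¹ * Ω⁻¹ = t⁻¹ := by
            rw [mul_assoc, ← mul_inv_rev, hc]; group
          calc ⁅k, t⁆ = k * t * k⁻¹ * (Ω * t⁻¹ * Ω⁻¹) := by rw [hc', commutatorElement_def]
            _ = _ := by group
        rw [e2]
        exact T.nR Ω hΩ.1 j _ (mul_mem (inv_mem hR) (T.nR t ht.1 j _ hR))
    · rw [e]
      exact ⟨mul_mem (hk.2 i h0).1 (T.nL t ht.1 i _ (inv_mem (hk.2 i h0).1)),
        mul_mem (hk.2 i h0).2 (T.nR t ht.1 i _ (inv_mem (hk.2 i h0).2))⟩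

theorem tower_comm_mem (hs : T.Good s) {j : Fin n} {k Ω : P} (h : T.Trs s j k Ω)
    (hΩ : Ω ∈ T.M s (j + 1) (j + 1)) : ⁅k, s j⁆ ∈ T.M s j j :=
  h.comm_mem (tower_G_anti (Nat.le_succ _) hΩ.1) (s_mem hs j j) (hΩ.1.2 j (Nat.lt_succ_self _))

theorem tower_step (hs : T.Good s) {j : Fin n}
    (H1 : ∀ x ∈ T.M s j j, ∀ y ∈ T.M s j j, T.ph s j (x * y) = T.ph s j x * T.ph s j y)
    (H2 : ∀ g ∈ T.G s j, ∀ x ∈ T.M s j j, T.ph s j (g * x * g⁻¹) = T.ph s j x)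
    {k Ω : P} (h : T.Trs s j k Ω) (hΩ : Ω ∈ T.M s (j + 1) (j + 1)) :
    T.ph s (j + 1) Ω = T.ph s j ⁅k, s j⁆ := by
  have h' : ∃ k, T.Trs s ⟨j, j.2⟩ k Ω := ⟨k, h⟩
  have e0 : T.ph s (j + 1) Ω = T.ph s j ⁅h'.choose, s j⁆ := by
    rw [ph]
    simp only [j.2, dif_pos, h']
  rw [e0]
  have hk' : T.Trs s j h'.choose Ω := h'.choose_spec
  generalize h'.choose = k' at hk'
  have hm : k⁻¹ * k' ∈ T.M s j j := by
    have hm1 : k⁻¹ * k' ∈ T.M s j (j + 1) := mul_mem (inv_mem h.1) hk'.1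
    refine ⟨hm1.1, fun i hi => ?_⟩
    rcases Nat.eq_or_lt_of_le hi with h0 | h0
    · obtain rfl : j = i := Fin.ext h0
      refine ⟨mul_mem (inv_mem h.2.1) hk'.2.1, ?_⟩
      have e : k⁻¹ * k' = (k⁻¹ * Ω) * (k'⁻¹ * Ω)⁻¹ := by group
      rw [e]
      exact mul_mem h.2.2 (inv_mem hk'.2.2)
    · exact hm1.2 i h0
  set m := k⁻¹ * k' with hmd
  have hsj : s j ∈ T.G s j := s_mem hs j j
  have h1 : T.ph s j 1 = 1 := by
    have := H1 1 (one_mem _) 1 (one_mem _)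
    rw [mul_one] at this
    exact left_eq_mul.mp this
  have hc : s j * m⁻¹ * (s j)⁻¹ ∈ T.M s j j := M_conj hsj (inv_mem hm)
  have e1 : ⁅k', s j⁆ = k * (m * (s j * m⁻¹ * (s j)⁻¹)) * k⁻¹ * ⁅k, s j⁆ := by
    rw [hmd, commutatorElement_def, commutatorElement_def]; group
  rw [e1, H1 _ (M_conj h.1.1 (mul_mem hm hc)) _ (tower_comm_mem hs h hΩ),
    H2 _ h.1.1 _ (mul_mem hm hc), H1 _ hm _ hc, H2 _ hsj _ (inv_mem hm),
    ← H1 _ hm _ (inv_mem hm), mul_inv_cancel, h1, one_mul]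

/-- Induction on `j`. For two transitions `k`, `k' = k m` one has `m ∈ M j j` and
`⁅k m, s⁆ = k ⁅m, s⁆ k⁻¹ ⁅k, s⁆`; further `⁅k k', s⁆ = k ⁅k', s⁆ k⁻¹ ⁅k, s⁆` and
`⁅g k g⁻¹, s⁆ = g ⁅k, s⁆ g⁻¹` if `g` commutes with `s`. -/
theorem ph_spec (hs : T.Good s) (j : ℕ) (hj : j ≤ n) :
    (∀ x ∈ T.M s j j, ∀ y ∈ T.M s j j, T.ph s j (x * y) = T.ph s j x * T.ph s j y) ∧
      ∀ g ∈ T.G s j, ∀ x ∈ T.M s j j, T.ph s j (g * x * g⁻¹) = T.ph s j x := by
  induction j with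
  | zero =>
    refine ⟨fun x hx y hy => ?_, fun g hg x hx => ?_⟩
    · exact T.mul x hx.1.1 y hy.1.1 (fun i => hx.2 i (Nat.zero_le _))
        (fun i => hy.2 i (Nat.zero_le _))
    · exact T.inv g hg.1 x hx.1.1 (fun i => hx.2 i (Nat.zero_le _))
  | succ j ih =>
    obtain ⟨H1, H2⟩ := ih (Nat.le_of_succ_le hj)
    let J : Fin n := ⟨j, hj⟩
    have st := fun {k Ω : P} (h : T.Trs s J k Ω) (hΩ : Ω ∈ T.M s (j + 1) (j + 1)) =>
      tower_step (j := J) hs H1 H2 h hΩ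
    refine ⟨fun x hx y hy => ?_, fun g hg x hx => ?_⟩
    · obtain ⟨k, hk⟩ := hs.2.2 J x (M_anti (Nat.le_succ _) hx)
      obtain ⟨k', hk'⟩ := hs.2.2 J y (M_anti (Nat.le_succ _) hy)
      have hkk : T.Trs s J (k * k') (x * y) := by
        refine ⟨mul_mem hk.1 hk'.1, mul_mem hk.2.1 hk'.2.1, ?_⟩
        have e : (k * k')⁻¹ * (x * y) = k'⁻¹ * (k⁻¹ * x) * k'⁻¹⁻¹ * (k'⁻¹ * y) := by group
        rw [e]
        exact mul_mem (T.nR _ (inv_mem hk'.1.1.1) J _ hk.2.2) hk'.2.2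
      have e1 : ⁅k * k', s J⁆ = k * ⁅k', s J⁆ * k⁻¹ * ⁅k, s J⁆ := by
        simp only [commutatorElement_def]; group
      have c1 := tower_comm_mem hs hk hx
      have c2 := tower_comm_mem hs hk' hy
      rw [st hkk (mul_mem hx hy), st hk hx, st hk' hy, e1, H1 _ (M_conj hk.1.1 c2) _ c1,
        H2 _ hk.1.1 _ c2, mul_comm]
    · obtain ⟨k, hk⟩ := hs.2.2 J x (M_anti (Nat.le_succ _) hx)
      have hg' : g ∈ T.G s j := tower_G_anti (Nat.le_succ _) hg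
      have hkk : T.Trs s J (g * k * g⁻¹) (g * x * g⁻¹) := by
        refine ⟨M_conj hg' hk.1, T.nL g hg.1 J _ hk.2.1, ?_⟩
        have e : (g * k * g⁻¹)⁻¹ * (g * x * g⁻¹) = g * (k⁻¹ * x) * g⁻¹ := by group
        rw [e]
        exact T.nR g hg.1 J _ hk.2.2
      have hc : g * s J = s J * g := hg.2 J (Nat.lt_succ_self _)
      have hc' : g * s J * g⁻¹ = s J := by rw [hc]; group
      have e1 : ⁅g * k * g⁻¹, s J⁆ = g * ⁅k, s J⁆ * g⁻¹ := by
        calc ⁅g * k * g⁻¹, s J⁆ = ⁅g * k * g⁻¹, g * s J * g⁻¹⁆ := by rw [hc']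
          _ = _ := by simp only [commutatorElement_def]; group
      rw [st hkk (M_conj hg hx), st hk hx, e1, H2 _ hg' _ (tower_comm_mem hs hk hx)]

theorem ph_step (hs : T.Good s) {j : Fin n} {k Ω : P} (h : T.Trs s j k Ω)
    (hΩ : Ω ∈ T.M s (j + 1) (j + 1)) : T.ph s (j + 1) Ω = T.ph s j ⁅k, s j⁆ :=
  tower_step hs (ph_spec hs j j.2.le).1 (ph_spec hs j j.2.le).2 h hΩ

theorem ph_one (hs : T.Good s) {j : ℕ} (hj : j ≤ n) : T.ph s j 1 = 1 := by
  have := (ph_spec hs j hj).1 1 (one_mem _) 1 (one_mem _)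
  rw [mul_one] at this
  exact left_eq_mul.mp this

theorem ph_inv (hs : T.Good s) {j : ℕ} (hj : j ≤ n) {x : P} (hx : x ∈ T.M s j j) :
    T.ph s j x⁻¹ = (T.ph s j x)⁻¹ := by
  have := (ph_spec hs j hj).1 x hx x⁻¹ (inv_mem hx)
  rw [mul_inv_cancel, ph_one hs hj] at this
  exact eq_inv_of_mul_eq_one_right this.symm

theorem ph_npow (hs : T.Good s) {j : ℕ} (hj : j ≤ n) {x : P} (hx : x ∈ T.M s j j) (D : ℕ) :
    T.ph s j (x ^ D) = T.ph s j x ^ D := by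
  induction D with
  | zero => rw [pow_zero, pow_zero, ph_one hs hj]
  | succ D ih => rw [pow_succ, pow_succ, (ph_spec hs j hj).1 _ (pow_mem hx D) _ hx, ih]

theorem tower_M_pow (D : ℕ) {j j' : ℕ} : T.M s j j' ≤ T.M (fun i => s i ^ D) j j' :=
  fun _ hx => ⟨⟨hx.1.1, fun i hi => (Commute.pow_right (hx.1.2 i hi) D :)⟩, hx.2⟩

/-- induction on `j`: a transition for `s` is one for `s ^ D`, and
`⁅k, t * t'⁆ = ⁅k, t⁆ * (t * ⁅k, t'⁆ * t⁻¹)` -/
theorem ph_pow (hs : T.Good s) (D : ℕ) (hs' : T.Good fun i => s i ^ D) {j : ℕ} (hj : j ≤ n) {x : P}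
    (hx : x ∈ T.M s j j) : T.ph (fun i => s i ^ D) j x = T.ph s j x ^ D ^ j := by
  induction j generalizing x with
  | zero => rw [pow_zero, pow_one]; rfl
  | succ j ih =>
    let J : Fin n := ⟨j, hj⟩
    have hj' : j ≤ n := Nat.le_of_succ_le hj
    obtain ⟨k, hk⟩ := hs.2.2 J x (M_anti (Nat.le_succ _) hx)
    have hk' : T.Trs (fun i => s i ^ D) J k x := ⟨tower_M_pow D hk.1, hk.2⟩
    have hc : Commute x (s J) := hx.1.2 J (Nat.lt_succ_self _)
    have hsJ : s J ∈ T.G s j := s_mem hs J j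
    have hm : ∀ m : ℕ, ⁅k, s J ^ m⁆ ∈ T.M s j j := fun m =>
      hk.comm_mem (tower_G_anti (Nat.le_succ _) hx.1) (pow_mem hsJ m) (hc.pow_right m)
    have hp : ∀ m : ℕ, T.ph s j ⁅k, s J ^ m⁆ = T.ph s j ⁅k, s J⁆ ^ m := by
      intro m
      induction m with
      | zero => rw [pow_zero, pow_zero, commutatorElement_one_right, ph_one hs hj']
      | succ m ihm =>
        have e : ⁅k, s J ^ (m + 1)⁆ = ⁅k, s J ^ m⁆ * (s J ^ m * ⁅k, s J⁆ * (s J ^ m)⁻¹) := by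
          rw [pow_succ]
          generalize s J ^ m = t
          simp only [commutatorElement_def]; group
        have c1 : ⁅k, s J⁆ ∈ T.M s j j := tower_comm_mem hs hk hx
        rw [e, (ph_spec hs j hj').1 _ (hm m) _ (M_conj (pow_mem hsJ m) c1),
          (ph_spec hs j hj').2 _ (pow_mem hsJ m) _ c1, ihm, pow_succ]
    have a1 : T.ph (fun i => s i ^ D) (j + 1) x = T.ph (fun i => s i ^ D) j ⁅k, s J ^ D⁆ :=
      ph_step (j := J) hs' hk' (tower_M_pow D hx)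
    have a2 : T.ph s (j + 1) x = T.ph s j ⁅k, s J⁆ := ph_step (j := J) hs hk hx
    rw [a1, a2, ih hj' (hm D), hp, ← pow_mul, pow_succ']

theorem ph_chain (hs : T.Good s) (O : ℕ → P) (k : Fin n → P)
    (h : ∀ j : Fin n, T.Trs s j (k j) (O (j + 1)) ∧ O (j + 1) ∈ T.M s (j + 1) (j + 1) ∧
      O j = ⁅k j, s j⁆) : T.ph s n (O n) = T.φ (O 0) := by
  have key : ∀ j, j ≤ n → T.ph s j (O j) = T.φ (O 0) := by
    intro j
    induction j with
    | zero => intro _; rfl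
    | succ j ih =>
      intro hj
      obtain ⟨h1, h2, h3⟩ := h ⟨j, hj⟩
      have a : T.ph s (j + 1) (O (j + 1)) = T.ph s j ⁅k ⟨j, hj⟩, s ⟨j, hj⟩⁆ := ph_step hs h1 h2
      rw [a, ← h3]
      exact ih (Nat.le_of_succ_le hj)
  exact key n le_rfl

end Tower

/-- building a chain downwards -/
theorem chain_down {α β : Type*} (n : ℕ) (Q : ℕ → α → Prop) (R : Fin n → β → α → α → Prop)
    (step : ∀ j : Fin n, ∀ a, Q (j + 1) a → ∃ k a', R j k a' a ∧ Q j a') (a : α) (ha : Q n a) :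
    ∃ (O : ℕ → α) (k : Fin n → β), O n = a ∧ (∀ j, j ≤ n → Q j (O j)) ∧
      ∀ j : Fin n, R j (k j) (O j) (O (j + 1)) := by
  have key : ∀ m, m ≤ n → ∃ O : ℕ → α, O n = a ∧ (∀ j, n - m ≤ j → j ≤ n → Q j (O j)) ∧
      ∀ j : Fin n, n - m ≤ j → ∃ k, R j k (O j) (O (j + 1)) := by
    intro m
    induction m with
    | zero =>
      intro _
      refine ⟨fun _ => a, rfl, fun j h1 h2 => ?_, fun j hj => ?_⟩
      · obtain rfl : j = n := by omega
        exact ha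
      · have := j.2
        omega
    | succ m ih =>
      intro hm
      obtain ⟨O, h0, h1, h2⟩ := ih (Nat.le_of_succ_le hm)
      let J : Fin n := ⟨n - (m + 1), by omega⟩
      have hJ : (J : ℕ) = n - (m + 1) := rfl
      obtain ⟨k, a', hR, hQ⟩ := step J (O (J + 1)) (h1 _ (by omega) (by omega))
      refine ⟨Function.update O J a', ?_, fun j g1 g2 => ?_, fun j g1 => ?_⟩
      · rw [Function.update_of_ne (by omega), h0]
      · by_cases e : j = J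
        · rw [e, Function.update_self]
          exact hQ
        · rw [Function.update_of_ne e]
          exact h1 j (by omega) g2
      · by_cases e : (j : ℕ) = J
        · obtain rfl : j = J := Fin.ext e
          rw [Function.update_self, Function.update_of_ne (by omega)]
          exact ⟨k, hR⟩
        · rw [Function.update_of_ne e, Function.update_of_ne (by omega)]
          exact h2 j (by omega)
  obtain ⟨O, h0, h1, h2⟩ := key n le_rfl
  choose k hk using h2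
  exact ⟨O, fun j => k j (by omega), h0, fun j hj => h1 j (by omega) hj, fun j => hk j _⟩

/-- building a chain upwards -/
theorem chain_up {α β : Type*} (n : ℕ) (Q : ℕ → α → Prop) (R : Fin n → β → α → α → Prop)
    (step : ∀ j : Fin n, ∀ a, Q j a → ∃ k a', R j k a a' ∧ Q (j + 1) a') (a : α) (ha : Q 0 a) :
    ∃ (O : ℕ → α) (k : Fin n → β), O 0 = a ∧ (∀ j, j ≤ n → Q j (O j)) ∧
      ∀ j : Fin n, R j (k j) (O j) (O (j + 1)) := by
  have key : ∀ m, m ≤ n → ∃ O : ℕ → α, O 0 = a ∧ (∀ j, j ≤ m → Q j (O j)) ∧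
      ∀ j : Fin n, (j : ℕ) < m → ∃ k, R j k (O j) (O (j + 1)) := by
    intro m
    induction m with
    | zero =>
      intro _
      refine ⟨fun _ => a, rfl, fun j h1 => ?_, fun j hj => ?_⟩
      · obtain rfl : j = 0 := by omega
        exact ha
      · omega
    | succ m ih =>
      intro hm
      obtain ⟨O, h0, h1, h2⟩ := ih (Nat.le_of_succ_le hm)
      obtain ⟨k, a', hR, hQ⟩ := step ⟨m, hm⟩ (O m) (h1 _ le_rfl)
      refine ⟨Function.update O (m + 1) a', ?_, fun j g1 => ?_, fun j g1 => ?_⟩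
      · rw [Function.update_of_ne (by omega), h0]
      · by_cases e : j = m + 1
        · rw [e, Function.update_self]
          exact hQ
        · rw [Function.update_of_ne e]
          exact h1 j (by omega)
      · by_cases e : (j : ℕ) = m
        · obtain rfl : j = ⟨m, hm⟩ := Fin.ext e
          rw [Function.update_self, Function.update_of_ne (by omega)]
          exact ⟨k, hR⟩
        · rw [Function.update_of_ne (by omega), Function.update_of_ne (by omega)]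
          exact h2 j (by omega)
  obtain ⟨O, h0, h1, h2⟩ := key n le_rfl
  choose k hk using h2
  exact ⟨O, fun j => k j j.2, h0, h1, fun j => hk j _⟩

end Pool.Agent.P.MP_878f14_gt.HT
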