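import Pool.Agent.P.MP_878f14_gt.HT.Grp2
import Pool.Agent.P.MP_878f14_gt.HT.Tower
import Pool.Agent.P.MP_878f14_gt.HT.Chain

/-! The tower of germs of families. -/

namespace Pool.Agent.P.MP_878f14_gt.HT

open Filter Metric
open scoped commutatorElement

namespace Scale

variable {n : ℕ} {S : Scale} {β : ℕ} {k a Ω g h : S.ι → Pm n} {σ : S.ι → ℝ}

variable (S n β) in
/-- germs of families supported in the cube of radius three -/
noncomputable def SS : Subgroup (Germ S.F (Pm n)) := (S.GF β (ball 0 3)).map S.gP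

open Classical in
variable (S n β) in
/-- the class in the abelianisation -/
noncomputable def ab (x : Germ S.F (Pm n)) : Abelianization (S.SS n β) :=
  if h : x ∈ S.SS n β then Abelianization.of ⟨x, h⟩ else 1

theorem ab_mul {x y : Germ S.F (Pm n)} (hx : x ∈ S.SS n β) (hy : y ∈ S.SS n β) :
    S.ab n β (x * y) = S.ab n β x * S.ab n β y := by
  simp only [ab, dif_pos hx, dif_pos hy, dif_pos (mul_mem hx hy)]
  rw [← map_mul]
  rfl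

/-- `Subgroup.map_subtype_commutator`, `QuotientGroup.eq_one_iff` -/
theorem ab_eq_one {x : Germ S.F (Pm n)} (hx : x ∈ S.SS n β) :
    S.ab n β x = 1 ↔ x ∈ ⁅S.SS n β, S.SS n β⁆ := by
  simp only [ab, dif_pos hx]
  rw [← Subgroup.map_subtype_commutator, ← MonoidHom.mem_ker, Abelianization.ker_of]
  constructor
  · intro h
    exact ⟨_, h, rfl⟩
  · rintro ⟨y, hy, e⟩
    obtain rfl : y = ⟨x, hx⟩ := Subtype.ext e
    exact hy

theorem ab_eq {x y : Germ S.F (Pm n)} (hx : x ∈ S.SS n β) (hy : y ∈ S.SS n β) :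
    S.ab n β x = S.ab n β y ↔ x * y⁻¹ ∈ ⁅S.SS n β, S.SS n β⁆ := by
  rw [← ab_eq_one (mul_mem hx (inv_mem hy))]
  have e : S.ab n β x = S.ab n β (x * y⁻¹) * S.ab n β y := by
    rw [← ab_mul (mul_mem hx (inv_mem hy)) hy, inv_mul_cancel_right]
  rw [e]
  exact mul_eq_right

/-- `mem_GS_ball_dir`, `mem_map_GB`, `mem_map_GS`, `mem_map_GF` -/
theorem mem_SS {x : Germ S.F (Pm n)} : x ∈ S.SS n β ↔ x ∈ (S.GB n β).map S.gP ∧
    ∀ i : Fin n, x ∈ (S.GS {y : V n | -3 < y i}).map S.gP ∧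
      x ∈ (S.GS {y : V n | y i < 3}).map S.gP := by
  obtain ⟨g, rfl⟩ := gP_surj x
  simp only [SS, mem_map_GF, mem_map_GB, mem_map_GS, mem_GF]
  rw [mem_GS_ball_dir (by norm_num)]

theorem conj_map_GS {U : Set (V n)} : ∀ x ∈ (S.GB n β).map S.gP, ∀ y ∈ (S.GS U).map S.gP,
    x * y * x⁻¹ ∈ (S.GS U).map S.gP := by
  rintro _ ⟨w, hw, rfl⟩ _ ⟨u, hu, rfl⟩
  exact ⟨w * u * w⁻¹, conj_GS (GB_le_one hw) hu, by simp⟩

/-- `loc` -/
theorem ab_conj {x y : Germ S.F (Pm n)} (hx : x ∈ (S.GB n β).map S.gP) (hy : y ∈ S.SS n β) :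
    S.ab n β (x * y * x⁻¹) = S.ab n β y := by
  obtain ⟨w, hw, rfl⟩ := hx
  obtain ⟨u, hu, rfl⟩ := hy
  obtain ⟨w', hw', e⟩ := loc isOpen_ball isBounded_ball hw hu
  have e2 : S.gP w * S.gP u * (S.gP w)⁻¹ = S.gP w' * S.gP u * (S.gP w')⁻¹ := by
    simp only [← map_mul, ← map_inv]
    exact gP_eq.2 e
  have h1 : S.gP w' ∈ S.SS n β := ⟨w', hw', rfl⟩
  have h2 : S.gP u ∈ S.SS n β := ⟨u, hu, rfl⟩
  rw [e2, ab_mul (mul_mem h1 h2) (inv_mem h1), ab_mul h1 h2, mul_comm (S.ab n β (S.gP w')),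
    mul_assoc, ← ab_mul h1 (inv_mem h1), ← ab_mul h2 (mul_mem h1 (inv_mem h1)), mul_inv_cancel,
    mul_one]

variable (S n β) in
/-- the tower -/
noncomputable def TW : Tower n (Germ S.F (Pm n)) (Abelianization (S.SS n β)) where
  Γ := (S.GB n β).map S.gP
  L := fun i => (S.GS {y : V n | -3 < y i}).map S.gP
  R := fun i => (S.GS {y : V n | y i < 3}).map S.gP
  φ := S.ab n β
  nL := fun g hg _ => conj_map_GS g hg
  nR := fun g hg _ => conj_map_GS g hg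
  mul := fun _ hx _ hy hx' hy' => ab_mul (mem_SS.2 ⟨hx, hx'⟩) (mem_SS.2 ⟨hy, hy'⟩)
  inv := fun _ hg _ hx hx' => ab_conj hg (mem_SS.2 ⟨hx, hx'⟩)

variable (S n) in
/-- the germs of the translations by `σ` in the coordinate directions -/
noncomputable def sv (σ : S.ι → ℝ) : Fin n → Germ S.F (Pm n) :=
  fun d => S.gP fun i => tr (sg d (σ i))

theorem sv_pow (D : ℕ) : (fun d => S.sv n σ d ^ D) = S.sv n fun i => D * σ i := by
  funext d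
  simp only [sv]
  rw [← map_pow]
  congr 1
  funext i
  rw [Pi.pow_apply, tr_pow, smul_sg]

theorem mem_G_iff {j : ℕ} : S.gP g ∈ (S.TW n β).G (S.sv n σ) j ↔ g ∈ S.GB n β ∧
    ∀ᶠ i in S.F, ∀ d : Fin n, d.1 < j → g i * tr (sg d (σ i)) = tr (sg d (σ i)) * g i := by
  rw [Tower.mem_G, eventually_all]
  refine and_congr mem_map_GB (forall_congr' fun d => ?_)
  rw [eventually_imp_distrib_left]
  refine imp_congr_right fun _ => ?_
  simp only [sv, ← map_mul]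
  exact gP_eq

/-- `tr_mem`, `tr_comm`; transitions from `frag_dir` with `a = -1`, `b = 1` (the third clause keeps
the supports in the later directions, `mem_GS_gt`, `mem_GS_lt`) -/
theorem good (hβ : 1 ≤ β) (hσ : S.OdS β σ) : (S.TW n β).Good (S.sv n σ) := by
  refine ⟨fun d => ?_, fun d d' => ?_, fun j x hx => ?_⟩
  · exact mem_map_GB.2 (tr_mem hβ (by simpa only [norm_sg] using hσ.abs))
  · simp only [sv, ← map_mul]
    exact gP_eq.2 (Eventually.of_forall fun i => tr_comm _ _)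
  · obtain ⟨Ω, rfl⟩ := gP_surj x
    obtain ⟨h1, h2⟩ := (Tower.mem_M _ _).1 hx
    obtain ⟨hΩ, hc⟩ := mem_G_iff.1 h1
    obtain ⟨k, hk, e⟩ := frag_dir hΩ j (show (-1 : ℝ) < 1 by norm_num)
    refine ⟨S.gP k, (Tower.mem_M _ _).2 ⟨mem_G_iff.2 ⟨hk, ?_⟩, fun d hd => ⟨?_, ?_⟩⟩, ?_, ?_⟩
    · filter_upwards [e, hc] with i hi hc d hd
      exact hi.2.2.2 _ (sg_ne (fun h => by rw [h] at hd; exact lt_irrefl _ hd) _) (hc d hd)
    · obtain ⟨a', ha, e'⟩ := mem_GS_gt.1 (mem_map_GS.1 (h2 d hd).1)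
      refine mem_map_GS.2 (mem_GS_gt.2 ⟨a', ha, ?_⟩)
      filter_upwards [e, e'] with i hi hi' y hy using hi.2.2.1 y (hi' y hy)
    · obtain ⟨a', ha, e'⟩ := mem_GS_lt.1 (mem_map_GS.1 (h2 d hd).2)
      refine mem_map_GS.2 (mem_GS_lt.2 ⟨a', ha, ?_⟩)
      filter_upwards [e, e'] with i hi hi' y hy using hi.2.2.1 y (hi' y hy)
    · exact mem_map_GS.2 (mem_GS_gt.2 ⟨-1, by norm_num, e.mono fun i hi => hi.1⟩)
    · rw [← map_inv, ← map_mul]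
      refine mem_map_GS.2 (mem_GS_lt.2 ⟨1, by norm_num, e.mono fun i hi y hy => ?_⟩)
      rw [Pi.mul_apply, Pi.inv_apply, Equiv.Perm.mul_apply, Equiv.Perm.inv_eq_iff_eq]
      exact (hi.2.1 y hy).symm

/-- a link of families gives a link of the tower -/
theorem trs_of_lnk {ρ : ℝ} (hρ : ρ < 3) {j : Fin n} (hk : k ∈ S.GB n β) (hΩ : Ω ∈ S.GB n β)
    (h : ∀ᶠ i in S.F, Lnk (σ i) ρ j (k i) (a i) (Ω i)) :
    (S.TW n β).Trs (S.sv n σ) j (S.gP k) (S.gP Ω) ∧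
      S.gP Ω ∈ (S.TW n β).M (S.sv n σ) (j + 1) (j + 1) ∧ S.gP a = ⁅S.gP k, S.sv n σ j⁆ := by
  have key : ∀ g : S.ι → Pm n, ∀ d : Fin n, (∀ᶠ i in S.F, ∀ x : V n, ρ ≤ |x d| → g i x = x) →
      S.gP g ∈ (S.TW n β).L d ∧ S.gP g ∈ (S.TW n β).R d := by
    intro g d e
    refine ⟨mem_map_GS.2 (mem_GS_gt.2 ⟨-ρ, by linarith, e.mono fun i hi x hx => hi x ?_⟩),
      mem_map_GS.2 (mem_GS_lt.2 ⟨ρ, hρ, e.mono fun i hi x hx => hi x ?_⟩)⟩
    · linarith [neg_le_abs (x d)]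
    · linarith [le_abs_self (x d)]
  refine ⟨⟨⟨mem_G_iff.2 ⟨hk, h.mono fun i hi d hd => hi.2.2.2.1 d hd⟩, fun d hd =>
    key k d (h.mono fun i hi x hx => (hi.2.2.2.2.2 d hd x hx).1)⟩,
    mem_map_GS.2 (mem_GS_gt.2 ⟨-ρ, by linarith, h.mono fun i hi => hi.2.1⟩), ?_⟩,
    ⟨mem_G_iff.2 ⟨hΩ, h.mono fun i hi d hd => hi.2.2.2.2.1 d (Nat.le_of_lt_succ hd)⟩, fun d hd =>
    key Ω d (h.mono fun i hi x hx => (hi.2.2.2.2.2 d hd x hx).2)⟩, ?_⟩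
  · rw [← map_inv, ← map_mul]
    refine mem_map_GS.2 (mem_GS_lt.2 ⟨ρ, hρ, h.mono fun i hi x hx => ?_⟩)
    show (k i)⁻¹ (Ω i x) = x
    rw [← hi.2.2.1 x hx]
    simp
  · rw [sv, ← map_commutatorElement]
    exact gP_eq.2 (h.mono fun i hi => hi.1)

variable (S) in
/-- chains of families -/
def FCh (β : ℕ) (σ : S.ι → ℝ) (ρ : ℝ) (O : ℕ → S.ι → Pm n) (k : Fin n → S.ι → Pm n) : Prop :=
  (∀ j, j ≤ n → O j ∈ S.GB n β) ∧ (∀ j, k j ∈ S.GB n β) ∧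
    ∀ᶠ i in S.F, Chn (σ i) ρ (fun j => O j i) fun j => k j i

/-- `ph_chain`, `trs_of_lnk` -/
theorem FCh.ph (hβ : 1 ≤ β) (hσ : S.OdS β σ) {ρ : ℝ} (hρ : ρ < 3) {O : ℕ → S.ι → Pm n}
    {k : Fin n → S.ι → Pm n} (h : S.FCh β σ ρ O k) :
    (S.TW n β).ph (S.sv n σ) n (S.gP (O n)) = S.ab n β (S.gP (O 0)) :=
  Tower.ph_chain (good hβ hσ) (fun j => S.gP (O j)) (fun j => S.gP (k j)) fun j =>
    trs_of_lnk hρ (h.2.1 j) (h.1 _ j.2) (h.2.2.mono fun _ hi => hi j)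

/-- `conj_aff_GB`, `Chn.conj` -/
theorem FCh.conj {ρ l : ℝ} (hl : 0 < l) {O : ℕ → S.ι → Pm n} {k : Fin n → S.ι → Pm n}
    (h : S.FCh β σ ρ O k) : S.FCh β (fun i => l * σ i) (l * ρ)
      (fun j i => aff l 0 * O j i * (aff l 0)⁻¹) fun j i => aff l 0 * k j i * (aff l 0)⁻¹ :=
  ⟨fun j hj => conj_aff_GB (h.1 j hj) hl 0, fun j => conj_aff_GB (h.2.1 j) hl 0,
    h.2.2.mono fun _ hi => hi.conj hl⟩

theorem mem_top_iff : S.gP g ∈ (S.TW n β).M (S.sv n σ) n n ↔ g ∈ S.GB n β ∧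
    ∀ᶠ i in S.F, ∀ d : Fin n, g i * tr (sg d (σ i)) = tr (sg d (σ i)) * g i := by
  rw [Tower.mem_M, mem_G_iff]
  exact ⟨fun h => ⟨h.1.1, h.1.2.mono fun i hi d => hi d d.2⟩,
    fun h => ⟨⟨h.1, h.2.mono fun i hi d _ => hi d⟩, fun d hd => absurd d.2 (not_lt.2 hd)⟩⟩

/-- one step of the unrolling -/
theorem tow2b_step (hβ : 1 ≤ β) (hσ : S.OdS β σ) (hpos : ∀ i, 0 < σ i) {ρ : ℝ} (hρ : 0 < ρ)
    (j : Fin n) (hΩ : Ω ∈ S.GB n β)
    (hc : ∀ᶠ i in S.F, (∀ d : Fin n, d.1 < j.1 + 1 →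
      Ω i * tr (sg d (σ i)) = tr (sg d (σ i)) * Ω i) ∧
      ∀ d : Fin n, j.1 + 1 ≤ d.1 → ∀ x : V n, ρ ≤ |x d| → Ω i x = x) :
    ∃ k a : S.ι → Pm n, (k ∈ S.GB n β ∧ ∀ᶠ i in S.F, Lnk (σ i) ρ j (k i) (a i) (Ω i)) ∧
      a ∈ S.GB n β ∧ ∀ᶠ i in S.F, (∀ d : Fin n, d.1 < j.1 →
        a i * tr (sg d (σ i)) = tr (sg d (σ i)) * a i) ∧
        ∀ d : Fin n, j.1 ≤ d.1 → ∀ x : V n, ρ ≤ |x d| → a i x = x := by
  obtain ⟨k, hk, e⟩ := frag_dir hΩ j (a := -(ρ / 2)) (b := ρ / 2) (by linarith)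
  have ht : (fun i => tr (sg j (σ i))) ∈ S.GB n β :=
    tr_mem hβ (hσ.abs.congr (Eventually.of_forall fun i => (norm_sg j (σ i)).symm))
  have hl : ∀ᶠ i in S.F, Lnk (σ i) ρ j (k i) ⁅k i, tr (sg j (σ i))⁆ (Ω i) := by
    filter_upwards [hc, e] with i hc e
    refine ⟨rfl, fun x hx => e.1 x (by linarith), fun x hx => e.2.1 x (by linarith),
      fun d hd => e.2.2.2 _ (sg_ne hd.ne' _) (hc.1 d (Nat.lt_succ_of_lt hd)),
      fun d hd => hc.1 d (Nat.lt_succ_of_le hd), fun d hd x hx => ?_⟩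
    have h1 := hc.2 d hd x hx
    exact ⟨e.2.2.1 x h1, h1⟩
  refine ⟨k, fun i => ⁅k i, tr (sg j (σ i))⁆, ⟨hk, hl⟩,
    mul_mem (mul_mem (mul_mem hk ht) (inv_mem hk)) (inv_mem ht), ?_⟩
  filter_upwards [hc, e, hl, GB_small hk 0 (δ := ρ / 4) (by linarith),
    OdS.small (n := 0) (hσ.mono hβ) (δ := ρ / 4) (by linarith)] with i hc e hl h1 h2
  refine ⟨fun d hd => hl.comm hd, fun d hd x hx => ?_⟩
  rcases (show j ≤ d from hd).eq_or_lt with rfl | hd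
  · rw [pow_zero, mul_one] at h2
    refine comm_fix (δ := ρ / 4) (hpos i).le e.1 e.2.1 (hc.1 j (Nat.lt_succ_self _))
      (fun y => (norm_le_sn_zero h1.1 y).trans ((sn_le_nm le_rfl _).trans h1.2)) x ?_
    rcases le_abs'.1 hx with h3 | h3
    · left; linarith
    · right; linarith [le_abs_self (σ i)]
  · exact hl.fix_gt hd x hx

/-- `chain_down` with `Q j a`: `a ∈ GB β`, eventually `a` commutes with the translations in the
directions below `j` and fixes `x` if `ρ ≤ |x i|` for some `i ≥ j`; the step is `frag_dir` with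
`a = -ρ/2`, `b = ρ/2`, then `comm_fix` (`σ` and the
displacement are eventually below `ρ / 4`), `Lnk.fix_gt`, `Lnk.comm` -/
theorem unroll_fam (hβ : 1 ≤ β) (hσ : S.OdS β σ) (hpos : ∀ i, 0 < σ i) {ρ : ℝ} (hρ : 0 < ρ)
    (hΩ : Ω ∈ S.GB n β)
    (hc : ∀ᶠ i in S.F, ∀ d : Fin n, Ω i * tr (sg d (σ i)) = tr (sg d (σ i)) * Ω i) :
    ∃ (O : ℕ → S.ι → Pm n) (k : Fin n → S.ι → Pm n), O n = Ω ∧ S.FCh β σ ρ O k := by
  obtain ⟨O, k, h1, h2, h3⟩ := chain_down n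
    (fun (j : ℕ) (a : S.ι → Pm n) => a ∈ S.GB n β ∧ ∀ᶠ i in S.F, (∀ d : Fin n, d.1 < j →
      a i * tr (sg d (σ i)) = tr (sg d (σ i)) * a i) ∧
      ∀ d : Fin n, j ≤ d.1 → ∀ x : V n, ρ ≤ |x d| → a i x = x)
    (fun (j : Fin n) (k a' a : S.ι → Pm n) =>
      k ∈ S.GB n β ∧ ∀ᶠ i in S.F, Lnk (σ i) ρ j (k i) (a' i) (a i))
    (fun j a ha => tow2b_step hβ hσ hpos hρ j ha.1 ha.2) Ω
    ⟨hΩ, hc.mono fun i hi => ⟨fun d _ => hi d, fun d hd => absurd d.2 (not_lt.2 hd)⟩⟩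
  exact ⟨O, k, h1, fun j hj => (h2 j hj).1, fun j => (h3 j).1,
    eventually_all.2 fun j => (h3 j).2⟩

end Scale

end Pool.Agent.P.MP_878f14_gt.HT
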