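import Pool.Agent.P.MP_878f14_gt.HT.LC

/-! Identities of central extensions transferred to small elements. -/

namespace Pool.Agent.P.MP_878f14_gt.HT

open Filter Metric
open scoped Topology

variable {n : ℕ} {A : Type*} [AddCommGroup A]

/-- all entries have a small first derivative -/
def S1 (κ : ℝ) {m : ℕ} (x : Fin m → Gc n × Gc n) : Prop :=
  ∀ k, s1 (x k).1 ≤ κ ∧ s1 (x k).2 ≤ κ

theorem S1.mono {κ κ' : ℝ} {m : ℕ} {x : Fin m → Gc n × Gc n} (h : S1 κ x) (hκ : κ ≤ κ') :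
    S1 κ' x := fun k => ⟨(h k).1.trans hκ, (h k).2.trans hκ⟩

theorem trans_filter {ι : Type*} (P : ℝ → ι → Prop) (hP : ∀ κ κ' i, κ ≤ κ' → P κ i → P κ' i) :
    ∃ F : Filter ι, (∀ f : ι → Gc n, (∀ κ i, P κ i → s1 (f i) ≤ κ) → f ∈ Tn F) ∧
      ∀ q : ι → Prop, (∀ᶠ i in F, q i) → ∃ κ : ℝ, 0 < κ ∧ ∀ i, P κ i → q i := by
  let F : Filter ι :=
    { sets := {B | ∃ κ : ℝ, 0 < κ ∧ ∀ i, P κ i → i ∈ B}
      univ_sets := ⟨1, one_pos, fun _ _ => trivial⟩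
      sets_of_superset := by
        rintro B B' ⟨κ, h0, h⟩ hB
        exact ⟨κ, h0, fun i hi => hB (h i hi)⟩
      inter_sets := by
        rintro B B' ⟨κ, h0, h⟩ ⟨κ', h0', h'⟩
        exact ⟨min κ κ', lt_min h0 h0', fun i hi =>
          ⟨h i (hP _ _ i (min_le_left _ _) hi), h' i (hP _ _ i (min_le_right _ _) hi)⟩⟩ }
  refine ⟨F, fun f hf => ?_, fun q hq => hq⟩
  rw [mem_Tn, Metric.tendsto_nhds]
  intro ε hε
  refine ⟨ε / 2, half_pos hε, fun i hi => ?_⟩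
  have h1 := hf _ i hi
  change dist (s1 (f i)) 0 < ε
  rw [Real.dist_eq, sub_zero, abs_of_nonneg (s1_nonneg _)]
  linarith

/-- a family of tuples as a tuple of pairs of families -/
def fmT {ι Γ : Type*} {m : ℕ} (x : ι → Fin m → Γ × Γ) : Fin m → (ι → Γ) × (ι → Γ) :=
  fun k => (fun i => (x i k).1, fun i => (x i k).2)

theorem evT_fmT {ι Γ : Type*} {m : ℕ} (x : ι → Fin m → Γ × Γ) (i : ι) : evT (fmT x) i = x i := rfl

theorem map_ofFn_ev {ι Γ : Type*} {m : ℕ} (y : Fin m → (ι → Γ) × (ι → Γ)) (i : ι) :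
    ((List.ofFn y).map fun z => (z.1 i, z.2 i)) = List.ofFn (evT y i) := by
  rw [List.map_ofFn]
  rfl

theorem mem_ofFn_Tn {ι : Type*} {F : Filter ι} {m : ℕ} {y : Fin m → (ι → Gc n) × (ι → Gc n)}
    (h : ∀ k, (y k).1 ∈ Tn F ∧ (y k).2 ∈ Tn F) : ∀ z ∈ List.ofFn y, z.1 ∈ Tn F ∧ z.2 ∈ Tn F := by
  intro z hz
  obtain ⟨k, rfl⟩ := List.mem_ofFn.1 hz
  exact h k

theorem LC.PhiL_ofFn_a {ι : Type*} {F : Filter ι} (c : LC n A) {m : ℕ}
    {y : Fin m → (ι → Gc n) × (ι → Gc n)} (h : ∀ k, (y k).1 ∈ Tn F ∧ (y k).2 ∈ Tn F) :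
    (PhiL (c.sec F) (List.ofFn y)).a =
      ((fun i => PhiA c.c (List.ofFn (evT y i)) : ι → A) : Germ F A) := by
  rw [LC.PhiL_sec_a (mem_ofFn_Tn h)]
  simp only [map_ofFn_ev]

theorem LC.pr_ofFn {ι : Type*} {F : Filter ι} (c : LC n A) {m : ℕ}
    {y : Fin m → (ι → Gc n) × (ι → Gc n)} (h : ∀ k, (y k).1 ∈ Tn F ∧ (y k).2 ∈ Tn F) :
    c.pr F (PhiL (c.sec F) (List.ofFn y)) =
      ((fun i => Phi (List.ofFn (evT y i)) : ι → Gc n) : Germ F (Gc n)) := by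
  rw [LC.pr_PhiL (mem_ofFn_Tn h)]
  congr 1
  funext i
  exact Phi_evT y i

/-- invariance under conjugation by a small element -/
theorem inv_conj (c : LC n A) (m : ℕ) : ∃ κ : ℝ, 0 < κ ∧ ∀ (x : Fin m → Gc n × Gc n) (g : Gc n),
    S1 κ x → s1 g ≤ κ → Phi (List.ofFn x) = 1 →
      PhiA c.c (List.ofFn fun k => (g * (x k).1 * g⁻¹, g * (x k).2 * g⁻¹)) =
        PhiA c.c (List.ofFn x) := by
  obtain ⟨F, hF, hq⟩ := trans_filter (n := n)
    (ι := {p : (Fin m → Gc n × Gc n) × Gc n // Phi (List.ofFn p.1) = 1})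
    (fun κ i => S1 κ i.1.1 ∧ s1 i.1.2 ≤ κ) fun κ κ' i h hi => ⟨hi.1.mono h, hi.2.trans h⟩
  let X := fmT fun i : {p : (Fin m → Gc n × Gc n) × Gc n // Phi (List.ofFn p.1) = 1} => i.1.1
  let g := fun i : {p : (Fin m → Gc n × Gc n) × Gc n // Phi (List.ofFn p.1) = 1} => i.1.2
  have hX : ∀ k, (X k).1 ∈ Tn F ∧ (X k).2 ∈ Tn F := fun k =>
    ⟨hF _ fun κ i hi => (hi.1 k).1, hF _ fun κ i hi => (hi.1 k).2⟩
  have hg : g ∈ Tn F := hF _ fun κ i hi => hi.2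
  have hc : ∀ f ∈ Tn F, g * f * g⁻¹ ∈ Tn F := fun f hf =>
    mul_mem (mul_mem hg hf) (inv_mem hg)
  have hY : ∀ k, (g * (X k).1 * g⁻¹, g * (X k).2 * g⁻¹).1 ∈ Tn F ∧
      (g * (X k).1 * g⁻¹, g * (X k).2 * g⁻¹).2 ∈ Tn F := fun k => ⟨hc _ (hX k).1, hc _ (hX k).2⟩
  have h1 : c.pr F (PhiL (c.sec F) (List.ofFn X)) = 1 := by
    rw [c.pr_ofFn hX]
    exact Germ.coe_eq.2 (Eventually.of_forall fun i => i.2)
  have h2 : PhiL (c.sec F) (List.ofFn fun k => (g * (X k).1 * g⁻¹, g * (X k).2 * g⁻¹)) =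
      c.sec F g * PhiL (c.sec F) (List.ofFn X) * (c.sec F g)⁻¹ := by
    have h := map_Phi (MulAut.conj (c.sec F g)).toMonoidHom
      ((List.ofFn X).map (Prod.map (c.sec F) (c.sec F)))
    refine Eq.trans ?_ h.symm
    refine Phi_congr_of_ker (c.pr F) LC.pr_central ?_
    simp only [List.map_ofFn]
    congr 1
    funext k
    have e : ∀ f ∈ Tn F, c.pr F (c.sec F (g * f * g⁻¹)) =
        c.pr F (c.sec F g * c.sec F f * (c.sec F g)⁻¹) := fun f hf => by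
      rw [map_mul, map_mul, map_inv, LC.pr_sec hg, LC.pr_sec hf, LC.pr_sec (hc f hf)]
      rfl
    exact Prod.ext (e _ (hX k).1) (e _ (hX k).2)
  rw [Subgroup.mem_center_iff.1 (LC.pr_central _ h1), mul_inv_cancel_right] at h2
  have h3 := congrArg CE.a h2
  rw [c.PhiL_ofFn_a hY, c.PhiL_ofFn_a hX] at h3
  obtain ⟨κ, hκ, h⟩ := hq _ (Germ.coe_eq.1 h3)
  exact ⟨κ, hκ, fun x g h1 h2 h3 => h ⟨(x, g), h3⟩ ⟨h1, h2⟩⟩

/-- conjugation of a tuple by a homothety -/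
noncomputable def cT (l : ℝ) (a : V n) {m : ℕ} (x : Fin m → Gc n × Gc n) : Fin m → Gc n × Gc n :=
  fun k => (cG l a (x k).1, cG l a (x k).2)

theorem Phi_cT (l : ℝ) (a : V n) {m : ℕ} (x : Fin m → Gc n × Gc n) :
    Phi (List.ofFn (cT l a x)) = cG l a (Phi (List.ofFn x)) := by
  rw [map_Phi, List.map_ofFn]
  rfl

theorem S1.cT {κ l : ℝ} {m : ℕ} {x : Fin m → Gc n × Gc n} (h : S1 κ x) (hl : 0 < l) (a : V n) :
    S1 κ (cT l a x) := fun k => by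
  have := h k
  rwa [← s1_cG hl a (x k).1, ← s1_cG hl a (x k).2] at this

theorem trans_fix {m : ℕ} (x : Fin m → Gc n × Gc n) : ∃ R : ℝ, ∀ k,
    Fix (closedBall 0 R) ((x k).1 : Pm n) ∧ Fix (closedBall 0 R) ((x k).2 : Pm n) := by
  choose M₁ _ h₁ using fun k => Gc.fix (x k).1
  choose M₂ _ h₂ using fun k => Gc.fix (x k).2
  obtain ⟨R₁, e₁⟩ := (Set.finite_range M₁).bddAbove
  obtain ⟨R₂, e₂⟩ := (Set.finite_range M₂).bddAbove
  exact ⟨max R₁ R₂, fun k =>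
    ⟨(h₁ k).mono (closedBall_subset_closedBall ((e₁ ⟨k, rfl⟩).trans (le_max_left _ _))),
      (h₂ k).mono (closedBall_subset_closedBall ((e₂ ⟨k, rfl⟩).trans (le_max_right _ _)))⟩⟩

/-- invariance under conjugation by homotheties -/
theorem inv_aff (c : LC n A) (m : ℕ) : ∃ κ : ℝ, 0 < κ ∧ ∀ (x : Fin m → Gc n × Gc n) (l : ℝ)
    (a : V n), 0 < l → S1 κ x → Phi (List.ofFn x) = 1 →
      PhiA c.c (List.ofFn (cT l a x)) = PhiA c.c (List.ofFn x) := by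
  obtain ⟨κ, hκ, h⟩ := inv_conj c m
  refine ⟨κ, hκ, fun x l a hl hx h1 => ?_⟩
  have step : ∀ y : Fin m → Gc n × Gc n, S1 κ y → Phi (List.ofFn y) = 1 → ∃ η : ℝ, 0 < η ∧
      ∀ (l : ℝ) (a : V n), 0 < l → |l - 1| ≤ η → ‖a‖ ≤ η →
        PhiA c.c (List.ofFn (cT l a y)) = PhiA c.c (List.ofFn y) := by
    intro y hy h2
    obtain ⟨R, hR⟩ := trans_fix y
    obtain ⟨η, hη, hs⟩ := aff_step (0 : V n) (lt_add_one R) hκ
    refine ⟨η, hη, fun l a hl e1 e2 => ?_⟩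
    obtain ⟨g, g1, -, g2⟩ := hs l a e1 e2
    have key : ∀ u : Gc n, Fix (closedBall 0 R) (u : Pm n) → cG l a u = g * u * g⁻¹ :=
      fun u hu => by
        apply Subtype.ext
        rw [coe_cG]
        refine conj_eq_of_agree hu fun z hz => ?_
        rw [aff_apply hl.ne', g2 z hz]
        simp
    rw [← h y g hy g1 h2]
    congr 2
    funext k
    exact Prod.ext (key _ (hR k).1) (key _ (hR k).2)
  let f : ℝ × V n → A := fun p => PhiA c.c (List.ofFn (cT (Real.exp p.1) p.2 x))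
  have hf : IsLocallyConstant f := by
    rw [IsLocallyConstant.iff_eventually_eq]
    intro p
    obtain ⟨η, hη, hs⟩ := step (cT (Real.exp p.1) p.2 x) (hx.cT (Real.exp_pos _) _)
      (by rw [Phi_cT, h1, map_one])
    have c1 : Continuous fun q : ℝ × V n => |Real.exp (q.1 - p.1) - 1| := by fun_prop
    have c2 : Continuous fun q : ℝ × V n => ‖q.2 - Real.exp (q.1 - p.1) • p.2‖ := by fun_prop
    have e1 : ∀ᶠ q in 𝓝 p, |Real.exp (q.1 - p.1) - 1| ≤ η :=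
      (c1.tendsto p).eventually (ge_mem_nhds (by simpa using hη))
    have e2 : ∀ᶠ q in 𝓝 p, ‖q.2 - Real.exp (q.1 - p.1) • p.2‖ ≤ η :=
      (c2.tendsto p).eventually (ge_mem_nhds (by simpa using hη))
    filter_upwards [e1, e2] with q q1 q2
    have h3 := hs _ _ (Real.exp_pos _) q1 q2
    have h4 : ∀ u : Gc n, cG (Real.exp (q.1 - p.1)) (q.2 - Real.exp (q.1 - p.1) • p.2)
        (cG (Real.exp p.1) p.2 u) = cG (Real.exp q.1) q.2 u := fun u => by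
      rw [cG_cG (Real.exp_pos _).ne' (Real.exp_pos _).ne', ← Real.exp_add, sub_add_cancel,
        add_sub_cancel]
    refine Eq.trans ?_ h3
    simp only [f]
    congr 2
    funext k
    exact Prod.ext (h4 _).symm (h4 _).symm
  have h5 := hf.apply_eq_of_preconnectedSpace (Real.log l, a) (0, 0)
  simp only [f, Real.exp_log hl, Real.exp_zero] at h5
  rw [h5]
  congr 2
  funext k
  exact Prod.ext (cG_one _) (cG_one _)

/-- the concatenation of two tuples and the reverse of a third one -/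
def tri {Γ : Type*} {m : ℕ} (x y z : Fin m → Γ × Γ) : List (Γ × Γ) :=
  List.ofFn x ++ List.ofFn y ++ (List.ofFn z).reverse.map Prod.swap

theorem app (c : LC n A) (m : ℕ) : ∃ κ : ℝ, 0 < κ ∧ ∀ x y z : Fin m → Gc n × Gc n,
    S1 κ x → S1 κ y → S1 κ z → Phi (List.ofFn x) * Phi (List.ofFn y) = Phi (List.ofFn z) →
      PhiA c.c (tri x y z) = PhiA c.c (List.ofFn x) + PhiA c.c (List.ofFn y) +
        c.c (Phi (List.ofFn x)) (Phi (List.ofFn y)) - PhiA c.c (List.ofFn z) := by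
  let ι := {p : (Fin m → Gc n × Gc n) × (Fin m → Gc n × Gc n) × (Fin m → Gc n × Gc n) //
    Phi (List.ofFn p.1) * Phi (List.ofFn p.2.1) = Phi (List.ofFn p.2.2)}
  obtain ⟨F, hF, hq⟩ := trans_filter (n := n) (ι := ι)
    (fun κ i => S1 κ i.1.1 ∧ S1 κ i.1.2.1 ∧ S1 κ i.1.2.2)
    fun κ κ' i h hi => ⟨hi.1.mono h, hi.2.1.mono h, hi.2.2.mono h⟩
  let X := fmT fun i : ι => i.1.1
  let Y := fmT fun i : ι => i.1.2.1
  let Z := fmT fun i : ι => i.1.2.2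
  have hX : ∀ k, (X k).1 ∈ Tn F ∧ (X k).2 ∈ Tn F := fun k =>
    ⟨hF _ fun κ i hi => (hi.1 k).1, hF _ fun κ i hi => (hi.1 k).2⟩
  have hY : ∀ k, (Y k).1 ∈ Tn F ∧ (Y k).2 ∈ Tn F := fun k =>
    ⟨hF _ fun κ i hi => (hi.2.1 k).1, hF _ fun κ i hi => (hi.2.1 k).2⟩
  have hZ : ∀ k, (Z k).1 ∈ Tn F ∧ (Z k).2 ∈ Tn F := fun k =>
    ⟨hF _ fun κ i hi => (hi.2.2 k).1, hF _ fun κ i hi => (hi.2.2 k).2⟩
  have hT : ∀ z ∈ tri X Y Z, z.1 ∈ Tn F ∧ z.2 ∈ Tn F := by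
    intro z hz
    rcases List.mem_append.1 hz with hz | hz
    · rcases List.mem_append.1 hz with hz | hz
      exacts [mem_ofFn_Tn hX z hz, mem_ofFn_Tn hY z hz]
    · obtain ⟨p, hp, rfl⟩ := List.mem_map.1 hz
      exact (mem_ofFn_Tn hZ p (List.mem_reverse.1 hp)).symm
  have gX : ((PhiL (c.sec F) (List.ofFn X)).g : Germ F (Gc n)) = _ := c.pr_ofFn hX
  have gY : ((PhiL (c.sec F) (List.ofFn Y)).g : Germ F (Gc n)) = _ := c.pr_ofFn hY
  have gZ : ((PhiL (c.sec F) (List.ofFn Z)).g : Germ F (Gc n)) = _ := c.pr_ofFn hZ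
  have h1 : (PhiL (c.sec F) (List.ofFn X)).g * (PhiL (c.sec F) (List.ofFn Y)).g =
      (PhiL (c.sec F) (List.ofFn Z)).g := by
    apply Subtype.ext
    rw [Subgroup.coe_mul, gX, gY, gZ, ← Germ.coe_mul]
    exact Germ.coe_eq.2 (Eventually.of_forall fun i => i.2)
  have h2 : (PhiL (c.sec F) (tri X Y Z)).a = (PhiL (c.sec F) (List.ofFn X)).a +
      (PhiL (c.sec F) (List.ofFn Y)).a + Germ.map₂ c.c (PhiL (c.sec F) (List.ofFn X)).g.1
        (PhiL (c.sec F) (List.ofFn Y)).g.1 - (PhiL (c.sec F) (List.ofFn Z)).a := by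
    rw [tri, PhiL_append, PhiL_append, PhiL_rev, CE.mul_a, CE.mul_a, CE.mul_g, CE.inv_a, CE.inv_g,
      h1]
    change _ + _ + Germ.map₂ c.c _ _ + _ + _ = _
    abel
  rw [LC.PhiL_sec_a hT, c.PhiL_ofFn_a hX, c.PhiL_ofFn_a hY, c.PhiL_ofFn_a hZ, gX, gY,
    Germ.map₂_coe, ← Germ.coe_add, ← Germ.coe_add, ← Germ.coe_sub] at h2
  obtain ⟨κ, hκ, h⟩ := hq _ (Germ.coe_eq.1 h2)
  refine ⟨κ, hκ, fun x y z h1 h2 h3 h4 => ?_⟩
  have h5 := h ⟨(x, y, z), h4⟩ ⟨h1, h2, h3⟩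
  have h6 : ((tri X Y Z).map fun w => (w.1 (⟨(x, y, z), h4⟩ : ι), w.2 (⟨(x, y, z), h4⟩ : ι))) =
      tri x y z := by
    simp only [tri, List.map_append, List.map_reverse, List.map_ofFn]
    rfl
  beta_reduce at h5
  rw [h6] at h5
  exact h5

end Pool.Agent.P.MP_878f14_gt.HT
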