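import Pool.Agent.P.MP_878f14_gt.HT.Aff
import Pool.Agent.P.MP_878f14_gt.HT.Disj

/-! Placement of the nodes of a tree in the gaps of a Cantor set. -/

namespace Pool.Agent.P.MP_878f14_gt.HT

open Metric

variable {n : ℕ}

/-- centres of the placed balls -/
noncomputable def tree2_ct {L : ℕ} (M μ : ℝ) (B : Fin (L + 1) → V n) (c : Fin L → V n) :
    List (Fin L) → V n
  | [] => 0
  | j :: w => μ • ((μ / M * (μ / 2) ^ w.length) • c j + tree2_ct M μ B c w) + B j.succ

theorem tree_place {L : ℕ} {M μ : ℝ} (hμ : 0 < μ) (hM : 0 < M) (B : Fin (L + 1) → V n)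
    (hB0 : B 0 = 0) (hB : Sep fun j => closedBall (B j) μ)
    (hB1 : ∀ j, closedBall (B j) μ ⊆ closedBall 0 1) (c : Fin L → V n) (hc : ∀ j, ‖c j‖ ≤ M / 2) :
    ∃ (sl : List (Fin L) → ℝ) (ct : List (Fin L) → V n),
      (∀ w, sl w = μ / M * (μ / 2) ^ w.length) ∧
      (∀ (j : Fin L) w, aff (sl (j :: w)) (ct (j :: w)) * aff 2 ((-2 : ℝ) • c j) =
        aff μ (B j.succ) * aff (sl w) (ct w)) ∧
      Sep (fun w => closedBall (ct w) (sl w * M)) ∧
      (∀ w, closedBall (ct w) (sl w * M) ⊆ closedBall 0 1) ∧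
      closedBall (ct []) (sl [] * M) ⊆ closedBall (B 0) μ := by
  set sl : List (Fin L) → ℝ := fun w => μ / M * (μ / 2) ^ w.length with hsl
  set ct : List (Fin L) → V n := tree2_ct M μ B c with hct
  have slpos : ∀ w, 0 < sl w := fun w => by simp only [hsl]; positivity
  have slc : ∀ (j : Fin L) w, sl (j :: w) = μ / 2 * sl w := fun j w => by
    simp only [hsl, List.length_cons, pow_succ]; ring
  have ctc : ∀ (j : Fin L) w, ct (j :: w) = μ • (sl w • c j + ct w) + B j.succ := fun j w => rfl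
  have hroot : closedBall (ct []) (sl [] * M) ⊆ closedBall (B 0) μ := by
    have e1 : sl [] * M = μ := by
      simp only [hsl, List.length_nil, pow_zero]; field_simp
    rw [e1, hB0]
    rfl
  have hsub : ∀ (j : Fin L) w, closedBall (ct (j :: w)) (sl (j :: w) * M) ⊆
      aff μ (B j.succ) '' closedBall (ct w) (sl w * M) := fun j w => by
    rw [aff_image_closedBall hμ]
    refine closedBall_subset_closedBall' ?_
    rw [ctc, slc, dist_add_right, dist_eq_norm, smul_add, add_sub_cancel_right, norm_smul,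
      norm_smul, Real.norm_of_nonneg hμ.le, Real.norm_of_nonneg (slpos w).le]
    have h1 := mul_le_mul_of_nonneg_left (hc j) (mul_pos hμ (slpos w)).le
    nlinarith [h1]
  have him : ∀ j : Fin L, aff μ (B j.succ) '' closedBall 0 1 = closedBall (B j.succ) μ :=
    fun j => by rw [aff_image_closedBall hμ, smul_zero, zero_add, mul_one]
  have h01 : ∀ w, closedBall (ct w) (sl w * M) ⊆ closedBall 0 1 := fun w => by
    induction w with
    | nil => exact hroot.trans (hB1 0)
    | cons j w ih =>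
      exact (hsub j w).trans ((Set.image_mono ih).trans ((him j).subset.trans (hB1 _)))
  have hch : ∀ (j : Fin L) w, closedBall (ct (j :: w)) (sl (j :: w) * M) ⊆
      closedBall (B j.succ) μ := fun j w =>
    (hsub j w).trans ((Set.image_mono (h01 w)).trans (him j).subset)
  have hsep : ∀ w w' : List (Fin L), w ≠ w' →
      Disjoint (closedBall (ct w) (sl w * M)) (closedBall (ct w') (sl w' * M)) := by
    intro w
    induction w with
    | nil =>
      intro w' h
      cases w' with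
      | nil => exact absurd rfl h
      | cons j w' => exact (hB (Fin.succ_ne_zero j).symm).mono hroot (hch j w')
    | cons j w ih =>
      intro w' h
      cases w' with
      | nil => exact (hB (Fin.succ_ne_zero j)).mono (hch j w) hroot
      | cons j' w' =>
        by_cases hjj : j = j'
        · subst hjj
          exact ((Set.disjoint_image_iff (aff μ (B j.succ)).injective).2
            (ih w' fun e => h (by rw [e]))).mono (hsub j w) (hsub j w')
        · exact (hB fun e => hjj (Fin.succ_injective _ e)).mono (hch j w) (hch j' w')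
  refine ⟨sl, ct, fun w => rfl, fun j w => ?_, fun w w' h => hsep w w' h, h01, hroot⟩
  rw [aff_mul (slpos _).ne' two_ne_zero, aff_mul hμ.ne' (slpos _).ne', slc, ctc]
  congr 1
  · ring
  · module

/-- the blocks -/
theorem tree_blocks (d : Fin n) (L : ℕ) : ∃ (μ : ℝ) (B : Fin (L + 1) → V n), 0 < μ ∧ μ ≤ 1 ∧
    B 0 = 0 ∧ (Sep fun j => ball (B j) (5 * μ)) ∧ ∀ j, closedBall (B j) μ ⊆ closedBall 0 1 := by
  obtain ⟨μ, hμ, h1⟩ : ∃ μ : ℝ, 0 < μ ∧ (12 * L + 1) * μ = 1 :=
    ⟨1 / (12 * L + 1), by positivity, by field_simp⟩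
  have hL : (0 : ℝ) ≤ L := Nat.cast_nonneg L
  refine ⟨μ, fun j => sg d (12 * μ * j), hμ, by nlinarith, by simp, fun i j hij => ?_,
    fun j => ?_⟩
  · refine ball_disjoint_ball ?_
    rw [dist_eq_norm, sub_eq_add_neg, ← sg_neg, ← sg_add, norm_sg, ← sub_eq_add_neg, ← mul_sub,
      abs_mul, abs_of_pos (by positivity)]
    have h2 : (1 : ℝ) ≤ |((i : ℕ) : ℝ) - (j : ℕ)| := by
      have h3 : (1 : ℤ) ≤ |((i : ℕ) : ℤ) - (j : ℕ)| :=
        Int.one_le_abs (sub_ne_zero.2 (by exact_mod_cast fun e => hij (Fin.ext e)))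
      exact_mod_cast h3
    nlinarith
  · refine closedBall_subset_closedBall' ?_
    rw [dist_zero_right, norm_sg, abs_of_nonneg (by positivity)]
    have h2 : ((j : ℕ) : ℝ) ≤ L := by exact_mod_cast Nat.lt_succ_iff.1 j.2
    nlinarith

theorem tree2_summable (m₁ : ℕ) {B : ℝ} (hB : 0 ≤ B) :
    Summable fun n : ℕ => B ^ n * √(((1 : ℝ) / 2) ^ 2 ^ (m₁ + n)) := by
  set a : ℕ → ℝ := fun n => √(((1 : ℝ) / 2) ^ 2 ^ (m₁ + n)) with ha
  have ha0 : ∀ n, 0 ≤ a n := fun n => Real.sqrt_nonneg _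
  have hs : ∀ n, a (n + 1) = a n * a n := fun n => by
    simp only [ha]
    rw [← Real.sqrt_mul (by positivity), ← pow_add, ← add_assoc, pow_succ, mul_two]
  have ht : Filter.Tendsto a Filter.atTop (nhds 0) := by
    have h1 : Filter.Tendsto (fun n : ℕ => 2 ^ (m₁ + n)) Filter.atTop Filter.atTop :=
      Filter.tendsto_atTop_mono (fun n => by
        show n ≤ 2 ^ (m₁ + n)
        exact (Nat.le_add_left n m₁).trans Nat.lt_two_pow_self.le) Filter.tendsto_id
    have h2 := (tendsto_pow_atTop_nhds_zero_of_lt_one (r := (1 : ℝ) / 2) (by norm_num)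
      (by norm_num)).comp h1
    have h3 := (Real.continuous_sqrt.tendsto 0).comp h2
    rw [Real.sqrt_zero] at h3
    exact h3
  have ht2 : Filter.Tendsto (fun n => B * a n) Filter.atTop (nhds 0) := by
    simpa using ht.const_mul B
  refine summable_of_ratio_norm_eventually_le (r := 1 / 2) (by norm_num) ?_
  filter_upwards [ht2.eventually (ge_mem_nhds (show (0 : ℝ) < 1 / 2 by norm_num))] with n hn
  show ‖B ^ (n + 1) * a (n + 1)‖ ≤ 1 / 2 * ‖B ^ n * a n‖
  have h0 : 0 ≤ B ^ n * a n := mul_nonneg (pow_nonneg hB n) (ha0 n)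
  rw [Real.norm_of_nonneg (mul_nonneg (pow_nonneg hB _) (ha0 _)), Real.norm_of_nonneg h0, hs]
  calc B ^ (n + 1) * (a n * a n) = B * a n * (B ^ n * a n) := by ring
    _ ≤ _ := mul_le_mul_of_nonneg_right hn h0

/-- `List.equivSigmaTuple`, `summable_sigma_of_nonneg`, and comparison with a geometric series -/
theorem tree_summable (L m₁ r : ℕ) {s₀ t : ℝ} (hs : 0 < s₀) (ht : 0 < t) :
    Summable fun w : List (Fin L) =>
      √(((1 : ℝ) / 2) ^ 2 ^ (m₁ + w.length)) / (s₀ * t ^ w.length) ^ r := by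
  rw [← (List.equivSigmaTuple (α := Fin L)).symm.summable_iff]
  have he : ((fun w : List (Fin L) =>
      √(((1 : ℝ) / 2) ^ 2 ^ (m₁ + w.length)) / (s₀ * t ^ w.length) ^ r) ∘
        (List.equivSigmaTuple (α := Fin L)).symm) =
      fun p => √(((1 : ℝ) / 2) ^ 2 ^ (m₁ + p.1)) / (s₀ * t ^ p.1) ^ r := by
    ext p
    simp [List.equivSigmaTuple]
  rw [he, summable_sigma_of_nonneg fun p => by positivity]
  refine ⟨fun n => Summable.of_finite, ?_⟩
  refine ((tree2_summable m₁ (B := L / t ^ r) (by positivity)).mul_left (1 / s₀ ^ r)).congr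
    fun n => ?_
  rw [tsum_fintype]
  simp only [Finset.sum_const, Finset.card_univ, Fintype.card_fun, Fintype.card_fin, nsmul_eq_mul,
    Nat.cast_pow, div_pow, mul_pow, ← pow_mul, mul_comm r n]
  field_simp

theorem tree_tsum_small (L r : ℕ) {s₀ t δ : ℝ} (hs : 0 < s₀) (ht : 0 < t) (hδ : 0 < δ) :
    ∃ e : ℝ, 0 < e ∧ ∀ m₁ : ℕ, ((1 : ℝ) / 2) ^ 2 ^ m₁ ≤ e → ∑' w : List (Fin L),
      √(((1 : ℝ) / 2) ^ 2 ^ (m₁ + w.length)) / (s₀ * t ^ w.length) ^ r ≤ δ := by
  obtain ⟨T, hT⟩ : ∃ T : ℝ, T = ∑' w : List (Fin L),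
      √(((1 : ℝ) / 2) ^ 2 ^ (0 + w.length)) / (s₀ * t ^ w.length) ^ r := ⟨_, rfl⟩
  have hT0 : 0 ≤ T := hT ▸ tsum_nonneg fun w => by positivity
  refine ⟨(δ / (T + 1)) ^ 2 / 2, by positivity, fun m₁ hm => ?_⟩
  have key : ∀ l : ℕ, √(((1 : ℝ) / 2) ^ 2 ^ (m₁ + l)) ≤
      δ / (T + 1) * √(((1 : ℝ) / 2) ^ 2 ^ (0 + l)) := fun l => by
    rw [← Real.sqrt_sq (show 0 ≤ δ / (T + 1) by positivity), ← Real.sqrt_mul (by positivity)]
    refine Real.sqrt_le_sqrt ?_
    have h1 : 2 ^ m₁ + 2 ^ l ≤ 2 ^ (m₁ + l) + 1 := by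
      obtain ⟨a, ha⟩ := Nat.exists_eq_add_of_le (Nat.one_le_two_pow (n := m₁))
      obtain ⟨b, hb⟩ := Nat.exists_eq_add_of_le (Nat.one_le_two_pow (n := l))
      rw [pow_add, ha, hb]
      nlinarith [Nat.zero_le (a * b)]
    have h2 := pow_le_pow_of_le_one (a := (1 : ℝ) / 2) (by norm_num) (by norm_num) h1
    rw [pow_succ, pow_add ((1 : ℝ) / 2)] at h2
    rw [zero_add]
    have h3 := mul_le_mul_of_nonneg_right hm (show (0 : ℝ) ≤ (1 / 2) ^ 2 ^ l by positivity)
    linarith
  refine ((tree_summable L m₁ r hs ht).tsum_le_tsum (fun w => ?_)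
    ((tree_summable L 0 r hs ht).mul_left (δ / (T + 1)))).trans ?_
  · rw [← mul_div_assoc]
    exact div_le_div_of_nonneg_right (key _) (by positivity)
  · rw [tsum_mul_left, ← hT, div_mul_eq_mul_div, div_le_iff₀ (by positivity)]
    nlinarith

end Pool.Agent.P.MP_878f14_gt.HT
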