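import Pool.Agent.P.MP_878f14_gt.HT.Univ
import Pool.Agent.P.MP_878f14_gt.HT.Tree1
import Pool.Agent.P.MP_878f14_gt.HT.Tree2

/-! The swindle: small cycles die. -/

namespace Pool.Agent.P.MP_878f14_gt.HT

open Filter Metric

variable {n n₀ : ℕ} {A : Type*} [AddCommGroup A]

theorem sw_dp {L : ℕ} {u : List (Fin L) → Pm n} {U : Pm n} {W : Fin (L + 1) → Pm n}
    (hU : IsDP u U) (h0 : W 0 = u []) (hV : ∀ j : Fin L, IsDP (fun w => u (j :: w)) (W j.succ)) :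
    IsDP W U := by
  refine ⟨fun j x => ?_, fun x hx => hU.2 x fun w => ?_⟩
  · refine Fin.cases (fun hx => ?_) (fun j hx => ?_) j
    · rw [h0] at hx ⊢
      exact hU.1 _ x hx
    · have h1 : ¬∀ w, u (j :: w) x = x := fun h => hx ((hV j).2 x h)
      push Not at h1
      obtain ⟨w, hw⟩ := h1
      rw [hU.1 _ x hw, (hV j).1 w x hw]
  · cases w with
    | nil => rw [← h0]; exact hx 0
    | cons j w =>
      by_contra hw
      exact hw (((hV j).1 w x hw).symm.trans (hx j.succ))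

theorem tree3_cG {a c a' c' : ℝ} {b d b' d' : V n} (h : aff a b * aff c d = aff a' b' * aff c' d')
    (g : Gc n) : cG a b (cG c d g) = cG a' b' (cG c' d' g) := by
  apply Subtype.ext
  simp only [coe_cG]
  calc aff a b * (aff c d * g * (aff c d)⁻¹) * (aff a b)⁻¹
      = (aff a b * aff c d) * g * (aff a b * aff c d)⁻¹ := by group
    _ = (aff a' b' * aff c' d') * g * (aff a' b' * aff c' d')⁻¹ := by rw [h]
    _ = _ := by group

theorem tree3_nm {μ : ℝ} (h0 : 0 < μ) (h1 : μ ≤ 1) (b : V n) (r : ℕ) (g : Gc n) :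
    nm r (dp (cG μ b g : Pm n)) ≤ nm r (dp (g : Pm n)) / μ ^ r := by
  rw [nm, nm, Finset.sum_div]
  refine Finset.sum_le_sum fun j hj => ?_
  rw [coe_cG, sn_conj_aff (Gc.sm g) h0, div_eq_mul_one_div (sn j _), mul_comm (sn j _)]
  refine mul_le_mul_of_nonneg_right (div_le_div₀ zero_le_one h1 (pow_pos h0 r)
    (pow_le_pow_of_le_one h0.le h1 (Nat.lt_succ_iff.1 (Finset.mem_range.1 hj)))) (sn_nonneg _ _)

/-- The swindle in pointwise form. -/
theorem swindle (c : LC n A) {m L R : ℕ} {μ e κ e' : ℝ} (hμ : 0 < μ) (hμ1 : μ ≤ 1) (hR : 1 ≤ R)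
    (B : Fin (L + 1) → V n)
    (hsp : ∀ (u : Fin (L + 1) → Fin m → Gc n × Gc n) (X : Fin m → Gc n × Gc n),
      (∀ j k, Fix (closedBall (B j) μ) ((u j k).1 : Pm n) ∧
        Fix (closedBall (B j) μ) ((u j k).2 : Pm n)) →
      (∀ k, IsDP (fun j => ((u j k).1 : Pm n)) (X k).1 ∧
        IsDP (fun j => ((u j k).2 : Pm n)) (X k).2) →
      (∀ j, Phi (List.ofFn (u j)) = 1) → (∀ j, szT R (u j) ≤ e) →
        PhiA c.c (List.ofFn X) = ∑ j, PhiA c.c (List.ofFn (u j)))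
    (hinv : ∀ (x : Fin m → Gc n × Gc n) (l : ℝ) (a : V n), 0 < l → S1 κ x →
      Phi (List.ofFn x) = 1 → PhiA c.c (List.ofFn (cT l a x)) = PhiA c.c (List.ofFn x))
    (he : 0 ≤ e') (he1 : e' ≤ κ) (he2 : 2 * m * (e' / μ ^ R) ≤ e)
    (K : List (Fin L) → Set (V n)) (hsep : Sep K) (h01 : ∀ w, K w ⊆ closedBall 0 1)
    (hroot : K [] ⊆ closedBall (B 0) μ)
    (x : List (Fin L) → Fin m → Gc n × Gc n) (y : Fin L → List (Fin L) → Fin m → Gc n × Gc n)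
    (hx : ∀ k, Fix (K []) ((x [] k).1 : Pm n) ∧ Fix (K []) ((x [] k).2 : Pm n))
    (hy : ∀ j w k, Fix (K w) ((y j w k).1 : Pm n) ∧ Fix (K w) ((y j w k).2 : Pm n))
    (hx1 : Phi (List.ofFn (x [])) = 1) (hcyc : ∀ j w, Phi (List.ofFn (y j w)) = 1)
    (hxy : ∀ (j : Fin L) w, x (j :: w) = cT μ (B j.succ) (y j w))
    (X : Fin m → Gc n × Gc n) (Y : Fin L → Fin m → Gc n × Gc n)
    (hX : ∀ k, IsDP (fun w => ((x w k).1 : Pm n)) (X k).1 ∧
      IsDP (fun w => ((x w k).2 : Pm n)) (X k).2)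
    (hY : ∀ j k, IsDP (fun w => ((y j w k).1 : Pm n)) (Y j k).1 ∧
      IsDP (fun w => ((y j w k).2 : Pm n)) (Y j k).2)
    (sx : ∀ k, nm R (dp ((x [] k).1 : Pm n)) ≤ e' ∧ nm R (dp ((x [] k).2 : Pm n)) ≤ e')
    (sY : ∀ j k, nm R (dp ((Y j k).1 : Pm n)) ≤ e' ∧ nm R (dp ((Y j k).2 : Pm n)) ≤ e')
    (rel : PhiA c.c (List.ofFn X) = ∑ j, PhiA c.c (List.ofFn (Y j))) :
    PhiA c.c (List.ofFn (x [])) = 0 := by
  have hY01 : ∀ j k, Fix (closedBall 0 1) ((Y j k).1 : Pm n) ∧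
      Fix (closedBall 0 1) ((Y j k).2 : Pm n) := fun j k =>
    ⟨(hY j k).1.fix fun w => (hy j w k).1.mono (h01 w),
      (hY j k).2.fix fun w => (hy j w k).2.mono (h01 w)⟩
  have hY1 : ∀ j, Phi (List.ofFn (Y j)) = 1 := fun j => by
    have h1 := IsDP.phi hsep (y j) (Y j) (hy j) (hY j)
    simp only [hcyc, OneMemClass.coe_one] at h1
    exact Subtype.ext (h1.unique isDP_one)
  have fx : ∀ (b : V n) {g : Gc n}, Fix (closedBall 0 1) (g : Pm n) →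
      Fix (closedBall b μ) (cG μ b g : Pm n) := fun b g hg => by
    have := hg.conj_aff hμ b
    rwa [smul_zero, zero_add, mul_one] at this
  have hp0 : 0 < μ ^ R := pow_pos hμ R
  have e1 : e' ≤ e' / μ ^ R := le_div_self he hp0 (pow_le_one₀ hμ.le hμ1)
  have sz : ∀ (b : V n) {g : Gc n}, nm R (dp (g : Pm n)) ≤ e' →
      nm R (dp (cG μ b g : Pm n)) ≤ e' / μ ^ R := fun b g hg =>
    (tree3_nm hμ hμ1 b R g).trans (div_le_div_of_nonneg_right hg hp0.le)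
  obtain ⟨u, u0, us⟩ : ∃ u : Fin (L + 1) → Fin m → Gc n × Gc n, u 0 = x [] ∧
      ∀ j : Fin L, u j.succ = cT μ (B j.succ) (Y j) :=
    ⟨Fin.cons (x []) fun j => cT μ (B j.succ) (Y j), rfl, fun _ => rfl⟩
  have hp := hsp u X
    (fun j k => by
      refine Fin.cases ?_ (fun j => ?_) j
      · rw [u0]
        exact ⟨(hx k).1.mono hroot, (hx k).2.mono hroot⟩
      · rw [us]
        exact ⟨fx _ (hY01 j k).1, fx _ (hY01 j k).2⟩)
    (fun k => by
      refine ⟨sw_dp (hX k).1 (by rw [u0]) fun j => ?_, sw_dp (hX k).2 (by rw [u0]) fun j => ?_⟩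
      · simp only [hxy, us]
        exact (hY j k).1.conj _
      · simp only [hxy, us]
        exact (hY j k).2.conj _)
    (fun j => by
      refine Fin.cases ?_ (fun j => ?_) j
      · rw [u0, hx1]
      · rw [us, Phi_cT, hY1, map_one])
    (fun j => by
      refine Fin.cases ?_ (fun j => ?_) j
      · rw [u0]
        exact (szT_le R fun k => ⟨(sx k).1.trans e1, (sx k).2.trans e1⟩).trans he2
      · rw [us]
        exact (szT_le (x := cT μ (B j.succ) (Y j)) (M := e' / μ ^ R) R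
          fun k => ⟨sz (B j.succ) (sY j k).1, sz (B j.succ) (sY j k).2⟩).trans he2)
  rw [Fin.sum_univ_succ, rel, u0] at hp
  simp only [us] at hp
  have e2 : ∀ j : Fin L, PhiA c.c (List.ofFn (cT μ (B j.succ) (Y j))) =
      PhiA c.c (List.ofFn (Y j)) := fun j => hinv _ _ _ hμ
    (fun k => ⟨(s1_le_nm hR _).trans ((sY j k).1.trans he1),
      (s1_le_nm hR _).trans ((sY j k).2.trans he1)⟩) (hY1 j)
  simp only [e2] at hp
  exact right_eq_add.1 hp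

theorem small (hn : 2 ≤ n) (h : VSpt n n₀) (c : LC n A) : ∃ (R : ℕ) (e : ℝ), 0 < e ∧
    ∀ x : Cyc n (3 * n₀), szT R x.1 ≤ e → PhiA c.c (List.ofFn x.1) = 0 := by
  obtain ⟨L, y, a, hy, hcyc, hrel⟩ := Scale.univ c hn h (taut n (3 * n₀)) (taut_mem _)
    (Eventually.of_forall (taut_cyc _))
  obtain ⟨μ, B, hμ0, hμ1, hB0, hB, hB1⟩ := tree_blocks (⟨0, by omega⟩ : Fin n) L
  obtain ⟨R₁, e₁, he₁, hsp⟩ := split h c (3 * n₀) B hμ0 hB
  obtain ⟨κ, hκ, hinv⟩ := inv_aff c (3 * n₀)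
  have hq : (0 : ℝ) ≤ ((3 * n₀ : ℕ) : ℝ) := Nat.cast_nonneg _
  obtain ⟨e', he', he1, he2⟩ : ∃ e' : ℝ, 0 < e' ∧ e' ≤ κ ∧
      2 * ((3 * n₀ : ℕ) : ℝ) * (e' / μ ^ (R₁ + 1)) ≤ e₁ := by
    have hp : 0 < μ ^ (R₁ + 1) := pow_pos hμ0 _
    refine ⟨min κ (e₁ / (2 * ((3 * n₀ : ℕ) : ℝ) + 1) * μ ^ (R₁ + 1)), by positivity,
      min_le_left _ _, ?_⟩
    have h1 : min κ (e₁ / (2 * ((3 * n₀ : ℕ) : ℝ) + 1) * μ ^ (R₁ + 1)) / μ ^ (R₁ + 1) ≤
        e₁ / (2 * ((3 * n₀ : ℕ) : ℝ) + 1) := (div_le_iff₀ hp).2 (min_le_right _ _)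
    refine (mul_le_mul_of_nonneg_left h1 (by positivity)).trans ?_
    rw [← mul_div_assoc, div_le_iff₀ (by positivity)]
    nlinarith
  obtain ⟨M₆, hM₆⟩ := (Set.finite_range fun j => ‖a j‖).bddAbove
  have hM₆' : ∀ j, ‖a j‖ ≤ M₆ := fun j => hM₆ ⟨j, rfl⟩
  have le13 : (1 : ℕ) ≤ 3 := by norm_num
  have le17 : (1 : ℕ) ≤ 7 := by norm_num
  have b1 : ball (0 : V n) 6 ⊆ closedBall 0 (max 6 (M₆ + 1)) :=
    ball_subset_closedBall.trans (closedBall_subset_closedBall (le_max_left _ _))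
  have b2 : ∀ j, ball (a j) (1 / 2) ⊆ closedBall 0 (max 6 (M₆ + 1)) := fun j =>
    ball_subset_closedBall.trans (closedBall_subset_closedBall' (by
      rw [dist_zero_right]
      linarith [hM₆' j, le_max_right (6 : ℝ) (M₆ + 1)]))
  have h₁ := eventually_all.2 fun k => Scale.PC_spec
    (Scale.GF_mono le13 subset_rfl (taut_mem (n := n) (3 * n₀) k).1) b1 (R₁ + 1) he'
  have h₂ := eventually_all.2 fun k => Scale.PC_spec
    (Scale.GF_mono le13 subset_rfl (taut_mem (n := n) (3 * n₀) k).2) b1 (R₁ + 1) he'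
  have h₃ := eventually_all.2 fun j => eventually_all.2 fun k => Scale.PC_spec
    (Scale.GF_mono le17 subset_rfl (hy j k).1) (b2 j) (R₁ + 1) he'
  have h₄ := eventually_all.2 fun j => eventually_all.2 fun k => Scale.PC_spec
    (Scale.GF_mono le17 subset_rfl (hy j k).2) (b2 j) (R₁ + 1) he'
  obtain ⟨A₀, hA, M₅, r, δ, hδ, hAll⟩ :=
    Scale.eventually_KF.1 (hrel.and (h₁.and (h₂.and (h₃.and h₄))))
  obtain ⟨M, hM1, hM₁, hM₅, hM₆''⟩ : ∃ M : ℝ, 1 ≤ M ∧ max 6 (M₆ + 1) ≤ M ∧ M₅ ≤ M ∧ 2 * M₆ ≤ M :=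
    ⟨max 1 (max (max 6 (M₆ + 1)) (max M₅ (2 * M₆))), by simp, by simp, by simp, by simp⟩
  have hM0 : 0 < M := one_pos.trans_le hM1
  have hs0 : 0 < μ / M := by positivity
  obtain ⟨e₂, he₂, hts⟩ := tree_tsum_small L r hs0 (half_pos hμ0) hδ
  have hA' := inter_mem hA
    ((Filter.eventually_all.2 hcyc).and ((UT n (3 * n₀)).scale.eps_small he₂))
  obtain ⟨R, m₁, e, he, hnd⟩ := tree_nodes y a hy hcyc hA'
  refine ⟨max R 1, min e κ, lt_min he hκ, fun x hx => ?_⟩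
  obtain ⟨nd, hnd0, hlev, hndA, hch, hK⟩ :=
    hnd x ((szT_mono x.1 (le_max_left _ _)).trans (hx.trans (min_le_left _ _)))
  obtain ⟨sl, ct, hsl, haff, hsep, h01, hroot⟩ := tree_place hμ0 hM0 B hB0
    (fun i j hij => (hB hij).mono (closedBall_subset_ball (by linarith))
      (closedBall_subset_ball (by linarith))) hB1 a fun j => by linarith [hM₆' j]
  have hsl0 : ∀ w, 0 < sl w := fun w => by rw [hsl]; positivity
  have hsl1 : ∀ w, sl w ≤ 1 := fun w => by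
    rw [hsl]
    refine mul_le_one₀ ?_ (by positivity) (pow_le_one₀ (by positivity) (by linarith))
    rw [div_le_one hM0]
    linarith
  let C : Config n (UT n (3 * n₀)).scale := ⟨List (Fin L), nd, sl, ct⟩
  have hterm : ∀ r w, √((UT n (3 * n₀)).scale.ε (C.idx w)) / C.sl w ^ r =
      √(((1 : ℝ) / 2) ^ 2 ^ (m₁ + List.length w)) / (μ / M * (μ / 2) ^ List.length w) ^ r :=
    fun r w => by
      change √(((1 : ℝ) / 2) ^ 2 ^ (nd w).1) / sl w ^ r = _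
      rw [hlev, hsl]
  have hAdm : C.Adm := by
    refine ⟨fun w => ⟨hsl0 w, hsl1 w⟩, ⟨1, fun w => ?_⟩, hK, fun r => ?_⟩
    · exact mem_closedBall_zero_iff.1 (h01 w (mem_closedBall_self (mul_pos (hsl0 w) hM0).le))
    · exact (tree_summable L m₁ r hs0 (half_pos hμ0)).congr fun w => (hterm r w).symm
  have htot : C.tot r ≤ δ := by
    refine (tsum_congr (hterm r)).le.trans (hts m₁ ?_)
    have h1 : ((1 : ℝ) / 2) ^ 2 ^ (nd []).1 ≤ e₂ := (hndA []).2.2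
    rwa [hlev] at h1
  have hIn : C.In A₀ M r δ := ⟨hAdm, fun w => (hndA w).1, hsep, htot⟩
  obtain ⟨rel, s₁, s₂, s₃, s₄⟩ := hAll C (hIn.mono subset_rfl hM₅ le_rfl le_rfl)
  have hb := Config.bl_mono hAdm hM₁
  have hsw := swindle c hμ0 hμ1 (Nat.le_add_left 1 R₁) B
    (fun u X f1 f2 f3 f4 => hsp u X f1 f2 f3 fun j => (szT_mono _ (Nat.le_succ _)).trans (f4 j))
    hinv he'.le he1 he2 (C.bl M) hsep h01 hroot (C.plT (taut n (3 * n₀))) (fun j => C.plT (y j))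
    (fun k => ⟨((s₁ k).2.1 []).mono (hb []), ((s₂ k).2.1 []).mono (hb [])⟩)
    (fun j w k => ⟨((s₃ j k).2.1 w).mono (hb w), ((s₄ j k).2.1 w).mono (hb w)⟩)
    ((Phi_cT (sl []) (ct []) (nd []).2.1).trans (by rw [(nd []).2.2.2, map_one]))
    (fun j w => (Phi_cT (sl w) (ct w) (evT (y j) (nd w))).trans
      (by rw [(hndA w).2.1 j, map_one]))
    (fun j w => funext fun k => by
      have h1 := hch j w k
      change (cG (sl (j :: w)) (ct (j :: w)) ((nd (j :: w)).2.1 k).1,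
        cG (sl (j :: w)) (ct (j :: w)) ((nd (j :: w)).2.1 k).2) =
        (cG μ (B j.succ) (cG (sl w) (ct w) ((y j k).1 (nd w))),
          cG μ (B j.succ) (cG (sl w) (ct w) ((y j k).2 (nd w))))
      rw [h1, tree3_cG (haff j w), tree3_cG (haff j w)])
    (C.PT (taut n (3 * n₀))) (fun j => C.PT (y j))
    (fun k => ⟨(s₁ k).2.2.1, (s₂ k).2.2.1⟩) (fun j k => ⟨(s₃ j k).2.2.1, (s₄ j k).2.2.1⟩)
    (fun k => ⟨(s₁ k).2.2.2.2 [], (s₂ k).2.2.2.2 []⟩)
    (fun j k => ⟨(s₃ j k).2.2.2.1, (s₄ j k).2.2.2.1⟩) rel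
  rw [← hinv x.1 (sl []) (ct []) (hsl0 [])
    (S1_of_szT (le_max_right _ _) (hx.trans (min_le_right _ _))) x.2.2, ← hnd0]
  exact hsw

end Pool.Agent.P.MP_878f14_gt.HT
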