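import Pool.Agent.P.MP_878f14_gt.HT.Config
import Pool.Agent.P.MP_878f14_gt.HT.Base
import Pool.Agent.P.MP_878f14_gt.HT.Trans

/-! The universal relation. -/

namespace Pool.Agent.P.MP_878f14_gt.HT

open Filter Metric
open scoped commutatorElement

namespace Scale

variable {n : ℕ} {S : Scale}

section

variable {E : Type*} [Group E] (X : S.Ext n E)

/-- the short cycles of high order -/
def Ext.univ1Gen (g₀ : ℕ) : Set E :=
  {e | ∃ (c : V n) (y : List (E × E)), y.length ≤ g₀ ∧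
    (∀ p ∈ y, p.1 ∈ X.EE 7 (ball c (1 / 2)) ∧ p.2 ∈ X.EE 7 (ball c (1 / 2))) ∧
      X.q (Phi y) = 1 ∧ Phi y = e}

theorem Ext.univ1_inv {g₀ : ℕ} {e : E} (he : e ∈ X.univ1Gen g₀) : e⁻¹ ∈ X.univ1Gen g₀ := by
  obtain ⟨c, y, h1, h2, h3, rfl⟩ := he
  refine ⟨c, y.reverse.map Prod.swap, by simpa using h1, fun p hp => ?_, ?_, Phi_rev y⟩
  · obtain ⟨p', hp', rfl⟩ := List.mem_map.1 hp
    exact (h2 p' (List.mem_reverse.1 hp')).symm
  · rw [Phi_rev, map_inv, h3, inv_one]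

theorem Ext.univ1_list {g₀ : ℕ} {e : E} (he : e ∈ Subgroup.closure (X.univ1Gen g₀)) :
    ∃ l : List E, (∀ z ∈ l, z ∈ X.univ1Gen g₀) ∧ l.prod = e := by
  induction he using Subgroup.closure_induction with
  | mem g hg => exact ⟨[g], by simpa using hg, by simp⟩
  | one => exact ⟨[], by simp, rfl⟩
  | mul g g' _ _ ih ih' =>
    obtain ⟨l, hl, rfl⟩ := ih
    obtain ⟨l', hl', rfl⟩ := ih'
    refine ⟨l ++ l', fun z hz => ?_, List.prod_append⟩
    rcases List.mem_append.1 hz with h | h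
    exacts [hl z h, hl' z h]
  | inv g _ ih =>
    obtain ⟨l, hl, rfl⟩ := ih
    refine ⟨(l.map fun z => z⁻¹).reverse, fun z hz => ?_, (List.prod_inv_reverse l).symm⟩
    obtain ⟨z', hz', rfl⟩ := List.mem_map.1 (List.mem_reverse.1 hz)
    exact X.univ1_inv (hl z' hz')

theorem Ext.univ1_ker {g₀ : ℕ} : Subgroup.closure (X.univ1Gen g₀) ≤ X.q.ker := by
  rw [Subgroup.closure_le]
  rintro e ⟨c, y, -, -, h3, rfl⟩
  exact h3

theorem Ext.univ1_normal (g₀ : ℕ) : (Subgroup.closure (X.univ1Gen g₀)).Normal := by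
  refine ⟨fun e he g => ?_⟩
  have h1 : e ∈ Subgroup.center E :=
    X.cen e (X.univ1_ker he)
  rwa [Subgroup.mem_center_iff.1 h1 g, mul_inv_cancel_right]

theorem Ext.univ1_mem (hn : 2 ≤ n) {n₀ : ℕ} (h : VSpt n n₀) (x : List (E × E))
    (hx : ∀ p ∈ x, p.1 ∈ X.EE 3 (ball 0 6) ∧ p.2 ∈ X.EE 3 (ball 0 6)) (hq : X.q (Phi x) = 1) :
    Phi x ∈ Subgroup.closure (X.univ1Gen (3 * n₀)) := by
  have := X.univ1_normal (3 * n₀)
  set Z := Subgroup.closure (X.univ1Gen (3 * n₀)) with hZ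
  let X' : S.Ext n (E ⧸ Z) :=
    { q := QuotientGroup.lift Z X.q X.univ1_ker
      cen := fun e he => by
        obtain ⟨e, rfl⟩ := QuotientGroup.mk'_surjective Z e
        have h1 := X.cen e he
        rw [Subgroup.mem_center_iff] at h1 ⊢
        intro g
        obtain ⟨g, rfl⟩ := QuotientGroup.mk'_surjective Z g
        rw [← map_mul, ← map_mul, h1]
      sur := fun R v hv => by
        obtain ⟨e, he⟩ := X.sur R v hv
        exact ⟨QuotientGroup.mk' Z e, he⟩ }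
  have hq' : ∀ e, X'.q (QuotientGroup.mk' Z e) = X.q e := fun _ => rfl
  have H : X'.HH (3 * n₀) := by
    intro c y' hl hy hy1
    obtain ⟨y, rfl⟩ : ∃ y : List (E × E),
        y.map (Prod.map (QuotientGroup.mk' Z) (QuotientGroup.mk' Z)) = y' :=
      ((QuotientGroup.mk'_surjective Z).prodMap
        (QuotientGroup.mk'_surjective Z)).list_map y'
    rw [← map_Phi] at hy1 ⊢
    rw [QuotientGroup.mk'_apply, QuotientGroup.eq_one_iff]
    refine Subgroup.subset_closure ⟨c, y, by simpa using hl, fun p hp => ?_, hy1, rfl⟩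
    exact hy _ (List.mem_map_of_mem hp)
  have key := Ext.main hn h H (x.map (Prod.map (QuotientGroup.mk' Z) (QuotientGroup.mk' Z)))
    (fun p hp => by
      obtain ⟨p', hp', rfl⟩ := List.mem_map.1 hp
      exact hx p' hp')
    (by rw [← map_Phi, hq', hq])
  rwa [← map_Phi, QuotientGroup.mk'_apply, QuotientGroup.eq_one_iff] at key

/-- If the hypothesis `HH` is not known, pass to the quotient by the (central) subgroup generated
by the products `Phi y` with `y` as in `HH`, which is an `Ext` satisfying `HH`, and apply `main`.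
The generating set is stable under inversion (`Phi_rev`). -/
theorem Ext.main_rel (hn : 2 ≤ n) {n₀ : ℕ} (h : VSpt n n₀) (x : List (E × E))
    (hx : ∀ p ∈ x, p.1 ∈ X.EE 3 (ball 0 6) ∧ p.2 ∈ X.EE 3 (ball 0 6)) (hq : X.q (Phi x) = 1) :
    ∃ (L : ℕ) (y : Fin L → Fin (3 * n₀) → E × E) (c : Fin L → V n),
      (∀ j k, (y j k).1 ∈ X.EE 7 (ball (c j) (1 / 2)) ∧
        (y j k).2 ∈ X.EE 7 (ball (c j) (1 / 2))) ∧
      (∀ j, X.q (Phi (List.ofFn (y j))) = 1) ∧
      Phi x = (List.ofFn fun j => Phi (List.ofFn (y j))).prod := by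
  obtain ⟨l, hl, e⟩ := X.univ1_list (X.univ1_mem hn h x hx hq)
  have key : ∀ j : Fin l.length, ∃ (y : Fin (3 * n₀) → E × E) (c : V n),
      (∀ k, (y k).1 ∈ X.EE 7 (ball c (1 / 2)) ∧ (y k).2 ∈ X.EE 7 (ball c (1 / 2))) ∧
        X.q (Phi (List.ofFn y)) = 1 ∧ Phi (List.ofFn y) = l.get j := by
    intro j
    obtain ⟨c, y, h1, h2, h3, h4⟩ := hl _ (List.get_mem l j)
    obtain ⟨y', h5, h6⟩ := exists_tuple_of_length_le (fun p : E × E =>
      p.1 ∈ X.EE 7 (ball c (1 / 2)) ∧ p.2 ∈ X.EE 7 (ball c (1 / 2))) (1, 1)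
      ⟨one_mem _, one_mem _⟩ y h1 h2
    have h7 : Phi (List.ofFn y') = Phi y := by
      rw [h6, Phi_append, Phi_replicate_one, mul_one]
    exact ⟨y', c, h5, h7 ▸ h3, h7.trans h4⟩
  choose y c h1 h2 h3 using key
  refine ⟨l.length, y, c, h1, h2, ?_⟩
  simp only [h3, List.ofFn_get, e]

end

variable {A : Type*} [AddCommGroup A] (c : LC n A)

variable (S) in
/-- pairs of a germ and a lift of the germ of the placed products -/
noncomputable def UE : Subgroup (Germ S.F (Pm n) × CE (c.germ (S.KF n))) where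
  carrier := {z | ∃ (t : S.ι → Gc n) (R : ℝ), cF t ∈ S.GF 1 (ball 0 R) ∧ z.1 = S.gP (cF t) ∧
    c.pr (S.KF n) z.2 = ((fun C : Config n S => C.PC t : Config n S → Gc n) : Germ (S.KF n) (Gc n))}
  one_mem' := ⟨1, 0, by rw [map_one]; exact one_mem _, by rw [map_one, map_one]; rfl, by
    rw [Prod.snd_one, map_one]
    exact Germ.coe_eq.2 (Eventually.of_forall fun C => (PC_one C).symm)⟩
  mul_mem' := by
    rintro z z' ⟨t, R, ht, h1, h2⟩ ⟨t', R', ht', h1', h2'⟩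
    have e1 := GF_mono le_rfl (ball_subset_ball (le_max_left R R')) ht
    have e2 := GF_mono le_rfl (ball_subset_ball (le_max_right R R')) ht'
    refine ⟨t * t', max R R', by rw [map_mul]; exact mul_mem e1 e2, ?_, ?_⟩
    · rw [Prod.fst_mul, h1, h1', map_mul, map_mul]
    · rw [Prod.snd_mul, map_mul, h2, h2', ← Germ.coe_mul]
      exact Germ.coe_eq.2 ((PC_mul e1 e2).mono fun C hC => hC.symm)
  inv_mem' := by
    rintro z ⟨t, R, ht, h1, h2⟩
    refine ⟨t⁻¹, R, by rw [map_inv]; exact inv_mem ht, ?_, ?_⟩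
    · rw [Prod.fst_inv, h1, map_inv, map_inv]
    · rw [Prod.snd_inv, map_inv, h2, ← Germ.coe_inv]
      exact Germ.coe_eq.2 ((PC_inv ht).mono fun C hC => hC.symm)

theorem univ2_rep (z : S.UE c) {t : S.ι → Gc n} (ht : z.1.1 = S.gP (cF t)) :
    c.pr (S.KF n) z.1.2 =
      ((fun C : Config n S => C.PC t : Config n S → Gc n) : Germ (S.KF n) (Gc n)) := by
  obtain ⟨t', R, -, h1, h2⟩ := z.2
  have h4 : ∀ᶠ i in S.F, t' i = t i :=
    (gP_eq.1 (h1.symm.trans ht)).mono fun i hi => Subtype.ext hi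
  exact h2.trans (Germ.coe_eq.2 (PC_congr h4))

theorem univ2_one (z : S.UE c) (h : z.1.1 = 1) : c.pr (S.KF n) z.1.2 = 1 := by
  rw [univ2_rep c z (t := 1) (by rw [h, map_one, map_one])]
  exact Germ.coe_eq.2 (Eventually.of_forall fun C => PC_one C)

theorem univ2_Tn {ι : Type*} {F : Filter ι} {e : CE (c.germ F)} {f : ι → Gc n}
    (h : c.pr F e = (f : Germ F (Gc n))) : f ∈ Tn F := by
  obtain ⟨f', hf, h1⟩ := e.g.2
  have h2 : ∀ᶠ i in F, f' i = f i := Germ.coe_eq.1 (h1.trans h)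
  exact (mem_Tn.1 hf).congr' (h2.mono fun i hi => by simp only [hi])

/-- the projection to the second factor -/
noncomputable def univ2_snd : S.UE c →* CE (c.germ (S.KF n)) :=
  (MonoidHom.snd _ _).comp (S.UE c).subtype

theorem univ2_Phi {m : ℕ} (z : Fin m → S.UE c × S.UE c)
    (t : Fin m → (S.ι → Gc n) × (S.ι → Gc n))
    (h : ∀ k, (z k).1.1.1 = S.gP (cF (t k).1) ∧ (z k).2.1.1 = S.gP (cF (t k).2)) :
    (univ2_snd c (Phi (List.ofFn z))).a = ((fun C : Config n S =>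
      PhiA c.c (List.ofFn (C.PT t)) : Config n S → A) : Germ (S.KF n) A) := by
  have e1 := fun k => univ2_rep c (z k).1 (h k).1
  have e2 := fun k => univ2_rep c (z k).2 (h k).2
  have hT : ∀ k, (fmT (fun C : Config n S => C.PT t) k).1 ∈ Tn (S.KF n) ∧
      (fmT (fun C : Config n S => C.PT t) k).2 ∈ Tn (S.KF n) :=
    fun k => ⟨univ2_Tn c (e1 k), univ2_Tn c (e2 k)⟩
  refine Eq.trans ?_ (c.PhiL_ofFn_a hT)
  congr 1
  rw [map_Phi, PhiL]
  refine Phi_congr_of_ker (c.pr (S.KF n)) LC.pr_central ?_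
  simp only [List.map_ofFn]
  congr 1
  funext k
  exact Prod.ext ((e1 k).trans (LC.pr_sec (hT k).1).symm) ((e2 k).trans (LC.pr_sec (hT k).2).symm)

theorem univ2_q {E' : Type*} [Group E'] (X : S.Ext n E') {m : ℕ} (z : Fin m → E' × E')
    (t : Fin m → (S.ι → Gc n) × (S.ι → Gc n))
    (h : ∀ k, X.q (z k).1 = S.gP (cF (t k).1) ∧ X.q (z k).2 = S.gP (cF (t k).2)) :
    X.q (Phi (List.ofFn z)) = 1 ↔ ∀ᶠ i in S.F, Phi (List.ofFn (evT t i)) = 1 := by
  have h1 : X.q (Phi (List.ofFn z)) = S.gP (cF (Phi (List.ofFn t))) := by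
    rw [map_Phi, map_Phi, map_Phi, List.map_ofFn, List.map_ofFn, List.map_ofFn]
    congr 2
    funext k
    exact Prod.ext (h k).1 (h k).2
  rw [h1, gP_eq_one]
  simp only [cF_apply, Phi_evT, OneMemClass.coe_eq_one]

/-- the universal extension -/
theorem exists_UExt : ∃ X : S.Ext n (S.UE c), ∀ z, X.q z = z.1.1 := by
  refine ⟨⟨(MonoidHom.fst _ _).comp (S.UE c).subtype, fun z hz => ?_, fun R g hg => ?_⟩,
    fun _ => rfl⟩
  · have hz' : z.1.1 = 1 := hz
    rw [Subgroup.mem_center_iff]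
    intro w
    refine Subtype.ext (Prod.ext ?_ ?_)
    · change w.1.1 * z.1.1 = z.1.1 * w.1.1
      rw [hz', mul_one, one_mul]
    · exact Subgroup.mem_center_iff.1 (LC.pr_central _ (univ2_one c z hz')) w.1.2
  · obtain ⟨t, ht⟩ := exists_Gc hg isBounded_ball
    have h1 : cF t ∈ S.GF 1 (ball 0 R) := GF_congr hg (ht.mono fun i hi => hi.symm)
    exact ⟨⟨(S.gP (cF t), c.sec (S.KF n) fun C => C.PC t), t, R, h1, rfl, LC.pr_sec (PC_Tn h1)⟩,
      gP_eq.2 ht⟩

theorem univ2_EE {E' : Type*} [Group E'] {X : S.Ext n E'} {p : ℕ} {a : V n} {ρ : ℝ} {e : E'}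
    (h : e ∈ X.EE p (ball a ρ)) :
    ∃ t : S.ι → Gc n, cF t ∈ S.GF p (ball a ρ) ∧ X.q e = S.gP (cF t) := by
  obtain ⟨g, hg, h1⟩ := Ext.mem_EE.1 h
  obtain ⟨t, ht⟩ := exists_Gc hg isBounded_ball
  have h2 : ∀ᶠ i in S.F, g i = cF t i := ht.mono fun i hi => hi.symm
  exact ⟨t, GF_congr hg h2, h1.trans (gP_eq.2 h2)⟩

theorem univ (hn : 2 ≤ n) {n₀ : ℕ} (h : VSpt n n₀) {m : ℕ}
    (x : Fin m → (S.ι → Gc n) × (S.ι → Gc n))
    (hx : ∀ k, cF (x k).1 ∈ S.GF 3 (ball 0 6) ∧ cF (x k).2 ∈ S.GF 3 (ball 0 6))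
    (hcyc : ∀ᶠ i in S.F, Phi (List.ofFn (evT x i)) = 1) :
    ∃ (L : ℕ) (y : Fin L → Fin (3 * n₀) → (S.ι → Gc n) × (S.ι → Gc n)) (a : Fin L → V n),
      (∀ j k, cF (y j k).1 ∈ S.GF 7 (ball (a j) (1 / 2)) ∧
        cF (y j k).2 ∈ S.GF 7 (ball (a j) (1 / 2))) ∧
      (∀ j, ∀ᶠ i in S.F, Phi (List.ofFn (evT (y j) i)) = 1) ∧
      ∀ᶠ C in S.KF n, PhiA c.c (List.ofFn (C.PT x)) = ∑ j, PhiA c.c (List.ofFn (C.PT (y j))) := by
  obtain ⟨X, hX⟩ := exists_UExt (S := S) c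
  choose z hz hz' using fun k => Ext.exists_lift (X := X) isBounded_ball (hx k).1
  choose w hw hw' using fun k => Ext.exists_lift (X := X) isBounded_ball (hx k).2
  obtain ⟨L, y, a, h1, h2, h3⟩ := X.main_rel hn h (List.ofFn fun k => (z k, w k))
    (fun p hp => by
      obtain ⟨k, rfl⟩ := (List.mem_ofFn' _ _).1 hp
      exact ⟨hz k, hw k⟩)
    ((univ2_q X _ x fun k => ⟨hz' k, hw' k⟩).2 hcyc)
  choose v hv hv' using fun j k => univ2_EE (h1 j k).1
  choose v' hu' hu'' using fun j k => univ2_EE (h1 j k).2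
  refine ⟨L, fun j k => (v j k, v' j k), a, fun j k => ⟨hv j k, hu' j k⟩,
    fun j => (univ2_q X (y j) _ fun k => ⟨hv' j k, hu'' j k⟩).1 (h2 j), ?_⟩
  have h4 := congrArg (fun e => (univ2_snd c e).a) h3
  beta_reduce at h4
  rw [univ2_Phi c _ x fun k => ⟨(hX _).symm.trans (hz' k), (hX _).symm.trans (hw' k)⟩,
    map_list_prod, List.map_ofFn,
    LC.prod_a (⇑(univ2_snd c) ∘ fun j => Phi (List.ofFn (y j)))
      fun j => univ2_one c _ ((hX _).symm.trans (h2 j))] at h4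
  have h5 := map_sum (Germ.coeAddHom (S.KF n)) (fun j (C : Config n S) =>
    PhiA c.c (List.ofFn (C.PT fun k => (v j k, v' j k)))) Finset.univ
  have h6 := h4.trans ((Finset.sum_congr rfl fun j _ => univ2_Phi c (y j)
    (fun k => (v j k, v' j k))
    fun k => ⟨(hX _).symm.trans (hv' j k), (hX _).symm.trans (hu'' j k)⟩).trans h5.symm)
  filter_upwards [Germ.coe_eq.1 h6] with C hC
  exact hC.trans (Finset.sum_apply _ _ _)

end Scale

end Pool.Agent.P.MP_878f14_gt.HT
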